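import Mathlib

/-!
# The abstract calculus of hulls

`X` is the ordered set of the uniform norms, `i, j` the one sided injective hulls, `p, q` the one
sided projective hulls, `t` the transposition, `π` and `μ` the two starting points.
-/

set_option autoImplicit false

namespace OST.Abs

/-- The rules. -/
structure Sys (X : Type*) [PartialOrder X] where
  i : X → X
  j : X → X
  p : X → X
  q : X → X
  t : X → X
  i_mono : Monotone i
  j_mono : Monotone j
  p_mono : Monotone p
  q_mono : Monotone q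
  i_le : ∀ a, i a ≤ a
  j_le : ∀ a, j a ≤ a
  le_p : ∀ a, a ≤ p a
  le_q : ∀ a, a ≤ q a
  i_i : ∀ a, i (i a) = i a
  j_j : ∀ a, j (j a) = j a
  p_p : ∀ a, p (p a) = p a
  q_q : ∀ a, q (q a) = q a
  i_j : ∀ a, i (j a) = j (i a)
  p_q : ∀ a, p (q a) = q (p a)
  i_q : ∀ a, i (q a) ≤ q (i a)
  j_p : ∀ a, j (p a) ≤ p (j a)
  t_t : ∀ a, t (t a) = a
  t_i : ∀ a, t (i a) = j (t a)
  t_p : ∀ a, t (p a) = q (t a)

variable {X : Type*} [PartialOrder X]

/-- The family of `a₀`. -/
inductive Fam (S : Sys X) (a₀ : X) : X → Prop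
  | base : Fam S a₀ a₀
  | i {a : X} : Fam S a₀ a → Fam S a₀ (S.i a)
  | j {a : X} : Fam S a₀ a → Fam S a₀ (S.j a)
  | p {a : X} : Fam S a₀ a → Fam S a₀ (S.p a)
  | q {a : X} : Fam S a₀ a → Fam S a₀ (S.q a)

namespace Sys

variable (S : Sys X)

/-- two sided injective hull -/
def I (a : X) : X := S.i (S.j a)

/-- two sided projective hull -/
def P (a : X) : X := S.p (S.q a)

theorem t_j (a : X) : S.t (S.j a) = S.i (S.t a) := by
  have h := S.t_i (S.t a)
  rw [S.t_t] at h
  rw [← h, S.t_t]

theorem t_q (a : X) : S.t (S.q a) = S.p (S.t a) := by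
  have h := S.t_p (S.t a)
  rw [S.t_t] at h
  rw [← h, S.t_t]

theorem t_I (a : X) : S.t (S.I a) = S.I (S.t a) := by
  unfold I
  rw [S.t_i, S.t_j, ← S.i_j]

theorem t_P (a : X) : S.t (S.P a) = S.P (S.t a) := by
  unfold P
  rw [S.t_p, S.t_q, ← S.p_q]

theorem I_mono : Monotone S.I := S.i_mono.comp S.j_mono

theorem P_mono : Monotone S.P := S.p_mono.comp S.q_mono

theorem I_le (a : X) : S.I a ≤ a := (S.i_le _).trans (S.j_le _)

theorem le_P (a : X) : a ≤ S.P a := (S.le_q _).trans (S.le_p _)

theorem i_I (a : X) : S.i (S.I a) = S.I a := S.i_i _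

theorem j_I (a : X) : S.j (S.I a) = S.I a := by
  unfold I
  rw [← S.i_j, S.j_j]

theorem p_P (a : X) : S.p (S.P a) = S.P a := S.p_p _

theorem q_P (a : X) : S.q (S.P a) = S.P a := by
  unfold P
  rw [← S.p_q, S.q_q]

theorem I_i (a : X) : S.I (S.i a) = S.I a := by
  unfold I
  rw [← S.i_j, S.i_i]

theorem I_j (a : X) : S.I (S.j a) = S.I a := by
  unfold I
  rw [S.j_j]

theorem P_p (a : X) : S.P (S.p a) = S.P a := by
  unfold P
  rw [← S.p_q, S.p_p]

theorem P_q (a : X) : S.P (S.q a) = S.P a := by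
  unfold P
  rw [S.q_q]

theorem I_I (a : X) : S.I (S.I a) = S.I a := (S.I_i (S.j a)).trans (S.I_j a)

theorem P_P (a : X) : S.P (S.P a) = S.P a := (S.P_p (S.q a)).trans (S.P_q a)

theorem jpj (a : X) : S.j (S.p (S.j a)) = S.j (S.p a) :=
  le_antisymm (S.j_mono (S.p_mono (S.j_le a)))
    ((S.j_j (S.p a)).symm.le.trans (S.j_mono (S.j_p a)))

theorem iqi (a : X) : S.i (S.q (S.i a)) = S.i (S.q a) :=
  le_antisymm (S.i_mono (S.q_mono (S.i_le a)))
    ((S.i_i (S.q a)).symm.le.trans (S.i_mono (S.i_q a)))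

theorem IpI (a : X) : S.I (S.p (S.I a)) = S.I (S.p (S.i a)) := by
  have h : S.I a = S.j (S.i a) := S.i_j a
  rw [h]
  change S.i (S.j (S.p (S.j (S.i a)))) = _
  rw [S.jpj]
  rfl

theorem IqI (a : X) : S.I (S.q (S.I a)) = S.I (S.q (S.j a)) := by
  change S.i (S.j (S.q (S.i (S.j a)))) = S.i (S.j (S.q (S.j a)))
  rw [S.i_j, S.iqi, ← S.i_j]

theorem Ipj (a : X) : S.I (S.p (S.j a)) = S.I (S.p a) := by
  change S.i (S.j (S.p (S.j a))) = S.i (S.j (S.p a))
  rw [S.jpj]

theorem Iqi (a : X) : S.I (S.q (S.i a)) = S.I (S.q a) := by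
  change S.i (S.j (S.q (S.i a))) = S.i (S.j (S.q a))
  rw [S.i_j, S.iqi, ← S.i_j]

theorem IpIp (a : X) : S.I (S.p (S.I (S.p a))) = S.I (S.p a) := by
  refine le_antisymm ?_ ?_
  · refine (S.I_mono (S.p_mono (S.I_le _))).trans ?_
    rw [S.p_p]
  · calc S.I (S.p a) = S.I (S.I (S.p a)) := (S.I_I _).symm
      _ ≤ S.I (S.p (S.I (S.p a))) := S.I_mono (S.le_p _)

theorem IqIq (a : X) : S.I (S.q (S.I (S.q a))) = S.I (S.q a) := by
  refine le_antisymm ?_ ?_
  · refine (S.I_mono (S.q_mono (S.I_le _))).trans ?_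
    rw [S.q_q]
  · calc S.I (S.q a) = S.I (S.I (S.q a)) := (S.I_I _).symm
      _ ≤ S.I (S.q (S.I (S.q a))) := S.I_mono (S.le_q _)

theorem p_le_P (a : X) : S.p a ≤ S.P a := S.p_mono (S.le_q a)

theorem q_le_P (a : X) : S.q a ≤ S.P a := S.le_p _

theorem I_of_i {a : X} (h : S.i a = a) (hs : S.t a = a) : S.I a = a := by
  have h2 : S.j a = a := by
    have h3 := congrArg S.t h
    rw [S.t_i, hs] at h3
    exact h3
  unfold I
  rw [h2, h]

theorem I_of_j {a : X} (h : S.j a = a) (hs : S.t a = a) : S.I a = a := by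
  have h2 : S.i a = a := by
    have h3 := congrArg S.t h
    rw [S.t_j, hs] at h3
    exact h3
  unfold I
  rw [h, h2]

theorem P_of_p {a : X} (h : S.p a = a) (hs : S.t a = a) : S.P a = a := by
  have h2 : S.q a = a := by
    have h3 := congrArg S.t h
    rw [S.t_p, hs] at h3
    exact h3
  unfold P
  rw [h2, h]

theorem P_of_q {a : X} (h : S.q a = a) (hs : S.t a = a) : S.P a = a := by
  have h2 : S.p a = a := by
    have h3 := congrArg S.t h
    rw [S.t_q, hs] at h3
    exact h3
  unfold P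
  rw [h, h2]

end Sys

/-- The members of the family of the projective norm. -/
theorem proj_members (S : Sys X) {π : X} (ht : S.t π = π) (hp : S.p π = π)
    (hqi : S.q (S.i π) = π) {a : X} (ha : Fam S π a) :
    a = π ∨ a = S.i π ∨ a = S.p (S.i π) ∨ a = S.j π ∨ a = S.q (S.j π) ∨
      (S.I π ≤ a ∧ a ≤ S.P (S.I π)) := by
  have hq : S.q π = π := by
    have h3 := congrArg S.t hp
    rw [S.t_p, ht] at h3
    exact h3
  have hpj : S.p (S.j π) = π := by
    have h3 := congrArg S.t hqi
    rw [S.t_q, S.t_i, ht] at h3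
    exact h3
  induction ha with
  | base => exact Or.inl rfl
  | @i x _ ih =>
    rcases ih with h | h | h | h | h | ⟨h1, h2⟩
    · right; left
      rw [h]
    · right; left
      rw [h, S.i_i]
    · right; left
      rw [h]
      refine le_antisymm ?_ ?_
      · refine (S.i_mono (S.p_mono (S.i_le π))).trans ?_
        rw [hp]
      · calc S.i π = S.i (S.i π) := (S.i_i _).symm
          _ ≤ S.i (S.p (S.i π)) := S.i_mono (S.le_p _)
    · right; right; right; right; right
      rw [h]
      exact ⟨le_rfl, S.le_P _⟩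
    · right; right; right; right; right
      rw [h]
      exact ⟨S.i_mono (S.le_q _), (S.i_q _).trans (S.q_le_P _)⟩
    · right; right; right; right; right
      refine ⟨?_, (S.i_le _).trans h2⟩
      rw [← S.i_I]
      exact S.i_mono h1
  | @j x _ ih =>
    rcases ih with h | h | h | h | h | ⟨h1, h2⟩
    · right; right; right; left
      rw [h]
    · right; right; right; right; right
      rw [h]
      have h3 : S.j (S.i π) = S.I π := (S.i_j π).symm
      rw [h3]
      exact ⟨le_rfl, S.le_P _⟩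
    · right; right; right; right; right
      rw [h]
      have h3 : S.I π = S.j (S.i π) := S.i_j π
      refine ⟨?_, ?_⟩
      · rw [h3]
        exact S.j_mono (S.le_p _)
      · refine (S.j_p _).trans ?_
        rw [← h3]
        exact S.p_le_P _
    · right; right; right; left
      rw [h, S.j_j]
    · right; right; right; left
      rw [h]
      refine le_antisymm ?_ ?_
      · refine (S.j_mono (S.q_mono (S.j_le π))).trans ?_
        rw [hq]
      · calc S.j π = S.j (S.j π) := (S.j_j _).symm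
          _ ≤ S.j (S.q (S.j π)) := S.j_mono (S.le_q _)
    · right; right; right; right; right
      refine ⟨?_, (S.j_le _).trans h2⟩
      rw [← S.j_I]
      exact S.j_mono h1
  | @p x _ ih =>
    rcases ih with h | h | h | h | h | ⟨h1, h2⟩
    · left
      rw [h, hp]
    · right; right; left
      rw [h]
    · right; right; left
      rw [h, S.p_p]
    · left
      rw [h, hpj]
    · left
      rw [h, S.p_q, hpj, hq]
    · right; right; right; right; right
      refine ⟨h1.trans (S.le_p _), ?_⟩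
      rw [← S.p_P]
      exact S.p_mono h2
  | @q x _ ih =>
    rcases ih with h | h | h | h | h | ⟨h1, h2⟩
    · left
      rw [h, hq]
    · left
      rw [h, hqi]
    · left
      rw [h, ← S.p_q, hqi, hp]
    · right; right; right; right; left
      rw [h]
    · right; right; right; right; left
      rw [h, S.q_q]
    · right; right; right; right; right
      refine ⟨h1.trans (S.le_q _), ?_⟩
      rw [← S.q_P]
      exact S.q_mono h2

/-- **The family of the projective norm.** Hypotheses: `t π = π`, `p π = π` (projectivity) and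
`q i π = π`. -/
theorem proj_family (S : Sys X) {π : X} (ht : S.t π = π) (hp : S.p π = π)
    (hqi : S.q (S.i π) = π) {a : X} (ha : Fam S π a) (hs : S.t a = a) :
    a = π ∨ a = S.I π ∨ a = S.P (S.I π) := by
  have hq : S.q π = π := by
    have h3 := congrArg S.t hp
    rw [S.t_p, ht] at h3
    exact h3
  have hP : S.P π = π := by
    unfold Sys.P
    rw [hq, hp]
  have key1 : ∀ x, S.I π ≤ x → x ≤ S.P (S.I π) → S.I x = x → x = S.I π := by
    intro x h1 h2 h3
    refine le_antisymm ?_ h1
    rw [← h3]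
    refine (S.I_mono (h2.trans (S.P_mono (S.I_le π)))).trans ?_
    rw [hP]
  have key2 : ∀ x, S.I π ≤ x → x ≤ S.P (S.I π) → S.P x = x → x = S.P (S.I π) := by
    intro x h1 h2 h3
    refine le_antisymm h2 ?_
    rw [← h3]
    exact S.P_mono h1
  rcases proj_members S ht hp hqi ha with h | h | h | h | h | ⟨h1, h2⟩
  · exact Or.inl h
  · right; left
    have h3 : S.I a = a := S.I_of_i (by rw [h, S.i_i]) hs
    rw [← h3, h, S.I_i]
  · left
    have h3 : a = S.q (S.j π) := by
      have h4 := congrArg S.t h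
      rw [hs, S.t_p, S.t_i, ht] at h4
      exact h4
    have h5 : S.q a = a := by rw [h3, S.q_q]
    rw [← h5, h, ← S.p_q, hqi, hp]
  · right; left
    have h3 : S.I a = a := S.I_of_j (by rw [h, S.j_j]) hs
    rw [← h3, h, S.I_j]
  · left
    have hpj : S.p (S.j π) = π := by
      have h3 := congrArg S.t hqi
      rw [S.t_q, S.t_i, ht] at h3
      exact h3
    have h3 : a = S.p (S.i π) := by
      have h4 := congrArg S.t h
      rw [hs, S.t_q, S.t_j, ht] at h4
      exact h4
    have h5 : S.p a = a := by rw [h3, S.p_p]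
    rw [← h5, h, S.p_q, hpj, hq]
  · cases ha with
    | base => exact Or.inl rfl
    | i _ => exact Or.inr (Or.inl (key1 _ h1 h2 (S.I_of_i (S.i_i _) hs)))
    | j _ => exact Or.inr (Or.inl (key1 _ h1 h2 (S.I_of_j (S.j_j _) hs)))
    | p _ => exact Or.inr (Or.inr (key2 _ h1 h2 (S.P_of_p (S.p_p _) hs)))
    | q _ => exact Or.inr (Or.inr (key2 _ h1 h2 (S.P_of_q (S.q_q _) hs)))

/-- Alternating words, outer letter `A = I p` (`true`) or `B = I q` (`false`). -/
def alt (S : Sys X) (μ : X) : ℕ → Bool → X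
  | 0, _ => μ
  | n + 1, true => S.I (S.p (alt S μ n false))
  | n + 1, false => S.I (S.q (alt S μ n true))

theorem t_alt (S : Sys X) {μ : X} (ht : S.t μ = μ) (n : ℕ) (b : Bool) :
    S.t (alt S μ n b) = alt S μ n (!b) := by
  induction n generalizing b with
  | zero => cases b <;> exact ht
  | succ n ih =>
    cases b with
    | true =>
      change S.t (S.I (S.p (alt S μ n false))) = S.I (S.q (alt S μ n true))
      rw [S.t_I, S.t_p, ih]
      rfl
    | false =>
      change S.t (S.I (S.q (alt S μ n true))) = S.I (S.p (alt S μ n false))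
      rw [S.t_I, S.t_q, ih]
      rfl

theorem min_bounds (S : Sys X) {μ : X} (ht : S.t μ = μ) (hi : S.i μ = μ) {a : X}
    (ha : Fam S μ a) : μ ≤ a ∧ a ≤ S.P μ := by
  have hj : S.j μ = μ := by
    have h3 := congrArg S.t hi
    rw [S.t_i, ht] at h3
    exact h3
  induction ha with
  | base => exact ⟨le_rfl, S.le_P _⟩
  | i _ ih =>
    refine ⟨?_, (S.i_le _).trans ih.2⟩
    rw [← hi]
    exact S.i_mono ih.1
  | j _ ih =>
    refine ⟨?_, (S.j_le _).trans ih.2⟩
    rw [← hj]
    exact S.j_mono ih.1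
  | p _ ih =>
    refine ⟨ih.1.trans (S.le_p _), ?_⟩
    rw [← S.p_P]
    exact S.p_mono ih.2
  | q _ ih =>
    refine ⟨ih.1.trans (S.le_q _), ?_⟩
    rw [← S.q_P]
    exact S.q_mono ih.2

theorem min_P (S : Sys X) {μ : X} (ht : S.t μ = μ) (hi : S.i μ = μ) {a : X}
    (ha : Fam S μ a) : S.P a = S.P μ := by
  obtain ⟨h1, h2⟩ := min_bounds S ht hi ha
  refine le_antisymm ?_ (S.P_mono h1)
  refine (S.P_mono h2).trans ?_
  rw [S.P_P]

/-- The members of the chain. -/
def Tset (S : Sys X) (μ x : X) : Prop := x = S.I (S.P μ) ∨ ∃ n b, x = alt S μ n b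

theorem Tset_A (S : Sys X) {μ x : X} (h : Tset S μ x) : Tset S μ (S.I (S.p x)) := by
  rcases h with h | ⟨n, b, h⟩
  · left
    rw [h]
    refine le_antisymm ?_ ?_
    · refine (S.I_mono (S.p_mono (S.I_le _))).trans ?_
      rw [S.p_P]
    · calc S.I (S.P μ) = S.I (S.I (S.P μ)) := (S.I_I _).symm
        _ ≤ S.I (S.p (S.I (S.P μ))) := S.I_mono (S.le_p _)
  · right
    cases b with
    | false => exact ⟨n + 1, true, by rw [h]; rfl⟩
    | true =>
      cases n with
      | zero => exact ⟨1, true, by rw [h]; rfl⟩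
      | succ m =>
        refine ⟨m + 1, true, ?_⟩
        rw [h]
        exact S.IpIp _

theorem Tset_B (S : Sys X) {μ x : X} (h : Tset S μ x) : Tset S μ (S.I (S.q x)) := by
  rcases h with h | ⟨n, b, h⟩
  · left
    rw [h]
    refine le_antisymm ?_ ?_
    · refine (S.I_mono (S.q_mono (S.I_le _))).trans ?_
      rw [S.q_P]
    · calc S.I (S.P μ) = S.I (S.I (S.P μ)) := (S.I_I _).symm
        _ ≤ S.I (S.q (S.I (S.P μ))) := S.I_mono (S.le_q _)
  · right
    cases b with
    | true => exact ⟨n + 1, false, by rw [h]; rfl⟩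
    | false =>
      cases n with
      | zero => exact ⟨1, false, by rw [h]; rfl⟩
      | succ m =>
        refine ⟨m + 1, false, ?_⟩
        rw [h]
        exact S.IqIq _

theorem min_T (S : Sys X) {μ : X} (ht : S.t μ = μ) (hi : S.i μ = μ) {a : X}
    (ha : Fam S μ a) :
    Tset S μ (S.I a) ∧ Tset S μ (S.I (S.p a)) ∧ Tset S μ (S.I (S.q a)) := by
  have hj : S.j μ = μ := by
    have h3 := congrArg S.t hi
    rw [S.t_i, ht] at h3
    exact h3
  have hI : S.I μ = μ := by
    unfold Sys.I
    rw [hj, hi]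
  induction ha with
  | base => exact ⟨Or.inr ⟨0, true, hI⟩, Or.inr ⟨1, true, rfl⟩, Or.inr ⟨1, false, rfl⟩⟩
  | @i w _ ih =>
    refine ⟨?_, ?_, ?_⟩
    · rw [S.I_i]
      exact ih.1
    · rw [← S.IpI]
      exact Tset_A S ih.1
    · rw [S.Iqi]
      exact ih.2.2
  | @j w _ ih =>
    refine ⟨?_, ?_, ?_⟩
    · rw [S.I_j]
      exact ih.1
    · rw [S.Ipj]
      exact ih.2.1
    · rw [← S.IqI]
      exact Tset_B S ih.1
  | @p w hw ih =>
    refine ⟨ih.2.1, ?_, ?_⟩
    · rw [S.p_p]
      exact ih.2.1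
    · left
      rw [← S.p_q]
      change S.I (S.P w) = _
      rw [min_P S ht hi hw]
  | @q w hw ih =>
    refine ⟨ih.2.2, ?_, ?_⟩
    · left
      change S.I (S.P w) = _
      rw [min_P S ht hi hw]
    · rw [S.q_q]
      exact ih.2.2

/-- **The family of the minimal norm.** -/
theorem min_family (S : Sys X) {μ : X} (ht : S.t μ = μ) (hi : S.i μ = μ) {a : X}
    (ha : Fam S μ a) (hs : S.t a = a) :
    a = μ ∨ a = S.P μ ∨ a = S.I (S.P μ) ∨
      ∃ n, 1 ≤ n ∧ a = alt S μ n true ∧ alt S μ n true = alt S μ n false := by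
  have key1 : S.I a = a → a = μ ∨ a = S.P μ ∨ a = S.I (S.P μ) ∨
      ∃ n, 1 ≤ n ∧ a = alt S μ n true ∧ alt S μ n true = alt S μ n false := by
    intro h
    have h2 := (min_T S ht hi ha).1
    rw [h] at h2
    rcases h2 with h2 | ⟨n, b, h2⟩
    · exact Or.inr (Or.inr (Or.inl h2))
    · cases n with
      | zero => exact Or.inl (by rw [h2]; rfl)
      | succ n =>
        right; right; right
        have h3 : a = alt S μ (n + 1) (!b) := by
          rw [← t_alt S ht, ← h2, hs]
        refine ⟨n + 1, Nat.succ_le_succ (Nat.zero_le _), ?_⟩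
        cases b with
        | true => exact ⟨h2, h2.symm.trans h3⟩
        | false => exact ⟨h3, h3.symm.trans h2⟩
  have key2 : S.P a = a → a = μ ∨ a = S.P μ ∨ a = S.I (S.P μ) ∨
      ∃ n, 1 ≤ n ∧ a = alt S μ n true ∧ alt S μ n true = alt S μ n false := by
    intro h
    right; left
    rw [← min_P S ht hi ha, h]
  cases ha with
  | base => exact Or.inl rfl
  | i _ => exact key1 (S.I_of_i (S.i_i _) hs)
  | j _ => exact key1 (S.I_of_j (S.j_j _) hs)
  | p _ => exact key2 (S.P_of_p (S.p_p _) hs)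
  | q _ => exact key2 (S.P_of_q (S.q_q _) hs)

/-- If `a_n = b_n`, `n ≥ 1`, then the chain is constant from `n` on. -/
theorem alt_stable (S : Sys X) {μ : X} {n : ℕ} (hn : 1 ≤ n)
    (h : alt S μ n true = alt S μ n false) (m : ℕ) (hm : n ≤ m) (b : Bool) :
    alt S μ m b = alt S μ n true := by
  obtain ⟨k, rfl⟩ := Nat.exists_eq_add_of_le hn
  have hA : S.I (S.p (alt S μ (1 + k) true)) = alt S μ (1 + k) true := by
    rw [Nat.add_comm]
    exact S.IpIp _
  have hB : S.I (S.q (alt S μ (1 + k) true)) = alt S μ (1 + k) true := by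
    rw [h, Nat.add_comm]
    exact S.IqIq _
  induction m, hm using Nat.le_induction generalizing b with
  | base =>
    cases b with
    | true => rfl
    | false => exact h.symm
  | succ m _ ih =>
    cases b with
    | true =>
      change S.I (S.p (alt S μ m false)) = _
      rw [ih, hA]
    | false =>
      change S.I (S.q (alt S μ m true)) = _
      rw [ih, hB]

end OST.Abs
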