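import Mathlib

/-!
# Operator spaces: basic definitions (problem MP_54aa1b_an)

See `Pool/Agent/OST/BLUEPRINT.md`.
-/

set_option autoImplicit false

namespace OST

open scoped Matrix.Norms.L2Operator TensorProduct

/-- The operator `H^κ → K^ι` between Hilbert sums given by a matrix of operators `H → K`. -/
noncomputable def mop {ι κ H K : Type} [Fintype ι] [Fintype κ]
    [NormedAddCommGroup H] [InnerProductSpace ℂ H] [NormedAddCommGroup K] [InnerProductSpace ℂ K]
    (x : Matrix ι κ (H →L[ℂ] K)) : PiLp 2 (fun _ : κ => H) →L[ℂ] PiLp 2 (fun _ : ι => K) :=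
  (PiLp.continuousLinearEquiv 2 ℂ (fun _ : ι => K)).symm.toContinuousLinearMap ∘L
    ContinuousLinearMap.pi (fun i => ∑ j, x i j ∘L ContinuousLinearMap.proj j) ∘L
    (PiLp.continuousLinearEquiv 2 ℂ (fun _ : κ => H)).toContinuousLinearMap

/-- A (concrete, complete) operator space: a closed subspace `E` of `B(H)`, `H` a Hilbert space. -/
structure OS where
  /-- the Hilbert space -/
  H : Type
  [i1 : NormedAddCommGroup H]
  [i2 : InnerProductSpace ℂ H]
  [i3 : CompleteSpace H]
  /-- the space of operators -/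
  E : Submodule ℂ (H →L[ℂ] H)
  closed : IsClosed (E : Set (H →L[ℂ] H))

attribute [instance] OS.i1 OS.i2 OS.i3

instance : CoeSort OS Type := ⟨fun E => ↥E.E⟩

/-- The norm of a matrix over `E ⊆ B(H)`: the norm of the operator between Hilbert sums of copies
of `H`. -/
noncomputable def OS.nrm (E : OS) {ι κ : Type} [Fintype ι] [Fintype κ] (x : Matrix ι κ E) : ℝ :=
  ‖mop (x.map (fun e => (e : E.H →L[ℂ] E.H)))‖

/-- `a x b` for scalar matrices `a`, `b` and a matrix `x` over a vector space. -/
def amb {ι κ ι' κ' V : Type} [Fintype ι] [Fintype κ] [AddCommGroup V] [Module ℂ V]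
    (a : Matrix ι' ι ℂ) (x : Matrix ι κ V) (b : Matrix κ κ' ℂ) : Matrix ι' κ' V :=
  fun i' k' => ∑ i, ∑ k, (a i' i * b k k') • x i k

/-- `x ⊗ y` for matrices `x`, `y` over `V`, `W`. -/
def tens {ι κ ι' κ' V W : Type} [AddCommGroup V] [Module ℂ V] [AddCommGroup W] [Module ℂ W]
    (x : Matrix ι κ V) (y : Matrix ι' κ' W) : Matrix (ι × ι') (κ × κ') (V ⊗[ℂ] W) :=
  fun i k => x i.1 k.1 ⊗ₜ[ℂ] y i.2 k.2

/-- Complete contractions. -/
def IsCC {E F : OS} (T : E →ₗ[ℂ] F) : Prop :=
  ∀ (n : ℕ) (x : Matrix (Fin n) (Fin n) E), F.nrm (x.map T) ≤ E.nrm x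

/-- `B(H)` as an operator space. -/
def OS.B (H : Type) [NormedAddCommGroup H] [InnerProductSpace ℂ H] [CompleteSpace H] : OS where
  H := H
  E := ⊤
  closed := isClosed_univ

/-- The space `B(H)` containing `E`. -/
def OS.full (E : OS) : OS := OS.B E.H

/-- The inclusion `E → B(H)`. -/
def OS.incl (E : OS) : E →ₗ[ℂ] E.full := Submodule.inclusion le_top

/-- The block diagonal operator on a Hilbert sum given by a family of contractions. -/
noncomputable def blockDiag {J : Type} {K : J → Type} [∀ j, NormedAddCommGroup (K j)]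
    [∀ j, InnerProductSpace ℂ (K j)] (T : ∀ j, K j →L[ℂ] K j) (hT : ∀ j, ‖T j‖ ≤ 1) :
    lp K 2 →L[ℂ] lp K 2 :=
  LinearMap.mkContinuous
    { toFun := fun f => ⟨fun j => T j (f j), (lp.memℓp f).mono' (fun j =>
        ((T j).le_of_opNorm_le (hT j) (f j)).trans (by rw [one_mul]))⟩
      map_add' := by
        intro f g
        ext j
        change T j (f j + g j) = T j (f j) + T j (g j)
        rw [map_add]
      map_smul' := by
        intro c f
        ext j
        change T j (c • f j) = c • T j (f j)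
        rw [map_smul] } 1 (by
    intro f
    rw [one_mul]
    exact lp.norm_mono (by norm_num) (fun j =>
        ((T j).le_of_opNorm_le (hT j) (f j)).trans (by rw [one_mul])))

/-- `M_m = B(ℓ²_m)`. -/
abbrev Mat (m : ℕ) : Type := EuclideanSpace ℂ (Fin m) →L[ℂ] EuclideanSpace ℂ (Fin m)

/-- For sizes `s : G → ℕ`: the pairs of an `m` and a family of contractions `y g ∈ M_{s g}(M_m)`. -/
def UIdx {G : Type} (s : G → ℕ) : Type :=
  Σ m : ℕ, {y : ∀ g : G, Matrix (Fin (s g)) (Fin (s g)) (Mat m) // ∀ g, ‖mop (y g)‖ ≤ 1}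

theorem mop_apply {ι κ H K : Type} [Fintype ι] [Fintype κ]
    [NormedAddCommGroup H] [InnerProductSpace ℂ H] [NormedAddCommGroup K] [InnerProductSpace ℂ K]
    (x : Matrix ι κ (H →L[ℂ] K)) (v : PiLp 2 (fun _ : κ => H)) (i : ι) :
    mop x v i = ∑ j, x i j (v j) := by
  simp only [mop, ContinuousLinearMap.comp_apply]
  change (∑ j, x i j ∘L ContinuousLinearMap.proj j) (fun j => v j) = _
  rw [sum_apply]
  rfl

theorem norm_entry_le_mop {ι κ H K : Type} [Fintype ι] [Fintype κ]
    [NormedAddCommGroup H] [InnerProductSpace ℂ H] [NormedAddCommGroup K] [InnerProductSpace ℂ K]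
    (x : Matrix ι κ (H →L[ℂ] K)) (i : ι) (j : κ) : ‖x i j‖ ≤ ‖mop x‖ := by
  classical
  refine ContinuousLinearMap.opNorm_le_bound _ (ContinuousLinearMap.opNorm_nonneg _) (fun v => ?_)
  have h1 : mop x (WithLp.toLp 2 (Pi.single j v)) i = x i j v := by
    rw [mop_apply, Finset.sum_eq_single j]
    · simp
    · intro b _ hb
      simp [Pi.single_eq_of_ne hb]
    · intro h
      exact absurd (Finset.mem_univ j) h
  rw [← h1]
  refine (PiLp.norm_apply_le _ i).trans ?_
  refine ((mop x).le_opNorm _).trans ?_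
  have h2 : ‖WithLp.toLp 2 (Pi.single j v : κ → H)‖ = ‖v‖ := PiLp.norm_single 2 (fun _ : κ => H) j v
  rw [h2]

/-- The generator `t g i k` of the universal operator space. -/
noncomputable def genOp {G : Type} (s : G → ℕ) (g : G) (i k : Fin (s g)) :
    lp (fun j : UIdx s => EuclideanSpace ℂ (Fin j.1)) 2 →L[ℂ]
      lp (fun j : UIdx s => EuclideanSpace ℂ (Fin j.1)) 2 :=
  blockDiag (fun j => j.2.1 g i k) (fun j => (norm_entry_le_mop _ i k).trans (j.2.2 g))

/-- `a` is the generator `t g i k`: on the summand with index `j = (m, y)` it is `y g i k`. -/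
def IsGen {G : Type} (s : G → ℕ) (g : G) (i k : Fin (s g))
    (a : lp (fun j : UIdx s => EuclideanSpace ℂ (Fin j.1)) 2 →L[ℂ]
      lp (fun j : UIdx s => EuclideanSpace ℂ (Fin j.1)) 2) : Prop :=
  ∀ (f : lp (fun j : UIdx s => EuclideanSpace ℂ (Fin j.1)) 2) (j : UIdx s),
    a f j = j.2.1 g i k (f j)

theorem isGen_genOp {G : Type} (s : G → ℕ) (g : G) (i k : Fin (s g)) :
    IsGen s g i k (genOp s g i k) := fun _ _ => rfl

theorem isGen_iff {G : Type} (s : G → ℕ) (g : G) (i k : Fin (s g))
    (a : lp (fun j : UIdx s => EuclideanSpace ℂ (Fin j.1)) 2 →L[ℂ]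
      lp (fun j : UIdx s => EuclideanSpace ℂ (Fin j.1)) 2) :
    IsGen s g i k a ↔ a = genOp s g i k := by
  constructor
  · intro h
    refine ContinuousLinearMap.ext fun f => ?_
    refine lp.ext (funext fun j => ?_)
    exact h f j
  · rintro rfl
    exact isGen_genOp s g i k

/-- The universal operator space generated by matrices `t g ∈ M_{s g}`, `g : G`, of norm at most
`1`. It is the `ℓ¹`-direct sum of the trace classes `T_{s g} = M_{s g}^*`. -/
noncomputable def Univ {G : Type} (s : G → ℕ) : OS where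
  H := lp (fun j : UIdx s => EuclideanSpace ℂ (Fin j.1)) 2
  E := (Submodule.span ℂ {a | ∃ g i k, IsGen s g i k a}).topologicalClosure
  closed := Submodule.isClosed_topologicalClosure _

theorem setOf_isGen {G : Type} (s : G → ℕ) :
    {a | ∃ g i k, IsGen s g i k a} = {a | ∃ g i k, a = genOp s g i k} := by
  simp only [isGen_iff]

theorem genOp_mem {G : Type} (s : G → ℕ) (g : G) (i k : Fin (s g)) :
    genOp s g i k ∈ (Submodule.span ℂ {a | ∃ g i k, IsGen s g i k a}).topologicalClosure :=
  Submodule.le_topologicalClosure _ (Submodule.subset_span ⟨g, i, k, isGen_genOp s g i k⟩)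

/-- The generators of the universal operator space. -/
noncomputable def gen {G : Type} (s : G → ℕ) (g : G) :
    Matrix (Fin (s g)) (Fin (s g)) (Univ s) :=
  fun i k => ⟨genOp s g i k, genOp_mem s g i k⟩

end OST
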