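import Mathlib

/-!
# Positivity of the functional of a complete contraction `M_n → M_q`

`pair z c` is the matrix of the operator `∑ z_ij ⊗ c_ij` on `ℓ²_q ⊗ ℓ²_q` (`z_ij`, `c_ij` are the `q × q` blocks of `z`, `c`).

PROOF of `norm_sum_le`. Let `A_δ = A + δ`, `B_δ = B + δ`, `δ > 0`. The block matrix stays positive semidefinite and `A_δ`, `B_δ`
are positive definite (`A`, `B` are positive semidefinite as compressions, `n ≥ 1`). Let `R`, `S` be the positive square roots of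
`A_δ`, `B_δ`, `C = (1 ⊗ R⁻¹) x (1 ⊗ S⁻¹)`. Then `[[1, C], [Cᴴ, 1]]` is positive semidefinite, so `‖C‖ ≤ 1`. As
`x (i,r) (j,s) = ∑ r' s', R r r' * C (i,r') (j,s') * S s' s`,
`∑ z a b * x a b = ∑_{r r' s s'} R r r' * (pair z C) (r,r') (s,s') * S s' s`, which is a matrix coefficient of `pair z C`
with respect to the vectors `(conj (R r r'))`, `(S s' s)` of norms `√(tr A_δ)`, `√(tr B_δ)` (`R = Rᴴ`, `R * R = A_δ`). So the
absolute value is `≤ √(tr A_δ) √(tr B_δ) ≤ (tr A_δ + tr B_δ) / 2`. Let `δ → 0`.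
-/

set_option autoImplicit false

namespace OST

open scoped ComplexOrder Matrix Matrix.Norms.L2Operator

/-- `∑ z_ij ⊗ c_ij` -/
def pair {n q : ℕ} (z c : Matrix (Fin n × Fin q) (Fin n × Fin q) ℂ) :
    Matrix (Fin q × Fin q) (Fin q × Fin q) ℂ :=
  fun r s => ∑ i, ∑ j, z (i, r.1) (j, s.1) * c (i, r.2) (j, s.2)

/-- `1 ⊗ A` -/
def amp {n q : ℕ} (A : Matrix (Fin q) (Fin q) ℂ) : Matrix (Fin n × Fin q) (Fin n × Fin q) ℂ :=
  fun a b => if a.1 = b.1 then A a.2 b.2 else 0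

open scoped MatrixOrder in
private theorem exists_root {ι : Type} [Fintype ι] [DecidableEq ι] (A : Matrix ι ι ℂ)
    (hA : A.PosDef) : ∃ R : Matrix ι ι ℂ, A = R * Rᴴ ∧ IsUnit R := by
  have h1 : 0 ≤ A := Matrix.nonneg_iff_posSemidef.2 hA.posSemidef
  obtain ⟨S, hS⟩ := (CStarAlgebra.nonneg_iff_eq_star_mul_self).1 h1
  refine ⟨Sᴴ, by rw [Matrix.conjTranspose_conjTranspose]; exact hS, ?_⟩
  have h2 := hA.isUnit
  rw [hS] at h2
  exact isUnit_of_mul_isUnit_left h2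

open scoped MatrixOrder in
private theorem norm_le_one_of {ι : Type} [Fintype ι] [DecidableEq ι] (C : Matrix ι ι ℂ)
    (h : (Matrix.fromBlocks 1 C Cᴴ 1).PosSemidef) : ‖C‖ ≤ 1 := by
  have := Matrix.PosDef.one (n := ι) (R := ℂ)
  have inv1 : Invertible (1 : Matrix ι ι ℂ) := invertibleOne
  have h1 := (Matrix.PosDef.fromBlocks₁₁ C 1 this).1 h
  rw [inv_one, Matrix.mul_one] at h1
  have h2 : Cᴴ * C ≤ 1 := Matrix.le_iff.2 h1
  have h3 : (0 : Matrix ι ι ℂ) ≤ Cᴴ * C :=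
    Matrix.nonneg_iff_posSemidef.2 (Matrix.posSemidef_conjTranspose_mul_self C)
  have h4 : ‖Cᴴ * C‖ ≤ 1 := (CStarAlgebra.norm_le_one_iff_of_nonneg _ h3).2 h2
  rw [Matrix.l2_opNorm_conjTranspose_mul_self] at h4
  nlinarith [norm_nonneg C]

private theorem coeff_le {ι : Type} [Fintype ι] [DecidableEq ι] (P : Matrix ι ι ℂ) (hP : ‖P‖ ≤ 1)
    (u w : ι → ℂ) : 2 * ‖∑ a, ∑ b, u a * P a b * w b‖ ≤ (∑ a, ‖u a‖ ^ 2) + ∑ b, ‖w b‖ ^ 2 := by
  have h1 := Matrix.l2_opNorm_mulVec P (WithLp.toLp 2 w)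
  set Pw : EuclideanSpace ℂ ι := (EuclideanSpace.equiv ι ℂ).symm (P.mulVec w) with hPw
  have h2 : ‖Pw‖ ≤ ‖(WithLp.toLp 2 w : EuclideanSpace ℂ ι)‖ := by
    refine h1.trans ?_
    exact mul_le_of_le_one_left (norm_nonneg _) hP
  set u' : EuclideanSpace ℂ ι := WithLp.toLp 2 (fun a => star (u a)) with hu'
  have h3 : ∑ a, ∑ b, u a * P a b * w b = inner ℂ u' Pw := by
    rw [PiLp.inner_apply]
    refine Finset.sum_congr rfl fun a _ => ?_
    have e1 : Pw a = ∑ b, P a b * w b := rfl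
    have e2 : u' a = star (u a) := rfl
    rw [RCLike.inner_apply, e1, e2]
    simp only [RCLike.star_def, starRingEnd_self_apply]
    rw [Finset.sum_mul]
    refine Finset.sum_congr rfl fun b _ => ?_
    ring
  have h4 := norm_inner_le_norm (𝕜 := ℂ) u' Pw
  rw [h3]
  have h5 : ‖u'‖ ^ 2 = ∑ a, ‖u a‖ ^ 2 := by
    rw [EuclideanSpace.norm_sq_eq]
    simp [hu']
  have h6 : ‖(WithLp.toLp 2 w : EuclideanSpace ℂ ι)‖ ^ 2 = ∑ a, ‖w a‖ ^ 2 := by
    rw [EuclideanSpace.norm_sq_eq]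
  rw [← h5, ← h6]
  nlinarith [norm_nonneg Pw, norm_nonneg u',
    sq_nonneg (‖u'‖ - ‖(WithLp.toLp 2 w : EuclideanSpace ℂ ι)‖)]

private theorem amp_mul {n q : ℕ} (A B : Matrix (Fin q) (Fin q) ℂ) :
    (amp (n := n) A) * amp B = amp (A * B) := by
  ext ⟨i, r⟩ ⟨j, s⟩
  simp only [Matrix.mul_apply, amp, Fintype.sum_prod_type]
  rw [Finset.sum_eq_single i]
  · by_cases h : i = j
    · simp [h]
    · simp [h]
  · intro k _ hk
    simp [hk.symm]
  · intro h
    exact absurd (Finset.mem_univ i) h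

private theorem amp_one {n q : ℕ} : amp (n := n) (1 : Matrix (Fin q) (Fin q) ℂ) = 1 := by
  ext ⟨i, r⟩ ⟨j, s⟩
  simp only [amp, Matrix.one_apply, Prod.mk.injEq]
  by_cases h : i = j <;> by_cases h' : r = s <;> simp [h, h']

private theorem amp_conj {n q : ℕ} (A : Matrix (Fin q) (Fin q) ℂ) :
    (amp (n := n) A)ᴴ = amp Aᴴ := by
  ext ⟨i, r⟩ ⟨j, s⟩
  simp only [amp, Matrix.conjTranspose_apply]
  by_cases h : i = j
  · simp [h]
  · have h' : ¬ j = i := fun e => h e.symm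
    simp [h, h']

/-- `x (i,r) (j,s) = ∑ r' s', R r r' * C (i,r') (j,s') * S s' s` for `x = amp R * C * amp S`. -/
private theorem amp_mul_mul {n q : ℕ} (R S : Matrix (Fin q) (Fin q) ℂ)
    (C : Matrix (Fin n × Fin q) (Fin n × Fin q) ℂ) (i : Fin n) (r : Fin q) (j : Fin n)
    (s : Fin q) : (amp R * C * amp S : Matrix (Fin n × Fin q) (Fin n × Fin q) ℂ) (i, r) (j, s) =
      ∑ r', ∑ s', R r r' * C (i, r') (j, s') * S s' s := by
  have h1 : ∀ k s', (amp R * C : Matrix (Fin n × Fin q) (Fin n × Fin q) ℂ) (i, r) (k, s') =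
      ∑ r', R r r' * C (i, r') (k, s') := by
    intro k s'
    simp only [Matrix.mul_apply, amp, Fintype.sum_prod_type]
    rw [Finset.sum_eq_single i]
    · simp
    · intro l _ hl
      simp [hl.symm]
    · intro h
      exact absurd (Finset.mem_univ i) h
  rw [Matrix.mul_apply, Fintype.sum_prod_type, Finset.sum_eq_single j]
  · have h2 : ∀ s', (amp R * C : Matrix (Fin n × Fin q) (Fin n × Fin q) ℂ) (i, r) (j, s') *
        amp (n := n) S (j, s') (j, s) =
        ∑ r', R r r' * C (i, r') (j, s') * S s' s := by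
      intro s'
      rw [h1, Finset.sum_mul]
      simp [amp]
    rw [Finset.sum_congr rfl fun s' _ => h2 s']
    exact Finset.sum_comm
  · intro k _ hk
    apply Finset.sum_eq_zero
    intro s' _
    simp [amp, hk]
  · intro h
    exact absurd (Finset.mem_univ j) h

private theorem trace_mul_conj {q : ℕ} (R : Matrix (Fin q) (Fin q) ℂ) :
    (Matrix.trace (R * Rᴴ)).re = ∑ a : Fin q × Fin q, ‖R a.1 a.2‖ ^ 2 := by
  rw [Fintype.sum_prod_type]
  simp only [Matrix.trace, Matrix.diag_apply, Matrix.mul_apply, Matrix.conjTranspose_apply,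
    Complex.re_sum]
  refine Finset.sum_congr rfl fun r _ => Finset.sum_congr rfl fun s _ => ?_
  rw [RCLike.star_def, Complex.mul_conj, Complex.ofReal_re, Complex.normSq_eq_norm_sq]

private theorem core {n q : ℕ} (z : Matrix (Fin n × Fin q) (Fin n × Fin q) ℂ)
    (hz : ∀ c : Matrix (Fin n × Fin q) (Fin n × Fin q) ℂ, ‖c‖ ≤ 1 → ‖pair z c‖ ≤ 1)
    (A B : Matrix (Fin q) (Fin q) ℂ) (x : Matrix (Fin n × Fin q) (Fin n × Fin q) ℂ)
    (hA : A.PosDef) (hB : B.PosDef)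
    (h : (Matrix.fromBlocks (amp A) x xᴴ (amp B)).PosSemidef) :
    2 * ‖∑ a, ∑ b, z a b * x a b‖ ≤ (Matrix.trace A).re + (Matrix.trace B).re := by
  obtain ⟨R, hR, uR⟩ := exists_root A hA
  obtain ⟨S₀, hS₀, uS₀⟩ := exists_root B hB
  obtain ⟨S, hS⟩ : ∃ S, S = S₀ᴴ := ⟨_, rfl⟩
  have hS1 : S₀ = Sᴴ := by rw [hS, Matrix.conjTranspose_conjTranspose]
  have hBS : B = Sᴴ * S := by rw [hS₀, hS1, Matrix.conjTranspose_conjTranspose]
  have uS : IsUnit S := by
    rw [hS, ← Matrix.star_eq_conjTranspose]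
    exact uS₀.star
  have dR : IsUnit R.det := (Matrix.isUnit_iff_isUnit_det R).1 uR
  have dS : IsUnit S.det := (Matrix.isUnit_iff_isUnit_det S).1 uS
  set C := amp R⁻¹ * x * amp S⁻¹ with hC
  have hx : x = amp R * C * amp S := by
    have e1 : amp R * (amp R⁻¹ * x * amp S⁻¹) * amp S =
        (amp R * amp R⁻¹) * x * (amp S⁻¹ * amp S) := by
      simp only [Matrix.mul_assoc]
    rw [hC, e1, amp_mul, amp_mul, Matrix.mul_nonsing_inv R dR, Matrix.nonsing_inv_mul S dS,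
      amp_one, Matrix.one_mul, Matrix.mul_one]
  have hCn : ‖C‖ ≤ 1 := by
    apply norm_le_one_of
    have h1 := h.mul_mul_conjTranspose_same
      (Matrix.fromBlocks (amp (n := n) R⁻¹) 0 0 (amp (n := n) (S⁻¹)ᴴ))
    have e : Matrix.fromBlocks (amp (n := n) R⁻¹) 0 0 (amp (n := n) (S⁻¹)ᴴ) *
        Matrix.fromBlocks (amp A) x xᴴ (amp B) *
        (Matrix.fromBlocks (amp (n := n) R⁻¹) 0 0 (amp (n := n) (S⁻¹)ᴴ))ᴴ =
        Matrix.fromBlocks 1 C Cᴴ 1 := by
      rw [Matrix.fromBlocks_conjTranspose, Matrix.fromBlocks_multiply, Matrix.fromBlocks_multiply]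
      simp only [Matrix.zero_mul, Matrix.mul_zero, add_zero, zero_add,
        Matrix.conjTranspose_zero, amp_conj, Matrix.conjTranspose_conjTranspose]
      have e1 : amp (n := n) R⁻¹ * amp A * amp (R⁻¹)ᴴ = 1 := by
        rw [amp_mul, amp_mul, hR, ← Matrix.mul_assoc R⁻¹, Matrix.nonsing_inv_mul R dR,
          Matrix.one_mul, ← Matrix.conjTranspose_mul, Matrix.nonsing_inv_mul R dR,
          Matrix.conjTranspose_one, amp_one]
      have e2 : amp (n := n) (S⁻¹)ᴴ * amp B * amp S⁻¹ = 1 := by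
        rw [amp_mul, amp_mul, hBS, ← Matrix.mul_assoc (S⁻¹)ᴴ, ← Matrix.conjTranspose_mul,
          Matrix.mul_nonsing_inv S dS, Matrix.conjTranspose_one, Matrix.one_mul,
          Matrix.mul_nonsing_inv S dS, amp_one]
      have e3 : amp (n := n) (S⁻¹)ᴴ * xᴴ * amp (R⁻¹)ᴴ = Cᴴ := by
        rw [hC, Matrix.conjTranspose_mul, Matrix.conjTranspose_mul, amp_conj, amp_conj,
          Matrix.mul_assoc]
      rw [e1, e2, e3]
    rw [e] at h1
    exact h1
  have hP := hz C hCn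
  have h2 := coeff_le (pair z C) hP (fun a => R a.1 a.2) (fun b => S b.2 b.1)
  have e4 : ∑ a, ∑ b, z a b * x a b =
      ∑ a : Fin q × Fin q, ∑ b : Fin q × Fin q, R a.1 a.2 * pair z C a b * S b.2 b.1 := by
    rw [hx]
    simp only [Fintype.sum_prod_type, amp_mul_mul, pair, Finset.mul_sum, Finset.sum_mul]
    -- LHS: ∑ i, ∑ r, ∑ j, ∑ s, ∑ r', ∑ s', …   RHS: ∑ r, ∑ r', ∑ s, ∑ s', ∑ i, ∑ j, …
    have L : ∀ i r, (∑ j, ∑ s, ∑ r', ∑ s', z (i, r) (j, s) * (R r r' * C (i, r') (j, s') * S s' s))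
        = ∑ r', ∑ s, ∑ s', ∑ j, z (i, r) (j, s) * (R r r' * C (i, r') (j, s') * S s' s) := by
      intro i r
      calc (∑ j, ∑ s, ∑ r', ∑ s', z (i, r) (j, s) * (R r r' * C (i, r') (j, s') * S s' s))
          = ∑ s, ∑ j, ∑ r', ∑ s', z (i, r) (j, s) * (R r r' * C (i, r') (j, s') * S s' s) :=
            Finset.sum_comm
        _ = ∑ s, ∑ r', ∑ j, ∑ s', z (i, r) (j, s) * (R r r' * C (i, r') (j, s') * S s' s) :=
            Finset.sum_congr rfl fun s _ => Finset.sum_comm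
        _ = ∑ r', ∑ s, ∑ j, ∑ s', z (i, r) (j, s) * (R r r' * C (i, r') (j, s') * S s' s) :=
            Finset.sum_comm
        _ = ∑ r', ∑ s, ∑ s', ∑ j, z (i, r) (j, s) * (R r r' * C (i, r') (j, s') * S s' s) :=
            Finset.sum_congr rfl fun r' _ => Finset.sum_congr rfl fun s _ => Finset.sum_comm
    calc (∑ i, ∑ r, ∑ j, ∑ s, ∑ r', ∑ s', z (i, r) (j, s) * (R r r' * C (i, r') (j, s') * S s' s))
        = ∑ i, ∑ r, ∑ r', ∑ s, ∑ s', ∑ j, z (i, r) (j, s) * (R r r' * C (i, r') (j, s') * S s' s) :=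
          Finset.sum_congr rfl fun i _ => Finset.sum_congr rfl fun r _ => L i r
      _ = ∑ r, ∑ i, ∑ r', ∑ s, ∑ s', ∑ j, z (i, r) (j, s) * (R r r' * C (i, r') (j, s') * S s' s) :=
          Finset.sum_comm
      _ = ∑ r, ∑ r', ∑ i, ∑ s, ∑ s', ∑ j, z (i, r) (j, s) * (R r r' * C (i, r') (j, s') * S s' s) :=
          Finset.sum_congr rfl fun r _ => Finset.sum_comm
      _ = ∑ r, ∑ r', ∑ s, ∑ i, ∑ s', ∑ j, z (i, r) (j, s) * (R r r' * C (i, r') (j, s') * S s' s) :=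
          Finset.sum_congr rfl fun r _ => Finset.sum_congr rfl fun r' _ => Finset.sum_comm
      _ = ∑ r, ∑ r', ∑ s, ∑ s', ∑ i, ∑ j, z (i, r) (j, s) * (R r r' * C (i, r') (j, s') * S s' s) :=
          Finset.sum_congr rfl fun r _ => Finset.sum_congr rfl fun r' _ =>
            Finset.sum_congr rfl fun s _ => Finset.sum_comm
      _ = _ := by
          refine Finset.sum_congr rfl fun r _ => Finset.sum_congr rfl fun r' _ =>
            Finset.sum_congr rfl fun s _ => Finset.sum_congr rfl fun s' _ =>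
            Finset.sum_congr rfl fun i _ => Finset.sum_congr rfl fun j _ => ?_
          ring
  rw [e4, hR, hBS, trace_mul_conj]
  have e5 : (Matrix.trace (Sᴴ * S)).re = ∑ b : Fin q × Fin q, ‖S b.2 b.1‖ ^ 2 := by
    have := trace_mul_conj (Sᴴ)
    rw [Matrix.conjTranspose_conjTranspose] at this
    rw [this]
    refine Finset.sum_congr rfl fun b _ => ?_
    rw [Matrix.conjTranspose_apply, norm_star]
  rw [e5]
  exact h2

theorem norm_sum_le {n q : ℕ} (hn : 0 < n) (z : Matrix (Fin n × Fin q) (Fin n × Fin q) ℂ)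
    (hz : ∀ c : Matrix (Fin n × Fin q) (Fin n × Fin q) ℂ, ‖c‖ ≤ 1 → ‖pair z c‖ ≤ 1)
    (A B : Matrix (Fin q) (Fin q) ℂ) (x : Matrix (Fin n × Fin q) (Fin n × Fin q) ℂ)
    (h : (Matrix.fromBlocks (amp A) x xᴴ (amp B)).PosSemidef) :
    2 * ‖∑ a, ∑ b, z a b * x a b‖ ≤ (Matrix.trace A).re + (Matrix.trace B).re := by
  have hA : A.PosSemidef := by
    have h1 := h.submatrix (fun r : Fin q => Sum.inl ((⟨0, hn⟩ : Fin n), r))
    have e : (Matrix.fromBlocks (amp A) x xᴴ (amp B)).submatrix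
        (fun r : Fin q => Sum.inl ((⟨0, hn⟩ : Fin n), r))
        (fun r : Fin q => Sum.inl ((⟨0, hn⟩ : Fin n), r)) = A := by
      ext r s
      simp [amp]
    rwa [e] at h1
  have hB : B.PosSemidef := by
    have h1 := h.submatrix (fun r : Fin q => Sum.inr ((⟨0, hn⟩ : Fin n), r))
    have e : (Matrix.fromBlocks (amp A) x xᴴ (amp B)).submatrix
        (fun r : Fin q => Sum.inr ((⟨0, hn⟩ : Fin n), r))
        (fun r : Fin q => Sum.inr ((⟨0, hn⟩ : Fin n), r)) = B := by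
      ext r s
      simp [amp]
    rwa [e] at h1
  have key : ∀ δ : ℝ, 0 < δ → 2 * ‖∑ a, ∑ b, z a b * x a b‖ ≤
      (Matrix.trace A).re + (Matrix.trace B).re + δ * (2 * q) := by
    intro δ hδ
    have hδ' : (0 : ℂ) < (δ : ℂ) := by exact_mod_cast hδ
    have d1 : ((δ : ℂ) • (1 : Matrix (Fin q) (Fin q) ℂ)).PosDef := Matrix.PosDef.one.smul hδ'
    have hAd : (A + (δ : ℂ) • 1).PosDef := Matrix.PosDef.posSemidef_add hA d1
    have hBd : (B + (δ : ℂ) • 1).PosDef := Matrix.PosDef.posSemidef_add hB d1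
    have e1 : ∀ D : Matrix (Fin q) (Fin q) ℂ, amp (n := n) (D + (δ : ℂ) • 1) =
        amp D + (δ : ℂ) • 1 := by
      intro D
      rw [← amp_one (n := n) (q := q)]
      ext ⟨i, r⟩ ⟨j, s⟩
      simp only [amp, Matrix.add_apply, Matrix.smul_apply]
      by_cases h' : i = j <;> simp [h']
    have hb : (Matrix.fromBlocks (amp (A + (δ : ℂ) • 1)) x xᴴ (amp (B + (δ : ℂ) • 1))).PosSemidef := by
      rw [e1, e1]
      have e2 : Matrix.fromBlocks (amp (n := n) A + (δ : ℂ) • 1) x xᴴ (amp B + (δ : ℂ) • 1) =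
          Matrix.fromBlocks (amp A) x xᴴ (amp B) +
            (δ : ℂ) • (1 : Matrix ((Fin n × Fin q) ⊕ (Fin n × Fin q)) _ ℂ) := by
        rw [← Matrix.fromBlocks_one, Matrix.fromBlocks_smul, Matrix.fromBlocks_add]
        simp
      rw [e2]
      exact h.add (Matrix.PosSemidef.one.smul hδ'.le)
    have h3 := core z hz _ _ x hAd hBd hb
    have e3 : ∀ D : Matrix (Fin q) (Fin q) ℂ, (Matrix.trace (D + (δ : ℂ) • 1)).re =
        (Matrix.trace D).re + δ * q := by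
      intro D
      rw [Matrix.trace_add, Matrix.trace_smul, Matrix.trace_one]
      simp
    rw [e3, e3] at h3
    linarith
  by_contra hcon
  push Not at hcon
  set ε := 2 * ‖∑ a, ∑ b, z a b * x a b‖ - ((Matrix.trace A).re + (Matrix.trace B).re) with hε
  have hε0 : 0 < ε := by rw [hε]; linarith
  have h4 := key (ε / (2 * q + 1) / 2) (by positivity)
  have h5 : ε / (2 * q + 1) / 2 * (2 * q) < ε := by
    have h6 : (0 : ℝ) < 2 * q + 1 := by positivity
    have h7 : ε / (2 * q + 1) * (2 * q + 1) = ε := div_mul_cancel₀ _ h6.ne'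
    have h8 : 0 < ε / (2 * q + 1) := by positivity
    have h9 : (0 : ℝ) ≤ q := by positivity
    nlinarith
  linarith

end OST
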