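import Pool.Agent.OST.PsdExt
import Pool.Agent.OST.PairPos

/-!
# Factorization of complete contractions `M_n → M_q` (Haagerup, Paulsen, Wittstock)

PROOF. `n = 0`: take `ν = Empty`. Let `n > 0`, `ι = (Fin n × Fin q) ⊕ (Fin n × Fin q)`, `p` the real subspace of all
`fromBlocks (amp A) x y (amp B)` and `f X = (1 / n) * (trace X).re + (∑ a b, z a b * X (inl a) (inr b)).re +
(∑ a b, z a b * conj (X (inr b) (inl a))).re`. On `p`: `f X = (trace A).re + (trace B).re + (∑ z a b * (x + yᴴ) a b).re`. If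
`X + Xᴴ` is positive semidefinite, it is `fromBlocks (amp (A + Aᴴ)) (x + yᴴ) (x + yᴴ)ᴴ (amp (B + Bᴴ))` and
`norm_sum_le` gives `f X ≥ 0`. Let `Γ` be as in `exists_psd_extension`. Testing with `X ∈ p`:
`∑ i, Γ (inl (i,r)) (inl (i,s)) = if r = s then 1 else 0`, the same for `inr`, and `Γ (inl a) (inr b) = z a b`.
`Γ = Wᴴ * W` (`Matrix.posSemidef_iff_eq_conjTranspose_mul_self`), `W : Matrix ι ι ℂ`; put `ν = ι`,
`a r (i, x) = conj (W x (inl (i, r)))`, `b (j, x) s = W x (inr (j, s))`. Then `a * aᴴ = 1` (or its transpose/conjugate) and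
`bᴴ * b = 1`, so the norms are `≤ 1` (`Matrix.l2_opNorm_conjTranspose_mul_self`).
-/

set_option autoImplicit false

namespace OST

open scoped ComplexOrder Matrix Matrix.Norms.L2Operator

private theorem ampF_add {n q : ℕ} (A B : Matrix (Fin q) (Fin q) ℂ) :
    amp (n := n) (A + B) = amp A + amp B := by
  ext ⟨i, r⟩ ⟨j, s⟩
  simp only [amp, Matrix.add_apply]
  by_cases h : i = j <;> simp [h]

private theorem ampF_smul {n q : ℕ} (c : ℝ) (A : Matrix (Fin q) (Fin q) ℂ) :
    amp (n := n) (c • A) = c • amp A := by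
  ext ⟨i, r⟩ ⟨j, s⟩
  simp only [amp, Matrix.smul_apply]
  by_cases h : i = j <;> simp [h]

private theorem ampF_one {n q : ℕ} : amp (n := n) (1 : Matrix (Fin q) (Fin q) ℂ) = 1 := by
  ext ⟨i, r⟩ ⟨j, s⟩
  simp only [amp, Matrix.one_apply, Prod.mk.injEq]
  by_cases h : i = j <;> by_cases h' : r = s <;> simp [h, h']

private theorem ampF_zero {n q : ℕ} : amp (n := n) (0 : Matrix (Fin q) (Fin q) ℂ) = 0 := by
  ext ⟨i, r⟩ ⟨j, s⟩
  simp [amp]

private theorem ampF_conj {n q : ℕ} (A : Matrix (Fin q) (Fin q) ℂ) :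
    (amp (n := n) A)ᴴ = amp Aᴴ := by
  ext ⟨i, r⟩ ⟨j, s⟩
  simp only [amp, Matrix.conjTranspose_apply]
  by_cases h : i = j
  · simp [h]
  · have h' : ¬ j = i := fun e => h e.symm
    simp [h, h']

private theorem traceF_amp {n q : ℕ} (A : Matrix (Fin q) (Fin q) ℂ) :
    Matrix.trace (amp (n := n) A) = n * Matrix.trace A := by
  simp [Matrix.trace, amp, Fintype.sum_prod_type]

/-- the index set -/
private abbrev II (n q : ℕ) : Type := (Fin n × Fin q) ⊕ (Fin n × Fin q)

/-- the space of the block matrices -/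
private def pF (n q : ℕ) : Submodule ℝ (Matrix (II n q) (II n q) ℂ) where
  carrier := {X | ∃ (A B : Matrix (Fin q) (Fin q) ℂ)
    (x y : Matrix (Fin n × Fin q) (Fin n × Fin q) ℂ), X = Matrix.fromBlocks (amp A) x y (amp B)}
  add_mem' := by
    rintro _ _ ⟨A, B, x, y, rfl⟩ ⟨A', B', x', y', rfl⟩
    exact ⟨A + A', B + B', x + x', y + y', by rw [Matrix.fromBlocks_add, ampF_add, ampF_add]⟩
  zero_mem' := ⟨0, 0, 0, 0, by rw [ampF_zero, Matrix.fromBlocks_zero]⟩
  smul_mem' := by
    rintro c _ ⟨A, B, x, y, rfl⟩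
    exact ⟨c • A, c • B, c • x, c • y, by rw [Matrix.fromBlocks_smul, ampF_smul, ampF_smul]⟩

/-- the functional -/
private noncomputable def fF {n q : ℕ} (z : Matrix (Fin n × Fin q) (Fin n × Fin q) ℂ) :
    Matrix (II n q) (II n q) ℂ →ₗ[ℝ] ℝ where
  toFun X := (1 / (n : ℝ)) * (Matrix.trace X).re +
    (∑ a, ∑ b, z a b * X (Sum.inl a) (Sum.inr b)).re +
    (∑ a, ∑ b, z a b * star (X (Sum.inr b) (Sum.inl a))).re
  map_add' X Y := by
    simp only [Matrix.add_apply, Matrix.trace_add, mul_add, star_add, Finset.sum_add_distrib,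
      Complex.add_re]
    ring
  map_smul' c X := by
    have e1 : ∑ a, ∑ b, z a b * (c • X) (Sum.inl a) (Sum.inr b) =
        (c : ℂ) * ∑ a, ∑ b, z a b * X (Sum.inl a) (Sum.inr b) := by
      simp only [Matrix.smul_apply, Complex.real_smul, Finset.mul_sum]
      refine Finset.sum_congr rfl fun a _ => Finset.sum_congr rfl fun b _ => ?_
      ring
    have e2 : ∑ a, ∑ b, z a b * star ((c • X) (Sum.inr b) (Sum.inl a)) =
        (c : ℂ) * ∑ a, ∑ b, z a b * star (X (Sum.inr b) (Sum.inl a)) := by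
      simp only [Matrix.smul_apply, Complex.real_smul, Finset.mul_sum, RCLike.star_def, map_mul,
        Complex.conj_ofReal]
      refine Finset.sum_congr rfl fun a _ => Finset.sum_congr rfl fun b _ => ?_
      ring
    have e3 : (Matrix.trace (c • X)) = (c : ℂ) * Matrix.trace X := by
      rw [Matrix.trace_smul, Complex.real_smul]
    rw [e1, e2, e3, Complex.re_ofReal_mul, Complex.re_ofReal_mul, Complex.re_ofReal_mul]
    simp only [RingHom.id_apply, smul_eq_mul]
    ring

private theorem fF_blocks {n q : ℕ} (hn : 0 < n) (z : Matrix (Fin n × Fin q) (Fin n × Fin q) ℂ)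
    (A B : Matrix (Fin q) (Fin q) ℂ) (x y : Matrix (Fin n × Fin q) (Fin n × Fin q) ℂ) :
    fF z (Matrix.fromBlocks (amp A) x y (amp B)) = (Matrix.trace A).re + (Matrix.trace B).re +
      (∑ a, ∑ b, z a b * (x + yᴴ) a b).re := by
  have hn' : (n : ℝ) ≠ 0 := by exact_mod_cast hn.ne'
  change (1 / (n : ℝ)) * (Matrix.trace (Matrix.fromBlocks (amp A) x y (amp B))).re + _ + _ = _
  have h1 : Matrix.trace (Matrix.fromBlocks (amp (n := n) A) x y (amp B)) =
      n * (Matrix.trace A + Matrix.trace B) := by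
    have h0 : Matrix.trace (Matrix.fromBlocks (amp (n := n) A) x y (amp B)) =
        Matrix.trace (amp (n := n) A) + Matrix.trace (amp (n := n) B) := by
      simp only [Matrix.trace, Matrix.diag_apply, Fintype.sum_sum_type,
        Matrix.fromBlocks_apply₁₁, Matrix.fromBlocks_apply₂₂]
    rw [h0, traceF_amp, traceF_amp]
    ring
  have h2 : ((n : ℂ) * (Matrix.trace A + Matrix.trace B)).re =
      n * ((Matrix.trace A).re + (Matrix.trace B).re) := by
    have : ((n : ℂ)) = ((n : ℝ) : ℂ) := by push_cast; rfl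
    rw [this, Complex.re_ofReal_mul, Complex.add_re]
  rw [h1, h2]
  simp only [Matrix.fromBlocks_apply₁₂, Matrix.fromBlocks_apply₂₁, Matrix.add_apply,
    Matrix.conjTranspose_apply, mul_add, Finset.sum_add_distrib, Complex.add_re]
  field_simp
  ring

/-- testing matrices -/
private theorem testF {α β : Type} [Fintype α] [Fintype β] [DecidableEq α] [DecidableEq β]
    (g h : α → β → ℂ)
    (H : ∀ x : Matrix α β ℂ, (∑ a, ∑ b, g a b * x a b).re = (∑ a, ∑ b, h a b * x a b).re)
    (a : α) (b : β) : g a b = h a b := by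
  have key : ∀ (k : α → β → ℂ) (c : ℂ), ∑ a', ∑ b', k a' b' * (Matrix.single a b c) a' b' =
      k a b * c := by
    intro k c
    rw [Finset.sum_eq_single a, Finset.sum_eq_single b]
    · simp
    · intro b' _ hb
      simp [Matrix.single_apply, hb.symm]
    · intro h; exact absurd (Finset.mem_univ _) h
    · intro a' _ ha
      apply Finset.sum_eq_zero
      intro b' _
      simp [Matrix.single_apply, ha.symm]
    · intro h; exact absurd (Finset.mem_univ _) h
  have h1 := H (Matrix.single a b 1)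
  have h2 := H (Matrix.single a b Complex.I)
  rw [key, key] at h1 h2
  apply Complex.ext
  · simpa using h1
  · simpa using h2

private theorem normF_one {ι : Type} [Fintype ι] [DecidableEq ι] :
    ‖(1 : Matrix ι ι ℂ)‖ ≤ 1 := by
  rw [← Matrix.diagonal_one]
  have h := Matrix.l2_opNorm_diagonal (𝕜 := ℂ) (fun _ : ι => (1 : ℂ))
  rw [h]
  refine (pi_norm_le_iff_of_nonneg zero_le_one).2 fun i => ?_
  simp

open scoped MatrixOrder in
private theorem gramF {ι : Type} [Fintype ι] [DecidableEq ι] (Γ : Matrix ι ι ℂ)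
    (h : Γ.PosSemidef) : ∃ W : Matrix ι ι ℂ, Γ = Wᴴ * W := by
  have h1 : 0 ≤ Γ := Matrix.nonneg_iff_posSemidef.2 h
  obtain ⟨S, hS⟩ := (CStarAlgebra.nonneg_iff_eq_star_mul_self).1 h1
  exact ⟨S, hS⟩

theorem exists_fact {n q : ℕ} (z : Matrix (Fin n × Fin q) (Fin n × Fin q) ℂ)
    (hz : ∀ c : Matrix (Fin n × Fin q) (Fin n × Fin q) ℂ, ‖c‖ ≤ 1 → ‖pair z c‖ ≤ 1) :
    ∃ (N : ℕ) (a : Matrix (Fin q) (Fin n × Fin N) ℂ) (b : Matrix (Fin n × Fin N) (Fin q) ℂ),
      ‖a‖ ≤ 1 ∧ ‖b‖ ≤ 1 ∧ ∀ i r j s, z (i, r) (j, s) = ∑ x, a r (i, x) * b (j, x) s := by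
  rcases Nat.eq_zero_or_pos n with rfl | hn
  · exact ⟨0, 0, 0, by simp, by simp, fun i => i.elim0⟩
  obtain ⟨Γ, hΓ, hf⟩ := exists_psd_extension (pF n q) (by
      refine ⟨1, 1, 0, 0, ?_⟩
      rw [ampF_one, Matrix.fromBlocks_one]) (fF z) (by
      rintro X ⟨A, B, x, y, rfl⟩ hX
      have e : Matrix.fromBlocks (amp (n := n) A) x y (amp B) +
          (Matrix.fromBlocks (amp (n := n) A) x y (amp B))ᴴ =
          Matrix.fromBlocks (amp (A + Aᴴ)) (x + yᴴ) (x + yᴴ)ᴴ (amp (B + Bᴴ)) := by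
        rw [Matrix.fromBlocks_conjTranspose, Matrix.fromBlocks_add, ampF_conj, ampF_conj,
          ampF_add, ampF_add, Matrix.conjTranspose_add, Matrix.conjTranspose_conjTranspose,
          add_comm y]
      rw [e] at hX
      have h1 := norm_sum_le hn z hz _ _ _ hX
      rw [fF_blocks hn]
      have h2 := Complex.abs_re_le_norm (∑ a, ∑ b, z a b * (x + yᴴ) a b)
      have h3 : ∀ D : Matrix (Fin q) (Fin q) ℂ, (Matrix.trace (D + Dᴴ)).re =
          2 * (Matrix.trace D).re := by
        intro D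
        rw [Matrix.trace_add, Matrix.trace_conjTranspose, Complex.add_re, RCLike.star_def,
          Complex.conj_re]
        ring
      rw [h3, h3] at h1
      have h4 := (abs_le.1 h2).1
      linarith)
  have sum4 : ∀ X : Matrix (II n q) (II n q) ℂ, ∑ a, ∑ b, Γ a b * X a b =
      (∑ a, ∑ b, Γ (Sum.inl a) (Sum.inl b) * X (Sum.inl a) (Sum.inl b)) +
      (∑ a, ∑ b, Γ (Sum.inl a) (Sum.inr b) * X (Sum.inl a) (Sum.inr b)) +
      ((∑ a, ∑ b, Γ (Sum.inr a) (Sum.inl b) * X (Sum.inr a) (Sum.inl b)) +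
      (∑ a, ∑ b, Γ (Sum.inr a) (Sum.inr b) * X (Sum.inr a) (Sum.inr b))) := by
    intro X
    simp only [Fintype.sum_sum_type, Finset.sum_add_distrib]
    ring
  have diag : ∀ (A : Matrix (Fin q) (Fin q) ℂ) (G : (Fin n × Fin q) → (Fin n × Fin q) → ℂ),
      ∑ a, ∑ b, G a b * amp (n := n) A a b = ∑ r, ∑ s, (∑ i, G (i, r) (i, s)) * A r s := by
    intro A G
    simp only [Fintype.sum_prod_type, amp, Finset.sum_mul]
    calc ∑ i, ∑ r, ∑ j, ∑ s, G (i, r) (j, s) * (if i = j then A r s else 0)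
        = ∑ i, ∑ r, ∑ s, G (i, r) (i, s) * A r s := by
          refine Finset.sum_congr rfl fun i _ => Finset.sum_congr rfl fun r _ => ?_
          rw [Finset.sum_eq_single i]
          · simp
          · intro j _ hj
            simp [hj.symm]
          · intro h; exact absurd (Finset.mem_univ _) h
      _ = ∑ r, ∑ i, ∑ s, G (i, r) (i, s) * A r s := Finset.sum_comm
      _ = ∑ r, ∑ s, ∑ i, G (i, r) (i, s) * A r s :=
          Finset.sum_congr rfl fun r _ => Finset.sum_comm
  have tr1 : ∀ A : Matrix (Fin q) (Fin q) ℂ, Matrix.trace A =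
      ∑ r, ∑ s, (if r = s then (1 : ℂ) else 0) * A r s := by
    intro A
    simp [Matrix.trace]
  have g1 : ∀ r s, ∑ i, Γ (Sum.inl (i, r)) (Sum.inl (i, s)) = if r = s then (1 : ℂ) else 0 := by
    intro r s
    refine testF (fun r s => ∑ i, Γ (Sum.inl (i, r)) (Sum.inl (i, s)))
      (fun r s => if r = s then (1 : ℂ) else 0) (fun A => ?_) r s
    have h1 := hf (Matrix.fromBlocks (amp A) 0 0 (amp 0)) ⟨A, 0, 0, 0, rfl⟩
    rw [fF_blocks hn, sum4] at h1
    simp only [Matrix.fromBlocks_apply₁₁, Matrix.fromBlocks_apply₁₂, Matrix.fromBlocks_apply₂₁,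
      Matrix.fromBlocks_apply₂₂, ampF_zero, Matrix.zero_apply, mul_zero, Finset.sum_const_zero,
      add_zero, Matrix.trace_zero, Matrix.conjTranspose_zero, Complex.zero_re] at h1
    rw [diag A (fun a b => Γ (Sum.inl a) (Sum.inl b)), tr1] at h1
    exact h1.symm
  have g2 : ∀ r s, ∑ i, Γ (Sum.inr (i, r)) (Sum.inr (i, s)) = if r = s then (1 : ℂ) else 0 := by
    intro r s
    refine testF (fun r s => ∑ i, Γ (Sum.inr (i, r)) (Sum.inr (i, s)))
      (fun r s => if r = s then (1 : ℂ) else 0) (fun A => ?_) r s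
    have h1 := hf (Matrix.fromBlocks (amp 0) 0 0 (amp A)) ⟨0, A, 0, 0, rfl⟩
    rw [fF_blocks hn, sum4] at h1
    simp only [Matrix.fromBlocks_apply₁₁, Matrix.fromBlocks_apply₁₂, Matrix.fromBlocks_apply₂₁,
      Matrix.fromBlocks_apply₂₂, ampF_zero, Matrix.zero_apply, mul_zero, Finset.sum_const_zero,
      add_zero, zero_add, Matrix.trace_zero, Matrix.conjTranspose_zero, Complex.zero_re] at h1
    rw [diag A (fun a b => Γ (Sum.inr a) (Sum.inr b)), tr1] at h1
    exact h1.symm
  have g3 : ∀ a b, Γ (Sum.inl a) (Sum.inr b) = z a b := by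
    intro a b
    refine testF (fun a b => Γ (Sum.inl a) (Sum.inr b)) (fun a b => z a b) (fun x => ?_) a b
    have h1 := hf (Matrix.fromBlocks (amp 0) x 0 (amp 0)) ⟨0, 0, x, 0, rfl⟩
    rw [fF_blocks hn, sum4] at h1
    simp only [Matrix.fromBlocks_apply₁₁, Matrix.fromBlocks_apply₁₂, Matrix.fromBlocks_apply₂₁,
      Matrix.fromBlocks_apply₂₂, ampF_zero, Matrix.zero_apply, mul_zero, Finset.sum_const_zero,
      add_zero, zero_add, Matrix.trace_zero, Matrix.conjTranspose_zero, Complex.zero_re] at h1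
    exact h1.symm
  obtain ⟨W, hW⟩ := gramF Γ hΓ
  have hW' : ∀ a b, Γ a b = ∑ x, star (W x a) * W x b := by
    intro a b
    rw [hW, Matrix.mul_apply]
    rfl
  set e := (Fintype.equivFin (II n q)).symm with he
  have sume : ∀ g : II n q → ℂ, ∑ x, g (e x) = ∑ y, g y := fun g => Equiv.sum_comp e g
  refine ⟨Fintype.card (II n q), fun r ix => star (W (e ix.2) (Sum.inl (ix.1, r))),
    fun jx s => W (e jx.2) (Sum.inr (jx.1, s)), ?_, ?_, ?_⟩
  · set a : Matrix (Fin q) (Fin n × Fin (Fintype.card (II n q))) ℂ :=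
      fun r ix => star (W (e ix.2) (Sum.inl (ix.1, r))) with ha
    have h1 : a * aᴴ = 1 := by
      ext r s
      rw [Matrix.mul_apply, Fintype.sum_prod_type, Matrix.one_apply, ← g1 r s]
      refine Finset.sum_congr rfl fun i _ => ?_
      rw [hW', ← sume]
      refine Finset.sum_congr rfl fun x _ => ?_
      simp [ha, Matrix.conjTranspose_apply]
    have h2 := Matrix.l2_opNorm_conjTranspose_mul_self aᴴ
    rw [Matrix.conjTranspose_conjTranspose, h1, Matrix.l2_opNorm_conjTranspose] at h2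
    have h3 := normF_one (ι := Fin q)
    rw [h2] at h3
    nlinarith [norm_nonneg a]
  · set b : Matrix (Fin n × Fin (Fintype.card (II n q))) (Fin q) ℂ :=
      fun jx s => W (e jx.2) (Sum.inr (jx.1, s)) with hb
    have h1 : bᴴ * b = 1 := by
      ext r s
      rw [Matrix.mul_apply, Fintype.sum_prod_type, Matrix.one_apply, ← g2 r s]
      refine Finset.sum_congr rfl fun i _ => ?_
      rw [hW', ← sume]
      refine Finset.sum_congr rfl fun x _ => ?_
      simp [hb, Matrix.conjTranspose_apply]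
    have h2 := Matrix.l2_opNorm_conjTranspose_mul_self b
    rw [h1] at h2
    have h3 := normF_one (ι := Fin q)
    rw [h2] at h3
    nlinarith [norm_nonneg b]
  · intro i r j s
    rw [← g3, hW', ← sume]

end OST
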