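import Pool.Agent.OST.KA

/-!
# The projective norm on `E ⊗ Z` is the restriction of the one on `B(H) ⊗ Z`, `Z = Univ s`

* `exists_comp`: `n = ∑ g ∈ G₀, s g`, `e : Fin n ≃ Σ g : G₀, Fin (s g)`. `S` = `exists_lift` for the family `x g = (tg n).submatrix (e.symm (g, ·)) (e.symm (g, ·))`
  for `g ∈ G₀` and `x g = 0` otherwise; `R` = `exists_lift` (for `TT n`) for the matrix `(blockDiagonal' (fun g : G₀ => gen s g)).submatrix e e`.
* `proj_Univ`: let `ε > 0`. By `exists_approx` there is `v₀` with entries in the image of `E ⊗ gspan s` and `proj E (Univ s) k (v - v₀) ≤ ε`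
  (`proj_add_le`, `proj_single_le`: every entry of `v` is a finite sum of elementary tensors `e ⊗ z`; replace `z` by `z₀`). Only finitely many
  generators occur in `v₀`, so there are `S`, `R` with `(id ⊗ R) (id ⊗ S) v₀ = v₀`. Then `proj E (Univ s) v₀ ≤ proj E (TT n) (S v₀) ≤
  proj E.full (TT n) (ι S v₀) ≤ proj E.full (Univ s) (ι v₀) ≤ proj E.full (Univ s) (ι v) + ε` (`proj_uniform`, `proj_TT`).
-/

set_option autoImplicit false

namespace OST

open scoped Matrix Matrix.Norms.L2Operator TensorProduct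

variable {G : Type}

theorem exists_comp (s : G → ℕ) (G₀ : Finset G) :
    ∃ (n : ℕ) (S : Univ s →ₗ[ℂ] TT n) (R : TT n →ₗ[ℂ] Univ s), IsCC S ∧ IsCC R ∧
      ∀ g ∈ G₀, ∀ i k, R (S (gen s g i k)) = gen s g i k := by
  classical
  obtain ⟨n, hn⟩ : ∃ n, n = Fintype.card (Σ g : G₀, Fin (s g.1)) := ⟨_, rfl⟩
  obtain ⟨e⟩ : Nonempty (Fin n ≃ (Σ g : G₀, Fin (s g.1))) := by
    rw [hn]
    exact ⟨(Fintype.equivFin _).symm⟩
  -- the map `S`
  obtain ⟨x, hx⟩ : ∃ x : ∀ g : G, Matrix (Fin (s g)) (Fin (s g)) (TT n),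
      (∀ g, (TT n).nrm (x g) ≤ 1) ∧ ∀ (g : G) (hg : g ∈ G₀) (i k : Fin (s g)),
        x g i k = tg n (e.symm ⟨⟨g, hg⟩, i⟩) (e.symm ⟨⟨g, hg⟩, k⟩) := by
    refine ⟨fun g => if hg : g ∈ G₀ then
      (tg n).submatrix (fun i => e.symm ⟨⟨g, hg⟩, i⟩) (fun k => e.symm ⟨⟨g, hg⟩, k⟩) else 0,
      ?_, ?_⟩
    · intro g
      beta_reduce
      by_cases hg : g ∈ G₀
      · rw [dif_pos hg]
        refine ((TT n).nrm_submatrix_le (tg n) ?_ ?_).trans (nrm_gen_le _ _)
        · intro i k hik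
          have h1 := e.symm.injective hik
          simpa using h1
        · intro i k hik
          have h1 := e.symm.injective hik
          simpa using h1
      · rw [dif_neg hg, OS.nrm_zero]
        exact zero_le_one
    · intro g hg i k
      simp only [dif_pos hg]
      rfl
  obtain ⟨S, hS, hS2⟩ := exists_lift (TT n) x hx.1
  -- the map `R`
  obtain ⟨R, hR, hR2⟩ := exists_lift (s := fun _ : Unit => n) (Univ s)
    (fun _ => (Matrix.blockDiagonal' (fun g : G₀ => gen s g.1)).submatrix e e) (by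
      intro _
      rw [OS.nrm_reindex]
      exact OS.nrm_blockDiagonal'_le _ _ zero_le_one (fun g => nrm_gen_le _ _))
  refine ⟨n, S, R, hS, hR, ?_⟩
  intro g hg i k
  rw [hS2, hx.2 g hg]
  have h1 := hR2 () (e.symm ⟨⟨g, hg⟩, i⟩) (e.symm ⟨⟨g, hg⟩, k⟩)
  refine h1.trans ?_
  rw [Matrix.submatrix_apply, Equiv.apply_symm_apply, Equiv.apply_symm_apply,
    Matrix.blockDiagonal'_apply_eq]

/-- `U` fixes `t` if it fixes finitely many generators. -/
private def Fix (s : G → ℕ) (E : OS) (t : E ⊗[ℂ] Univ s) : Prop :=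
  ∃ G₀ : Finset G, ∀ U : Univ s →ₗ[ℂ] Univ s,
    (∀ g ∈ G₀, ∀ i k, U (gen s g i k) = gen s g i k) →
    TensorProduct.map (LinearMap.id : E →ₗ[ℂ] E) U t = t

private theorem fix_zero (s : G → ℕ) (E : OS) : Fix s E 0 :=
  ⟨∅, fun _ _ => map_zero _⟩

private theorem fix_add {s : G → ℕ} {E : OS} {t t' : E ⊗[ℂ] Univ s} (h : Fix s E t)
    (h' : Fix s E t') : Fix s E (t + t') := by
  classical
  obtain ⟨G₀, h0⟩ := h
  obtain ⟨G₁, h1⟩ := h'
  refine ⟨G₀ ∪ G₁, fun U hU => ?_⟩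
  rw [map_add, h0 U (fun g hg => hU g (Finset.mem_union_left _ hg)),
    h1 U (fun g hg => hU g (Finset.mem_union_right _ hg))]

private theorem fix_tmul {s : G → ℕ} {E : OS} (e : E) {z : Univ s} (hz : z ∈ gspan s) :
    Fix s E (e ⊗ₜ[ℂ] z) := by
  classical
  have key : ∃ G₀ : Finset G, ∀ U : Univ s →ₗ[ℂ] Univ s,
      (∀ g ∈ G₀, ∀ i k, U (gen s g i k) = gen s g i k) → U z = z := by
    refine Submodule.span_induction ?_ ?_ ?_ ?_ hz
    · rintro z ⟨g, i, k, rfl⟩
      exact ⟨{g}, fun U hU => hU g (Finset.mem_singleton_self g) i k⟩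
    · exact ⟨∅, fun _ _ => map_zero _⟩
    · rintro z z' _ _ ⟨G₀, h0⟩ ⟨G₁, h1⟩
      refine ⟨G₀ ∪ G₁, fun U hU => ?_⟩
      rw [map_add, h0 U (fun g hg => hU g (Finset.mem_union_left _ hg)),
        h1 U (fun g hg => hU g (Finset.mem_union_right _ hg))]
    · rintro c z _ ⟨G₀, h0⟩
      refine ⟨G₀, fun U hU => ?_⟩
      rw [map_smul, h0 U hU]
  obtain ⟨G₀, h0⟩ := key
  refine ⟨G₀, fun U hU => ?_⟩
  rw [TensorProduct.map_tmul, h0 U hU, LinearMap.id_apply]

private theorem proj_zero_le (E F : OS) (n : ℕ) :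
    proj E F n (0 : Matrix (Fin n) (Fin n) (E ⊗[ℂ] F)) ≤ 0 := by
  have h := proj_le (E := E) (F := F) (n := n) (ι := Fin 0) (κ := Fin 0) 0 0 0 0
  have h1 : amb (0 : Matrix (Fin n) (Fin 0 × Fin 0) ℂ)
      (tens (0 : Matrix (Fin 0) (Fin 0) E) (0 : Matrix (Fin 0) (Fin 0) F))
      (0 : Matrix (Fin 0 × Fin 0) (Fin n) ℂ) = 0 := by
    ext i k
    simp [amb]
  rw [h1] at h
  refine h.trans (le_of_eq ?_)
  rw [norm_zero]
  ring

private theorem proj_sum_le {E F : OS} {n : ℕ} {J : Type} (A : Finset J)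
    (f : J → Matrix (Fin n) (Fin n) (E ⊗[ℂ] F)) :
    proj E F n (∑ j ∈ A, f j) ≤ ∑ j ∈ A, proj E F n (f j) := by
  classical
  induction A using Finset.induction_on with
  | empty =>
    rw [Finset.sum_empty, Finset.sum_empty]
    exact proj_zero_le E F n
  | insert a A ha ih =>
    rw [Finset.sum_insert ha, Finset.sum_insert ha]
    exact (proj_add_le _ _).trans (add_le_add le_rfl ih)

private theorem exists_t0 {s : G → ℕ} {E : OS} (n : ℕ) (t : E ⊗[ℂ] Univ s) :
    ∀ {ε : ℝ}, 0 < ε → ∃ t₀, Fix s E t₀ ∧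
      (∀ i j : Fin n, proj E (Univ s) n (Matrix.single i j (t - t₀)) ≤ ε) ∧
      ∀ i j : Fin n, proj E (Univ s) n (Matrix.single i j (t₀ - t)) ≤ ε := by
  induction t using TensorProduct.induction_on with
  | zero =>
    intro ε hε
    have h0 : ∀ i j : Fin n, proj E (Univ s) n
        (Matrix.single i j ((0 : E ⊗[ℂ] Univ s) - 0)) ≤ ε := by
      intro i j
      have h1 : Matrix.single i j ((0 : E ⊗[ℂ] Univ s) - 0) = 0 := by
        have h2 : (0 : E ⊗[ℂ] Univ s) - 0 = 0 := sub_self _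
        rw [h2, Matrix.single_zero]
      rw [h1]
      exact (proj_zero_le _ _ _).trans hε.le
    exact ⟨0, fix_zero s E, h0, h0⟩
  | tmul e z =>
    intro ε hε
    have hpos : 0 < ‖e‖ + 1 := by positivity
    obtain ⟨z₀, hz0, hlt⟩ := exists_approx z (div_pos hε hpos)
    have hle : ‖e‖ * ‖z - z₀‖ ≤ ε := by
      have h1 : ‖e‖ * ‖z - z₀‖ ≤ (‖e‖ + 1) * (ε / (‖e‖ + 1)) := by
        apply mul_le_mul (by linarith) hlt.le (norm_nonneg _) hpos.le
      rwa [mul_div_cancel₀ _ hpos.ne'] at h1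
    refine ⟨e ⊗ₜ[ℂ] z₀, fix_tmul e hz0, ?_, ?_⟩
    · intro i j
      rw [← TensorProduct.tmul_sub]
      exact (proj_single_le i j e (z - z₀)).trans hle
    · intro i j
      rw [← TensorProduct.tmul_sub]
      refine (proj_single_le i j e (z₀ - z)).trans ?_
      rw [norm_sub_rev]
      exact hle
  | add t t' ih ih' =>
    intro ε hε
    obtain ⟨t₀, h1, h2, h3⟩ := ih (half_pos hε)
    obtain ⟨t₁, h4, h5, h6⟩ := ih' (half_pos hε)
    refine ⟨t₀ + t₁, fix_add h1 h4, ?_, ?_⟩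
    · intro i j
      have e1 : t + t' - (t₀ + t₁) = (t - t₀) + (t' - t₁) := by abel
      rw [e1, Matrix.single_add]
      refine (proj_add_le _ _).trans ?_
      linarith [h2 i j, h5 i j]
    · intro i j
      have e1 : t₀ + t₁ - (t + t') = (t₀ - t) + (t₁ - t') := by abel
      rw [e1, Matrix.single_add]
      refine (proj_add_le _ _).trans ?_
      linarith [h3 i j, h6 i j]

private theorem proj_entries {E F : OS} {n : ℕ} (w : Matrix (Fin n) (Fin n) (E ⊗[ℂ] F)) {δ : ℝ}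
    (h : ∀ i j, proj E F n (Matrix.single i j (w i j)) ≤ δ) :
    proj E F n w ≤ (n : ℝ) * ((n : ℝ) * δ) := by
  classical
  have h1 : w = ∑ i, ∑ j, Matrix.single i j (w i j) := Matrix.matrix_eq_sum_single w
  rw [h1]
  refine (proj_sum_le _ _).trans ?_
  have h2 : ∀ i ∈ (Finset.univ : Finset (Fin n)),
      proj E F n (∑ j, Matrix.single i j (w i j)) ≤ (n : ℝ) * δ := by
    intro i _
    refine (proj_sum_le _ _).trans ?_
    refine (Finset.sum_le_sum (fun j _ => h i j)).trans ?_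
    rw [Finset.sum_const, Finset.card_univ, Fintype.card_fin, nsmul_eq_mul]
  refine (Finset.sum_le_sum h2).trans ?_
  rw [Finset.sum_const, Finset.card_univ, Fintype.card_fin, nsmul_eq_mul]

theorem proj_Univ (s : G → ℕ) (E : OS) (k : ℕ) (v : Matrix (Fin k) (Fin k) (E ⊗[ℂ] Univ s)) :
    proj E (Univ s) k v ≤
      proj E.full (Univ s) k (v.map (TensorProduct.map E.incl LinearMap.id)) := by
  classical
  refine le_of_forall_pos_le_add fun ε hε => ?_
  obtain ⟨δ, hδ⟩ : ∃ δ, δ = ε / (2 * ((k : ℝ) * k + 1)) := ⟨_, rfl⟩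
  have hpos : 0 < 2 * ((k : ℝ) * k + 1) := by positivity
  have hδ0 : 0 < δ := by rw [hδ]; exact div_pos hε hpos
  have hδ1 : 2 * ((k : ℝ) * ((k : ℝ) * δ)) ≤ ε := by
    have h1 : δ * (2 * ((k : ℝ) * k + 1)) = ε := by
      rw [hδ]
      exact div_mul_cancel₀ _ hpos.ne'
    nlinarith
  choose v₀ hv1 hv2 hv3 using fun (i j : Fin k) => exists_t0 k (v i j) hδ0
  choose G₀ hG using hv1
  obtain ⟨w, hw⟩ : ∃ w : Matrix (Fin k) (Fin k) (E ⊗[ℂ] Univ s), w = Matrix.of v₀ := ⟨_, rfl⟩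
  have hwa : ∀ i j, w i j = v₀ i j := by
    intro i j
    rw [hw]
    rfl
  obtain ⟨N, S, R, hS, hR, hRS⟩ := exists_comp s
    (Finset.univ.biUnion (fun p : Fin k × Fin k => G₀ p.1 p.2))
  have h1 : proj E (Univ s) k (v - w) ≤ (k : ℝ) * ((k : ℝ) * δ) := by
    apply proj_entries
    intro i j
    rw [Matrix.sub_apply, hwa]
    exact hv2 i j i j
  have h2 : proj E (Univ s) k (w - v) ≤ (k : ℝ) * ((k : ℝ) * δ) := by
    apply proj_entries
    intro i j
    rw [Matrix.sub_apply, hwa]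
    exact hv3 i j i j
  have hfix : (w.map (TensorProduct.map (LinearMap.id : E →ₗ[ℂ] E) S)).map
      (TensorProduct.map (LinearMap.id : E →ₗ[ℂ] E) R) = w := by
    ext i j
    rw [Matrix.map_apply, Matrix.map_apply, hwa]
    have h3 := hG i j (R ∘ₗ S) (by
      intro g hg a b
      rw [LinearMap.comp_apply]
      exact hRS g (Finset.mem_biUnion.2 ⟨(i, j), Finset.mem_univ _, hg⟩) a b)
    have h4 : TensorProduct.map (LinearMap.id : E →ₗ[ℂ] E) (R ∘ₗ S) =
        (TensorProduct.map (LinearMap.id : E →ₗ[ℂ] E) R) ∘ₗ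
          (TensorProduct.map (LinearMap.id : E →ₗ[ℂ] E) S) := by
      rw [← TensorProduct.map_comp, LinearMap.id_comp]
    rw [h4, LinearMap.comp_apply] at h3
    exact h3
  have hcomm : (w.map (TensorProduct.map (LinearMap.id : E →ₗ[ℂ] E) S)).map
      (TensorProduct.map E.incl (LinearMap.id : TT N →ₗ[ℂ] TT N)) =
      (w.map (TensorProduct.map E.incl (LinearMap.id : Univ s →ₗ[ℂ] Univ s))).map
        (TensorProduct.map (LinearMap.id : E.full →ₗ[ℂ] E.full) S) := by
    ext i j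
    rw [Matrix.map_apply, Matrix.map_apply, Matrix.map_apply, Matrix.map_apply]
    have h4 : (TensorProduct.map E.incl (LinearMap.id : TT N →ₗ[ℂ] TT N)) ∘ₗ
        (TensorProduct.map (LinearMap.id : E →ₗ[ℂ] E) S) =
        (TensorProduct.map (LinearMap.id : E.full →ₗ[ℂ] E.full) S) ∘ₗ
        (TensorProduct.map E.incl (LinearMap.id : Univ s →ₗ[ℂ] Univ s)) := by
      rw [← TensorProduct.map_comp, ← TensorProduct.map_comp]
      rfl
    have h5 := LinearMap.congr_fun h4 (w i j)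
    rw [LinearMap.comp_apply, LinearMap.comp_apply] at h5
    exact h5
  have h3 : proj E (Univ s) k w ≤
      proj E.full (Univ s) k (w.map (TensorProduct.map E.incl LinearMap.id)) := by
    have a1 := proj_uniform _ _ _ _ (LinearMap.id : E →ₗ[ℂ] E) R (isCC_id E) hR k
      (w.map (TensorProduct.map (LinearMap.id : E →ₗ[ℂ] E) S))
    rw [hfix] at a1
    have a2 := proj_TT E N k (w.map (TensorProduct.map (LinearMap.id : E →ₗ[ℂ] E) S))
    rw [hcomm] at a2
    have a3 := proj_uniform _ _ _ _ (LinearMap.id : E.full →ₗ[ℂ] E.full) S (isCC_id E.full) hS k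
      (w.map (TensorProduct.map E.incl (LinearMap.id : Univ s →ₗ[ℂ] Univ s)))
    exact a1.trans (a2.trans a3)
  have h4 : proj E.full (Univ s) k (w.map (TensorProduct.map E.incl LinearMap.id)) ≤
      proj E.full (Univ s) k (v.map (TensorProduct.map E.incl LinearMap.id)) +
        (k : ℝ) * ((k : ℝ) * δ) := by
    have e1 : w.map (TensorProduct.map E.incl (LinearMap.id : Univ s →ₗ[ℂ] Univ s)) =
        v.map (TensorProduct.map E.incl (LinearMap.id : Univ s →ₗ[ℂ] Univ s)) +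
        (w - v).map (TensorProduct.map E.incl (LinearMap.id : Univ s →ₗ[ℂ] Univ s)) := by
      ext i j
      rw [Matrix.add_apply, Matrix.map_apply, Matrix.map_apply, Matrix.map_apply,
        Matrix.sub_apply, map_sub]
      abel
    rw [e1]
    refine (proj_add_le _ _).trans (add_le_add le_rfl ?_)
    exact (proj_uniform _ _ _ _ E.incl (LinearMap.id : Univ s →ₗ[ℂ] Univ s) E.isCC_incl
      (isCC_id _) k (w - v)).trans h2
  have h5 : proj E (Univ s) k v ≤ proj E (Univ s) k w + proj E (Univ s) k (v - w) := by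
    have e1 : v = w + (v - w) := by abel
    have h6 := proj_add_le w (v - w)
    rwa [← e1] at h6
  linarith

private theorem map_tens_KB {E E' F F' : OS} {ι κ : Type} (S : E →ₗ[ℂ] E') (T : F →ₗ[ℂ] F')
    (x : Matrix ι ι E) (y : Matrix κ κ F) :
    (tens x y).map (TensorProduct.map S T) = tens (x.map S) (y.map T) := by
  ext i k
  rw [Matrix.map_apply]
  unfold tens
  rw [TensorProduct.map_tmul]
  rfl

private theorem map_amb_KB {E E' F F' : OS} {ι κ ι' κ' : Type} [Fintype ι] [Fintype κ]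
    (S : E →ₗ[ℂ] E') (T : F →ₗ[ℂ] F') (a : Matrix ι' ι ℂ) (w : Matrix ι κ (E ⊗[ℂ] F))
    (b : Matrix κ κ' ℂ) :
    (amb a w b).map (TensorProduct.map S T) = amb a (w.map (TensorProduct.map S T)) b := by
  ext i k
  rw [Matrix.map_apply]
  unfold amb
  rw [map_sum]
  refine Finset.sum_congr rfl fun i' _ => ?_
  rw [map_sum]
  refine Finset.sum_congr rfl fun k' _ => ?_
  exact map_smul (TensorProduct.map S T) _ _

/-- `/proj` computed on projective spaces, then the right projective hull: nothing new. -/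
theorem rProj_lInj_proj : rProj (lInj proj) = proj := by
  funext E F n u
  have hset : ∀ v : Matrix (Fin n) (Fin n) (E ⊗[ℂ] ZZ F),
      lInj proj E (ZZ F) n v = proj E (ZZ F) n v := by
    intro v
    refine le_antisymm ?_ (proj_Univ _ E n v)
    exact proj_uniform _ _ _ _ E.incl (LinearMap.id : ZZ F →ₗ[ℂ] ZZ F) E.isCC_incl (isCC_id _) n v
  show sInf {r | ∃ v : Matrix (Fin n) (Fin n) (E ⊗[ℂ] ZZ F),
    v.map (TensorProduct.map LinearMap.id (qq F)) = u ∧ r = lInj proj E (ZZ F) n v} = _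
  have hlift : ∀ (p q : ℕ) (a : Matrix (Fin n) (Fin p × Fin q) ℂ) (x : Matrix (Fin p) (Fin p) E)
      (y : Matrix (Fin q) (Fin q) F) (b : Matrix (Fin p × Fin q) (Fin n) ℂ),
      u = amb a (tens x y) b → ∃ v : Matrix (Fin n) (Fin n) (E ⊗[ℂ] ZZ F),
        v.map (TensorProduct.map LinearMap.id (qq F)) = u ∧
        lInj proj E (ZZ F) n v ≤ ‖a‖ * E.nrm x * F.nrm y * ‖b‖ := by
    intro p q a x y b hu
    obtain ⟨y', hy1, hy2⟩ := exists_lift_matrix F y
    refine ⟨amb a (tens x y') b, ?_, ?_⟩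
    · rw [map_amb_KB, map_tens_KB, hy1, hu]
      congr 1
    · rw [hset]
      refine (proj_le a x y' b).trans ?_
      have h1 : 0 ≤ E.nrm x := E.nrm_nonneg x
      gcongr
  apply le_antisymm
  · refine le_of_forall_pos_le_add fun ε hε => ?_
    obtain ⟨p, q, a, x, y, b, hu, hlt⟩ := exists_rep_lt (lt_add_of_pos_right (proj E F n u) hε)
    obtain ⟨v, hv1, hv2⟩ := hlift p q a x y b hu
    have hbdd : BddBelow {r | ∃ v : Matrix (Fin n) (Fin n) (E ⊗[ℂ] ZZ F),
        v.map (TensorProduct.map LinearMap.id (qq F)) = u ∧ r = lInj proj E (ZZ F) n v} := by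
      refine ⟨0, ?_⟩
      rintro r ⟨v', _, rfl⟩
      exact proj_nonneg _ _ _ _
    exact (csInf_le hbdd ⟨v, hv1, rfl⟩).trans (hv2.trans hlt.le)
  · apply le_csInf
    · obtain ⟨p, q, a, x, y, b, hu⟩ := exists_rep u
      obtain ⟨v, hv1, _⟩ := hlift p q a x y b hu
      exact ⟨_, v, hv1, rfl⟩
    · rintro r ⟨v, hv, rfl⟩
      rw [hset, ← hv]
      exact proj_uniform _ _ _ _ (LinearMap.id : E →ₗ[ℂ] E) (qq F) (isCC_id E) (isCC_qq F) n v

end OST
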