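import Pool.Agent.OST.Lift

/-!
# Natural operator space tensor norms: the definitions (problem MP_54aa1b_an)
-/

set_option autoImplicit false

namespace OST

open scoped Matrix.Norms.L2Operator TensorProduct

/-- An assignment of matrix norms to the algebraic tensor products of operator spaces. -/
abbrev RN : Type 1 := ∀ (E F : OS) (n : ℕ), Matrix (Fin n) (Fin n) (E ⊗[ℂ] F) → ℝ

/-- The pairs `(n, x)`, `x ∈ M_n(E)`, `‖x‖ ≤ 1`. -/
def BallIdx (E : OS) : Type := Σ n : ℕ, {x : Matrix (Fin n) (Fin n) E // E.nrm x ≤ 1}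

/-- The projective operator space `Z_E`, the `ℓ¹`-sum of trace classes `T_n` over the contractive
matrices of `E`. -/
noncomputable def ZZ (E : OS) : OS := Univ (fun g : BallIdx E => g.1)

/-- `q : Z_E → E` is the canonical map: a complete contraction that takes the generator `t g`,
`g = (n, x)`, to `x`. -/
def IsCanon (E : OS) (q : ZZ E →ₗ[ℂ] E) : Prop :=
  IsCC q ∧ ∀ (g : BallIdx E) (i k : Fin g.1) (z : ZZ E),
    IsGen (fun g : BallIdx E => g.1) g i k z.1 → q z = g.2.1 i k

theorem exists_canon (E : OS) : ∃ q : ZZ E →ₗ[ℂ] E, IsCanon E q := by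
  obtain ⟨q, h1, h2⟩ := exists_lift (s := fun g : BallIdx E => g.1) E (fun g => g.2.1)
    (fun g => g.2.2)
  refine ⟨q, h1, fun g i k z hz => ?_⟩
  have h3 : z = gen (fun g : BallIdx E => g.1) g i k := Subtype.ext ((isGen_iff _ g i k z.1).1 hz)
  rw [h3]
  exact h2 g i k

/-- The canonical complete quotient map `Z_E → E`: it takes the generator `t g`, `g = (n, x)`, to
`x`. -/
noncomputable def qq (E : OS) : ZZ E →ₗ[ℂ] E := Classical.choose (exists_canon E)

/-- The completely left-injective hull `/α`. -/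
noncomputable def lInj (α : RN) : RN := fun E F n u =>
  α E.full F n (u.map (TensorProduct.map E.incl LinearMap.id))

/-- The completely right-injective hull `α\`. -/
noncomputable def rInj (α : RN) : RN := fun E F n u =>
  α E F.full n (u.map (TensorProduct.map LinearMap.id F.incl))

/-- The completely left-projective hull `\α`. -/
noncomputable def lProj (α : RN) : RN := fun E F n u =>
  sInf {r | ∃ v : Matrix (Fin n) (Fin n) (ZZ E ⊗[ℂ] F),
    v.map (TensorProduct.map (qq E) LinearMap.id) = u ∧ r = α (ZZ E) F n v}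

/-- The completely right-projective hull `α/`. -/
noncomputable def rProj (α : RN) : RN := fun E F n u =>
  sInf {r | ∃ v : Matrix (Fin n) (Fin n) (E ⊗[ℂ] ZZ F),
    v.map (TensorProduct.map LinearMap.id (qq F)) = u ∧ r = α E (ZZ F) n v}

/-- The completely injective hull `/α\`. -/
noncomputable def inj (α : RN) : RN := lInj (rInj α)

/-- The completely projective hull `\α/`. -/
noncomputable def prj (α : RN) : RN := lProj (rProj α)

/-- The operator space projective tensor norm:
`‖u‖ = inf ‖a‖ ‖x‖ ‖y‖ ‖b‖` over `u = a (x ⊗ y) b`. -/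
noncomputable def proj : RN := fun E F n u =>
  sInf {r | ∃ (p q : ℕ) (a : Matrix (Fin n) (Fin p × Fin q) ℂ) (x : Matrix (Fin p) (Fin p) E)
    (y : Matrix (Fin q) (Fin q) F) (b : Matrix (Fin p × Fin q) (Fin n) ℂ),
    u = amb a (tens x y) b ∧ r = ‖a‖ * E.nrm x * F.nrm y * ‖b‖}

/-- The matrix of the operator on `ℓ²_ν ⊗ ℓ²_m ⊗ ℓ²_l` defined by an element of
`M_ν(M_m ⊗ M_l)`. -/
noncomputable def toMat {ν : Type} {m l : ℕ} (w : Matrix ν ν (Mat m ⊗[ℂ] Mat l)) :
    Matrix (ν × Fin m × Fin l) (ν × Fin m × Fin l) ℂ :=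
  fun i k => TensorProduct.lift (LinearMap.mk₂ ℂ
    (fun (a : Mat m) (b : Mat l) => a (EuclideanSpace.single k.2.1 1) i.2.1 *
      b (EuclideanSpace.single k.2.2 1) i.2.2)
    (by intros; simp [add_mul]) (by intros; simp [mul_assoc])
    (by intros; simp [mul_add]) (by intros; simp [mul_left_comm])) (w i.1 k.1)

/-- The operator space injective (minimal) tensor norm:
`‖u‖ = sup ‖(φ ⊗ ψ)_n(u)‖` over all complete contractions `φ : E → M_m`, `ψ : F → M_l`. -/
noncomputable def mn : RN := fun E F _ u =>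
  sSup {r | ∃ (m l : ℕ) (φ : E →ₗ[ℂ] OS.B (EuclideanSpace ℂ (Fin m)))
    (ψ : F →ₗ[ℂ] OS.B (EuclideanSpace ℂ (Fin l))), IsCC φ ∧ IsCC ψ ∧
    r = ‖toMat (u.map (TensorProduct.map (Submodule.subtype _ ∘ₗ φ) (Submodule.subtype _ ∘ₗ ψ)))‖}

/-- `α` is symmetric: the flip `E ⊗_α F → F ⊗_α E` is completely isometric for all `E`, `F`. -/
def Symm (α : RN) : Prop := ∀ (E F : OS) (n : ℕ) (u : Matrix (Fin n) (Fin n) (E ⊗[ℂ] F)),
  α F E n (u.map (TensorProduct.comm ℂ E F)) = α E F n u

/-- The family of all norms obtained from `α₀` by applying one-sided hulls finitely many times. -/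
inductive Fam (α₀ : RN) : RN → Prop
  | base : Fam α₀ α₀
  | lInj {α : RN} : Fam α₀ α → Fam α₀ (lInj α)
  | rInj {α : RN} : Fam α₀ α → Fam α₀ (rInj α)
  | lProj {α : RN} : Fam α₀ α → Fam α₀ (lProj α)
  | rProj {α : RN} : Fam α₀ α → Fam α₀ (rProj α)

/-- Alternating words of length `n` in the operations `A = /(\·)\` and `B = /(·/)\` applied to
`min`, with outer letter `A` (`true`) or `B` (`false`). -/
noncomputable def word : ℕ → Bool → RN
  | 0, _ => mn
  | n + 1, true => inj (lProj (word n false))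
  | n + 1, false => inj (rProj (word n true))

/-- The transpose of an assignment of norms. -/
noncomputable def tr (α : RN) : RN := fun E F n u => α F E n (u.map (TensorProduct.comm ℂ E F))

/-- Complete contractions act contractively. -/
def Uniform (α : RN) : Prop :=
  ∀ (E E' F F' : OS) (S : E →ₗ[ℂ] E') (T : F →ₗ[ℂ] F'), IsCC S → IsCC T →
    ∀ (n : ℕ) (u : Matrix (Fin n) (Fin n) (E ⊗[ℂ] F)),
      α E' F' n (u.map (TensorProduct.map S T)) ≤ α E F n u

/-- Nonnegative and uniform. -/
structure Good (α : RN) : Prop where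
  nonneg : ∀ (E F : OS) (n : ℕ) (u : Matrix (Fin n) (Fin n) (E ⊗[ℂ] F)), 0 ≤ α E F n u
  uniform : Uniform α

end OST
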