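import Pool.Agent.OST.Witt
import Pool.Agent.OST.TDefs

/-!
# The minimal norm

* The set in the definition is bounded above: every entry of `u` is a sum of elementary tensors `e ⊗ f`, and the norm of the matrix of
  `φ e ⊗ ψ f` (Kronecker product) is at most `‖e‖ ‖f‖`; the norm of `toMat w` is at most the sum over the entries of `w` (times constants is
  also fine: any bound independent of `φ`, `ψ`, `m`, `l`). It is nonempty (`φ = 0`, `ψ = 0`).
* `mn_uniform`: compose `φ`, `ψ` with `S`, `T`.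
* `tr_mn`: swap; the matrices differ by a permutation of the index set.
* `lInj_mn`: `≤` by `mn_uniform`; `≥`: `witt_fin`, every `φ : E → M_m` extends to `E.full`.
-/

set_option autoImplicit false

namespace OST

open scoped Matrix Matrix.Norms.L2Operator TensorProduct

private theorem toMat_tmul {ν : Type} {m l : ℕ} (w : Matrix ν ν (Mat m ⊗[ℂ] Mat l)) (i k : ν × Fin m × Fin l)
    (a : Mat m) (b : Mat l) (h : w i.1 k.1 = a ⊗ₜ[ℂ] b) :
    toMat w i k = a (EuclideanSpace.single k.2.1 1) i.2.1 * b (EuclideanSpace.single k.2.2 1) i.2.2 := by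
  unfold toMat
  rw [h, TensorProduct.lift.tmul]
  rfl

private theorem toMat_add {ν : Type} {m l : ℕ} (w w' : Matrix ν ν (Mat m ⊗[ℂ] Mat l)) :
    toMat (w + w') = toMat w + toMat w' := by
  ext i k
  rw [Matrix.add_apply]
  unfold toMat
  exact map_add _ _ _

private theorem toMat_zero {ν : Type} {m l : ℕ} :
    toMat (0 : Matrix ν ν (Mat m ⊗[ℂ] Mat l)) = 0 := by
  ext i k
  rw [Matrix.zero_apply]
  unfold toMat
  exact map_zero _

private theorem toMat_sum {ν α : Type} {m l : ℕ} (s : Finset α) (w : α → Matrix ν ν (Mat m ⊗[ℂ] Mat l)) :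
    toMat (∑ a ∈ s, w a) = ∑ a ∈ s, toMat (w a) := by
  classical
  induction s using Finset.induction_on with
  | empty => rw [Finset.sum_empty, Finset.sum_empty, toMat_zero]
  | insert a s ha ih => rw [Finset.sum_insert ha, Finset.sum_insert ha, toMat_add, ih]

private theorem l2_le {m n : Type} [Fintype m] [Fintype n] [DecidableEq n] (M : Matrix m n ℂ) {C : ℝ}
    (hC : 0 ≤ C) (h : ∀ η : n → ℂ, ∑ i, ‖∑ j, M i j * η j‖ ^ 2 ≤ C ^ 2 * ∑ j, ‖η j‖ ^ 2) : ‖M‖ ≤ C := by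
  rw [Matrix.l2_opNorm_def]
  refine ContinuousLinearMap.opNorm_le_bound _ hC (fun η => ?_)
  rw [EuclideanSpace.norm_eq, EuclideanSpace.norm_eq]
  have h1 := h η
  have h2 : ∀ i, (LinearEquiv.trans Matrix.toEuclideanLin LinearMap.toContinuousLinearMap M) η i =
      ∑ j, M i j * η j := by
    intro i
    rfl
  simp only [h2]
  rw [← Real.sqrt_sq hC, ← Real.sqrt_mul (sq_nonneg C)]
  exact Real.sqrt_le_sqrt h1

private theorem le_l2 {m n : Type} [Fintype m] [Fintype n] [DecidableEq n] (M : Matrix m n ℂ)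
    (η : n → ℂ) : ∑ i, ‖∑ j, M i j * η j‖ ^ 2 ≤ ‖M‖ ^ 2 * ∑ j, ‖η j‖ ^ 2 := by
  have h1 := Matrix.l2_opNorm_mulVec M (WithLp.toLp 2 η)
  rw [EuclideanSpace.norm_eq, EuclideanSpace.norm_eq] at h1
  have h2 := pow_le_pow_left₀ (Real.sqrt_nonneg _) h1 2
  rw [mul_pow, Real.sq_sqrt (Finset.sum_nonneg fun _ _ => by positivity),
    Real.sq_sqrt (Finset.sum_nonneg fun _ _ => by positivity)] at h2
  exact h2

private theorem l2_submatrix_le {m n m' n' : Type} [Fintype m] [Fintype n] [DecidableEq n] [Fintype m']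
    [Fintype n'] [DecidableEq n'] (M : Matrix m n ℂ) (e : m' ≃ m) (f : n' ≃ n) :
    ‖M.submatrix e f‖ ≤ ‖M‖ := by
  refine l2_le _ (norm_nonneg _) (fun η => ?_)
  have h1 := le_l2 M (fun j => η (f.symm j))
  have h2 : ∑ j, ‖η (f.symm j)‖ ^ 2 = ∑ j, ‖η j‖ ^ 2 := by
    rw [← Equiv.sum_comp f.symm (fun j => ‖η j‖ ^ 2)]
  have h3 : ∑ i, ‖∑ j, M i j * η (f.symm j)‖ ^ 2 = ∑ i, ‖∑ j, M.submatrix e f i j * η j‖ ^ 2 := by
    rw [← Equiv.sum_comp e]
    refine Finset.sum_congr rfl fun i _ => ?_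
    congr 2
    rw [← Equiv.sum_comp f]
    refine Finset.sum_congr rfl fun j _ => ?_
    rw [Equiv.symm_apply_apply]
    rfl
  rw [h2, h3] at h1
  exact h1

private theorem mat_apply {m : ℕ} (a : Mat m) (v : Fin m → ℂ) (x : Fin m) :
    ∑ x', a (EuclideanSpace.single x' 1) x * v x' = a (WithLp.toLp 2 v) x := by
  have h1 : (WithLp.toLp 2 v : EuclideanSpace ℂ (Fin m)) = ∑ x', v x' • EuclideanSpace.single x' (1 : ℂ) := by
    ext y
    rw [WithLp.ofLp_sum, Finset.sum_apply]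
    simp
  rw [h1, map_sum, WithLp.ofLp_sum, Finset.sum_apply]
  refine Finset.sum_congr rfl fun x' _ => ?_
  rw [map_smul]
  simp [mul_comm]

private theorem mat_bound {m : ℕ} (a : Mat m) (v : Fin m → ℂ) :
    ∑ x, ‖∑ x', a (EuclideanSpace.single x' 1) x * v x'‖ ^ 2 ≤ ‖a‖ ^ 2 * ∑ x, ‖v x‖ ^ 2 := by
  have h1 := a.le_opNorm (WithLp.toLp 2 v)
  rw [EuclideanSpace.norm_eq, EuclideanSpace.norm_eq] at h1
  have h2 := pow_le_pow_left₀ (Real.sqrt_nonneg _) h1 2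
  rw [mul_pow, Real.sq_sqrt (Finset.sum_nonneg fun _ _ => by positivity),
    Real.sq_sqrt (Finset.sum_nonneg fun _ _ => by positivity)] at h2
  refine le_trans (le_of_eq ?_) h2
  refine Finset.sum_congr rfl fun x _ => ?_
  rw [mat_apply]

private theorem norm_toMat_single {ν : Type} [Fintype ν] [DecidableEq ν] {m l : ℕ} (i j : ν)
    (a : Mat m) (b : Mat l) :
    ‖toMat (Matrix.single i j (a ⊗ₜ[ℂ] b))‖ ≤ ‖a‖ * ‖b‖ := by
  refine l2_le _ (by positivity) (fun η => ?_)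
  have hent : ∀ p k, toMat (Matrix.single i j (a ⊗ₜ[ℂ] b)) p k =
      if i = p.1 ∧ j = k.1 then a (EuclideanSpace.single k.2.1 1) p.2.1 *
        b (EuclideanSpace.single k.2.2 1) p.2.2 else 0 := by
    intro p k
    by_cases h : i = p.1 ∧ j = k.1
    · rw [if_pos h]
      apply toMat_tmul
      rw [← h.1, ← h.2, Matrix.single_apply_same]
    · rw [if_neg h]
      have h1 : (Matrix.single i j (a ⊗ₜ[ℂ] b) : Matrix ν ν _) p.1 k.1 = 0 := by
        rw [Matrix.single_apply, if_neg h]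
      unfold toMat
      rw [h1, map_zero]
  have hrow : ∀ p, ∑ k, toMat (Matrix.single i j (a ⊗ₜ[ℂ] b)) p k * η k =
      if i = p.1 then ∑ x', a (EuclideanSpace.single x' 1) p.2.1 *
        (∑ y', b (EuclideanSpace.single y' 1) p.2.2 * η (j, x', y')) else 0 := by
    intro p
    by_cases h : i = p.1
    · rw [if_pos h, Fintype.sum_prod_type, Finset.sum_eq_single j]
      · rw [Fintype.sum_prod_type]
        refine Finset.sum_congr rfl fun x' _ => ?_
        rw [Finset.mul_sum]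
        refine Finset.sum_congr rfl fun y' _ => ?_
        rw [hent, if_pos ⟨h, rfl⟩]
        ring
      · intro j' _ hj'
        refine Finset.sum_eq_zero fun k _ => ?_
        rw [hent, if_neg (fun h' => hj' h'.2.symm), zero_mul]
      · intro h'
        exact absurd (Finset.mem_univ _) h'
    · rw [if_neg h]
      refine Finset.sum_eq_zero fun k _ => ?_
      rw [hent, if_neg (fun h' => h h'.1), zero_mul]
  simp only [hrow]
  have h1 : ∑ p : ν × Fin m × Fin l, ‖(if i = p.1 then ∑ x', a (EuclideanSpace.single x' 1) p.2.1 *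
        (∑ y', b (EuclideanSpace.single y' 1) p.2.2 * η (j, x', y')) else 0)‖ ^ 2 =
      ∑ y : Fin l, ∑ x : Fin m, ‖∑ x', a (EuclideanSpace.single x' 1) x *
        (∑ y', b (EuclideanSpace.single y' 1) y * η (j, x', y'))‖ ^ 2 := by
    rw [Fintype.sum_prod_type, Finset.sum_eq_single i]
    · rw [Fintype.sum_prod_type, Finset.sum_comm]
      simp
    · intro i' _ hi'
      refine Finset.sum_eq_zero fun k _ => ?_
      rw [if_neg (Ne.symm hi')]
      simp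
    · intro h'
      exact absurd (Finset.mem_univ _) h'
  rw [h1]
  calc ∑ y : Fin l, ∑ x : Fin m, ‖∑ x', a (EuclideanSpace.single x' 1) x *
        (∑ y', b (EuclideanSpace.single y' 1) y * η (j, x', y'))‖ ^ 2
      ≤ ∑ y : Fin l, ‖a‖ ^ 2 * ∑ x' : Fin m, ‖∑ y', b (EuclideanSpace.single y' 1) y * η (j, x', y')‖ ^ 2 :=
        Finset.sum_le_sum fun y _ => mat_bound a _
    _ = ‖a‖ ^ 2 * ∑ x' : Fin m, ∑ y : Fin l, ‖∑ y', b (EuclideanSpace.single y' 1) y * η (j, x', y')‖ ^ 2 := by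
        rw [← Finset.mul_sum, Finset.sum_comm]
    _ ≤ ‖a‖ ^ 2 * ∑ x' : Fin m, ‖b‖ ^ 2 * ∑ y' : Fin l, ‖η (j, x', y')‖ ^ 2 := by
        refine mul_le_mul_of_nonneg_left ?_ (sq_nonneg _)
        exact Finset.sum_le_sum fun x' _ => mat_bound b _
    _ = (‖a‖ * ‖b‖) ^ 2 * ∑ x' : Fin m, ∑ y' : Fin l, ‖η (j, x', y')‖ ^ 2 := by
        rw [← Finset.mul_sum]
        ring
    _ ≤ (‖a‖ * ‖b‖) ^ 2 * ∑ k, ‖η k‖ ^ 2 := by
        refine mul_le_mul_of_nonneg_left ?_ (sq_nonneg _)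
        rw [Fintype.sum_prod_type (f := fun k : ν × Fin m × Fin l => ‖η k‖ ^ 2)]
        rw [← Fintype.sum_prod_type (f := fun k : Fin m × Fin l => ‖η (j, k)‖ ^ 2)]
        exact Finset.single_le_sum (f := fun j' => ∑ k : Fin m × Fin l, ‖η (j', k)‖ ^ 2)
          (fun _ _ => Finset.sum_nonneg fun _ _ => by positivity) (Finset.mem_univ j)

/-- `φ` as a map into `M_m` -/
private noncomputable def sb {E : OS} {m : ℕ} (φ : E →ₗ[ℂ] OS.B (EuclideanSpace ℂ (Fin m))) :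
    E →ₗ[ℂ] Mat m :=
  show E →ₗ[ℂ] ((OS.B (EuclideanSpace ℂ (Fin m))).H →L[ℂ] (OS.B (EuclideanSpace ℂ (Fin m))).H) from
    Submodule.subtype _ ∘ₗ φ

private noncomputable def mm {E F : OS} {m l : ℕ} (φ : E →ₗ[ℂ] OS.B (EuclideanSpace ℂ (Fin m)))
    (ψ : F →ₗ[ℂ] OS.B (EuclideanSpace ℂ (Fin l))) : E ⊗[ℂ] F →ₗ[ℂ] Mat m ⊗[ℂ] Mat l :=
  TensorProduct.map (sb φ) (sb ψ)

private theorem mm_tmul {E F : OS} {m l : ℕ} (φ : E →ₗ[ℂ] OS.B (EuclideanSpace ℂ (Fin m)))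
    (ψ : F →ₗ[ℂ] OS.B (EuclideanSpace ℂ (Fin l))) (e : E) (f : F) :
    mm φ ψ (e ⊗ₜ[ℂ] f) = sb φ e ⊗ₜ[ℂ] sb ψ f := rfl

private theorem tens_bound {E F : OS} (t : E ⊗[ℂ] F) {ν : Type} [Fintype ν] [DecidableEq ν] (i j : ν) :
    ∃ C : ℝ, ∀ (m l : ℕ) (φ : E →ₗ[ℂ] OS.B (EuclideanSpace ℂ (Fin m)))
      (ψ : F →ₗ[ℂ] OS.B (EuclideanSpace ℂ (Fin l))), IsCC φ → IsCC ψ →
      ‖toMat (Matrix.single i j (mm φ ψ t))‖ ≤ C := by
  induction t using TensorProduct.induction_on with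
  | zero =>
    refine ⟨0, fun m l φ ψ _ _ => ?_⟩
    rw [map_zero, Matrix.single_zero, toMat_zero, norm_zero]
  | tmul e f =>
    refine ⟨‖e‖ * ‖f‖, fun m l φ ψ hφ hψ => ?_⟩
    rw [mm_tmul]
    refine (norm_toMat_single i j _ _).trans ?_
    exact mul_le_mul (hφ.norm_le e) (hψ.norm_le f) (norm_nonneg _) (norm_nonneg _)
  | add x y hx hy =>
    obtain ⟨C, hC⟩ := hx
    obtain ⟨C', hC'⟩ := hy
    refine ⟨C + C', fun m l φ ψ hφ hψ => ?_⟩
    rw [map_add, Matrix.single_add, toMat_add]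
    exact (norm_add_le _ _).trans (add_le_add (hC m l φ ψ hφ hψ) (hC' m l φ ψ hφ hψ))

theorem mn_nonneg (E F : OS) (n : ℕ) (u : Matrix (Fin n) (Fin n) (E ⊗[ℂ] F)) :
    0 ≤ mn E F n u := by
  apply Real.sSup_nonneg
  rintro r ⟨m, l, φ, ψ, _, _, rfl⟩
  exact norm_nonneg _

theorem mn_bddAbove (E F : OS) (n : ℕ) (u : Matrix (Fin n) (Fin n) (E ⊗[ℂ] F)) :
    BddAbove {r | ∃ (m l : ℕ) (φ : E →ₗ[ℂ] OS.B (EuclideanSpace ℂ (Fin m)))
      (ψ : F →ₗ[ℂ] OS.B (EuclideanSpace ℂ (Fin l))), IsCC φ ∧ IsCC ψ ∧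
      r = ‖toMat (u.map (TensorProduct.map (Submodule.subtype _ ∘ₗ φ)
        (Submodule.subtype _ ∘ₗ ψ)))‖} := by
  choose C hC using fun (i j : Fin n) => tens_bound (u i j) i j
  refine ⟨∑ i, ∑ j, C i j, ?_⟩
  rintro r ⟨m, l, φ, ψ, hφ, hψ, rfl⟩
  change ‖toMat (u.map (mm φ ψ))‖ ≤ _
  rw [Matrix.matrix_eq_sum_single (u.map (mm φ ψ)), toMat_sum]
  refine (norm_sum_le _ _).trans (Finset.sum_le_sum fun i _ => ?_)
  rw [toMat_sum]
  refine (norm_sum_le _ _).trans (Finset.sum_le_sum fun j _ => ?_)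
  exact hC i j m l φ ψ hφ hψ

private theorem isCC_zero (E F : OS) : IsCC (0 : E →ₗ[ℂ] F) := by
  intro n x
  have h1 : x.map (0 : E →ₗ[ℂ] F) = 0 := by
    ext i j
    simp
  rw [h1, F.nrm_zero]
  exact E.nrm_nonneg x

private theorem mn_le {E F : OS} {n : ℕ} {u : Matrix (Fin n) (Fin n) (E ⊗[ℂ] F)} {C : ℝ}
    (h : ∀ (m l : ℕ) (φ : E →ₗ[ℂ] OS.B (EuclideanSpace ℂ (Fin m)))
      (ψ : F →ₗ[ℂ] OS.B (EuclideanSpace ℂ (Fin l))), IsCC φ → IsCC ψ →
      ‖toMat (u.map (mm φ ψ))‖ ≤ C) : mn E F n u ≤ C := by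
  refine csSup_le ⟨_, 0, 0, 0, 0, isCC_zero _ _, isCC_zero _ _, rfl⟩ ?_
  rintro r ⟨m, l, φ, ψ, hφ, hψ, rfl⟩
  exact h m l φ ψ hφ hψ

private theorem le_mn {E F : OS} {n : ℕ} (u : Matrix (Fin n) (Fin n) (E ⊗[ℂ] F)) {m l : ℕ}
    {φ : E →ₗ[ℂ] OS.B (EuclideanSpace ℂ (Fin m))} {ψ : F →ₗ[ℂ] OS.B (EuclideanSpace ℂ (Fin l))}
    (hφ : IsCC φ) (hψ : IsCC ψ) : ‖toMat (u.map (mm φ ψ))‖ ≤ mn E F n u :=
  le_csSup (mn_bddAbove E F n u) ⟨m, l, φ, ψ, hφ, hψ, rfl⟩

private theorem map_comp_aux {E E' F F' : OS} {m l : ℕ} (S : E →ₗ[ℂ] E') (T : F →ₗ[ℂ] F')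
    (φ : E' →ₗ[ℂ] OS.B (EuclideanSpace ℂ (Fin m))) (ψ : F' →ₗ[ℂ] OS.B (EuclideanSpace ℂ (Fin l)))
    {n : ℕ} (u : Matrix (Fin n) (Fin n) (E ⊗[ℂ] F)) :
    (u.map (TensorProduct.map S T)).map (mm φ ψ) = u.map (mm (φ ∘ₗ S) (ψ ∘ₗ T)) := by
  ext1 i j
  change mm φ ψ (TensorProduct.map S T (u i j)) = mm (φ ∘ₗ S) (ψ ∘ₗ T) (u i j)
  generalize u i j = t
  induction t using TensorProduct.induction_on with
  | zero => simp only [map_zero]
  | tmul a b => rfl
  | add x y hx hy =>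
    rw [map_add, map_add, map_add, hx, hy]

theorem mn_uniform : Uniform mn := by
  intro E E' F F' S T hS hT n u
  refine mn_le fun m l φ ψ hφ hψ => ?_
  rw [map_comp_aux]
  exact le_mn u (hφ.comp hS) (hψ.comp hT)

private noncomputable def LL {m l : ℕ} (i k : Fin m × Fin l) : Mat m ⊗[ℂ] Mat l →ₗ[ℂ] ℂ :=
  TensorProduct.lift (LinearMap.mk₂ ℂ
    (fun (a : Mat m) (b : Mat l) => a (EuclideanSpace.single k.1 1) i.1 *
      b (EuclideanSpace.single k.2 1) i.2)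
    (by intros; simp [add_mul]) (by intros; simp [mul_assoc])
    (by intros; simp [mul_add]) (by intros; simp [mul_left_comm]))

private theorem LL_comm {m l : ℕ} (i k : Fin m × Fin l) (t : Mat m ⊗[ℂ] Mat l) :
    LL (i.2, i.1) (k.2, k.1) (TensorProduct.comm ℂ (Mat m) (Mat l) t) = LL i k t := by
  induction t using TensorProduct.induction_on with
  | zero => rw [LinearEquiv.map_zero, LinearMap.map_zero, LinearMap.map_zero]
  | tmul a b =>
    rw [TensorProduct.comm_tmul]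
    exact mul_comm _ _
  | add x y hx hy =>
    rw [LinearEquiv.map_add, LinearMap.map_add, LinearMap.map_add, hx, hy]

private theorem toMat_comm {ν : Type} {m l : ℕ} (w : Matrix ν ν (Mat m ⊗[ℂ] Mat l)) :
    toMat (w.map (TensorProduct.comm ℂ (Mat m) (Mat l))) =
      (toMat w).submatrix ((Equiv.refl ν).prodCongr (Equiv.prodComm _ _))
        ((Equiv.refl ν).prodCongr (Equiv.prodComm _ _)) := by
  ext i k
  exact LL_comm (i.2.2, i.2.1) (k.2.2, k.2.1) (w i.1 k.1)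

private theorem mm_comm {E F : OS} {m l : ℕ} (φ : F →ₗ[ℂ] OS.B (EuclideanSpace ℂ (Fin m)))
    (ψ : E →ₗ[ℂ] OS.B (EuclideanSpace ℂ (Fin l))) (t : E ⊗[ℂ] F) :
    mm φ ψ (TensorProduct.comm ℂ E F t) = TensorProduct.comm ℂ (Mat l) (Mat m) (mm ψ φ t) := by
  induction t using TensorProduct.induction_on with
  | zero => rw [LinearEquiv.map_zero, LinearMap.map_zero, LinearMap.map_zero, LinearEquiv.map_zero]
  | tmul a b => rfl
  | add x y hx hy =>
    rw [LinearEquiv.map_add, LinearMap.map_add, LinearMap.map_add, LinearEquiv.map_add, hx, hy]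

private theorem mn_comm_le (E F : OS) (n : ℕ) (u : Matrix (Fin n) (Fin n) (E ⊗[ℂ] F)) :
    mn F E n (u.map (TensorProduct.comm ℂ E F)) ≤ mn E F n u := by
  refine mn_le fun m l φ ψ hφ hψ => ?_
  refine le_trans ?_ (le_mn u hψ hφ)
  have h1 : (u.map (TensorProduct.comm ℂ E F)).map (mm φ ψ) =
      (u.map (mm ψ φ)).map (TensorProduct.comm ℂ (Mat l) (Mat m)) := by
    ext1 i j
    exact mm_comm φ ψ (u i j)
  rw [h1, toMat_comm]
  exact l2_submatrix_le _ _ _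

theorem tr_mn : tr mn = mn := by
  funext E F n u
  refine le_antisymm (mn_comm_le E F n u) ?_
  have h1 := mn_comm_le F E n (u.map (TensorProduct.comm ℂ E F))
  have h2 : (u.map (TensorProduct.comm ℂ E F)).map (TensorProduct.comm ℂ F E) = u := by
    ext1 i j
    exact (TensorProduct.comm ℂ E F).symm_apply_apply (u i j)
  rw [h2] at h1
  exact h1

theorem lInj_mn : lInj mn = mn := by
  funext E F n u
  refine le_antisymm (mn_uniform E E.full F F E.incl LinearMap.id E.isCC_incl (isCC_id F) n u) ?_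
  refine mn_le fun m l φ ψ hφ hψ => ?_
  obtain ⟨φ', hφ', hext⟩ := witt_fin E m φ hφ
  refine le_trans (le_of_eq ?_) (le_mn (u.map (TensorProduct.map E.incl LinearMap.id)) hφ' hψ)
  rw [map_comp_aux, hext, LinearMap.comp_id]

end OST
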