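import Pool.Agent.OST.Hulls
import Pool.Agent.OST.KB
import Pool.Agent.OST.MinN
import Pool.Agent.OST.Abs

/-!
# The theorem
-/

set_option autoImplicit false

namespace OST

open scoped Matrix Matrix.Norms.L2Operator TensorProduct

theorem Good.rInj {α : RN} (h : Good α) : Good (rInj α) := by
  have h2 := (h.tr.lInj).tr
  rw [tr_lInj, tr_tr] at h2
  exact h2

theorem Good.rProj {α : RN} (h : Good α) : Good (rProj α) := by
  have h2 := (h.tr.lProj).tr
  rw [tr_lProj, tr_tr] at h2
  exact h2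

theorem tr_rInj (α : RN) : tr (rInj α) = lInj (tr α) := by
  have h := tr_lInj (tr α)
  rw [tr_tr] at h
  rw [← h, tr_tr]

theorem tr_rProj (α : RN) : tr (rProj α) = lProj (tr α) := by
  have h := tr_lProj (tr α)
  rw [tr_tr] at h
  rw [← h, tr_tr]

theorem tr_mono {α β : RN} (h : α ≤ β) : tr α ≤ tr β := fun _ _ _ _ => h _ _ _ _

theorem rInj_mono {α β : RN} (h : α ≤ β) : rInj α ≤ rInj β := by
  have h2 := tr_mono (lInj_mono (tr_mono h))
  rwa [tr_lInj, tr_lInj, tr_tr, tr_tr] at h2

theorem rProj_mono {α β : RN} (hα : Good α) (h : α ≤ β) : rProj α ≤ rProj β := by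
  have h2 := tr_mono (lProj_mono hα.tr (tr_mono h))
  rwa [tr_lProj, tr_lProj, tr_tr, tr_tr] at h2

theorem rInj_le {α : RN} (hα : Good α) : rInj α ≤ α := by
  have h2 := tr_mono (lInj_le hα.tr)
  rwa [tr_lInj, tr_tr] at h2

theorem le_rProj {α : RN} (hα : Good α) : α ≤ rProj α := by
  have h2 := tr_mono (le_lProj hα.tr)
  rwa [tr_lProj, tr_tr] at h2

theorem rInj_rInj {α : RN} (hα : Good α) : rInj (rInj α) = rInj α := by
  have h2 := congrArg tr (lInj_lInj hα.tr)
  rwa [tr_lInj, tr_lInj, tr_tr] at h2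

theorem rProj_rProj {α : RN} (hα : Good α) : rProj (rProj α) = rProj α := by
  have h2 := congrArg tr (lProj_lProj hα.tr)
  rwa [tr_lProj, tr_lProj, tr_tr] at h2

theorem rInj_lProj_le {α : RN} (hα : Good α) : rInj (lProj α) ≤ lProj (rInj α) := by
  have h2 := tr_mono (lInj_rProj_le hα.tr)
  rwa [tr_lInj, tr_rProj, tr_rProj, tr_lInj, tr_tr] at h2

/-- The ordered set of the good norms. -/
abbrev GN : Type 1 := {α : RN // Good α}

/-- The system of the hulls. -/
noncomputable def sys : Abs.Sys GN where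
  i a := ⟨lInj a.1, a.2.lInj⟩
  j a := ⟨rInj a.1, a.2.rInj⟩
  p a := ⟨lProj a.1, a.2.lProj⟩
  q a := ⟨rProj a.1, a.2.rProj⟩
  t a := ⟨tr a.1, a.2.tr⟩
  i_mono := fun _ _ h => lInj_mono h
  j_mono := fun _ _ h => rInj_mono h
  p_mono := fun a _ h => lProj_mono a.2 h
  q_mono := fun a _ h => rProj_mono a.2 h
  i_le := fun a => lInj_le a.2
  j_le := fun a => rInj_le a.2
  le_p := fun a => le_lProj a.2
  le_q := fun a => le_rProj a.2
  i_i := fun a => Subtype.ext (lInj_lInj a.2)
  j_j := fun a => Subtype.ext (rInj_rInj a.2)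
  p_p := fun a => Subtype.ext (lProj_lProj a.2)
  q_q := fun a => Subtype.ext (rProj_rProj a.2)
  i_j := fun a => Subtype.ext (lInj_rInj a.1)
  p_q := fun a => Subtype.ext (lProj_rProj a.2)
  i_q := fun a => lInj_rProj_le a.2
  j_p := fun a => rInj_lProj_le a.2
  t_t := fun a => Subtype.ext (tr_tr a.1)
  t_i := fun a => Subtype.ext (tr_lInj a.1)
  t_p := fun a => Subtype.ext (tr_lProj a.1)

theorem good_proj : Good proj := ⟨proj_nonneg, proj_uniform⟩

theorem good_mn : Good mn := ⟨mn_nonneg, mn_uniform⟩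

theorem fam_lift {α₀ : RN} (h₀ : Good α₀) {α : RN} (h : Fam α₀ α) :
    ∃ hα : Good α, Abs.Fam sys ⟨α₀, h₀⟩ ⟨α, hα⟩ := by
  induction h with
  | base => exact ⟨h₀, Abs.Fam.base⟩
  | lInj _ ih =>
    obtain ⟨hα, h⟩ := ih
    exact ⟨hα.lInj, h.i⟩
  | rInj _ ih =>
    obtain ⟨hα, h⟩ := ih
    exact ⟨hα.rInj, h.j⟩
  | lProj _ ih =>
    obtain ⟨hα, h⟩ := ih
    exact ⟨hα.lProj, h.p⟩
  | rProj _ ih =>
    obtain ⟨hα, h⟩ := ih
    exact ⟨hα.rProj, h.q⟩

theorem symm_iff (α : RN) : Symm α ↔ tr α = α := by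
  constructor
  · intro h
    funext E F n u
    exact h E F n u
  · intro h E F n u
    exact congrFun (congrFun (congrFun (congrFun h E) F) n) u

theorem word_eq (n : ℕ) (b : Bool) :
    (Abs.alt sys ⟨mn, good_mn⟩ n b).1 = word n b := by
  induction n generalizing b with
  | zero => rfl
  | succ n ih =>
    cases b with
    | true =>
      change lInj (rInj (lProj (Abs.alt sys ⟨mn, good_mn⟩ n false).1)) = _
      rw [ih]
      rfl
    | false =>
      change lInj (rInj (rProj (Abs.alt sys ⟨mn, good_mn⟩ n true).1)) = _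
      rw [ih]
      rfl

/-- Every natural norm is uniform. -/
theorem fam_good {α : RN} (h : Fam proj α ∨ Fam mn α) : Good α := by
  rcases h with h | h
  · exact (fam_lift good_proj h).1
  · exact (fam_lift good_mn h).1

/-- **The symmetric members of the family of the projective norm.** -/
theorem proj_fam {α : RN} (h : Fam proj α) :
    Symm α ↔ α = proj ∨ α = inj proj ∨ α = prj (inj proj) := by
  obtain ⟨hα, hf⟩ := fam_lift good_proj h
  constructor
  · intro hs
    have h1 := Abs.proj_family sys (π := ⟨proj, good_proj⟩) (Subtype.ext tr_proj)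
      (Subtype.ext lProj_proj) (Subtype.ext rProj_lInj_proj) hf
      (Subtype.ext ((symm_iff α).1 hs))
    rcases h1 with h1 | h1 | h1
    · exact Or.inl (congrArg Subtype.val h1)
    · exact Or.inr (Or.inl (congrArg Subtype.val h1))
    · exact Or.inr (Or.inr (congrArg Subtype.val h1))
  · have hI : tr (inj proj) = inj proj := by
      have := congrArg Subtype.val (Abs.Sys.t_I sys ⟨proj, good_proj⟩)
      change tr (inj proj) = inj (tr proj) at this
      rw [this, tr_proj]
    rintro (h1 | h1 | h1)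
    · rw [symm_iff, h1, tr_proj]
    · rw [symm_iff, h1, hI]
    · rw [symm_iff, h1]
      have := congrArg Subtype.val (Abs.Sys.t_P sys ⟨inj proj, good_proj.rInj.lInj⟩)
      change tr (prj (inj proj)) = prj (tr (inj proj)) at this
      rw [this, hI]

/-- **The symmetric members of the family of the minimal norm.** -/
theorem mn_fam {α : RN} (h : Fam mn α) (hs : Symm α) :
    α = mn ∨ α = prj mn ∨ α = inj (prj mn) ∨
      ∃ n, 1 ≤ n ∧ α = word n true ∧ word n true = word n false := by
  obtain ⟨hα, hf⟩ := fam_lift good_mn h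
  have h1 := Abs.min_family sys (μ := ⟨mn, good_mn⟩) (Subtype.ext tr_mn)
      (Subtype.ext lInj_mn) hf (Subtype.ext ((symm_iff α).1 hs))
  rcases h1 with h1 | h1 | h1 | ⟨n, hn, h1, h2⟩
  · exact Or.inl (congrArg Subtype.val h1)
  · exact Or.inr (Or.inl (congrArg Subtype.val h1))
  · exact Or.inr (Or.inr (Or.inl (congrArg Subtype.val h1)))
  · right; right; right
    refine ⟨n, hn, ?_, ?_⟩
    · rw [← word_eq]
      exact congrArg Subtype.val h1
    · rw [← word_eq, ← word_eq]
      exact congrArg Subtype.val h2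

end OST
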