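import Pool.Agent.OST.WittFin

/-!
# The extension theorem, maps into `B(K)`

PROOF. Let `φ = F.incl ∘ T : E → B(K)`, `K = F.H`. For a finite dimensional subspace `L` of `K` with an orthonormal basis, `W_L : ℓ²_m → K` the isometry
with range `L`, `φ_L x = W_L* (φ x) W_L` is a complete contraction (`norm_mop_compress_le`) and has an extension
`ψ_L` to `B(H)` by `witt_fin`. Choose an ultrafilter `𝒰` on the finite dimensional subspaces which contains all `{L | L₀ ≤ L}`
(`Ultrafilter.of atTop`, the order of `Submodule`, or on `Finset K`). For `x ∈ B(H)`, `ξ, η ∈ K`: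
`B_x(ξ, η) = lim_𝒰 ⟪W_L W_L* ξ, …⟫ = lim_𝒰 ⟪W_L* ξ, ψ_L(x) W_L* η⟫` (bounded by `‖x‖ ‖ξ‖ ‖η‖`, so the limit exists:
`IsCompact.ultrafilter_le_nhds` for closed balls of `ℂ`). It is sesquilinear and bounded, so there is `ψ x ∈ B(K)` with
`⟪ξ, ψ x η⟫ = B_x(ξ, η)` (`LinearMap.mkContinuous₂`, `InnerProductSpace.toDual`, `ContinuousLinearMap.adjoint`, …), linear in `x`. Estimates of
finite sums pass to the limit, so `ψ` is a complete contraction; for `x ∈ E` and `L ∋ ξ, η` the expression is `⟪ξ, φ x η⟫`.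
-/

set_option autoImplicit false

namespace OST

open scoped Matrix Matrix.Norms.L2Operator InnerProductSpace

open Filter Topology

private theorem exists_wlim {I K : Type} [NormedAddCommGroup K] [InnerProductSpace ℂ K]
    [CompleteSpace K] (U : Ultrafilter I) (u : I → K) (C : ℝ) (hC0 : 0 ≤ C)
    (hC : ∀ i, ‖u i‖ ≤ C) :
    ∃ y : K, ‖y‖ ≤ C ∧ ∀ ξ : K, Tendsto (fun i => ⟪ξ, u i⟫_ℂ) U (𝓝 ⟪ξ, y⟫_ℂ) := by
  have h1 : ∀ ξ : K, ∃ l : ℂ, ‖l‖ ≤ C * ‖ξ‖ ∧ Tendsto (fun i => ⟪u i, ξ⟫_ℂ) U (𝓝 l) := by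
    intro ξ
    have h2 : IsCompact (Metric.closedBall (0 : ℂ) (C * ‖ξ‖)) := isCompact_closedBall _ _
    obtain ⟨l, hl, hl'⟩ := h2.ultrafilter_le_nhds (U.map (fun i => ⟪u i, ξ⟫_ℂ)) (by
      rw [le_principal_iff, Ultrafilter.mem_coe, Ultrafilter.mem_map]
      refine univ_mem' (fun i => ?_)
      show ⟪u i, ξ⟫_ℂ ∈ Metric.closedBall (0 : ℂ) (C * ‖ξ‖)
      rw [mem_closedBall_zero_iff]
      exact (norm_inner_le_norm _ _).trans (mul_le_mul_of_nonneg_right (hC i) (norm_nonneg _)))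
    exact ⟨l, mem_closedBall_zero_iff.1 hl, hl'⟩
  choose l hl hl' using h1
  let f₀ : K →ₗ[ℂ] ℂ :=
    { toFun := l
      map_add' := fun ξ ξ' => by
        refine tendsto_nhds_unique (hl' (ξ + ξ')) ?_
        have := (hl' ξ).add (hl' ξ')
        refine this.congr (fun i => ?_)
        rw [inner_add_right]
      map_smul' := fun c ξ => by
        refine tendsto_nhds_unique (hl' (c • ξ)) ?_
        have := (hl' ξ).const_mul c
        refine this.congr (fun i => ?_)
        rw [inner_smul_right] }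
  let f : K →L[ℂ] ℂ := f₀.mkContinuous C hl
  have hf : ‖f‖ ≤ C := f₀.mkContinuous_norm_le hC0 hl
  refine ⟨(InnerProductSpace.toDual ℂ K).symm f, ?_, fun ξ => ?_⟩
  · rw [LinearIsometryEquiv.norm_map]
    exact hf
  · have h3 : ⟪(InnerProductSpace.toDual ℂ K).symm f, ξ⟫_ℂ = l ξ :=
      InnerProductSpace.toDual_symm_apply
    have h4 : Tendsto (fun i => ⟪u i, ξ⟫_ℂ) U (𝓝 ⟪(InnerProductSpace.toDual ℂ K).symm f, ξ⟫_ℂ) := by
      rw [h3]
      exact hl' ξ
    have h5 := (Complex.continuous_conj.tendsto _).comp h4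
    rw [inner_conj_symm] at h5
    refine h5.congr (fun i => ?_)
    exact inner_conj_symm _ _

private theorem wlim_unique {I K : Type} [NormedAddCommGroup K] [InnerProductSpace ℂ K]
    {U : Ultrafilter I} {u : I → K} {y y' : K}
    (h : ∀ ξ : K, Tendsto (fun i => ⟪ξ, u i⟫_ℂ) U (𝓝 ⟪ξ, y⟫_ℂ))
    (h' : ∀ ξ : K, Tendsto (fun i => ⟪ξ, u i⟫_ℂ) U (𝓝 ⟪ξ, y'⟫_ℂ)) : y = y' :=
  ext_inner_left ℂ (fun ξ => tendsto_nhds_unique (h ξ) (h' ξ))

private def opL (K : Type) [NormedAddCommGroup K] [InnerProductSpace ℂ K] [CompleteSpace K] :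
    OS.B K →ₗ[ℂ] (K →L[ℂ] K) := (OS.B K).E.subtype

private def mkL (K : Type) [NormedAddCommGroup K] [InnerProductSpace ℂ K] [CompleteSpace K]
    (a : K →L[ℂ] K) : OS.B K := ⟨a, trivial⟩

private theorem mkL_add (K : Type) [NormedAddCommGroup K] [InnerProductSpace ℂ K]
    [CompleteSpace K] (a b : K →L[ℂ] K) : mkL K (a + b) = mkL K a + mkL K b := rfl

private theorem mkL_smul (K : Type) [NormedAddCommGroup K] [InnerProductSpace ℂ K]
    [CompleteSpace K] (c : ℂ) (a : K →L[ℂ] K) : mkL K (c • a) = c • mkL K a := rfl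

private theorem local_ext {E F : OS} {T : E →ₗ[ℂ] F} (hT : IsCC T) (s : Finset F.H) :
    ∃ θ : E.full →ₗ[ℂ] OS.B F.H, IsCC θ ∧ ∀ (x : E) (ξ η : F.H), ξ ∈ s → η ∈ s →
      ⟪ξ, opL F.H (θ (E.incl x)) η⟫_ℂ = ⟪ξ, (T x : F.H →L[ℂ] F.H) η⟫_ℂ := by
  classical
  let L : Submodule ℂ F.H := Submodule.span ℂ (s : Set F.H)
  haveI : FiniteDimensional ℂ L := FiniteDimensional.span_finset ℂ s
  let b := stdOrthonormalBasis ℂ L
  let m := Module.finrank ℂ L
  let Wi : EuclideanSpace ℂ (Fin m) →ₗᵢ[ℂ] F.H := L.subtypeₗᵢ.comp b.repr.symm.toLinearIsometry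
  let W : EuclideanSpace ℂ (Fin m) →L[ℂ] F.H := Wi.toContinuousLinearMap
  let Wd : F.H →L[ℂ] EuclideanSpace ℂ (Fin m) := ContinuousLinearMap.adjoint W
  have hW : ‖W‖ ≤ 1 := Wi.norm_toContinuousLinearMap_le
  have hWd : ‖Wd‖ ≤ 1 := by
    have : ‖Wd‖ = ‖W‖ := LinearIsometryEquiv.norm_map ContinuousLinearMap.adjoint W
    rw [this]
    exact hW
  have hWW : ∀ v, Wd (W v) = v := by
    intro v
    refine ext_inner_right ℂ (fun w => ?_)
    rw [ContinuousLinearMap.adjoint_inner_left]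
    exact Wi.inner_map_map v w
  have hWs : ∀ ξ ∈ s, W (Wd ξ) = ξ := by
    intro ξ hξ
    have h1 : ξ ∈ L := Submodule.subset_span hξ
    have h2 : W (b.repr ⟨ξ, h1⟩) = ξ := by
      show ((b.repr.symm (b.repr ⟨ξ, h1⟩) : L) : F.H) = ξ
      rw [LinearIsometryEquiv.symm_apply_apply]
    rw [← h2, hWW]
  let φ : E →ₗ[ℂ] OS.B (EuclideanSpace ℂ (Fin m)) :=
    { toFun := fun x => mkL _ (Wd ∘L (T x : F.H →L[ℂ] F.H) ∘L W)
      map_add' := fun x y => by
        rw [← mkL_add, map_add]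
        congr 1
        ext v
        simp
      map_smul' := fun c x => by
        rw [RingHom.id_apply, ← mkL_smul, map_smul]
        congr 1
        ext v
        simp }
  have hφ : IsCC φ := by
    intro n x
    refine le_trans ?_ (hT n x)
    exact norm_mop_compress_le ((x.map T).map (fun e => (e : F.H →L[ℂ] F.H))) W Wd hW hWd
  obtain ⟨ψ, hψ, hψφ⟩ := witt_fin E m φ hφ
  let θ : E.full →ₗ[ℂ] OS.B F.H :=
    { toFun := fun x => mkL _ (W ∘L opL _ (ψ x) ∘L Wd)
      map_add' := fun x y => by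
        rw [← mkL_add, map_add, map_add]
        congr 1
        ext v
        simp
      map_smul' := fun c x => by
        rw [RingHom.id_apply, ← mkL_smul, map_smul, map_smul]
        congr 1
        ext v
        simp }
  refine ⟨θ, ?_, ?_⟩
  · intro n x
    refine le_trans ?_ (hψ n x)
    exact norm_mop_compress_le ((x.map ψ).map (fun e => opL _ e)) Wd W hWd hW
  · intro x ξ η hξ hη
    have h1 : ψ (E.incl x) = φ x := LinearMap.congr_fun hψφ x
    have h2 : opL F.H (θ (E.incl x)) η = W (opL _ (ψ (E.incl x)) (Wd η)) := rfl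
    have h3 : opL _ (φ x) (Wd η) = Wd ((T x : F.H →L[ℂ] F.H) (W (Wd η))) := rfl
    rw [h2, h1, h3, hWs η hη, ← ContinuousLinearMap.adjoint_inner_left W,
      ContinuousLinearMap.adjoint_inner_right W, hWs ξ hξ]

theorem witt {E F : OS} {T : E →ₗ[ℂ] F} (hT : IsCC T) :
    ∃ S : E.full →ₗ[ℂ] F.full, IsCC S ∧ S ∘ₗ E.incl = F.incl ∘ₗ T := by
  classical
  choose θ hθ hθT using fun s : Finset F.H => local_ext hT s
  let U : Ultrafilter (Finset F.H) := Ultrafilter.of atTop
  have hU : (U : Filter (Finset F.H)) ≤ atTop := Ultrafilter.of_le atTop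
  have hbd : ∀ (x : E.full) (η : F.H) (s : Finset F.H),
      ‖opL F.H (θ s x) η‖ ≤ ‖x‖ * ‖η‖ := by
    intro x η s
    refine (ContinuousLinearMap.le_opNorm _ _).trans
      (mul_le_mul_of_nonneg_right ?_ (norm_nonneg _))
    exact (hθ s).norm_le x
  choose Y hYn hY using fun (x : E.full) (η : F.H) =>
    exists_wlim U (fun s => opL F.H (θ s x) η) (‖x‖ * ‖η‖) (by positivity) (hbd x η)
  let Sx : E.full → (F.H →L[ℂ] F.H) := fun x => LinearMap.mkContinuous
    { toFun := Y x
      map_add' := fun η η' => by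
        refine wlim_unique (hY x (η + η')) (fun ξ => ?_)
        rw [inner_add_right]
        refine ((hY x η ξ).add (hY x η' ξ)).congr (fun s => ?_)
        rw [map_add, inner_add_right]
      map_smul' := fun c η => by
        refine wlim_unique (hY x (c • η)) (fun ξ => ?_)
        rw [RingHom.id_apply, inner_smul_right]
        refine ((hY x η ξ).const_mul c).congr (fun s => ?_)
        rw [map_smul, inner_smul_right] } ‖x‖ (hYn x)
  have hSx : ∀ x η, Sx x η = Y x η := fun x η => rfl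
  let S : E.full →ₗ[ℂ] OS.B F.H :=
    { toFun := fun x => mkL _ (Sx x)
      map_add' := fun x y => by
        rw [← mkL_add]
        congr 1
        ext η
        rw [add_apply, hSx, hSx, hSx]
        refine wlim_unique (hY (x + y) η) (fun ξ => ?_)
        rw [inner_add_right]
        refine ((hY x η ξ).add (hY y η ξ)).congr (fun s => ?_)
        rw [map_add, map_add, add_apply, inner_add_right]
      map_smul' := fun c x => by
        rw [RingHom.id_apply, ← mkL_smul]
        congr 1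
        ext η
        rw [smul_apply, hSx, hSx]
        refine wlim_unique (hY (c • x) η) (fun ξ => ?_)
        rw [inner_smul_right]
        refine ((hY x η ξ).const_mul c).congr (fun s => ?_)
        rw [map_smul, map_smul, smul_apply, inner_smul_right] }
  refine ⟨S, ?_, ?_⟩
  · intro n x
    refine norm_mop_le _ (OS.nrm_nonneg _ _) (fun ξ η => ?_)
    have h1 : Tendsto (fun s => ‖∑ i, ∑ j, ⟪ξ i, opL F.H (θ s (x i j)) (η j)⟫_ℂ‖) U
        (𝓝 ‖∑ i, ∑ j, ⟪ξ i, Y (x i j) (η j)⟫_ℂ‖) := by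
      refine Tendsto.norm ?_
      refine tendsto_finsetSum _ (fun i _ => tendsto_finsetSum _ (fun j _ => ?_))
      exact hY (x i j) (η j) (ξ i)
    refine le_of_tendsto h1 (Eventually.of_forall (fun s => ?_))
    refine (norm_sum_inner_le ((x.map (θ s)).map (fun e => opL F.H e)) ξ η).trans ?_
    exact mul_le_mul_of_nonneg_right (mul_le_mul_of_nonneg_right (hθ s n x)
      (Real.sqrt_nonneg _)) (Real.sqrt_nonneg _)
  · refine LinearMap.ext (fun x => ?_)
    show mkL F.H (Sx (E.incl x)) = mkL F.H (T x : F.H →L[ℂ] F.H)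
    congr 1
    ext η
    rw [hSx]
    refine wlim_unique (hY (E.incl x) η) (fun ξ => ?_)
    refine tendsto_const_nhds.congr' ?_
    have h1 : ∀ᶠ s in (U : Filter (Finset F.H)), ({ξ, η} : Finset F.H) ≤ s :=
      (eventually_ge_atTop ({ξ, η} : Finset F.H)).filter_mono hU
    filter_upwards [h1] with s hs
    exact (hθT s x ξ η (hs (by simp)) (hs (by simp))).symm

end OST
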