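import Pool.Agent.OST.UnivB
import Pool.Agent.OST.Witt

/-!
# The calculus of hulls, left version, part A

* `Matrix.map_map`, `TensorProduct.map_map`/`TensorProduct.map_comp`.
* `Good.lInj`: `witt` (functoriality of `B(H)`); `Good.lProj`: `exists_ZZ_map`.
* `lInj_le`: `E.isCC_incl`; `le_lProj`: `isCC_qq`, `le_csInf` (the set is nonempty: `map_qq_surjective`).
-/

set_option autoImplicit false

namespace OST

open scoped Matrix.Norms.L2Operator TensorProduct

theorem map_qq_surjective (E F : OS) {n : ℕ} (u : Matrix (Fin n) (Fin n) (E ⊗[ℂ] F)) :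
    ∃ v : Matrix (Fin n) (Fin n) (ZZ E ⊗[ℂ] F),
      v.map (TensorProduct.map (qq E) LinearMap.id) = u := by
  have hs : Function.Surjective (TensorProduct.map (qq E) (LinearMap.id : F →ₗ[ℂ] F)) :=
    TensorProduct.map_surjective (qq_surjective E) Function.surjective_id
  choose f hf using hs
  refine ⟨u.map f, ?_⟩
  ext i j
  simp only [Matrix.map_apply]
  exact hf _

private theorem comm_map {A A' B B' : Type} [AddCommGroup A] [Module ℂ A] [AddCommGroup A']
    [Module ℂ A'] [AddCommGroup B] [Module ℂ B] [AddCommGroup B'] [Module ℂ B']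
    (S : A →ₗ[ℂ] A') (T : B →ₗ[ℂ] B') (t : A ⊗[ℂ] B) :
    TensorProduct.comm ℂ A' B' (TensorProduct.map S T t) =
      TensorProduct.map T S (TensorProduct.comm ℂ A B t) := by
  induction t with
  | zero => simp only [map_zero]
  | tmul a b => simp only [TensorProduct.map_tmul, TensorProduct.comm_tmul]
  | add x y hx hy => simp only [map_add, hx, hy]

private theorem comm_comm {A B : Type} [AddCommGroup A] [Module ℂ A] [AddCommGroup B]
    [Module ℂ B] (t : A ⊗[ℂ] B) :
    TensorProduct.comm ℂ B A (TensorProduct.comm ℂ A B t) = t := by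
  induction t with
  | zero => simp only [map_zero]
  | tmul a b => simp only [TensorProduct.comm_tmul]
  | add x y hx hy => simp only [map_add, hx, hy]

private theorem mat_comm_map {A A' B B' : Type} [AddCommGroup A] [Module ℂ A] [AddCommGroup A']
    [Module ℂ A'] [AddCommGroup B] [Module ℂ B] [AddCommGroup B'] [Module ℂ B'] {n : ℕ}
    (S : A →ₗ[ℂ] A') (T : B →ₗ[ℂ] B') (u : Matrix (Fin n) (Fin n) (A ⊗[ℂ] B)) :
    (u.map (TensorProduct.map S T)).map (TensorProduct.comm ℂ A' B') =
      (u.map (TensorProduct.comm ℂ A B)).map (TensorProduct.map T S) := by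
  ext i j
  simp only [Matrix.map_apply]
  exact comm_map S T _

private theorem mat_comm_comm {A B : Type} [AddCommGroup A] [Module ℂ A] [AddCommGroup B]
    [Module ℂ B] {n : ℕ} (u : Matrix (Fin n) (Fin n) (A ⊗[ℂ] B)) :
    (u.map (TensorProduct.comm ℂ A B)).map (TensorProduct.comm ℂ B A) = u := by
  ext i j
  simp only [Matrix.map_apply]
  exact comm_comm _

private theorem mat_map_map {A A' A'' B B' B'' : Type} [AddCommGroup A] [Module ℂ A]
    [AddCommGroup A'] [Module ℂ A'] [AddCommGroup A''] [Module ℂ A'']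
    [AddCommGroup B] [Module ℂ B] [AddCommGroup B'] [Module ℂ B']
    [AddCommGroup B''] [Module ℂ B''] {n : ℕ}
    (S : A →ₗ[ℂ] A') (T : B →ₗ[ℂ] B') (S' : A' →ₗ[ℂ] A'') (T' : B' →ₗ[ℂ] B'')
    (u : Matrix (Fin n) (Fin n) (A ⊗[ℂ] B)) :
    (u.map (TensorProduct.map S T)).map (TensorProduct.map S' T') =
      u.map (TensorProduct.map (S' ∘ₗ S) (T' ∘ₗ T)) := by
  ext i j
  simp only [Matrix.map_apply]
  rw [TensorProduct.map_comp, LinearMap.comp_apply]

theorem tr_tr (α : RN) : tr (tr α) = α := by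
  funext E F n u
  show α E F n ((u.map (TensorProduct.comm ℂ E F)).map (TensorProduct.comm ℂ F E)) = α E F n u
  rw [mat_comm_comm]

theorem tr_lInj (α : RN) : tr (lInj α) = rInj (tr α) := by
  funext E F n u
  show α F.full E n ((u.map (TensorProduct.comm ℂ E F)).map
      (TensorProduct.map F.incl LinearMap.id)) =
    α F.full E n ((u.map (TensorProduct.map LinearMap.id F.incl)).map
      (TensorProduct.comm ℂ E F.full))
  rw [mat_comm_map]

theorem tr_lProj (α : RN) : tr (lProj α) = rProj (tr α) := by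
  funext E F n u
  show sInf {r | ∃ v : Matrix (Fin n) (Fin n) (ZZ F ⊗[ℂ] E),
      v.map (TensorProduct.map (qq F) LinearMap.id) = u.map (TensorProduct.comm ℂ E F) ∧
        r = α (ZZ F) E n v} =
    sInf {r | ∃ v : Matrix (Fin n) (Fin n) (E ⊗[ℂ] ZZ F),
      v.map (TensorProduct.map LinearMap.id (qq F)) = u ∧
        r = α (ZZ F) E n (v.map (TensorProduct.comm ℂ E (ZZ F)))}
  congr 1
  ext r
  constructor
  · rintro ⟨v, hv, rfl⟩
    refine ⟨v.map (TensorProduct.comm ℂ (ZZ F) E), ?_, ?_⟩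
    · rw [← mat_comm_map, hv, mat_comm_comm]
    · rw [mat_comm_comm]
  · rintro ⟨v, hv, rfl⟩
    refine ⟨v.map (TensorProduct.comm ℂ E (ZZ F)), ?_, rfl⟩
    rw [← mat_comm_map, hv]

theorem Good.tr {α : RN} (h : Good α) : Good (tr α) := by
  refine ⟨fun E F n u => h.nonneg F E n _, ?_⟩
  intro E E' F F' S T hS hT n u
  show α F' E' n ((u.map (TensorProduct.map S T)).map (TensorProduct.comm ℂ E' F')) ≤
    α F E n (u.map (TensorProduct.comm ℂ E F))
  rw [mat_comm_map]
  exact h.uniform F F' E E' T S hT hS n _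

theorem Good.lInj {α : RN} (h : Good α) : Good (lInj α) := by
  refine ⟨fun E F n u => h.nonneg E.full F n _, ?_⟩
  intro E E' F F' S T hS hT n u
  obtain ⟨S', hS', hSS⟩ := witt hS
  show α E'.full F' n ((u.map (TensorProduct.map S T)).map
      (TensorProduct.map E'.incl LinearMap.id)) ≤
    α E.full F n (u.map (TensorProduct.map E.incl LinearMap.id))
  have h1 : (u.map (TensorProduct.map S T)).map (TensorProduct.map E'.incl LinearMap.id) =
      (u.map (TensorProduct.map E.incl LinearMap.id)).map (TensorProduct.map S' T) := by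
    rw [mat_map_map, mat_map_map, hSS, LinearMap.comp_id, LinearMap.id_comp]
  rw [h1]
  exact h.uniform E.full E'.full F F' S' T hS' hT n _

private theorem bdd {α : RN} (h : Good α) (E F : OS) (n : ℕ)
    (u : Matrix (Fin n) (Fin n) (E ⊗[ℂ] F)) :
    BddBelow {r | ∃ v : Matrix (Fin n) (Fin n) (ZZ E ⊗[ℂ] F),
      v.map (TensorProduct.map (qq E) LinearMap.id) = u ∧ r = α (ZZ E) F n v} := by
  refine ⟨0, ?_⟩
  rintro r ⟨v, _, rfl⟩
  exact h.nonneg _ _ _ _

private theorem ne (α : RN) (E F : OS) (n : ℕ)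
    (u : Matrix (Fin n) (Fin n) (E ⊗[ℂ] F)) :
    {r | ∃ v : Matrix (Fin n) (Fin n) (ZZ E ⊗[ℂ] F),
      v.map (TensorProduct.map (qq E) LinearMap.id) = u ∧ r = α (ZZ E) F n v}.Nonempty := by
  obtain ⟨v, hv⟩ := map_qq_surjective E F u
  exact ⟨_, v, hv, rfl⟩

theorem Good.lProj {α : RN} (h : Good α) : Good (lProj α) := by
  refine ⟨fun E F n u => Real.sInf_nonneg ?_, ?_⟩
  · rintro r ⟨v, _, rfl⟩
    exact h.nonneg _ _ _ _
  intro E E' F F' S T hS hT n u
  obtain ⟨S', hS', hSS⟩ := exists_ZZ_map hS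
  refine le_csInf (ne α E F n u) ?_
  rintro r ⟨v, hv, rfl⟩
  refine (csInf_le (bdd h E' F' n _) ⟨v.map (TensorProduct.map S' T), ?_, rfl⟩).trans
    (h.uniform _ _ _ _ S' T hS' hT n v)
  rw [mat_map_map, hSS, LinearMap.id_comp, ← hv, mat_map_map, LinearMap.comp_id]

theorem lInj_mono {α β : RN} (h : α ≤ β) : lInj α ≤ lInj β :=
  fun E F n u => h E.full F n _

theorem lProj_mono {α β : RN} (hα : Good α) (h : α ≤ β) : lProj α ≤ lProj β := by
  intro E F n u
  refine le_csInf (ne β E F n u) ?_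
  rintro r ⟨v, hv, rfl⟩
  exact (csInf_le (bdd hα E F n u) ⟨v, hv, rfl⟩).trans (h (ZZ E) F n v)

theorem lInj_le {α : RN} (hα : Good α) : lInj α ≤ α :=
  fun E F n u => hα.uniform E E.full F F E.incl LinearMap.id E.isCC_incl (isCC_id F) n u

theorem le_lProj {α : RN} (hα : Good α) : α ≤ lProj α := by
  intro E F n u
  refine le_csInf (ne α E F n u) ?_
  rintro r ⟨v, rfl, rfl⟩
  exact hα.uniform (ZZ E) E F F (qq E) LinearMap.id (isCC_qq E) (isCC_id F) n v

end OST
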