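import Pool.Agent.OST.HullA

/-!
# The calculus of hulls, left version, part B

* `lInj_lInj`: definitional up to `Matrix.map_map` (`E.full.full = E.full`, and `E.full.incl` is the identity); or:
  `≤` from `lInj_le`, `≥`: the map `E.full.full → E.full`, `x ↦ x`, is a complete contraction.
* `lProj_lProj`: `exists_ZZ_comul`.
* `lProj_rProj`: both sides are the infimum over the lifts to `ZZ E ⊗ ZZ F`.
* `lInj_rProj_le`: inf over a larger set (`csInf_le_csInf`, bounded below by `0`).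
-/

set_option autoImplicit false

namespace OST

open scoped Matrix.Norms.L2Operator TensorProduct

private theorem mat_map_map' {A A' A'' B B' B'' : Type} [AddCommGroup A] [Module ℂ A]
    [AddCommGroup A'] [Module ℂ A'] [AddCommGroup A''] [Module ℂ A'']
    [AddCommGroup B] [Module ℂ B] [AddCommGroup B'] [Module ℂ B']
    [AddCommGroup B''] [Module ℂ B''] {n : ℕ}
    (S : A →ₗ[ℂ] A') (T : B →ₗ[ℂ] B') (S' : A' →ₗ[ℂ] A'') (T' : B' →ₗ[ℂ] B'')
    (u : Matrix (Fin n) (Fin n) (A ⊗[ℂ] B)) :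
    (u.map (TensorProduct.map S T)).map (TensorProduct.map S' T') =
      u.map (TensorProduct.map (S' ∘ₗ S) (T' ∘ₗ T)) := by
  ext i j
  simp only [Matrix.map_apply]
  rw [TensorProduct.map_comp, LinearMap.comp_apply]

theorem lInj_lInj {α : RN} (hα : Good α) : lInj (lInj α) = lInj α := by
  refine le_antisymm (lInj_le hα.lInj) ?_
  intro E F n u
  show α E.full F n (u.map (TensorProduct.map E.incl LinearMap.id)) ≤
    α E.full.full F n ((u.map (TensorProduct.map E.incl LinearMap.id)).map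
      (TensorProduct.map E.full.incl LinearMap.id))
  let J : E.full.full →ₗ[ℂ] E.full := LinearMap.id
  have hJ : IsCC J := fun m x => le_of_eq rfl
  have hJ' : J ∘ₗ E.full.incl = LinearMap.id := LinearMap.ext fun x => rfl
  have h1 := hα.uniform E.full.full E.full F F J LinearMap.id hJ (isCC_id F) n
    ((u.map (TensorProduct.map E.incl LinearMap.id)).map
      (TensorProduct.map E.full.incl LinearMap.id))
  rw [mat_map_map', hJ', LinearMap.id_comp, TensorProduct.map_id] at h1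
  have h2 : (u.map (TensorProduct.map E.incl LinearMap.id)).map
      (LinearMap.id : (E.full ⊗[ℂ] F) →ₗ[ℂ] (E.full ⊗[ℂ] F)) =
      u.map (TensorProduct.map E.incl LinearMap.id) := by
    ext i j
    rfl
  rw [h2] at h1
  exact h1

private theorem bddP {α : RN} (h : Good α) (E F : OS) (n : ℕ)
    (u : Matrix (Fin n) (Fin n) (E ⊗[ℂ] F)) :
    BddBelow {r | ∃ v : Matrix (Fin n) (Fin n) (ZZ E ⊗[ℂ] F),
      v.map (TensorProduct.map (qq E) LinearMap.id) = u ∧ r = α (ZZ E) F n v} := by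
  refine ⟨0, ?_⟩
  rintro r ⟨v, _, rfl⟩
  exact h.nonneg _ _ _ _

theorem lProj_lProj {α : RN} (hα : Good α) : lProj (lProj α) = lProj α := by
  refine le_antisymm ?_ (le_lProj hα.lProj)
  intro E F n u
  obtain ⟨v₀, hv₀⟩ := map_qq_surjective E F u
  refine le_csInf ⟨_, v₀, hv₀, rfl⟩ ?_
  rintro r ⟨v, hv, rfl⟩
  refine (csInf_le (bddP hα.lProj E F n u) ⟨v, hv, rfl⟩).trans ?_
  obtain ⟨S, hS, hSS⟩ := exists_ZZ_comul E
  refine (csInf_le (bddP hα (ZZ E) F n v) ⟨v.map (TensorProduct.map S LinearMap.id), ?_, rfl⟩).trans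
    (hα.uniform _ _ _ _ S LinearMap.id hS (isCC_id F) n v)
  rw [mat_map_map', hSS, LinearMap.id_comp, TensorProduct.map_id]
  ext i j
  rfl

theorem lInj_rInj (α : RN) : lInj (rInj α) = rInj (lInj α) := by
  funext E F n u
  show α E.full F.full n ((u.map (TensorProduct.map E.incl LinearMap.id)).map
      (TensorProduct.map LinearMap.id F.incl)) =
    α E.full F.full n ((u.map (TensorProduct.map LinearMap.id F.incl)).map
      (TensorProduct.map E.incl LinearMap.id))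
  rw [mat_map_map', mat_map_map', LinearMap.id_comp, LinearMap.comp_id, LinearMap.id_comp,
    LinearMap.comp_id]

private theorem surjR (E F : OS) {n : ℕ} (u : Matrix (Fin n) (Fin n) (E ⊗[ℂ] F)) :
    ∃ v : Matrix (Fin n) (Fin n) (E ⊗[ℂ] ZZ F),
      v.map (TensorProduct.map LinearMap.id (qq F)) = u := by
  have hs : Function.Surjective (TensorProduct.map (LinearMap.id : E →ₗ[ℂ] E) (qq F)) :=
    TensorProduct.map_surjective Function.surjective_id (qq_surjective F)
  choose f hf using hs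
  refine ⟨u.map f, ?_⟩
  ext i j
  simp only [Matrix.map_apply]
  exact hf _

theorem lProj_rProj {α : RN} (hα : Good α) : lProj (rProj α) = rProj (lProj α) := by
  funext E F n u
  have hb1 : ∀ (E F : OS) (n : ℕ) (u : Matrix (Fin n) (Fin n) (E ⊗[ℂ] F)),
      BddBelow {r | ∃ v : Matrix (Fin n) (Fin n) (E ⊗[ℂ] ZZ F),
        v.map (TensorProduct.map LinearMap.id (qq F)) = u ∧ r = α E (ZZ F) n v} := by
    intro E F n u
    refine ⟨0, ?_⟩
    rintro r ⟨v, _, rfl⟩
    exact hα.nonneg _ _ _ _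
  have hr0 : ∀ (E F : OS) (n : ℕ) (u : Matrix (Fin n) (Fin n) (E ⊗[ℂ] F)), 0 ≤ rProj α E F n u := by
    intro E F n u
    refine Real.sInf_nonneg ?_
    rintro r ⟨v, _, rfl⟩
    exact hα.nonneg _ _ _ _
  have hl0 : ∀ (E F : OS) (n : ℕ) (u : Matrix (Fin n) (Fin n) (E ⊗[ℂ] F)), 0 ≤ lProj α E F n u :=
    hα.lProj.nonneg
  have hb2 : BddBelow {r | ∃ v : Matrix (Fin n) (Fin n) (ZZ E ⊗[ℂ] F),
        v.map (TensorProduct.map (qq E) LinearMap.id) = u ∧ r = rProj α (ZZ E) F n v} := by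
    refine ⟨0, ?_⟩
    rintro r ⟨v, _, rfl⟩
    exact hr0 _ _ _ _
  have hb3 : BddBelow {r | ∃ v : Matrix (Fin n) (Fin n) (E ⊗[ℂ] ZZ F),
        v.map (TensorProduct.map LinearMap.id (qq F)) = u ∧ r = lProj α E (ZZ F) n v} := by
    refine ⟨0, ?_⟩
    rintro r ⟨v, _, rfl⟩
    exact hl0 _ _ _ _
  apply le_antisymm
  · obtain ⟨v₀, hv₀⟩ := surjR E F u
    refine le_csInf ⟨_, v₀, hv₀, rfl⟩ ?_
    rintro r ⟨v, hv, rfl⟩
    obtain ⟨w₀, hw₀⟩ := map_qq_surjective E (ZZ F) v
    refine le_csInf ⟨_, w₀, hw₀, rfl⟩ ?_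
    rintro r ⟨w, hw, rfl⟩
    refine (csInf_le hb2 ⟨w.map (TensorProduct.map LinearMap.id (qq F)), ?_, rfl⟩).trans
      (csInf_le (hb1 _ _ _ _) ⟨w, rfl, rfl⟩)
    rw [mat_map_map', LinearMap.comp_id, LinearMap.id_comp, ← hv, ← hw, mat_map_map',
      LinearMap.id_comp, LinearMap.comp_id]
  · obtain ⟨v₀, hv₀⟩ := map_qq_surjective E F u
    refine le_csInf ⟨_, v₀, hv₀, rfl⟩ ?_
    rintro r ⟨v, hv, rfl⟩
    obtain ⟨w₀, hw₀⟩ := surjR (ZZ E) F v
    refine le_csInf ⟨_, w₀, hw₀, rfl⟩ ?_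
    rintro r ⟨w, hw, rfl⟩
    refine (csInf_le hb3 ⟨w.map (TensorProduct.map (qq E) LinearMap.id), ?_, rfl⟩).trans
      (csInf_le (bddP hα _ _ _ _) ⟨w, rfl, rfl⟩)
    rw [mat_map_map', LinearMap.comp_id, LinearMap.id_comp, ← hv, ← hw, mat_map_map',
      LinearMap.id_comp, LinearMap.comp_id]

theorem lInj_rProj_le {α : RN} (hα : Good α) : lInj (rProj α) ≤ rProj (lInj α) := by
  intro E F n u
  obtain ⟨v₀, hv₀⟩ := surjR E F u
  refine le_csInf ⟨_, v₀, hv₀, rfl⟩ ?_
  rintro r ⟨w, hw, rfl⟩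
  show rProj α E.full F n (u.map (TensorProduct.map E.incl LinearMap.id)) ≤
    α E.full (ZZ F) n (w.map (TensorProduct.map E.incl LinearMap.id))
  refine csInf_le ⟨0, ?_⟩ ⟨_, ?_, rfl⟩
  · rintro r ⟨v, _, rfl⟩
    exact hα.nonneg _ _ _ _
  · rw [mat_map_map', LinearMap.comp_id, LinearMap.id_comp, ← hw, mat_map_map', LinearMap.comp_id,
      LinearMap.id_comp]

end OST
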