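import Pool.Agent.OST.TTc
import Pool.Agent.OST.Fact

/-!
# The trace class `T_n`: factorization

* `exists_TT_fact`: if `c = 0` then `y = 0`. Otherwise apply `exists_fact` to `z (i, r) (j, s) = c⁻¹ * τ (y r s) i j`: for a
  contraction `d ∈ M_n(M_q)` let `J = (q, d)` be the index of the Hilbert sum; the block of `c⁻¹ • y` at `J` is `pair z d` (as an operator on
  `ℓ²_q ⊗ ℓ²_q`), so its norm is at most `c⁻¹ * nrm y ≤ 1`. Multiply `a` by `c`.
-/

set_option autoImplicit false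

namespace OST

open scoped Matrix Matrix.Norms.L2Operator InnerProductSpace

/-- blocks of a matrix as operators -/
private noncomputable def blk {α : Type} {q : ℕ} (D : Matrix (α × Fin q) (α × Fin q) ℂ) :
    Matrix α α (Mat q) :=
  fun i j => Matrix.toEuclideanCLM (n := Fin q) (𝕜 := ℂ) (fun r s => D (i, r) (j, s))

private noncomputable def cur {α : Type} {q : ℕ} (x : EuclideanSpace ℂ (α × Fin q)) :
    PiLp 2 (fun _ : α => EuclideanSpace ℂ (Fin q)) :=
  WithLp.toLp 2 (fun i => WithLp.toLp 2 (fun r => x (i, r)))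

private theorem norm_cur {α : Type} [Fintype α] {q : ℕ} (x : EuclideanSpace ℂ (α × Fin q)) :
    ‖cur x‖ = ‖x‖ := by
  rw [PiLp.norm_eq_of_L2, EuclideanSpace.norm_eq, Fintype.sum_prod_type]
  congr 1
  refine Finset.sum_congr rfl fun i _ => ?_
  show ‖(WithLp.toLp 2 (fun r => x (i, r)) : EuclideanSpace ℂ (Fin q))‖ ^ 2 = _
  rw [EuclideanSpace.norm_eq, Real.sq_sqrt (Finset.sum_nonneg fun _ _ => by positivity)]

private theorem mop_cur {α : Type} [Fintype α] [DecidableEq α] {q : ℕ}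
    (D : Matrix (α × Fin q) (α × Fin q) ℂ) (x : EuclideanSpace ℂ (α × Fin q)) :
    mop (blk D) (cur x) = cur (Matrix.toEuclideanCLM (n := α × Fin q) (𝕜 := ℂ) D x) := by
  ext i r
  rw [mop_apply]
  show (∑ j, Matrix.toEuclideanCLM (n := Fin q) (𝕜 := ℂ) (fun r s => D (i, r) (j, s))
    (WithLp.toLp 2 (fun s => x (j, s)))) r = (D *ᵥ WithLp.ofLp x) (i, r)
  rw [WithLp.ofLp_sum, Finset.sum_apply]
  simp only [Matrix.mulVec, dotProduct]
  rw [Fintype.sum_prod_type]
  refine Finset.sum_congr rfl fun j _ => ?_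
  rfl

private theorem norm_mop_blk {α : Type} [Fintype α] [DecidableEq α] {q : ℕ}
    (D : Matrix (α × Fin q) (α × Fin q) ℂ) : ‖mop (blk D)‖ = ‖D‖ := by
  rw [← Matrix.l2_opNorm_toEuclideanCLM]
  apply le_antisymm
  · refine ContinuousLinearMap.opNorm_le_bound _ (ContinuousLinearMap.opNorm_nonneg _) fun η => ?_
    obtain ⟨x, rfl⟩ : ∃ x, cur x = η := ⟨WithLp.toLp 2 (fun p => η p.1 p.2), rfl⟩
    rw [mop_cur, norm_cur, norm_cur]
    exact ContinuousLinearMap.le_opNorm _ x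
  · refine ContinuousLinearMap.opNorm_le_bound _ (ContinuousLinearMap.opNorm_nonneg _) fun x => ?_
    rw [← norm_cur x, ← norm_cur, ← mop_cur]
    exact ContinuousLinearMap.le_opNorm _ (cur x)

private theorem norm_mop_smul_aux {E F : Type} [NormedAddCommGroup E] [NormedSpace ℂ E]
    [NormedAddCommGroup F] [NormedSpace ℂ F] (c : ℂ) (f : E →L[ℂ] F) : ‖c • f‖ = ‖c‖ * ‖f‖ :=
  norm_smul c f

private theorem blk_pair {n q : ℕ} (z d : Matrix (Fin n × Fin q) (Fin n × Fin q) ℂ)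
    (r s : Fin q) :
    blk (pair z d) r s = ∑ i, ∑ j, z (i, r) (j, s) • blk d i j := by
  obtain ⟨M, hM⟩ : ∃ M : Fin n → Fin n → Matrix (Fin q) (Fin q) ℂ,
      ∀ i j r s, M i j r s = d (i, r) (j, s) := ⟨fun i j r s => d (i, r) (j, s), fun _ _ _ _ => rfl⟩
  obtain ⟨P, hP⟩ : ∃ P : Matrix (Fin q) (Fin q) ℂ,
      ∀ r' s', P r' s' = pair z d (r, r') (s, s') := ⟨fun r' s' => pair z d (r, r') (s, s'),
        fun _ _ => rfl⟩
  have h : P = ∑ i, ∑ j, z (i, r) (j, s) • M i j := by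
    ext r' s'
    rw [hP]
    simp [pair, Matrix.sum_apply, hM]
  have h1 : blk (pair z d) r s = Matrix.toEuclideanCLM (n := Fin q) (𝕜 := ℂ) P := by
    unfold blk
    congr 1
    ext r' s'
    rw [hP]
  have h2 : ∀ i j, blk d i j = Matrix.toEuclideanCLM (n := Fin q) (𝕜 := ℂ) (M i j) := by
    intro i j
    unfold blk
    congr 1
    ext r' s'
    rw [hM]
  rw [h1, h, map_sum]
  refine Finset.sum_congr rfl fun i _ => ?_
  rw [map_sum]
  refine Finset.sum_congr rfl fun j _ => ?_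
  rw [map_smul, h2]

private noncomputable def toB {q : ℕ} (a : Mat q) : OS.B (EuclideanSpace ℂ (Fin q)) :=
  ⟨a, trivial⟩

theorem exists_TT_fact {n q : ℕ} (y : Matrix (Fin q) (Fin q) (TT n)) {c : ℝ} (hc : 0 ≤ c)
    (hy : (TT n).nrm y ≤ c) :
    ∃ (N : ℕ) (a : Matrix (Fin q) (Fin n × Fin N) ℂ) (b : Matrix (Fin n × Fin N) (Fin q) ℂ),
      ‖a‖ ≤ c ∧ ‖b‖ ≤ 1 ∧
        ∀ r s, y r s = ∑ i, ∑ j, (∑ x, a r (i, x) * b (j, x) s) • tg n i j := by
  rcases hc.eq_or_lt with rfl | hc0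
  · have h0 : (TT n).nrm y = 0 := le_antisymm hy (OS.nrm_nonneg _ _)
    have hy0 := OS.nrm_eq_zero _ h0
    refine ⟨0, 0, 0, by simp, by simp, fun r s => ?_⟩
    rw [hy0]
    simp
  obtain ⟨τ, -, hτ⟩ := exists_coord n
  have hc' : (c : ℂ) ≠ 0 := by exact_mod_cast hc0.ne'
  obtain ⟨z, hz⟩ : ∃ z : Matrix (Fin n × Fin q) (Fin n × Fin q) ℂ,
      z = fun p p' => (c : ℂ)⁻¹ * τ (y p.2 p'.2) p.1 p'.1 := ⟨_, rfl⟩
  have hz1 : ∀ i j r s, τ (y r s) i j = c * z (i, r) (j, s) := by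
    intro i j r s
    rw [hz]
    show _ = (c : ℂ) * ((c : ℂ)⁻¹ * τ (y r s) i j)
    rw [mul_inv_cancel_left₀ hc']
  have hmain : ∀ d : Matrix (Fin n × Fin q) (Fin n × Fin q) ℂ, ‖d‖ ≤ 1 → ‖pair z d‖ ≤ 1 := by
    intro d hd
    obtain ⟨T, hT, hTg⟩ := exists_lift (s := fun _ : Unit => n)
      (OS.B (EuclideanSpace ℂ (Fin q))) (fun _ => fun i k => toB (blk d i k)) (fun _ => by
        show ‖mop (blk d)‖ ≤ 1
        rw [norm_mop_blk]
        exact hd)
    have h1 : (OS.B (EuclideanSpace ℂ (Fin q))).nrm (y.map T) ≤ c := (hT q y).trans hy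
    obtain ⟨Φ, hΦ⟩ : ∃ Φ : TT n →ₗ[ℂ] Mat q, ∀ e, Φ e = (T e).1 :=
      ⟨{ toFun := fun e => (T e).1
         map_add' := fun a b => by
          rw [map_add]
          rfl
         map_smul' := fun c a => by
          rw [map_smul]
          rfl }, fun e => rfl⟩
    have hΦg : ∀ i k, Φ (tg n i k) = blk d i k := by
      intro i k
      rw [hΦ, hTg () i k]
      rfl
    have h2 : ∀ r s, Φ (y r s) = (c : ℂ) • blk (pair z d) r s := by
      intro r s
      rw [blk_pair]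
      conv_lhs => rw [hτ (y r s)]
      rw [map_sum, Finset.smul_sum]
      refine Finset.sum_congr rfl fun i _ => ?_
      rw [map_sum, Finset.smul_sum]
      refine Finset.sum_congr rfl fun j _ => ?_
      rw [map_smul, hΦg, hz1, smul_smul]
    have h3 : ‖mop ((c : ℂ) • blk (pair z d))‖ ≤ c := by
      have h4 : (c : ℂ) • blk (pair z d) = fun r s => (T (y r s)).1 := by
        ext1 r s
        rw [← hΦ, h2]
        rfl
      rw [h4]
      exact h1
    rw [mop_smul, norm_mop_smul_aux] at h3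
    rw [← norm_mop_blk]
    rw [Complex.norm_real, Real.norm_of_nonneg hc] at h3
    exact le_of_mul_le_mul_left (by rw [mul_one]; exact h3) hc0
  obtain ⟨N, a, b, ha, hb, hab⟩ := exists_fact z hmain
  refine ⟨N, (c : ℂ) • a, b, ?_, hb, fun r s => ?_⟩
  · rw [norm_smul, Complex.norm_real, Real.norm_of_nonneg hc]
    exact mul_le_of_le_one_right hc ha
  · conv_lhs => rw [hτ (y r s)]
    refine Finset.sum_congr rfl fun i _ => Finset.sum_congr rfl fun j _ => ?_
    rw [hz1, hab, Finset.mul_sum]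
    congr 1
    refine Finset.sum_congr rfl fun x _ => ?_
    rw [Matrix.smul_apply, smul_eq_mul, mul_assoc]

end OST
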