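import Pool.Agent.OST.ProjN
import Pool.Agent.OST.TTn

/-!
# The projective norm on `E ⊗ T_n` is the restriction of the one on `B(H) ⊗ T_n`

PROOF. Let `proj E.full (TT n) k (ι v) < r`. By `exists_rep_lt`, `ι v = amb α (tens x y) β`, `‖α‖ ‖x‖ ‖y‖ ‖β‖ < r`. By `exists_TT_fact`,
`y r s = ∑ i j, (∑ x, a r (i,x) * b (j,x) s) • tg i j`, `‖a‖ ≤ ‖y‖`, `‖b‖ ≤ 1`. With the coordinates `τ` of `exists_coord` let
`U (i, r) (j, s) = (id ⊗ τ_ij) (v r s) ∈ E`, so `v r s = ∑ i j, U (i, r) (j, s) ⊗ tg i j`. Then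
`ι (U (i, r) (j, s)) = amb A X B`, `X = blockDiagonal (fun _ : Fin N => x)` (index `Fin p × Fin N`),
`A (i, r) (p', ν) = ∑ q', α r (p', q') * a q' (i, ν)`, `B (p', ν) (j, s) = ∑ q', b (j, ν) q' * β (p', q') s`. By `polar` (`ι = Fin n × Fin k`):
`U = amb A' X' B'`, `‖X'‖ ≤ ‖X‖ ≤ ‖x‖`, `A' A'ᴴ = A Aᴴ + δ`. Now `v = amb α' (tens X' (tg n)) β'` with
`α' r ((i', r'), i) = A' (i, r) (i', r')`, `β' ((j', s'), j) s = B' (j', s') (j, s)`, and
`(α' α'ᴴ) r s = ∑ i, (A' A'ᴴ) (i, r) (i, s) = (α (1 ⊗ a aᴴ) αᴴ) r s + n δ`, so `‖α'‖ ^ 2 ≤ (‖α‖ ‖a‖) ^ 2 + n δ`, the same for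
`β'`. So `proj E (TT n) k v ≤ ‖α'‖ ‖X'‖ ‖β'‖` (`proj_le`, `nrm_gen_le`). Let `δ → 0`.
-/

set_option autoImplicit false

namespace OST

open scoped Matrix Matrix.Norms.L2Operator TensorProduct

/-- the coordinate `(i, j)` of the second factor -/
private noncomputable def co (E : OS) {n : ℕ} (τ : TT n →ₗ[ℂ] Matrix (Fin n) (Fin n) ℂ)
    (i j : Fin n) : E ⊗[ℂ] TT n →ₗ[ℂ] E :=
  (TensorProduct.rid ℂ E).toLinearMap ∘ₗ
    TensorProduct.map LinearMap.id (Matrix.entryLinearMap ℂ ℂ i j ∘ₗ τ)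

private theorem co_tmul (E : OS) {n : ℕ} (τ : TT n →ₗ[ℂ] Matrix (Fin n) (Fin n) ℂ)
    (i j : Fin n) (e : E) (z : TT n) : co E τ i j (e ⊗ₜ z) = τ z i j • e := by
  simp [co]

private theorem co_sum (E : OS) {n : ℕ} (τ : TT n →ₗ[ℂ] Matrix (Fin n) (Fin n) ℂ)
    (hτ : ∀ z : TT n, z = ∑ i, ∑ k, τ z i k • tg n i k) (w : E ⊗[ℂ] TT n) :
    ∑ i, ∑ j, co E τ i j w ⊗ₜ[ℂ] tg n i j = w := by
  induction w using TensorProduct.induction_on with
  | zero => simp
  | tmul e z =>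
    simp only [co_tmul, TensorProduct.smul_tmul]
    conv_rhs => rw [hτ z]
    rw [TensorProduct.tmul_sum]
    refine Finset.sum_congr rfl (fun i _ => ?_)
    rw [TensorProduct.tmul_sum]
  | add a b ha hb =>
    simp only [map_add, TensorProduct.add_tmul, Finset.sum_add_distrib]
    rw [ha, hb]

private theorem co_incl (E : OS) {n : ℕ} (τ : TT n →ₗ[ℂ] Matrix (Fin n) (Fin n) ℂ)
    (i j : Fin n) (w : E ⊗[ℂ] TT n) :
    E.incl (co E τ i j w) = co E.full τ i j (TensorProduct.map E.incl LinearMap.id w) := by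
  induction w using TensorProduct.induction_on with
  | zero => simp
  | tmul e z => simp [co_tmul]
  | add a b ha hb => simp only [map_add, ha, hb]

/-- `1 ⊗ a` -/
private def kr {ι κ μ : Type} [DecidableEq ι] (a : Matrix κ μ ℂ) : Matrix (ι × κ) (ι × μ) ℂ :=
  fun P Q => if P.1 = Q.1 then a P.2 Q.2 else 0

private theorem kr_mulVec {ι κ μ : Type} [Fintype ι] [Fintype κ] [Fintype μ] [DecidableEq ι]
    (a : Matrix κ μ ℂ) (v : ι × μ → ℂ) (i : ι) (k : κ) :
    (kr a *ᵥ v) (i, k) = (a *ᵥ fun m => v (i, m)) k := by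
  simp only [Matrix.mulVec, dotProduct, kr]
  rw [Fintype.sum_prod_type, Finset.sum_eq_single i]
  · simp
  · intro b _ hb
    simp [hb.symm]
  · intro h
    exact absurd (Finset.mem_univ i) h

private theorem norm_kr_le {ι κ μ : Type} [Fintype ι] [Fintype κ] [Fintype μ] [DecidableEq ι]
    [DecidableEq κ] [DecidableEq μ] (a : Matrix κ μ ℂ) : ‖kr (ι := ι) a‖ ≤ ‖a‖ := by
  have key : ∀ v : ι × μ → ℂ, ‖WithLp.toLp 2 (kr a *ᵥ v)‖ ≤ ‖a‖ * ‖WithLp.toLp 2 v‖ := by
    intro v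
    have h1 : ∀ i, ‖WithLp.toLp 2 (a *ᵥ fun m => v (i, m))‖ ≤
        ‖a‖ * ‖WithLp.toLp 2 (fun m => v (i, m))‖ := fun i =>
      Matrix.l2_opNorm_mulVec a (WithLp.toLp 2 fun m => v (i, m))
    refine (sq_le_sq₀ (norm_nonneg _) (by positivity)).mp ?_
    rw [mul_pow, EuclideanSpace.norm_sq_eq, EuclideanSpace.norm_sq_eq, Fintype.sum_prod_type,
      Fintype.sum_prod_type, Finset.mul_sum]
    refine Finset.sum_le_sum (fun i _ => ?_)
    have h2 := (sq_le_sq₀ (norm_nonneg _) (by positivity)).mpr (h1 i)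
    rw [mul_pow, EuclideanSpace.norm_sq_eq, EuclideanSpace.norm_sq_eq] at h2
    simpa [kr_mulVec] using h2
  rw [Matrix.l2_opNorm_def]
  exact ContinuousLinearMap.opNorm_le_bound _ (norm_nonneg _) (fun v => key v)

/-- The norm of a product of the form `α (1 ⊗ a)`, rearranged. -/
private theorem norm_row_le {k p q n N : ℕ} (α : Matrix (Fin k) (Fin p × Fin q) ℂ)
    (a : Matrix (Fin q) (Fin n × Fin N) ℂ) :
    ‖α * kr (ι := Fin p) a‖ ≤ ‖α‖ * ‖a‖ :=
  (Matrix.l2_opNorm_mul _ _).trans (mul_le_mul_of_nonneg_left (norm_kr_le a) (norm_nonneg _))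

/-- rearranged rows: `α' r (P, i) = A (i, r) P` -/
private theorem norm_rearr {ι : Type} [Fintype ι] [DecidableEq ι] {k n : ℕ}
    (A : Matrix (Fin n × Fin k) ι ℂ) (D : Matrix (Fin k) (Fin k) ℂ)
    (hD : ∀ r s, D r s = ∑ i, (A * Aᴴ) (i, r) (i, s)) {C : ℝ} (hC : 0 ≤ C) (hDC : ‖D‖ ≤ C ^ 2) :
    ‖(Matrix.of fun (r : Fin k) (P : ι × Fin n) => A (P.2, r) P.1)‖ ≤ C := by
  set α' := (Matrix.of fun (r : Fin k) (P : ι × Fin n) => A (P.2, r) P.1) with hα
  have h1 : α' * α'ᴴ = D := by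
    ext r s
    rw [hD, Matrix.mul_apply, Fintype.sum_prod_type, Finset.sum_comm]
    refine Finset.sum_congr rfl (fun i _ => ?_)
    rw [Matrix.mul_apply]
    rfl
  have h2 : ‖α'‖ * ‖α'‖ = ‖D‖ := by
    rw [← h1, ← Matrix.l2_opNorm_conjTranspose α', ← Matrix.l2_opNorm_conjTranspose_mul_self,
      Matrix.conjTranspose_conjTranspose]
  refine (sq_le_sq₀ (norm_nonneg _) hC).mp ?_
  rw [sq, h2]
  exact hDC

private theorem mul_kr_apply {k p q : ℕ} {μ : Type} (α : Matrix (Fin k) (Fin p × Fin q) ℂ)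
    (a : Matrix (Fin q) μ ℂ) (r : Fin k) (p' : Fin p) (m : μ) :
    (α * kr (ι := Fin p) a) r (p', m) = ∑ q', α r (p', q') * a q' m := by
  rw [Matrix.mul_apply, Fintype.sum_prod_type, Finset.sum_eq_single p']
  · simp [kr]
  · intro b _ hb
    simp [kr, hb]
  · intro h
    exact absurd (Finset.mem_univ p') h

private theorem kr_mul_apply {k p q : ℕ} {μ : Type} (b : Matrix μ (Fin q) ℂ)
    (β : Matrix (Fin p × Fin q) (Fin k) ℂ) (s : Fin k) (p' : Fin p) (m : μ) :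
    (kr (ι := Fin p) b * β) (p', m) s = ∑ q', b m q' * β (p', q') s := by
  rw [Matrix.mul_apply, Fintype.sum_prod_type, Finset.sum_eq_single p']
  · simp [kr]
  · intro b _ hb
    simp [kr, hb.symm]
  · intro h
    exact absurd (Finset.mem_univ p') h

private theorem amb_blockDiagonal {V ι' κ' : Type} [AddCommGroup V] [Module ℂ V] {p N : ℕ}
    (A : Matrix ι' (Fin p × Fin N) ℂ) (x : Matrix (Fin p) (Fin p) V)
    (B : Matrix (Fin p × Fin N) κ' ℂ) (i : ι') (j : κ') :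
    amb A (Matrix.blockDiagonal (fun _ : Fin N => x)) B i j =
      ∑ p₁, ∑ p₂, (∑ ν, A i (p₁, ν) * B (p₂, ν) j) • x p₁ p₂ := by
  unfold amb
  rw [Fintype.sum_prod_type]
  refine Finset.sum_congr rfl (fun p₁ _ => ?_)
  have h : ∀ ν : Fin N, ∑ Q : Fin p × Fin N, (A i (p₁, ν) * B Q j) •
      Matrix.blockDiagonal (fun _ : Fin N => x) (p₁, ν) Q =
        ∑ p₂, (A i (p₁, ν) * B (p₂, ν) j) • x p₁ p₂ := by
    intro ν
    rw [Fintype.sum_prod_type]
    refine Finset.sum_congr rfl (fun p₂ _ => ?_)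
    rw [Finset.sum_eq_single ν]
    · rw [Matrix.blockDiagonal_apply]
      simp
    · intro b _ hb
      rw [Matrix.blockDiagonal_apply]
      simp [hb.symm]
    · intro h
      exact absurd (Finset.mem_univ ν) h
  simp_rw [h]
  rw [Finset.sum_comm]
  refine Finset.sum_congr rfl (fun p₂ _ => ?_)
  rw [Finset.sum_smul]

/-- the coefficients of the product -/
private theorem coef_eq {k p q n N : ℕ} (α : Matrix (Fin k) (Fin p × Fin q) ℂ)
    (a : Matrix (Fin q) (Fin n × Fin N) ℂ) (b : Matrix (Fin n × Fin N) (Fin q) ℂ)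
    (β : Matrix (Fin p × Fin q) (Fin k) ℂ) (i j : Fin n) (r s : Fin k) (p₁ p₂ : Fin p) :
    ∑ q₁, ∑ q₂, (α r (p₁, q₁) * β (p₂, q₂) s) * ∑ ν, a q₁ (i, ν) * b (j, ν) q₂ =
      ∑ ν, (α * kr (ι := Fin p) a) r (p₁, (i, ν)) * (kr (ι := Fin p) b * β) (p₂, (j, ν)) s := by
  simp_rw [mul_kr_apply, kr_mul_apply, Finset.sum_mul_sum, Finset.mul_sum]
  symm
  rw [Finset.sum_comm]
  refine Finset.sum_congr rfl (fun q₁ _ => ?_)
  rw [Finset.sum_comm]
  refine Finset.sum_congr rfl (fun q₂ _ => Finset.sum_congr rfl (fun ν _ => ?_))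
  ring

private theorem amb_tens {ι V W : Type} [Fintype ι] [AddCommGroup V] [Module ℂ V]
    [AddCommGroup W] [Module ℂ W] {k n : ℕ} (A' : Matrix (Fin n × Fin k) ι ℂ)
    (X' : Matrix ι ι V) (B' : Matrix ι (Fin n × Fin k) ℂ) (T : Matrix (Fin n) (Fin n) W)
    (r s : Fin k) :
    ∑ i, ∑ j, amb A' X' B' (i, r) (j, s) ⊗ₜ[ℂ] T i j =
      amb (Matrix.of fun (r : Fin k) (P : ι × Fin n) => A' (P.2, r) P.1) (tens X' T)
        (Matrix.of fun (Q : ι × Fin n) (s : Fin k) => B' Q.1 (Q.2, s)) r s := by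
  have h : amb (Matrix.of fun (r : Fin k) (P : ι × Fin n) => A' (P.2, r) P.1) (tens X' T)
        (Matrix.of fun (Q : ι × Fin n) (s : Fin k) => B' Q.1 (Q.2, s)) r s =
      ∑ P : ι, ∑ i : Fin n, ∑ Q : ι, ∑ j : Fin n,
        (A' (i, r) P * B' Q (j, s)) • (X' P Q ⊗ₜ[ℂ] T i j) := by
    unfold amb tens
    rw [Fintype.sum_prod_type]
    refine Finset.sum_congr rfl (fun P _ => ?_)
    refine Finset.sum_congr rfl (fun i _ => ?_)
    rw [Fintype.sum_prod_type]
    rfl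
  rw [h]
  conv_rhs => rw [Finset.sum_comm]
  refine Finset.sum_congr rfl (fun i _ => ?_)
  have h2 : ∀ j, amb A' X' B' (i, r) (j, s) ⊗ₜ[ℂ] T i j =
      ∑ P : ι, ∑ Q : ι, (A' (i, r) P * B' Q (j, s)) • (X' P Q ⊗ₜ[ℂ] T i j) := by
    intro j
    unfold amb
    rw [TensorProduct.sum_tmul]
    refine Finset.sum_congr rfl (fun P _ => ?_)
    rw [TensorProduct.sum_tmul]
    rfl
  simp_rw [h2]
  rw [Finset.sum_comm]
  refine Finset.sum_congr rfl (fun P _ => ?_)
  rw [Finset.sum_comm]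

private theorem sum_row {k n N p : ℕ} (AK : Matrix (Fin k) (Fin p × (Fin n × Fin N)) ℂ)
    (r s : Fin k) (A : Matrix (Fin n × Fin k) (Fin p × Fin N) ℂ)
    (hA : ∀ P Q, A P Q = AK P.2 (Q.1, (P.1, Q.2))) :
    ∑ i, (A * Aᴴ) (i, r) (i, s) = (AK * AKᴴ) r s := by
  simp only [Matrix.mul_apply, Fintype.sum_prod_type, Matrix.conjTranspose_apply, hA]
  rw [Finset.sum_comm]

private theorem sum_one {k n : ℕ} (δ : ℝ) (r s : Fin k) :
    ∑ i : Fin n, ((δ : ℂ) • (1 : Matrix (Fin n × Fin k) (Fin n × Fin k) ℂ)) (i, r) (i, s) =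
      (((n * δ : ℝ) : ℂ) • (1 : Matrix (Fin k) (Fin k) ℂ)) r s := by
  simp only [Matrix.smul_apply, Matrix.one_apply, Prod.mk.injEq, true_and, smul_eq_mul,
    Finset.sum_const, Finset.card_univ, Fintype.card_fin, nsmul_eq_mul]
  push_cast
  ring

theorem proj_TT (E : OS) (n k : ℕ) (v : Matrix (Fin k) (Fin k) (E ⊗[ℂ] TT n)) :
    proj E (TT n) k v ≤
      proj E.full (TT n) k (v.map (TensorProduct.map E.incl LinearMap.id)) := by
  refine le_of_forall_gt_imp_ge_of_dense (fun R hR => ?_)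
  obtain ⟨p, q, α, x, y, β, hrep, hlt⟩ := exists_rep_lt hR
  obtain ⟨τ, hτ1, hτ2⟩ := exists_coord n
  obtain ⟨N, a, b, ha, hb, hy⟩ := exists_TT_fact y ((TT n).nrm_nonneg y) le_rfl
  set AK := α * kr (ι := Fin p) a with hAK
  set BK := kr (ι := Fin p) b * β with hBK
  let A : Matrix (Fin n × Fin k) (Fin p × Fin N) ℂ := fun P Q => AK P.2 (Q.1, (P.1, Q.2))
  let B : Matrix (Fin p × Fin N) (Fin n × Fin k) ℂ := fun Q P => BK (Q.1, (P.1, Q.2)) P.2
  let X : Matrix (Fin p × Fin N) (Fin p × Fin N) E.full := Matrix.blockDiagonal (fun _ => x)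
  let U : Matrix (Fin n × Fin k) (Fin n × Fin k) E := fun P Q => co E τ P.1 Q.1 (v P.2 Q.2)
  have hτy : ∀ q₁ q₂ i j, τ (y q₁ q₂) i j = ∑ ν, a q₁ (i, ν) * b (j, ν) q₂ := by
    intro q₁ q₂ i j
    rw [hy, map_sum, Matrix.sum_apply, Finset.sum_eq_single i]
    · rw [map_sum, Matrix.sum_apply, Finset.sum_eq_single j]
      · rw [map_smul, hτ1, Matrix.smul_apply, Matrix.single_apply_same, smul_eq_mul, mul_one]
      · intro c _ hc
        rw [map_smul, hτ1, Matrix.smul_apply, Matrix.single_apply, if_neg (fun h => hc h.2),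
          smul_zero]
      · intro h
        exact absurd (Finset.mem_univ j) h
    · intro c _ hc
      rw [map_sum, Matrix.sum_apply]
      refine Finset.sum_eq_zero (fun d _ => ?_)
      rw [map_smul, hτ1, Matrix.smul_apply, Matrix.single_apply, if_neg (fun h => hc h.1),
        smul_zero]
    · intro h
      exact absurd (Finset.mem_univ i) h
  have hU : U.map E.incl = amb A X B := by
    refine Matrix.ext (fun P Q => ?_)
    obtain ⟨i, r⟩ := P
    obtain ⟨j, s⟩ := Q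
    rw [Matrix.map_apply]
    change E.incl (co E τ i j (v r s)) = _
    rw [co_incl]
    have h1 : TensorProduct.map E.incl LinearMap.id (v r s) = amb α (tens x y) β r s := by
      rw [← hrep]
      rfl
    rw [h1, amb_blockDiagonal]
    have h2 : co E.full τ i j (amb α (tens x y) β r s) = ∑ p₁, ∑ q₁, ∑ p₂, ∑ q₂,
        ((α r (p₁, q₁) * β (p₂, q₂) s) * ∑ ν, a q₁ (i, ν) * b (j, ν) q₂) • x p₁ p₂ := by
      unfold amb tens
      simp only [map_sum, map_smul, co_tmul, hτy, Fintype.sum_prod_type, smul_smul]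
    rw [h2]
    refine Finset.sum_congr rfl (fun p₁ _ => ?_)
    rw [Finset.sum_comm]
    refine Finset.sum_congr rfl (fun p₂ _ => ?_)
    simp_rw [← Finset.sum_smul]
    rw [coef_eq]
  have hXn : E.full.nrm X ≤ E.full.nrm x :=
    E.full.nrm_blockDiagonal_le (fun _ => x) (E.full.nrm_nonneg x) (fun _ => le_rfl)
  have key : ∀ δ : ℝ, 0 < δ → proj E (TT n) k v ≤
      √((‖α‖ * (TT n).nrm y) ^ 2 + n * δ) * E.full.nrm x * 1 * √(‖β‖ ^ 2 + n * δ) := by
    intro δ hδ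
    obtain ⟨X', A', B', hUX, hX', hA', hB'⟩ := polar E U A X B hU hδ
    let α' : Matrix (Fin k) ((Fin n × Fin k) × Fin n) ℂ := Matrix.of fun r P => A' (P.2, r) P.1
    let β' : Matrix ((Fin n × Fin k) × Fin n) (Fin k) ℂ := Matrix.of fun Q s => B' Q.1 (Q.2, s)
    have hv : v = amb α' (tens X' (tg n)) β' := by
      refine Matrix.ext (fun r s => ?_)
      rw [← co_sum E τ hτ2 (v r s)]
      have h1 : ∀ i j, co E τ i j (v r s) = amb A' X' B' (i, r) (j, s) := by
        intro i j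
        rw [← hUX]
      simp_rw [h1]
      exact amb_tens A' X' B' (tg n) r s
    have hone : ‖(1 : Matrix (Fin k) (Fin k) ℂ)‖ ≤ 1 := by
      rw [← Matrix.diagonal_one, Matrix.l2_opNorm_diagonal]
      exact (pi_norm_le_iff_of_nonneg zero_le_one).2 (fun _ => by simp)
    have hα' : ‖α'‖ ≤ √((‖α‖ * (TT n).nrm y) ^ 2 + n * δ) := by
      refine norm_rearr A' (AK * AKᴴ + ((n * δ : ℝ) : ℂ) • 1) (fun r s => ?_) (Real.sqrt_nonneg _) ?_
      · rw [hA', Matrix.add_apply, ← sum_one, ← sum_row AK r s A (fun _ _ => rfl),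
          ← Finset.sum_add_distrib]
        rfl
      · rw [Real.sq_sqrt (by positivity)]
        refine (norm_add_le _ _).trans (add_le_add ?_ ?_)
        · refine (Matrix.l2_opNorm_mul _ _).trans ?_
          rw [Matrix.l2_opNorm_conjTranspose, ← sq]
          refine pow_le_pow_left₀ (norm_nonneg _) ?_ 2
          exact (norm_row_le α a).trans (mul_le_mul_of_nonneg_left ha (norm_nonneg _))
        · rw [norm_smul, Complex.norm_real, Real.norm_of_nonneg (by positivity)]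
          exact mul_le_of_le_one_right (by positivity) hone
    have hβ' : ‖β'‖ ≤ √(‖β‖ ^ 2 + n * δ) := by
      have h1 : β'ᴴ = Matrix.of fun (r : Fin k) (P : (Fin n × Fin k) × Fin n) => B'ᴴ (P.2, r) P.1 := by
        ext r P
        rfl
      rw [← Matrix.l2_opNorm_conjTranspose, h1]
      refine norm_rearr B'ᴴ (BKᴴ * BK + ((n * δ : ℝ) : ℂ) • 1) (fun r s => ?_)
        (Real.sqrt_nonneg _) ?_
      · have h2 := sum_row BKᴴ r s Bᴴ (fun _ _ => rfl)
        rw [Matrix.conjTranspose_conjTranspose, Matrix.conjTranspose_conjTranspose] at h2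
        rw [Matrix.conjTranspose_conjTranspose, hB', Matrix.add_apply, ← sum_one, ← h2,
          ← Finset.sum_add_distrib]
        rfl
      · rw [Real.sq_sqrt (by positivity)]
        refine (norm_add_le _ _).trans (add_le_add ?_ ?_)
        · refine (Matrix.l2_opNorm_mul _ _).trans ?_
          rw [Matrix.l2_opNorm_conjTranspose, ← sq]
          refine pow_le_pow_left₀ (norm_nonneg _) ?_ 2
          refine (Matrix.l2_opNorm_mul _ _).trans ?_
          refine (mul_le_mul_of_nonneg_right ((norm_kr_le b).trans hb) (norm_nonneg _)).trans ?_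
          rw [one_mul]
        · rw [norm_smul, Complex.norm_real, Real.norm_of_nonneg (by positivity)]
          exact mul_le_of_le_one_right (by positivity) hone
    rw [hv]
    refine (proj_le α' X' (tg n) β').trans ?_
    have htg : (TT n).nrm (tg n) ≤ 1 := nrm_gen_le _ _
    have hX0 := E.nrm_nonneg X'
    have ht0 := (TT n).nrm_nonneg (tg n)
    have hx0 := E.full.nrm_nonneg x
    refine mul_le_mul (mul_le_mul (mul_le_mul hα' (hX'.trans hXn) hX0 (Real.sqrt_nonneg _)) htg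
      ht0 (by positivity)) hβ' (norm_nonneg _) (by positivity)
  have hlim : Filter.Tendsto (fun δ : ℝ => √((‖α‖ * (TT n).nrm y) ^ 2 + n * δ) *
      E.full.nrm x * 1 * √(‖β‖ ^ 2 + n * δ)) (nhdsWithin 0 (Set.Ioi 0))
      (nhds (√((‖α‖ * (TT n).nrm y) ^ 2 + n * 0) * E.full.nrm x * 1 * √(‖β‖ ^ 2 + n * 0))) := by
    refine Filter.Tendsto.mono_left ?_ nhdsWithin_le_nhds
    refine Continuous.tendsto ?_ 0
    fun_prop
  have hfin := ge_of_tendsto hlim (Filter.eventually_of_mem self_mem_nhdsWithin (fun δ hδ => key δ hδ))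
  have hy0 := (TT n).nrm_nonneg y
  rw [mul_zero, add_zero, add_zero, Real.sqrt_sq (by positivity), Real.sqrt_sq (norm_nonneg _),
    mul_one] at hfin
  refine hfin.trans (le_of_eq_of_le ?_ hlt.le)
  ring

end OST
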