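import Pool.Agent.OST.Nrm3

/-!
# The universal property of `Univ s`

PROOF of `exists_lift`. Let `𝔖` be the span of the operators `genOp s g i k` (so `(Univ s).E` is its closure) and
`V = (Σ g, Fin (s g) × Fin (s g)) →₀ ℂ` with the linear maps `Γ : V → B(H_U)`, `(g,i,k) ↦ genOp s g i k` and
`Ξ : V → B(X.H)`, `(g,i,k) ↦ x g i k`.

Key: for a matrix `c` over `V`, `‖mop (c.map Ξ)‖ ≤ ‖mop (c.map Γ)‖`. By `norm_mop_le` let `ξ i, η k ∈ X.H` be finitely many
vectors, `L` their span, `m = dim L`, `W : ℓ²_m → X.H` a linear isometry with range `L` (`stdOrthonormalBasis`). Put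
`y g = (x g i k compressed by W) = W* (x g i k) W`; then `‖mop (y g)‖ ≤ 1` by `norm_mop_compress_le`, so `J = (m, y)` is
an index of the Hilbert sum. For `a = ∑ c_{g,i,k} genOp s g i k`: `⟪δ_J e, a (δ_J f)⟫ = ⟪e, (∑ c y g i k) f⟫`
(`δ_J = lp.single 2 J`, the action of `blockDiag` on the coordinate `J`), so
`∑ ⟪ξ i, Ξ(c i k) η k⟫ = ∑ ⟪W* ξ i, (block J of Γ(c i k)) W* η k⟫ = ∑ ⟪δ_J W* ξ i, Γ(c i k) δ_J W* η k⟫` and
`norm_sum_inner_le` applies (`‖δ_J W* ξ i‖ = ‖ξ i‖`).

So `Ξ` factors through a contractive linear map `𝔖 → X` (kernel of `Γ` ⊆ kernel of `Ξ`), which extends to the closure by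
continuity (`ContinuousLinearMap.extend` along the dense inclusion; `X` is complete as a closed subspace of `B(X.H)`). It is
completely contractive by density: a matrix over the closure is a limit of matrices over `𝔖` (`norm_mop_le_sum`:
the norm of a difference is at most the sum of the norms of the entries).
-/

set_option autoImplicit false

namespace OST

open scoped Matrix.Norms.L2Operator InnerProductSpace

variable {G : Type} {s : G → ℕ}

/-- formal linear combinations of the generators -/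
private abbrev VV (s : G → ℕ) : Type := (Σ g : G, Fin (s g) × Fin (s g)) →₀ ℂ

private noncomputable def ga (s : G → ℕ) : VV s →ₗ[ℂ] Univ s :=
  Finsupp.linearCombination ℂ (fun a => gen s a.1 a.2.1 a.2.2)

private noncomputable def xi (X : OS) (x : ∀ g : G, Matrix (Fin (s g)) (Fin (s g)) X) :
    VV s →ₗ[ℂ] X :=
  Finsupp.linearCombination ℂ (fun a => x a.1 a.2.1 a.2.2)

open Classical in
/-- the vector `e` at the coordinate `J` -/
private noncomputable def sg (J : UIdx s) (e : EuclideanSpace ℂ (Fin J.1)) : (Univ s).H :=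
  lp.single (E := fun j : UIdx s => EuclideanSpace ℂ (Fin j.1)) 2 J e

private theorem norm_sg (J : UIdx s) (e : EuclideanSpace ℂ (Fin J.1)) : ‖sg J e‖ = ‖e‖ := by
  classical
  unfold sg
  exact lp.norm_single (E := fun j : UIdx s => EuclideanSpace ℂ (Fin j.1)) (by norm_num) J e

private theorem genOp_inner (J : UIdx s) (g : G) (i k : Fin (s g))
    (e f : EuclideanSpace ℂ (Fin J.1)) :
    ⟪sg J e, (gen s g i k : (Univ s).H →L[ℂ] (Univ s).H) (sg J f)⟫_ℂ =
      ⟪e, J.2.1 g i k f⟫_ℂ := by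
  classical
  have h1 := lp.inner_single_left (G := fun j : UIdx s => EuclideanSpace ℂ (Fin j.1)) (𝕜 := ℂ) J e
    (genOp s g i k (sg J f))
  refine h1.trans ?_
  congr 1
  change J.2.1 g i k ((lp.single (E := fun j : UIdx s => EuclideanSpace ℂ (Fin j.1)) 2 J f) J) = _
  rw [lp.single_apply_self]

private theorem key_inner (X : OS) (x : ∀ g : G, Matrix (Fin (s g)) (Fin (s g)) X)
    (J : UIdx s) (W : EuclideanSpace ℂ (Fin J.1) →L[ℂ] X.H)
    (hJ : ∀ g i k, J.2.1 g i k = W.adjoint ∘L (x g i k : X.H →L[ℂ] X.H) ∘L W)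
    (c : VV s) (e f : EuclideanSpace ℂ (Fin J.1)) :
    ⟪sg J e, (ga s c : (Univ s).H →L[ℂ] (Univ s).H) (sg J f)⟫_ℂ =
      ⟪W e, (xi X x c : X.H →L[ℂ] X.H) (W f)⟫_ℂ := by
  classical
  induction c using Finsupp.induction_linear with
  | zero => simp
  | add a b ha hb =>
    rw [map_add, map_add, Submodule.coe_add, Submodule.coe_add, add_apply,
      add_apply, inner_add_right, inner_add_right, ha, hb]
  | single a r =>
    unfold ga xi
    rw [Finsupp.linearCombination_single, Finsupp.linearCombination_single, Submodule.coe_smul,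
      Submodule.coe_smul, smul_apply, smul_apply,
      inner_smul_right, inner_smul_right, genOp_inner, hJ]
    congr 1
    rw [ContinuousLinearMap.comp_apply, ContinuousLinearMap.comp_apply,
      ContinuousLinearMap.adjoint_inner_right]

private theorem key_norm (X : OS) (x : ∀ g : G, Matrix (Fin (s g)) (Fin (s g)) X)
    (hx : ∀ g, X.nrm (x g) ≤ 1) {ι κ : Type} [Fintype ι] [Fintype κ] (c : Matrix ι κ (VV s)) :
    X.nrm (c.map (xi X x)) ≤ (Univ s).nrm (c.map (ga s)) := by
  classical
  refine norm_mop_le _ ((Univ s).nrm_nonneg _) (fun ξ η => ?_)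
  -- the span of the vectors
  let L : Submodule ℂ X.H := Submodule.span ℂ (Set.range ξ ∪ Set.range η)
  have hfin : (Set.range ξ ∪ Set.range η).Finite := (Set.finite_range ξ).union (Set.finite_range η)
  have : FiniteDimensional ℂ L := FiniteDimensional.span_of_finite ℂ hfin
  let b := stdOrthonormalBasis ℂ L
  let m := Module.finrank ℂ L
  let W : EuclideanSpace ℂ (Fin m) →ₗᵢ[ℂ] X.H :=
    L.subtypeₗᵢ.comp b.repr.symm.toLinearIsometry
  have hW : ‖W.toContinuousLinearMap‖ ≤ 1 := W.norm_toContinuousLinearMap_le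
  have hWa : ‖W.toContinuousLinearMap.adjoint‖ ≤ 1 := by
    rw [ContinuousLinearMap.adjoint.norm_map]
    exact hW
  let y : ∀ g : G, Matrix (Fin (s g)) (Fin (s g)) (Mat m) := fun g =>
    ((x g).map (fun e => (e : X.H →L[ℂ] X.H))).map
      (fun a => W.toContinuousLinearMap.adjoint ∘L a ∘L W.toContinuousLinearMap)
  have hy : ∀ g, ‖mop (y g)‖ ≤ 1 := fun g =>
    (norm_mop_compress_le _ _ _ hW hWa).trans (hx g)
  let J : UIdx s := ⟨m, ⟨y, hy⟩⟩
  have hrange : ∀ v ∈ L, ∃ w : EuclideanSpace ℂ (Fin m), W w = v := by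
    intro v hv
    refine ⟨b.repr ⟨v, hv⟩, ?_⟩
    change L.subtypeₗᵢ (b.repr.symm (b.repr ⟨v, hv⟩)) = v
    rw [LinearIsometryEquiv.symm_apply_apply]
    rfl
  have h1 : ∀ i, ∃ w : EuclideanSpace ℂ (Fin m), W w = ξ i := fun i =>
    hrange _ (Submodule.subset_span (Or.inl ⟨i, rfl⟩))
  have h2 : ∀ k, ∃ w : EuclideanSpace ℂ (Fin m), W w = η k := fun k =>
    hrange _ (Submodule.subset_span (Or.inr ⟨k, rfl⟩))
  choose e he using h1
  choose f hf using h2
  have hne : ∀ i, ‖ξ i‖ = ‖sg J (e i)‖ := by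
    intro i
    rw [norm_sg, ← he i, W.norm_map]
  have hnf : ∀ k, ‖η k‖ = ‖sg J (f k)‖ := by
    intro k
    rw [norm_sg, ← hf k, W.norm_map]
  have h3 : ∀ i k, ⟪ξ i, ((c.map (xi X x)).map (fun e => (e : X.H →L[ℂ] X.H))) i k (η k)⟫_ℂ =
      ⟪sg J (e i), ((c.map (ga s)).map
        (fun e => (e : (Univ s).H →L[ℂ] (Univ s).H))) i k (sg J (f k))⟫_ℂ := by
    intro i k
    rw [← he i, ← hf k]
    exact (key_inner X x J W.toContinuousLinearMap (fun g i k => rfl) (c i k) (e i) (f k)).symm
  simp_rw [h3, hne, hnf]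
  exact norm_sum_inner_le _ _ _

private noncomputable def spn (s : G → ℕ) : Submodule ℂ ((Univ s).H →L[ℂ] (Univ s).H) :=
  Submodule.span ℂ {a | ∃ g i k, a = (gen s g i k).1}

private theorem mem_span_ga (b : (Univ s).H →L[ℂ] (Univ s).H) (hb : b ∈ spn s) :
    ∃ c : VV s, (ga s c : (Univ s).H →L[ℂ] (Univ s).H) = b := by
  unfold spn at hb
  induction hb using Submodule.span_induction with
  | mem x hx =>
    obtain ⟨g, i, k, rfl⟩ := hx
    refine ⟨Finsupp.single ⟨g, i, k⟩ 1, ?_⟩
    unfold ga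
    rw [Finsupp.linearCombination_single, one_smul]
  | zero => exact ⟨0, by rw [map_zero]; rfl⟩
  | add x y _ _ hx hy =>
    obtain ⟨c, hc⟩ := hx
    obtain ⟨d, hd⟩ := hy
    refine ⟨c + d, ?_⟩
    rw [map_add, Submodule.coe_add, hc, hd]
  | smul r x _ hx =>
    obtain ⟨c, hc⟩ := hx
    refine ⟨r • c, ?_⟩
    rw [map_smul, Submodule.coe_smul, hc]

private theorem univ_E (s : G → ℕ) : (Univ s).E = (spn s).topologicalClosure := by
  have h : (Univ s).E =
      (Submodule.span ℂ {a | ∃ g i k, IsGen s g i k a}).topologicalClosure := rfl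
  rw [h, setOf_isGen]
  rfl

private theorem ga_dense (s : G → ℕ) : DenseRange (ga s) := by
  rw [Metric.denseRange_iff]
  intro z r hr
  obtain ⟨z, hz⟩ := z
  rw [univ_E, ← SetLike.mem_coe, Submodule.topologicalClosure_coe] at hz
  obtain ⟨b, hb, hbz⟩ := Metric.mem_closure_iff.1 hz r hr
  obtain ⟨c, hc⟩ := mem_span_ga b hb
  refine ⟨c, ?_⟩
  rw [Subtype.dist_eq, hc]
  exact hbz

private theorem nrm_one (X : OS) (a : X) : X.nrm (Matrix.of fun (_ _ : Fin 1) => a) = ‖a‖ := by
  refine le_antisymm ?_ ?_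
  · refine (X.nrm_le_sum _).trans ?_
    simp
  · exact X.norm_entry_le (Matrix.of fun (_ _ : Fin 1) => a) 0 0

private theorem key_norm_one (X : OS) (x : ∀ g : G, Matrix (Fin (s g)) (Fin (s g)) X)
    (hx : ∀ g, X.nrm (x g) ≤ 1) (c : VV s) : ‖xi X x c‖ ≤ 1 * ‖ga s c‖ := by
  rw [one_mul, ← nrm_one X, ← nrm_one (Univ s)]
  exact key_norm X x hx (Matrix.of fun (_ _ : Fin 1) => c)

/-- **Universal property.** A family of contractive matrices `x g ∈ M_{s g}(X)` is the image of the
generators under a complete contraction. -/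
theorem exists_lift (X : OS) (x : ∀ g : G, Matrix (Fin (s g)) (Fin (s g)) X)
    (hx : ∀ g, X.nrm (x g) ≤ 1) :
    ∃ T : Univ s →ₗ[ℂ] X, IsCC T ∧ ∀ g i k, T (gen s g i k) = x g i k := by
  have : CompleteSpace X := X.closed.completeSpace_coe
  have hT : ∀ c, (xi X x).extendOfNorm (ga s) (ga s c) = xi X x c :=
    LinearMap.extendOfNorm_eq (ga_dense s) ⟨1, key_norm_one X x hx⟩
  have hTn : ∀ z, ‖(xi X x).extendOfNorm (ga s) z‖ ≤ 1 * ‖z‖ :=
    LinearMap.norm_extendOfNorm_apply_le (ga_dense s) 1 (key_norm_one X x hx)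
  set T := (xi X x).extendOfNorm (ga s) with hTdef
  refine ⟨T.toLinearMap, ?_, ?_⟩
  · intro n z
    refine le_of_forall_pos_le_add (fun ε hε => ?_)
    -- approximation of the entries
    have hδ : 0 < ε / (2 * ((n : ℝ) * n) + 1) := by positivity
    have h1 : ∀ i k, ∃ c, dist (z i k) (ga s c) < ε / (2 * ((n : ℝ) * n) + 1) := fun i k =>
      (Metric.denseRange_iff.1 (ga_dense s)) (z i k) _ hδ
    choose c hc using h1
    have h2 : (Univ s).nrm (z - Matrix.map (Matrix.of c) (ga s)) ≤
        (n : ℝ) * n * (ε / (2 * ((n : ℝ) * n) + 1)) := by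
      refine ((Univ s).nrm_le_sum _).trans ?_
      calc ∑ i, ∑ k, ‖(z - Matrix.map (Matrix.of c) (ga s)) i k‖
          ≤ ∑ i : Fin n, ∑ k : Fin n, (ε / (2 * ((n : ℝ) * n) + 1)) := by
            refine Finset.sum_le_sum (fun i _ => Finset.sum_le_sum (fun k _ => ?_))
            have := (hc i k).le
            rw [dist_eq_norm] at this
            exact this
        _ = _ := by
            simp
            ring
    have h3 : X.nrm ((z - Matrix.map (Matrix.of c) (ga s)).map T) ≤
        (n : ℝ) * n * (ε / (2 * ((n : ℝ) * n) + 1)) := by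
      refine (X.nrm_le_sum _).trans ?_
      calc ∑ i, ∑ k, ‖((z - Matrix.map (Matrix.of c) (ga s)).map T) i k‖
          ≤ ∑ i : Fin n, ∑ k : Fin n, (ε / (2 * ((n : ℝ) * n) + 1)) := by
            refine Finset.sum_le_sum (fun i _ => Finset.sum_le_sum (fun k _ => ?_))
            refine (hTn _).trans ?_
            rw [one_mul]
            have := (hc i k).le
            rw [dist_eq_norm] at this
            exact this
        _ = _ := by
            simp
            ring
    have h4 : z.map T = (Matrix.of c).map (xi X x) +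
        (z - Matrix.map (Matrix.of c) (ga s)).map T := by
      ext i k
      simp only [Matrix.map_apply, Matrix.add_apply, Matrix.sub_apply, map_sub, hT]
      rw [add_sub_cancel]
    have h5 : (Matrix.of c).map (ga s) = z + (-1 : ℂ) • (z - Matrix.map (Matrix.of c) (ga s)) := by
      ext i k
      simp
    have h6 : X.nrm ((Matrix.of c).map (xi X x)) ≤ (Univ s).nrm z +
        (n : ℝ) * n * (ε / (2 * ((n : ℝ) * n) + 1)) := by
      refine (key_norm X x hx (Matrix.of c)).trans ?_
      rw [h5]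
      refine ((Univ s).nrm_add_le _ _).trans ?_
      rw [(Univ s).nrm_smul]
      simpa using h2
    have h7 : (n : ℝ) * n * (ε / (2 * ((n : ℝ) * n) + 1)) +
        (n : ℝ) * n * (ε / (2 * ((n : ℝ) * n) + 1)) ≤ ε := by
      have hpos : 0 < 2 * ((n : ℝ) * n) + 1 := by positivity
      rw [← add_mul, mul_div_assoc', div_le_iff₀ hpos]
      nlinarith
    change X.nrm (z.map T) ≤ _
    rw [h4]
    refine (X.nrm_add_le _ _).trans ?_
    linarith
  · intro g i k
    have h1 : gen s g i k = ga s (Finsupp.single ⟨g, i, k⟩ 1) := by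
      unfold ga
      rw [Finsupp.linearCombination_single, one_smul]
    change T (gen s g i k) = _
    rw [h1, hT]
    unfold xi
    rw [Finsupp.linearCombination_single, one_smul]

end OST
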