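import Pool.Agent.OST.Defs

/-!
# Matrix norms: the criterion

The norm of `mop x` is the best constant in `|∑ ⟪ξ i, x i j (η j)⟫| ≤ C ‖ξ‖ ‖η‖`.
Use `mop_apply` (in `Defs`), `PiLp.inner_apply`, `EuclideanSpace.norm_eq`/`PiLp.norm_eq_of_L2` and, for
`norm_mop_le`, `ContinuousLinearMap.opNorm_le_bound` with `‖y‖ ^ 2 = ⟪y, y⟫`, `y = mop x η`.
-/

set_option autoImplicit false

namespace OST

open scoped Matrix.Norms.L2Operator InnerProductSpace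

section mop

variable {ι κ ι' κ' H K : Type} [Fintype ι] [Fintype κ] [Fintype ι'] [Fintype κ']
    [NormedAddCommGroup H] [InnerProductSpace ℂ H] [NormedAddCommGroup K] [InnerProductSpace ℂ K]

theorem inner_mop (x : Matrix ι κ (H →L[ℂ] K)) (ξ : PiLp 2 (fun _ : ι => K))
    (η : PiLp 2 (fun _ : κ => H)) :
    ⟪ξ, mop x η⟫_ℂ = ∑ i, ∑ j, ⟪ξ i, x i j (η j)⟫_ℂ := by
  rw [PiLp.inner_apply]
  refine Finset.sum_congr rfl fun i _ => ?_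
  rw [mop_apply, inner_sum]

theorem norm_mop_le (x : Matrix ι κ (H →L[ℂ] K)) {C : ℝ} (hC : 0 ≤ C)
    (h : ∀ (ξ : ι → K) (η : κ → H), ‖∑ i, ∑ j, ⟪ξ i, x i j (η j)⟫_ℂ‖ ≤
      C * √(∑ i, ‖ξ i‖ ^ 2) * √(∑ j, ‖η j‖ ^ 2)) : ‖mop x‖ ≤ C := by
  refine ContinuousLinearMap.opNorm_le_bound _ hC fun η => ?_
  have h1 := h (fun i => mop x η i) (fun j => η j)
  rw [← inner_mop x (mop x η) η, ← PiLp.norm_eq_of_L2 (mop x η), ← PiLp.norm_eq_of_L2 η,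
    inner_self_eq_norm_sq_to_K] at h1
  have h2 : ‖((‖mop x η‖ : ℂ)) ^ 2‖ = ‖mop x η‖ * ‖mop x η‖ := by
    rw [norm_pow, Complex.norm_real, norm_norm, sq]
  have h3 : ‖mop x η‖ * ‖mop x η‖ ≤ C * ‖mop x η‖ * ‖η‖ := by
    rw [← h2]
    exact h1
  rcases (norm_nonneg (mop x η)).eq_or_lt with h4 | h4
  · rw [← h4]
    positivity
  · have h5 : ‖mop x η‖ * ‖mop x η‖ ≤ (C * ‖η‖) * ‖mop x η‖ := by linarith
    exact le_of_mul_le_mul_right h5 h4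

theorem norm_sum_inner_le (x : Matrix ι κ (H →L[ℂ] K)) (ξ : ι → K) (η : κ → H) :
    ‖∑ i, ∑ j, ⟪ξ i, x i j (η j)⟫_ℂ‖ ≤
      ‖mop x‖ * √(∑ i, ‖ξ i‖ ^ 2) * √(∑ j, ‖η j‖ ^ 2) := by
  have h1 := inner_mop x (WithLp.toLp 2 ξ) (WithLp.toLp 2 η)
  have h2 : ‖(WithLp.toLp 2 ξ : PiLp 2 (fun _ : ι => K))‖ = √(∑ i, ‖ξ i‖ ^ 2) :=
    PiLp.norm_eq_of_L2 _
  have h3 : ‖(WithLp.toLp 2 η : PiLp 2 (fun _ : κ => H))‖ = √(∑ j, ‖η j‖ ^ 2) :=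
    PiLp.norm_eq_of_L2 _
  have h4 : ∑ i, ∑ j, ⟪ξ i, x i j (η j)⟫_ℂ =
      ⟪(WithLp.toLp 2 ξ : PiLp 2 (fun _ : ι => K)), mop x (WithLp.toLp 2 η)⟫_ℂ := h1.symm
  rw [h4, ← h2, ← h3]
  refine (norm_inner_le_norm _ _).trans ?_
  have h5 := (mop x).le_opNorm (WithLp.toLp 2 η)
  calc ‖(WithLp.toLp 2 ξ : PiLp 2 (fun _ : ι => K))‖ * ‖mop x (WithLp.toLp 2 η)‖
      ≤ ‖(WithLp.toLp 2 ξ : PiLp 2 (fun _ : ι => K))‖ *
        (‖mop x‖ * ‖(WithLp.toLp 2 η : PiLp 2 (fun _ : κ => H))‖) :=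
        mul_le_mul_of_nonneg_left h5 (norm_nonneg _)
    _ = _ := by ring

theorem mop_add (x y : Matrix ι κ (H →L[ℂ] K)) : mop (x + y) = mop x + mop y := by
  refine ContinuousLinearMap.ext fun v => ?_
  refine PiLp.ext fun i => ?_
  rw [ContinuousLinearMap.add_apply, PiLp.add_apply, mop_apply, mop_apply, mop_apply,
    ← Finset.sum_add_distrib]
  rfl

theorem mop_smul (c : ℂ) (x : Matrix ι κ (H →L[ℂ] K)) : mop (c • x) = c • mop x := by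
  refine ContinuousLinearMap.ext fun v => ?_
  refine PiLp.ext fun i => ?_
  rw [ContinuousLinearMap.smul_apply, PiLp.smul_apply, mop_apply, mop_apply, Finset.smul_sum]
  rfl

end mop

end OST
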