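import Pool.Agent.OST.Nrm1

/-!
# Matrix norms: operations on matrices of operators

Everything follows from `norm_mop_le` and `norm_sum_inner_le` (the norm of `mop x` is the best constant
in `|∑ ⟪ξ i, x i j (η j)⟫| ≤ C ‖ξ‖ ‖η‖`).

* `norm_mop_submatrix_le`: extend `ξ`, `η` by `0` (`Function.extend`).
* `norm_mop_fromBlocks_le`, `norm_mop_blockDiagonal'_le`: sum of the estimates of the blocks and the inequality of
  Cauchy-Schwarz `∑ a, s a * t a ≤ √(∑ (s a) ^ 2) * √(∑ (t a) ^ 2)`.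
* `norm_mop_le_sum`: `norm_mop_le` with `‖ξ i‖ ≤ √(∑ ‖ξ i‖ ^ 2)`.
-/

set_option autoImplicit false

namespace OST

open scoped Matrix.Norms.L2Operator InnerProductSpace

section mop

variable {ι κ ι' κ' H K : Type} [Fintype ι] [Fintype κ] [Fintype ι'] [Fintype κ']
    [NormedAddCommGroup H] [InnerProductSpace ℂ H] [NormedAddCommGroup K] [InnerProductSpace ℂ K]

omit [Fintype κ] [Fintype κ'] in
private theorem sum_extend_sq {e : ι' → ι} (he : Function.Injective e) (ξ : ι' → K) :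
    ∑ i, ‖Function.extend e ξ 0 i‖ ^ 2 = ∑ i, ‖ξ i‖ ^ 2 := by
  symm
  refine Fintype.sum_of_injective e he _ _ ?_ ?_
  · intro i hi
    rw [Function.extend_apply' _ _ _ (by rintro ⟨a, rfl⟩; exact hi ⟨a, rfl⟩)]
    simp
  · intro i
    rw [he.extend_apply]

private theorem cs2 {A A' B B' C : ℝ} (hA : 0 ≤ A) (hA' : 0 ≤ A') (hB : 0 ≤ B) (hB' : 0 ≤ B')
    (hC : 0 ≤ C) : C * √A * √B + C * √A' * √B' ≤ C * √(A + A') * √(B + B') := by
  have h1 := Real.sum_sqrt_mul_sqrt_le (Finset.univ : Finset (Fin 2)) (f := ![A, A'])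
    (g := ![B, B']) (by intro i; fin_cases i <;> simp [hA, hA'])
    (by intro i; fin_cases i <;> simp [hB, hB'])
  rw [Fin.sum_univ_two, Fin.sum_univ_two, Fin.sum_univ_two] at h1
  simp only [Matrix.cons_val_zero, Matrix.cons_val_one] at h1
  have h2 := mul_le_mul_of_nonneg_left h1 hC
  calc C * √A * √B + C * √A' * √B' = C * (√A * √B + √A' * √B') := by ring
    _ ≤ C * (√(A + A') * √(B + B')) := h2
    _ = C * √(A + A') * √(B + B') := by ring

theorem norm_mop_submatrix_le (x : Matrix ι κ (H →L[ℂ] K)) {e : ι' → ι} {f : κ' → κ}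
    (he : Function.Injective e) (hf : Function.Injective f) :
    ‖mop (x.submatrix e f)‖ ≤ ‖mop x‖ := by
  refine norm_mop_le _ (ContinuousLinearMap.opNorm_nonneg _) ?_
  intro ξ η
  have h1 := norm_sum_inner_le x (Function.extend e ξ 0) (Function.extend f η 0)
  rw [sum_extend_sq he, sum_extend_sq hf] at h1
  have h2 : ∑ i, ∑ j, ⟪ξ i, x.submatrix e f i j (η j)⟫_ℂ =
      ∑ i, ∑ j, ⟪Function.extend e ξ 0 i, x i j (Function.extend f η 0 j)⟫_ℂ := by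
    refine Fintype.sum_of_injective e he _ _ ?_ ?_
    · intro i hi
      rw [Function.extend_apply' _ _ _ (by rintro ⟨a, rfl⟩; exact hi ⟨a, rfl⟩)]
      simp
    · intro i
      rw [he.extend_apply]
      refine Fintype.sum_of_injective f hf _ _ ?_ ?_
      · intro j hj
        rw [Function.extend_apply' _ _ _ (by rintro ⟨a, rfl⟩; exact hj ⟨a, rfl⟩)]
        simp
      · intro j
        rw [hf.extend_apply]
        rfl
  rw [h2]
  exact h1

theorem norm_mop_fromBlocks_le (x : Matrix ι κ (H →L[ℂ] K)) (y : Matrix ι' κ' (H →L[ℂ] K))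
    {C : ℝ} (hx : ‖mop x‖ ≤ C) (hy : ‖mop y‖ ≤ C) :
    ‖mop (Matrix.fromBlocks x 0 0 y)‖ ≤ C := by
  have hC : 0 ≤ C := (ContinuousLinearMap.opNorm_nonneg _).trans hx
  refine norm_mop_le _ hC ?_
  intro ξ η
  have h1 := norm_sum_inner_le x (fun i => ξ (Sum.inl i)) (fun j => η (Sum.inl j))
  have h2 := norm_sum_inner_le y (fun i => ξ (Sum.inr i)) (fun j => η (Sum.inr j))
  have h3 : ∑ i, ∑ j, ⟪ξ i, Matrix.fromBlocks x 0 0 y i j (η j)⟫_ℂ =
      ∑ i, ∑ j, ⟪ξ (Sum.inl i), x i j (η (Sum.inl j))⟫_ℂ +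
        ∑ i, ∑ j, ⟪ξ (Sum.inr i), y i j (η (Sum.inr j))⟫_ℂ := by
    simp [Fintype.sum_sum_type]
  rw [h3, Fintype.sum_sum_type, Fintype.sum_sum_type]
  refine (norm_add_le _ _).trans ((add_le_add h1 h2).trans ?_)
  refine le_trans ?_ (cs2 (Finset.sum_nonneg fun _ _ => by positivity)
    (Finset.sum_nonneg fun _ _ => by positivity) (Finset.sum_nonneg fun _ _ => by positivity)
    (Finset.sum_nonneg fun _ _ => by positivity) hC)
  gcongr

theorem norm_mop_blockDiagonal'_le {ν : Type} [Fintype ν] [DecidableEq ν] {m n : ν → Type}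
    [∀ a, Fintype (m a)] [∀ a, Fintype (n a)] (x : ∀ a, Matrix (m a) (n a) (H →L[ℂ] K))
    {C : ℝ} (hC : 0 ≤ C) (hx : ∀ a, ‖mop (x a)‖ ≤ C) :
    ‖mop (Matrix.blockDiagonal' x)‖ ≤ C := by
  refine norm_mop_le _ hC ?_
  intro ξ η
  have h3 : ∑ i, ∑ j, ⟪ξ i, Matrix.blockDiagonal' x i j (η j)⟫_ℂ =
      ∑ a, ∑ i, ∑ j, ⟪ξ ⟨a, i⟩, x a i j (η ⟨a, j⟩)⟫_ℂ := by
    rw [Fintype.sum_sigma]
    refine Finset.sum_congr rfl fun a _ => Finset.sum_congr rfl fun i _ => ?_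
    rw [Fintype.sum_sigma, Finset.sum_eq_single a]
    · refine Finset.sum_congr rfl fun j _ => ?_
      rw [Matrix.blockDiagonal'_apply_eq]
    · intro b _ hb
      refine Finset.sum_eq_zero fun j _ => ?_
      rw [Matrix.blockDiagonal'_apply_ne x i j hb.symm]
      simp
    · intro h
      exact absurd (Finset.mem_univ a) h
  rw [h3, Fintype.sum_sigma, Fintype.sum_sigma]
  refine (norm_sum_le _ _).trans ?_
  have h4 : ∀ a ∈ (Finset.univ : Finset ν), ‖∑ i, ∑ j, ⟪ξ ⟨a, i⟩, x a i j (η ⟨a, j⟩)⟫_ℂ‖ ≤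
      C * (√(∑ i, ‖ξ ⟨a, i⟩‖ ^ 2) * √(∑ j, ‖η ⟨a, j⟩‖ ^ 2)) := by
    intro a _
    refine (norm_sum_inner_le (x a) (fun i => ξ ⟨a, i⟩) (fun j => η ⟨a, j⟩)).trans ?_
    rw [mul_assoc]
    exact mul_le_mul_of_nonneg_right (hx a) (by positivity)
  refine (Finset.sum_le_sum h4).trans ?_
  rw [← Finset.mul_sum, mul_assoc]
  refine mul_le_mul_of_nonneg_left ?_ hC
  exact Real.sum_sqrt_mul_sqrt_le _ (fun a => Finset.sum_nonneg fun _ _ => by positivity)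
    (fun a => Finset.sum_nonneg fun _ _ => by positivity)

theorem norm_mop_le_sum (x : Matrix ι κ (H →L[ℂ] K)) : ‖mop x‖ ≤ ∑ i, ∑ j, ‖x i j‖ := by
  refine norm_mop_le _ (Finset.sum_nonneg fun _ _ => Finset.sum_nonneg fun _ _ => norm_nonneg _) ?_
  intro ξ η
  rw [mul_assoc, Finset.sum_mul]
  refine (norm_sum_le _ _).trans (Finset.sum_le_sum fun i _ => ?_)
  rw [Finset.sum_mul]
  refine (norm_sum_le _ _).trans (Finset.sum_le_sum fun j _ => ?_)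
  have h1 : ‖ξ i‖ ≤ √(∑ i, ‖ξ i‖ ^ 2) := Real.le_sqrt_of_sq_le
    (Finset.single_le_sum (f := fun i => ‖ξ i‖ ^ 2) (fun _ _ => by positivity)
      (Finset.mem_univ i))
  have h2 : ‖η j‖ ≤ √(∑ j, ‖η j‖ ^ 2) := Real.le_sqrt_of_sq_le
    (Finset.single_le_sum (f := fun j => ‖η j‖ ^ 2) (fun _ _ => by positivity)
      (Finset.mem_univ j))
  have h3 : ‖⟪ξ i, x i j (η j)⟫_ℂ‖ ≤ ‖ξ i‖ * (‖x i j‖ * ‖η j‖) :=
    (norm_inner_le_norm _ _).trans
      (mul_le_mul_of_nonneg_left ((x i j).le_opNorm _) (norm_nonneg _))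
  calc ‖⟪ξ i, x i j (η j)⟫_ℂ‖ ≤ ‖ξ i‖ * (‖x i j‖ * ‖η j‖) := h3
    _ = ‖x i j‖ * (‖ξ i‖ * ‖η j‖) := by ring
    _ ≤ ‖x i j‖ * (√(∑ i, ‖ξ i‖ ^ 2) * √(∑ j, ‖η j‖ ^ 2)) :=
      mul_le_mul_of_nonneg_left (mul_le_mul h1 h2 (norm_nonneg _) (Real.sqrt_nonneg _))
        (norm_nonneg _)

/-- compression -/
theorem norm_mop_compress_le {H' K' : Type} [NormedAddCommGroup H'] [InnerProductSpace ℂ H']
    [NormedAddCommGroup K'] [InnerProductSpace ℂ K'] (x : Matrix ι κ (H →L[ℂ] K))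
    (V : H' →L[ℂ] H) (W : K →L[ℂ] K') (hV : ‖V‖ ≤ 1) (hW : ‖W‖ ≤ 1) :
    ‖mop (x.map (fun a => W ∘L a ∘L V))‖ ≤ ‖mop x‖ := by
  refine ContinuousLinearMap.opNorm_le_bound _ (ContinuousLinearMap.opNorm_nonneg _) fun η => ?_
  obtain ⟨η', hη'⟩ : ∃ η' : PiLp 2 (fun _ : κ => H), ∀ j, η' j = V (η j) :=
    ⟨WithLp.toLp 2 (fun j => V (η j)), fun j => rfl⟩
  have h1 : ∀ i, mop (x.map (fun a => W ∘L a ∘L V)) η i = W (mop x η' i) := by
    intro i
    rw [mop_apply, mop_apply, map_sum]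
    refine Finset.sum_congr rfl fun j _ => ?_
    rw [hη' j]
    rfl
  have h2 : ‖mop (x.map (fun a => W ∘L a ∘L V)) η‖ ≤ ‖mop x η'‖ := by
    rw [PiLp.norm_eq_of_L2, PiLp.norm_eq_of_L2]
    refine Real.sqrt_le_sqrt (Finset.sum_le_sum fun i _ => ?_)
    rw [h1 i]
    have h3 : ‖W (mop x η' i)‖ ≤ ‖mop x η' i‖ :=
      (W.le_of_opNorm_le hW _).trans (by rw [one_mul])
    exact pow_le_pow_left₀ (norm_nonneg _) h3 2
  have h4 : ‖η'‖ ≤ ‖η‖ := by
    rw [PiLp.norm_eq_of_L2, PiLp.norm_eq_of_L2]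
    refine Real.sqrt_le_sqrt (Finset.sum_le_sum fun j _ => ?_)
    rw [hη' j]
    have h3 : ‖V (η j)‖ ≤ ‖η j‖ := (V.le_of_opNorm_le hV _).trans (by rw [one_mul])
    exact pow_le_pow_left₀ (norm_nonneg _) h3 2
  exact h2.trans (((mop x).le_opNorm η').trans
    (mul_le_mul_of_nonneg_left h4 (ContinuousLinearMap.opNorm_nonneg _)))

end mop

end OST
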