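import Pool.Agent.OST.Nrm1

/-!
# Matrix norms: `‖a x b‖ ≤ ‖a‖ ‖x‖ ‖b‖`

Use `norm_mop_le` and `norm_sum_inner_le`.

* `norm_mop_amb_le`: `⟪ξ, (a x b) η⟫ = ⟪a* ξ, x (b η)⟫`, with `(a* ξ) i = ∑ i', conj (a i' i) • ξ i'` and
  `√(∑ ‖(a* ξ) i‖ ^ 2) ≤ ‖a‖ √(∑ ‖ξ i'‖ ^ 2)`. For the last inequality (vectors with entries in a Hilbert
  space): restrict to the span of the `ξ i'` and use an orthonormal basis (`stdOrthonormalBasis`), or expand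
  `∑ i, ‖∑ i', c i i' • ξ i'‖ ^ 2 = ∑ i' i'', (cᴴ c) i' i'' ⟪ξ i', ξ i''⟫` and use that `‖c‖ ^ 2 - cᴴ c` is positive
  semidefinite (so a sum of squares `dᴴ d`).
-/

set_option autoImplicit false

namespace OST

open scoped Matrix Matrix.Norms.L2Operator InnerProductSpace

theorem vecs_le {ι₀ ι₁ E : Type} [Fintype ι₀] [Fintype ι₁] [DecidableEq ι₀]
    [NormedAddCommGroup E] [InnerProductSpace ℂ E] (c : Matrix ι₁ ι₀ ℂ) (ξ : ι₀ → E) :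
    ∑ i', ‖∑ i, c i' i • ξ i‖ ^ 2 ≤ ‖c‖ ^ 2 * ∑ i, ‖ξ i‖ ^ 2 := by
  have : FiniteDimensional ℂ (Submodule.span ℂ (Set.range ξ)) :=
    FiniteDimensional.span_of_finite ℂ (Set.finite_range ξ)
  let b := stdOrthonormalBasis ℂ (Submodule.span ℂ (Set.range ξ))
  let ζ : ι₀ → Submodule.span ℂ (Set.range ξ) := fun i => ⟨ξ i, Submodule.subset_span ⟨i, rfl⟩⟩
  have h1 : ∀ i', ‖∑ i, c i' i • ξ i‖ = ‖∑ i, c i' i • ζ i‖ := by
    intro i'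
    rw [Submodule.coe_norm]
    congr 1
    simp [ζ]
  have h2 : ∀ i, ‖ξ i‖ = ‖ζ i‖ := fun i => rfl
  simp only [h1, h2]
  have h3 : ∀ v : Submodule.span ℂ (Set.range ξ), ‖v‖ ^ 2 = ∑ k, ‖⟪b k, v⟫_ℂ‖ ^ 2 :=
    fun v => (b.sum_sq_norm_inner_right v).symm
  calc ∑ i', ‖∑ i, c i' i • ζ i‖ ^ 2 = ∑ i', ∑ k, ‖⟪b k, ∑ i, c i' i • ζ i⟫_ℂ‖ ^ 2 :=
        Finset.sum_congr rfl (fun i' _ => h3 _)
    _ = ∑ k, ∑ i', ‖∑ i, c i' i * ⟪b k, ζ i⟫_ℂ‖ ^ 2 := by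
        rw [Finset.sum_comm]
        refine Finset.sum_congr rfl (fun k _ => Finset.sum_congr rfl (fun i' _ => ?_))
        rw [inner_sum]
        congr 2
        refine Finset.sum_congr rfl (fun i _ => ?_)
        rw [inner_smul_right]
    _ ≤ ∑ k, ‖c‖ ^ 2 * ∑ i, ‖⟪b k, ζ i⟫_ℂ‖ ^ 2 := by
        refine Finset.sum_le_sum (fun k _ => ?_)
        have h4 := Matrix.l2_opNorm_mulVec c (WithLp.toLp 2 (fun i => ⟪b k, ζ i⟫_ℂ))
        have h5 := mul_self_le_mul_self (norm_nonneg _) h4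
        rw [← sq, ← sq, mul_pow, EuclideanSpace.norm_sq_eq, EuclideanSpace.norm_sq_eq] at h5
        simpa [Matrix.mulVec, dotProduct] using h5
    _ = ‖c‖ ^ 2 * ∑ i, ‖ζ i‖ ^ 2 := by
        rw [← Finset.mul_sum, Finset.sum_comm]
        congr 1
        exact Finset.sum_congr rfl (fun i _ => (h3 _).symm)

theorem vecs_le' {ι₀ ι₁ E : Type} [Fintype ι₀] [Fintype ι₁] [DecidableEq ι₀]
    [NormedAddCommGroup E] [InnerProductSpace ℂ E] (c : Matrix ι₁ ι₀ ℂ) (ξ : ι₀ → E) :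
    √(∑ i', ‖∑ i, c i' i • ξ i‖ ^ 2) ≤ ‖c‖ * √(∑ i, ‖ξ i‖ ^ 2) := by
  refine (Real.sqrt_le_sqrt (vecs_le c ξ)).trans (le_of_eq ?_)
  rw [Real.sqrt_mul (sq_nonneg _), Real.sqrt_sq (norm_nonneg _)]

section mop

variable {ι κ ι' κ' H K : Type} [Fintype ι] [Fintype κ] [Fintype ι'] [Fintype κ']
    [NormedAddCommGroup H] [InnerProductSpace ℂ H] [NormedAddCommGroup K] [InnerProductSpace ℂ K]

theorem norm_mop_amb_le [DecidableEq ι] [DecidableEq κ'] (a : Matrix ι' ι ℂ)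
    (x : Matrix ι κ (H →L[ℂ] K)) (b : Matrix κ κ' ℂ) :
    ‖mop (amb a x b)‖ ≤ ‖a‖ * ‖mop x‖ * ‖b‖ := by
  classical
  refine norm_mop_le _ (by positivity) (fun ξ η => ?_)
  have h1 : ∑ i, ∑ j, ⟪ξ i, amb a x b i j (η j)⟫_ℂ =
      ∑ i, ∑ k, ⟪∑ i', aᴴ i i' • ξ i', x i k (∑ j, b k j • η j)⟫_ℂ := by
    have h2 : ∀ i' j, ⟪ξ i', amb a x b i' j (η j)⟫_ℂ =
        ∑ i, ∑ k, a i' i * b k j * ⟪ξ i', x i k (η j)⟫_ℂ := by
      intro i' j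
      have h3 : amb a x b i' j (η j) = ∑ i, ∑ k, (a i' i * b k j) • x i k (η j) := by
        simp only [amb, sum_apply, smul_apply]
      rw [h3, inner_sum]
      refine Finset.sum_congr rfl (fun i _ => ?_)
      rw [inner_sum]
      exact Finset.sum_congr rfl (fun k _ => inner_smul_right _ _ _)
    have h4 : ∀ i k, ⟪∑ i', aᴴ i i' • ξ i', x i k (∑ j, b k j • η j)⟫_ℂ =
        ∑ i', ∑ j, a i' i * b k j * ⟪ξ i', x i k (η j)⟫_ℂ := by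
      intro i k
      rw [sum_inner]
      refine Finset.sum_congr rfl (fun i' _ => ?_)
      rw [map_sum, inner_sum]
      refine Finset.sum_congr rfl (fun j _ => ?_)
      rw [map_smul, inner_smul_left, inner_smul_right, Matrix.conjTranspose_apply]
      simp only [RCLike.star_def, RingHomCompTriple.comp_apply, RingHom.id_apply]
      ring
    simp only [h2, h4]
    calc ∑ i', ∑ j, ∑ i, ∑ k, a i' i * b k j * ⟪ξ i', x i k (η j)⟫_ℂ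
        = ∑ i', ∑ i, ∑ j, ∑ k, a i' i * b k j * ⟪ξ i', x i k (η j)⟫_ℂ :=
          Finset.sum_congr rfl (fun i' _ => Finset.sum_comm)
      _ = ∑ i, ∑ i', ∑ j, ∑ k, a i' i * b k j * ⟪ξ i', x i k (η j)⟫_ℂ := Finset.sum_comm
      _ = ∑ i, ∑ i', ∑ k, ∑ j, a i' i * b k j * ⟪ξ i', x i k (η j)⟫_ℂ :=
          Finset.sum_congr rfl (fun i _ => Finset.sum_congr rfl (fun i' _ => Finset.sum_comm))
      _ = ∑ i, ∑ k, ∑ i', ∑ j, a i' i * b k j * ⟪ξ i', x i k (η j)⟫_ℂ :=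
          Finset.sum_congr rfl (fun i _ => Finset.sum_comm)
  rw [h1]
  refine (norm_sum_inner_le x _ _).trans ?_
  have h5 := vecs_le' aᴴ ξ
  have h6 := vecs_le' b η
  rw [Matrix.l2_opNorm_conjTranspose] at h5
  calc ‖mop x‖ * √(∑ i, ‖∑ i', aᴴ i i' • ξ i'‖ ^ 2) * √(∑ k, ‖∑ j, b k j • η j‖ ^ 2)
      ≤ ‖mop x‖ * (‖a‖ * √(∑ i, ‖ξ i‖ ^ 2)) * (‖b‖ * √(∑ j, ‖η j‖ ^ 2)) := by
        gcongr
    _ = ‖a‖ * ‖mop x‖ * ‖b‖ * √(∑ i, ‖ξ i‖ ^ 2) * √(∑ j, ‖η j‖ ^ 2) := by ring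

end mop

end OST
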