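import Pool.Agent.OST.Nrm2
import Pool.Agent.OST.NrmAmb

/-!
# Matrix norms: operator spaces

Immediate from `Nrm1`, `Nrm2` (`E.nrm x = ‖mop (x.map Subtype.val)‖`).
`IsCC.nrm_le`: take `n` and injections `ι → Fin n`, `κ → Fin n` (`n = card (ι ⊕ κ)`); extend `x` by `0` to a square
matrix (its norm is the norm of `x`: `fromBlocks x 0 0 0` and `nrm_reindex`) and apply `hT`; `x.map T` is a
submatrix.
-/

set_option autoImplicit false

namespace OST

open scoped Matrix.Norms.L2Operator InnerProductSpace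

section OS

variable {E F : OS} {ι κ ι' κ' : Type} [Fintype ι] [Fintype κ] [Fintype ι'] [Fintype κ']

theorem OS.nrm_nonneg (E : OS) (x : Matrix ι κ E) : 0 ≤ E.nrm x := by
  exact norm_nonneg (mop (x.map (fun e => (e : E.H →L[ℂ] E.H))))

theorem OS.nrm_zero (E : OS) : E.nrm (0 : Matrix ι κ E) = 0 := by
  unfold OS.nrm
  have h1 : (0 : Matrix ι κ E).map (fun e => (e : E.H →L[ℂ] E.H)) =
      (0 : ℂ) • (0 : Matrix ι κ (E.H →L[ℂ] E.H)) := by
    ext i k
    simp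
  rw [h1, mop_smul]
  have h2 : (0 : ℂ) • mop (0 : Matrix ι κ (E.H →L[ℂ] E.H)) = 0 :=
    zero_smul ℂ (mop (0 : Matrix ι κ (E.H →L[ℂ] E.H)))
  rw [h2]
  exact ContinuousLinearMap.opNorm_zero

theorem OS.nrm_eq_zero (E : OS) {x : Matrix ι κ E} (h : E.nrm x = 0) : x = 0 := by
  ext1 i k
  have h1 := norm_entry_le_mop (x.map (fun e => (e : E.H →L[ℂ] E.H))) i k
  have h2 : ‖mop (x.map (fun e => (e : E.H →L[ℂ] E.H)))‖ = 0 := h
  rw [h2] at h1
  have h3 : ((x i k : E) : E.H →L[ℂ] E.H) = 0 := norm_le_zero_iff.1 h1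
  exact Subtype.ext h3

theorem OS.nrm_add_le (E : OS) (x y : Matrix ι κ E) : E.nrm (x + y) ≤ E.nrm x + E.nrm y := by
  unfold OS.nrm
  have h1 : (x + y).map (fun e => (e : E.H →L[ℂ] E.H)) =
      x.map (fun e => (e : E.H →L[ℂ] E.H)) + y.map (fun e => (e : E.H →L[ℂ] E.H)) := rfl
  rw [h1, mop_add]
  exact ContinuousLinearMap.opNorm_add_le _ _

theorem OS.nrm_smul (E : OS) (c : ℂ) (x : Matrix ι κ E) : E.nrm (c • x) = ‖c‖ * E.nrm x := by
  unfold OS.nrm
  have h1 : (c • x).map (fun e => (e : E.H →L[ℂ] E.H)) =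
      c • x.map (fun e => (e : E.H →L[ℂ] E.H)) := rfl
  rw [h1, mop_smul]
  set m := mop (x.map (fun e => (e : E.H →L[ℂ] E.H))) with hm
  apply le_antisymm (ContinuousLinearMap.opNorm_smul_le c m)
  by_cases hc : c = 0
  · rw [hc, norm_zero, zero_mul]
    exact ContinuousLinearMap.opNorm_nonneg _
  · have h2 := ContinuousLinearMap.opNorm_smul_le c⁻¹ (c • m)
    rw [smul_smul, inv_mul_cancel₀ hc, norm_inv] at h2
    have h3 : (1 : ℂ) • m = m := one_smul ℂ m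
    rw [h3] at h2
    have hc' : 0 < ‖c‖ := norm_pos_iff.2 hc
    rw [inv_mul_eq_div, le_div_iff₀ hc'] at h2
    rw [mul_comm]
    exact h2

theorem OS.nrm_amb_le (E : OS) [DecidableEq ι] [DecidableEq κ'] (a : Matrix ι' ι ℂ)
    (x : Matrix ι κ E) (b : Matrix κ κ' ℂ) : E.nrm (amb a x b) ≤ ‖a‖ * E.nrm x * ‖b‖ := by
  unfold OS.nrm
  have h1 : (amb a x b).map (fun e => (e : E.H →L[ℂ] E.H)) =
      amb a (x.map (fun e => (e : E.H →L[ℂ] E.H))) b := by
    ext1 i k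
    simp only [Matrix.map_apply, amb]
    rw [Submodule.coe_sum]
    refine Finset.sum_congr rfl fun i _ => ?_
    rw [Submodule.coe_sum]
    rfl
  rw [h1]
  exact norm_mop_amb_le _ _ _

theorem OS.nrm_submatrix_le (E : OS) (x : Matrix ι κ E) {e : ι' → ι} {f : κ' → κ}
    (he : Function.Injective e) (hf : Function.Injective f) :
    E.nrm (x.submatrix e f) ≤ E.nrm x := by
  exact norm_mop_submatrix_le (x.map (fun e => (e : E.H →L[ℂ] E.H))) he hf

theorem OS.nrm_reindex (E : OS) (x : Matrix ι κ E) (e : ι' ≃ ι) (f : κ' ≃ κ) :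
    E.nrm (x.submatrix e f) = E.nrm x := by
  apply le_antisymm (E.nrm_submatrix_le x e.injective f.injective)
  have h1 : x = (x.submatrix e f).submatrix e.symm f.symm := by
    ext1 i k
    simp
  conv_lhs => rw [h1]
  exact E.nrm_submatrix_le _ e.symm.injective f.symm.injective

theorem OS.nrm_fromBlocks_le (E : OS) (x : Matrix ι κ E) (y : Matrix ι' κ' E) {C : ℝ}
    (hx : E.nrm x ≤ C) (hy : E.nrm y ≤ C) : E.nrm (Matrix.fromBlocks x 0 0 y) ≤ C := by
  unfold OS.nrm at hx hy ⊢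
  have h1 : (Matrix.fromBlocks x 0 0 y).map (fun e => (e : E.H →L[ℂ] E.H)) =
      Matrix.fromBlocks (x.map (fun e => (e : E.H →L[ℂ] E.H))) 0 0
        (y.map (fun e => (e : E.H →L[ℂ] E.H))) := by
    rw [Matrix.fromBlocks_map]
    congr 1
  rw [h1]
  exact norm_mop_fromBlocks_le _ _ hx hy

theorem OS.nrm_blockDiagonal'_le (E : OS) {ν : Type} [Fintype ν] [DecidableEq ν]
    {m n : ν → Type} [∀ a, Fintype (m a)] [∀ a, Fintype (n a)] (x : ∀ a, Matrix (m a) (n a) E)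
    {C : ℝ} (hC : 0 ≤ C) (hx : ∀ a, E.nrm (x a) ≤ C) :
    E.nrm (Matrix.blockDiagonal' x) ≤ C := by
  unfold OS.nrm at hx ⊢
  have h1 : (Matrix.blockDiagonal' x).map (fun e => (e : E.H →L[ℂ] E.H)) =
      Matrix.blockDiagonal' (fun a => (x a).map (fun e => (e : E.H →L[ℂ] E.H))) := by
    rw [Matrix.blockDiagonal'_map]
    rfl
  rw [h1]
  exact norm_mop_blockDiagonal'_le _ hC hx

theorem OS.nrm_blockDiagonal_le (E : OS) {ν : Type} [Fintype ν] [DecidableEq ν]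
    (x : ν → Matrix ι κ E) {C : ℝ} (hC : 0 ≤ C) (hx : ∀ a, E.nrm (x a) ≤ C) :
    E.nrm (Matrix.blockDiagonal x) ≤ C := by
  have h1 : Matrix.blockDiagonal x =
      (Matrix.blockDiagonal' x).submatrix (fun p : ι × ν => (⟨p.2, p.1⟩ : Σ _ : ν, ι))
        (fun p : κ × ν => (⟨p.2, p.1⟩ : Σ _ : ν, κ)) := by
    ext1 ⟨i, k⟩ ⟨j, k'⟩
    rw [Matrix.submatrix_apply]
    exact Matrix.blockDiagonal'_eq_blockDiagonal x i j
  rw [h1]
  refine (E.nrm_submatrix_le _ ?_ ?_).trans (E.nrm_blockDiagonal'_le x hC hx)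
  · rintro ⟨i, k⟩ ⟨j, k'⟩ h
    simp only [Sigma.mk.injEq, heq_eq_eq] at h
    rw [h.1, h.2]
  · rintro ⟨i, k⟩ ⟨j, k'⟩ h
    simp only [Sigma.mk.injEq, heq_eq_eq] at h
    rw [h.1, h.2]

theorem OS.norm_entry_le (E : OS) (x : Matrix ι κ E) (i : ι) (k : κ) :
    ‖x i k‖ ≤ E.nrm x := by
  exact norm_entry_le_mop (x.map (fun e => (e : E.H →L[ℂ] E.H))) i k

theorem OS.nrm_le_sum (E : OS) (x : Matrix ι κ E) : E.nrm x ≤ ∑ i, ∑ k, ‖x i k‖ := by
  exact norm_mop_le_sum (x.map (fun e => (e : E.H →L[ℂ] E.H)))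

/-- A complete contraction is contractive on rectangular matrices with arbitrary index sets. -/
theorem IsCC.nrm_le {T : E →ₗ[ℂ] F} (hT : IsCC T) (x : Matrix ι κ E) :
    F.nrm (x.map T) ≤ E.nrm x := by
  classical
  set n := Fintype.card (ι ⊕ κ) with hn
  let e1 : Fin n ≃ ι ⊕ κ := (Fintype.equivFin (ι ⊕ κ)).symm
  let e2 : Fin n ≃ κ ⊕ ι := e1.trans (Equiv.sumComm ι κ)
  let Z : Matrix (ι ⊕ κ) (κ ⊕ ι) E := Matrix.fromBlocks x 0 0 (0 : Matrix κ ι E)
  have hZ : E.nrm Z ≤ E.nrm x :=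
    E.nrm_fromBlocks_le x (0 : Matrix κ ι E) le_rfl (by rw [E.nrm_zero]; exact E.nrm_nonneg x)
  have h1 := hT n (Z.submatrix e1 e2)
  rw [E.nrm_reindex] at h1
  have h2 : x.map T = ((Z.submatrix e1 e2).map T).submatrix
      (fun i => e1.symm (Sum.inl i)) (fun k => e2.symm (Sum.inl k)) := by
    ext1 i k
    simp [Z]
  rw [h2]
  refine (F.nrm_submatrix_le _ ?_ ?_).trans (h1.trans hZ)
  · exact e1.symm.injective.comp Sum.inl_injective
  · exact e2.symm.injective.comp Sum.inl_injective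

theorem IsCC.norm_le {T : E →ₗ[ℂ] F} (hT : IsCC T) (x : E) : ‖T x‖ ≤ ‖x‖ := by
  have h1 := hT.nrm_le (ι := Unit) (κ := Unit) (fun _ _ => x)
  have h2 := F.norm_entry_le (Matrix.map (fun (_ : Unit) (_ : Unit) => x) T) () ()
  have h3 := E.nrm_le_sum (ι := Unit) (κ := Unit) (fun _ _ => x)
  have h4 : ∑ _i : Unit, ∑ _k : Unit, ‖x‖ = ‖x‖ := by simp
  exact (h2.trans (h1.trans h3)).trans_eq h4

theorem isCC_id (E : OS) : IsCC (LinearMap.id : E →ₗ[ℂ] E) := by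
  intro n x
  exact le_of_eq rfl

theorem IsCC.comp {D : OS} {S : F →ₗ[ℂ] D} {T : E →ₗ[ℂ] F} (hS : IsCC S) (hT : IsCC T) :
    IsCC (S ∘ₗ T) := by
  intro n x
  exact (hS n (x.map T)).trans (hT n x)

theorem OS.nrm_incl (E : OS) (x : Matrix ι κ E) : E.full.nrm (x.map E.incl) = E.nrm x := by
  rfl

theorem OS.isCC_incl (E : OS) : IsCC E.incl := by
  intro n x
  exact le_of_eq (E.nrm_incl x)

theorem OS.incl_injective (E : OS) : Function.Injective E.incl := by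
  exact Submodule.inclusion_injective _

end OS

end OST
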