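import Pool.Agent.OST.Nrm3

/-!
# The polar decomposition trick

PROOF. `A' = (A * Aᴴ + δ)^{1/2}`, `B' = (Bᴴ * B + δ)^{1/2}` (positive square roots of positive definite matrices, hermitian and
invertible), `X' = A'⁻¹ U B'⁻¹ = amb A'⁻¹ U B'⁻¹`. Then `U = amb A' X' B'`; in `B(H)`: `X' = amb (A'⁻¹ * A) X (B * B'⁻¹)`
(`amb_amb`), and `‖A'⁻¹ * A‖ ≤ 1` as `(A'⁻¹ A) (A'⁻¹ A)ᴴ = A'⁻¹ A Aᴴ A'⁻¹ ≤ A'⁻¹ (A'^2) A'⁻¹ = 1`.
-/

set_option autoImplicit false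

namespace OST

open scoped ComplexOrder Matrix Matrix.Norms.L2Operator

theorem amb_amb {ι κ ι' κ' ι'' κ'' V : Type} [Fintype ι] [Fintype κ] [Fintype ι'] [Fintype κ']
    [AddCommGroup V] [Module ℂ V] (a' : Matrix ι'' ι' ℂ) (a : Matrix ι' ι ℂ) (x : Matrix ι κ V)
    (b : Matrix κ κ' ℂ) (b' : Matrix κ' κ'' ℂ) :
    amb a' (amb a x b) b' = amb (a' * a) x (b * b') := by
  funext i k
  simp only [amb, Matrix.mul_apply, Finset.smul_sum, smul_smul]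
  simp_rw [Finset.sum_mul_sum, Finset.sum_smul]
  -- LHS: sum over i', k', i'', k''
  rw [Finset.sum_congr rfl (fun i' _ => Finset.sum_comm)]
  rw [Finset.sum_comm]
  refine Finset.sum_congr rfl (fun i'' _ => ?_)
  rw [Finset.sum_congr rfl (fun i' _ => Finset.sum_comm)]
  rw [Finset.sum_comm]
  refine Finset.sum_congr rfl (fun k'' _ => ?_)
  refine Finset.sum_congr rfl (fun i' _ => ?_)
  refine Finset.sum_congr rfl (fun k' _ => ?_)
  congr 1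
  ring

theorem amb_one {ι κ V : Type} [Fintype ι] [Fintype κ] [DecidableEq ι] [DecidableEq κ]
    [AddCommGroup V] [Module ℂ V] (x : Matrix ι κ V) : amb 1 x 1 = x := by
  funext i k
  simp only [amb]
  rw [Finset.sum_eq_single i, Finset.sum_eq_single k]
  · simp
  · intro j _ hj
    rw [Matrix.one_apply_ne hj, mul_zero, zero_smul]
  · intro h
    exact absurd (Finset.mem_univ k) h
  · intro j _ hj
    refine Finset.sum_eq_zero (fun l _ => ?_)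
    rw [Matrix.one_apply_ne (Ne.symm hj), zero_mul, zero_smul]
  · intro h
    exact absurd (Finset.mem_univ i) h

theorem map_amb {ι κ ι' κ' V W : Type} [Fintype ι] [Fintype κ] [AddCommGroup V] [Module ℂ V]
    [AddCommGroup W] [Module ℂ W] (T : V →ₗ[ℂ] W) (a : Matrix ι' ι ℂ) (x : Matrix ι κ V)
    (b : Matrix κ κ' ℂ) : (amb a x b).map T = amb a (x.map T) b := by
  funext i k
  simp only [amb, Matrix.map_apply, map_sum, map_smul]

private theorem dot_self {n : Type} [Fintype n] (w : n → ℂ) :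
    star w ⬝ᵥ w = ((∑ i, ‖w i‖ ^ 2 : ℝ) : ℂ) := by
  simp only [dotProduct, Pi.star_apply]
  rw [Complex.ofReal_sum]
  refine Finset.sum_congr rfl (fun i _ => ?_)
  have := RCLike.conj_mul (w i)
  simpa using this

private theorem norm_le_one {m n : Type} [Fintype m] [Fintype n] [DecidableEq n]
    (C : Matrix m n ℂ) (h : (1 - Cᴴ * C).PosSemidef) : ‖C‖ ≤ 1 := by
  rw [Matrix.l2_opNorm_def]
  refine ContinuousLinearMap.opNorm_le_bound _ zero_le_one (fun v => ?_)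
  rw [one_mul]
  change ‖(WithLp.toLp 2 (C.mulVec v.ofLp) : EuclideanSpace ℂ m)‖ ≤ ‖v‖
  refine le_of_sq_le_sq ?_ (norm_nonneg _)
  rw [EuclideanSpace.norm_sq_eq, EuclideanSpace.norm_sq_eq]
  have h2 := h.dotProduct_mulVec_nonneg v.ofLp
  rw [Matrix.sub_mulVec, Matrix.one_mulVec, dotProduct_sub, dot_self] at h2
  have h3 : star v.ofLp ⬝ᵥ (Cᴴ * C).mulVec v.ofLp =
      ((∑ i, ‖(C.mulVec v.ofLp) i‖ ^ 2 : ℝ) : ℂ) := by
    rw [← dot_self, Matrix.star_mulVec, ← Matrix.mulVec_mulVec, Matrix.dotProduct_mulVec]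
  rw [h3, ← Complex.ofReal_sub] at h2
  have h4 : (0 : ℝ) ≤ _ := Complex.zero_le_real.1 h2
  linarith

private theorem exists_root {n : Type} [Fintype n] [DecidableEq n] (P : Matrix n n ℂ)
    (hP : P.PosSemidef) {δ : ℝ} (hδ : 0 < δ) :
    ∃ S : Matrix n n ℂ, Sᴴ * S = P + (δ : ℂ) • 1 ∧ IsUnit S.det := by
  have h1 : ((δ : ℂ) • (1 : Matrix n n ℂ)).PosSemidef :=
    Matrix.PosSemidef.one.smul (Complex.zero_le_real.2 hδ.le)
  have h2 : (P + (δ : ℂ) • (1 : Matrix n n ℂ)).PosSemidef := hP.add h1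
  obtain ⟨S, hS⟩ : ∃ S : Matrix n n ℂ, P + (δ : ℂ) • 1 = Sᴴ * S := by
    open scoped MatrixOrder in
    exact CStarAlgebra.nonneg_iff_eq_star_mul_self.mp h2.nonneg
  refine ⟨S, hS.symm, ?_⟩
  rw [← Matrix.isUnit_iff_isUnit_det, ← Matrix.mulVec_injective_iff_isUnit]
  intro v w hvw
  have h3 : S.mulVec (v - w) = 0 := by
    rw [Matrix.mulVec_sub, hvw, sub_self]
  have h4 : star (v - w) ⬝ᵥ (P + (δ : ℂ) • (1 : Matrix n n ℂ)).mulVec (v - w) = 0 := by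
    rw [hS, ← Matrix.mulVec_mulVec, h3, Matrix.mulVec_zero, dotProduct_zero]
  rw [Matrix.add_mulVec, dotProduct_add, Matrix.smul_mulVec, Matrix.one_mulVec, dotProduct_smul,
    dot_self] at h4
  have h5 := hP.dotProduct_mulVec_nonneg (v - w)
  have h6 : (∑ i, ‖(v - w) i‖ ^ 2 : ℝ) ≤ 0 := by
    have h7 := congrArg Complex.re h4
    have h8 : (0 : ℝ) ≤ (star (v - w) ⬝ᵥ P.mulVec (v - w)).re := (Complex.le_def.1 h5).1
    rw [Complex.add_re, smul_eq_mul, ← Complex.ofReal_mul, Complex.ofReal_re, Complex.zero_re] at h7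
    by_contra hcon
    push Not at hcon
    have := mul_pos hδ hcon
    linarith
  have h7 : ∀ i, ‖(v - w) i‖ ^ 2 = 0 := by
    intro i
    have h8 := Finset.single_le_sum (f := fun i => ‖(v - w) i‖ ^ 2) (fun j _ => sq_nonneg _)
      (Finset.mem_univ i)
    exact le_antisymm (h8.trans h6) (sq_nonneg _)
  funext i
  have h8 := pow_eq_zero_iff (two_ne_zero) |>.1 (h7 i)
  rw [norm_eq_zero, Pi.sub_apply, sub_eq_zero] at h8
  exact h8

theorem polar (E : OS) {ι κ : Type} [Fintype ι] [DecidableEq ι] [Fintype κ] [DecidableEq κ]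
    (U : Matrix ι ι E) (A : Matrix ι κ ℂ) (X : Matrix κ κ E.full) (B : Matrix κ ι ℂ)
    (hU : U.map E.incl = amb A X B) {δ : ℝ} (hδ : 0 < δ) :
    ∃ (X' : Matrix ι ι E) (A' B' : Matrix ι ι ℂ), U = amb A' X' B' ∧
      E.nrm X' ≤ E.full.nrm X ∧ A' * A'ᴴ = A * Aᴴ + (δ : ℂ) • 1 ∧
      B'ᴴ * B' = Bᴴ * B + (δ : ℂ) • 1 := by
  obtain ⟨S, hS, hSu⟩ := exists_root (A * Aᴴ) (Matrix.posSemidef_self_mul_conjTranspose A) hδ
  obtain ⟨B', hB, hBu⟩ := exists_root (Bᴴ * B) (Matrix.posSemidef_conjTranspose_mul_self B) hδ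
  have hδ1 : ((δ : ℂ) • (1 : Matrix ι ι ℂ)).PosSemidef :=
    Matrix.PosSemidef.one.smul (Complex.zero_le_real.2 hδ.le)
  have hAu : IsUnit (Sᴴ).det := by
    rw [Matrix.det_conjTranspose]
    exact hSu.star
  have hAi : Sᴴ * (Sᴴ)⁻¹ = 1 := Matrix.mul_nonsing_inv _ hAu
  have hAi' : (Sᴴ)⁻¹ * Sᴴ = 1 := Matrix.nonsing_inv_mul _ hAu
  have hBi : B' * B'⁻¹ = 1 := Matrix.mul_nonsing_inv _ hBu
  have hBi' : B'⁻¹ * B' = 1 := Matrix.nonsing_inv_mul _ hBu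
  have hA1 : ‖(Sᴴ)⁻¹ * A‖ ≤ 1 := by
    rw [← Matrix.l2_opNorm_conjTranspose]
    apply norm_le_one
    rw [Matrix.conjTranspose_conjTranspose, Matrix.conjTranspose_mul]
    have h1 := hδ1.mul_mul_conjTranspose_same ((Sᴴ)⁻¹)
    have h2 : (1 : Matrix ι ι ℂ) - (Sᴴ)⁻¹ * A * (Aᴴ * ((Sᴴ)⁻¹)ᴴ) =
        (Sᴴ)⁻¹ * ((δ : ℂ) • 1) * ((Sᴴ)⁻¹)ᴴ := by
      have h3 : ((δ : ℂ) • (1 : Matrix ι ι ℂ)) = Sᴴ * S - A * Aᴴ := by
        rw [hS]; abel
      have h4 : S * ((Sᴴ)⁻¹)ᴴ = 1 := by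
        rw [← Matrix.conjTranspose_inj, Matrix.conjTranspose_mul, Matrix.conjTranspose_conjTranspose,
          hAi', Matrix.conjTranspose_one]
      rw [h3, Matrix.mul_sub, Matrix.sub_mul, ← Matrix.mul_assoc (Sᴴ)⁻¹ (Sᴴ) S, hAi',
        Matrix.one_mul, h4]
      simp only [Matrix.mul_assoc]
    rw [h2]
    exact h1
  have hB1 : ‖B * B'⁻¹‖ ≤ 1 := by
    apply norm_le_one
    rw [Matrix.conjTranspose_mul]
    have h1 := hδ1.conjTranspose_mul_mul_same (B'⁻¹)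
    have h2 : (1 : Matrix ι ι ℂ) - (B'⁻¹)ᴴ * Bᴴ * (B * B'⁻¹) =
        (B'⁻¹)ᴴ * ((δ : ℂ) • 1) * B'⁻¹ := by
      have h3 : ((δ : ℂ) • (1 : Matrix ι ι ℂ)) = B'ᴴ * B' - Bᴴ * B := by
        rw [hB]; abel
      have h4 : (B'⁻¹)ᴴ * B'ᴴ = 1 := by
        rw [← Matrix.conjTranspose_mul, hBi, Matrix.conjTranspose_one]
      rw [h3, Matrix.mul_sub, Matrix.sub_mul, ← Matrix.mul_assoc (B'⁻¹)ᴴ (B'ᴴ) B', h4,
        Matrix.one_mul, hBi]
      simp only [Matrix.mul_assoc]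
    rw [h2]
    exact h1
  refine ⟨amb (Sᴴ)⁻¹ U B'⁻¹, Sᴴ, B', ?_, ?_, ?_, hB⟩
  · rw [amb_amb, hAi, hBi', amb_one]
  · rw [← OS.nrm_incl, map_amb, hU, amb_amb]
    refine (OS.nrm_amb_le _ _ _ _).trans ?_
    have h0 := OS.nrm_nonneg E.full X
    calc ‖(Sᴴ)⁻¹ * A‖ * E.full.nrm X * ‖B * B'⁻¹‖
        ≤ (1 * E.full.nrm X) * 1 := mul_le_mul (mul_le_mul_of_nonneg_right hA1 h0) hB1
          (norm_nonneg _) (by rw [one_mul]; exact h0)
      _ = E.full.nrm X := by ring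
  · rw [Matrix.conjTranspose_conjTranspose, hS]

end OST
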