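import Pool.Agent.OST.UnivB
import Pool.Agent.OST.Polar

/-!
# The projective norm: representations

* `proj_le`: reindex `ι ≃ Fin p`, `κ ≃ Fin q` (`OS.nrm_reindex`, the L2 operator norm is invariant under reindexing), then `csInf_le`.
* `exists_rep`: every `u` is of the form `amb a (tens x y) b`: for `u` = one elementary tensor at the entry `(k, l)` take `p = q = 1`; sums:
  `amb a (tens x y) b + amb a' (tens x' y') b' = amb a'' (tens (fromBlocks x 0 0 x') (fromBlocks y 0 0 y')) b''` where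
  `a'' = [a, a']` on the indices `(inl, inl)`, `(inr, inr)` and `0` on the mixed ones. Induction over the entries and `TensorProduct.induction_on`.
-/

set_option autoImplicit false

namespace OST

open scoped Matrix Matrix.Norms.L2Operator TensorProduct

variable {E F : OS} {n : ℕ}

private theorem perm_norm_le {ν ν' : Type} [Fintype ν] [Fintype ν'] [DecidableEq ν] [DecidableEq ν']
    (e : ν' ≃ ν) : ‖(1 : Matrix ν ν ℂ).submatrix id e‖ ≤ 1 := by
  have h1 : ((1 : Matrix ν ν ℂ).submatrix id e)ᴴ * (1 : Matrix ν ν ℂ).submatrix id e = 1 := by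
    rw [Matrix.conjTranspose_submatrix, Matrix.conjTranspose_one,
      ← Matrix.submatrix_mul _ _ _ _ _ Function.bijective_id, Matrix.one_mul,
      Matrix.submatrix_one_equiv]
  have h2 := Matrix.l2_opNorm_conjTranspose_mul_self ((1 : Matrix ν ν ℂ).submatrix id e)
  rw [h1] at h2
  have h3 : ‖(1 : Matrix ν' ν' ℂ)‖ ≤ 1 := by
    rw [← Matrix.diagonal_one, Matrix.l2_opNorm_diagonal]
    exact (pi_norm_le_iff_of_nonneg zero_le_one).2 (fun i => by simp)
  rw [h2] at h3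
  nlinarith [norm_nonneg ((1 : Matrix ν ν ℂ).submatrix id e)]

private theorem norm_submatrix_right_le {ν ν' μ : Type} [Fintype ν] [Fintype ν'] [DecidableEq ν]
    [DecidableEq ν'] [Fintype μ] (a : Matrix μ ν ℂ) (e : ν' ≃ ν) :
    ‖a.submatrix id e‖ ≤ ‖a‖ := by
  have h1 : a.submatrix id e = a * (1 : Matrix ν ν ℂ).submatrix id e := by
    conv_lhs => rw [← Matrix.mul_one a]
    rw [Matrix.submatrix_mul _ _ _ id _ Function.bijective_id, Matrix.submatrix_id_id]
  rw [h1]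
  refine (Matrix.l2_opNorm_mul _ _).trans ?_
  exact mul_le_of_le_one_right (norm_nonneg _) (perm_norm_le e)

private theorem norm_submatrix_left_le {ν ν' μ : Type} [Fintype ν] [Fintype ν'] [DecidableEq ν]
    [DecidableEq ν'] [Fintype μ] [DecidableEq μ] (b : Matrix ν μ ℂ) (e : ν' ≃ ν) :
    ‖b.submatrix e id‖ ≤ ‖b‖ := by
  have h1 := norm_submatrix_right_le bᴴ e
  rw [Matrix.l2_opNorm_conjTranspose] at h1
  rw [← Matrix.l2_opNorm_conjTranspose, Matrix.conjTranspose_submatrix]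
  exact h1

private theorem reindexFin {ι κ : Type} [Fintype ι] [Fintype κ] [DecidableEq ι] [DecidableEq κ]
    (a : Matrix (Fin n) (ι × κ) ℂ) (x : Matrix ι ι E) (y : Matrix κ κ F)
    (b : Matrix (ι × κ) (Fin n) ℂ) :
    ∃ (p q : ℕ) (a' : Matrix (Fin n) (Fin p × Fin q) ℂ) (x' : Matrix (Fin p) (Fin p) E)
      (y' : Matrix (Fin q) (Fin q) F) (b' : Matrix (Fin p × Fin q) (Fin n) ℂ),
      amb a (tens x y) b = amb a' (tens x' y') b' ∧ ‖a'‖ ≤ ‖a‖ ∧ E.nrm x' ≤ E.nrm x ∧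
        F.nrm y' ≤ F.nrm y ∧ ‖b'‖ ≤ ‖b‖ := by
  let e : Fin (Fintype.card ι) ≃ ι := (Fintype.equivFin ι).symm
  let f : Fin (Fintype.card κ) ≃ κ := (Fintype.equivFin κ).symm
  let g : Fin (Fintype.card ι) × Fin (Fintype.card κ) ≃ ι × κ := Equiv.prodCongr e f
  refine ⟨_, _, a.submatrix id g, x.submatrix e e, y.submatrix f f, b.submatrix g id, ?_,
    norm_submatrix_right_le a g, (E.nrm_reindex x e e).le, (F.nrm_reindex y f f).le,
    norm_submatrix_left_le b g⟩
  funext i k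
  show ∑ i', ∑ k', (a i i' * b k' k) • tens x y i' k' =
    ∑ i', ∑ k', (a i (g i') * b (g k') k) • tens x y (g i') (g k')
  rw [← Equiv.sum_comp g]
  refine Finset.sum_congr rfl (fun i' _ => ?_)
  rw [← Equiv.sum_comp g]

private theorem rep_add {u v : Matrix (Fin n) (Fin n) (E ⊗[ℂ] F)}
    (hu : ∃ (p q : ℕ) (a : Matrix (Fin n) (Fin p × Fin q) ℂ) (x : Matrix (Fin p) (Fin p) E)
      (y : Matrix (Fin q) (Fin q) F) (b : Matrix (Fin p × Fin q) (Fin n) ℂ),
      u = amb a (tens x y) b)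
    (hv : ∃ (p q : ℕ) (a : Matrix (Fin n) (Fin p × Fin q) ℂ) (x : Matrix (Fin p) (Fin p) E)
      (y : Matrix (Fin q) (Fin q) F) (b : Matrix (Fin p × Fin q) (Fin n) ℂ),
      v = amb a (tens x y) b) :
    ∃ (p q : ℕ) (a : Matrix (Fin n) (Fin p × Fin q) ℂ) (x : Matrix (Fin p) (Fin p) E)
      (y : Matrix (Fin q) (Fin q) F) (b : Matrix (Fin p × Fin q) (Fin n) ℂ),
      u + v = amb a (tens x y) b := by
  obtain ⟨p, q, a, x, y, b, rfl⟩ := hu
  obtain ⟨p', q', a', x', y', b', rfl⟩ := hv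
  let A : Matrix (Fin n) ((Fin p ⊕ Fin p') × (Fin q ⊕ Fin q')) ℂ := fun r i =>
    match i with
    | (Sum.inl i, Sum.inl k) => a r (i, k)
    | (Sum.inr i, Sum.inr k) => a' r (i, k)
    | (Sum.inl _, Sum.inr _) => 0
    | (Sum.inr _, Sum.inl _) => 0
  let B : Matrix ((Fin p ⊕ Fin p') × (Fin q ⊕ Fin q')) (Fin n) ℂ := fun i r =>
    match i with
    | (Sum.inl i, Sum.inl k) => b (i, k) r
    | (Sum.inr i, Sum.inr k) => b' (i, k) r
    | (Sum.inl _, Sum.inr _) => 0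
    | (Sum.inr _, Sum.inl _) => 0
  obtain ⟨P, Q, a₁, x₁, y₁, b₁, h, -⟩ := reindexFin A (Matrix.fromBlocks x 0 0 x')
    (Matrix.fromBlocks y 0 0 y') B
  refine ⟨P, Q, a₁, x₁, y₁, b₁, ?_⟩
  rw [← h]
  funext i k
  show (∑ i', ∑ k', (a i i' * b k' k) • tens x y i' k') +
      (∑ i', ∑ k', (a' i i' * b' k' k) • tens x' y' i' k') =
    ∑ i', ∑ k', (A i i' * B k' k) • tens (Matrix.fromBlocks x 0 0 x')
      (Matrix.fromBlocks y 0 0 y') i' k'
  simp only [Fintype.sum_prod_type, Fintype.sum_sum_type, tens, A, B, Matrix.fromBlocks_apply₁₁,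
    Matrix.fromBlocks_apply₂₂, Matrix.fromBlocks_apply₁₂, Matrix.fromBlocks_apply₂₁,
    Matrix.zero_apply, TensorProduct.zero_tmul, TensorProduct.tmul_zero, smul_zero,
    Finset.sum_const_zero, add_zero, zero_add, zero_mul, mul_zero, zero_smul]

theorem proj_nonneg (E F : OS) (n : ℕ) (u : Matrix (Fin n) (Fin n) (E ⊗[ℂ] F)) :
    0 ≤ proj E F n u := by
  apply Real.sInf_nonneg
  rintro r ⟨p, q, a, x, y, b, -, rfl⟩
  have h1 := E.nrm_nonneg x
  have h2 := F.nrm_nonneg y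
  positivity

theorem proj_le {ι κ : Type} [Fintype ι] [Fintype κ] [DecidableEq ι] [DecidableEq κ]
    (a : Matrix (Fin n) (ι × κ) ℂ) (x : Matrix ι ι E) (y : Matrix κ κ F)
    (b : Matrix (ι × κ) (Fin n) ℂ) :
    proj E F n (amb a (tens x y) b) ≤ ‖a‖ * E.nrm x * F.nrm y * ‖b‖ := by
  obtain ⟨p, q, a', x', y', b', h, ha, hx, hy, hb⟩ := reindexFin a x y b
  have h1 : proj E F n (amb a (tens x y) b) ≤ ‖a'‖ * E.nrm x' * F.nrm y' * ‖b'‖ := by
    refine csInf_le ⟨0, ?_⟩ ⟨p, q, a', x', y', b', h, rfl⟩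
    rintro r ⟨p, q, a, x, y, b, -, rfl⟩
    have h1 := E.nrm_nonneg x
    have h2 := F.nrm_nonneg y
    positivity
  refine h1.trans ?_
  have h3 := E.nrm_nonneg x'
  have h4 := F.nrm_nonneg y'
  have h5 := E.nrm_nonneg x
  have h6 := F.nrm_nonneg y
  gcongr

theorem exists_rep (u : Matrix (Fin n) (Fin n) (E ⊗[ℂ] F)) :
    ∃ (p q : ℕ) (a : Matrix (Fin n) (Fin p × Fin q) ℂ) (x : Matrix (Fin p) (Fin p) E)
      (y : Matrix (Fin q) (Fin q) F) (b : Matrix (Fin p × Fin q) (Fin n) ℂ),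
      u = amb a (tens x y) b := by
  classical
  have h0 : ∃ (p q : ℕ) (a : Matrix (Fin n) (Fin p × Fin q) ℂ) (x : Matrix (Fin p) (Fin p) E)
      (y : Matrix (Fin q) (Fin q) F) (b : Matrix (Fin p × Fin q) (Fin n) ℂ),
      (0 : Matrix (Fin n) (Fin n) (E ⊗[ℂ] F)) = amb a (tens x y) b := by
    refine ⟨0, 0, 0, 0, 0, 0, ?_⟩
    funext i k
    simp [amb]
  have h1 : ∀ (i k : Fin n) (t : E ⊗[ℂ] F), ∃ (p q : ℕ) (a : Matrix (Fin n) (Fin p × Fin q) ℂ)
      (x : Matrix (Fin p) (Fin p) E)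
      (y : Matrix (Fin q) (Fin q) F) (b : Matrix (Fin p × Fin q) (Fin n) ℂ),
      Matrix.single i k t = amb a (tens x y) b := by
    intro i k t
    induction t using TensorProduct.induction_on with
    | zero =>
      rw [Matrix.single_zero]
      exact h0
    | tmul e f =>
      refine ⟨1, 1, fun r _ => if i = r then 1 else 0, fun _ _ => e, fun _ _ => f,
        fun _ r => if k = r then 1 else 0, ?_⟩
      funext r s
      simp only [amb, tens, Fintype.sum_prod_type, Finset.univ_unique, Finset.sum_singleton]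
      rw [Matrix.single_apply]
      by_cases h1 : i = r
      · by_cases h2 : k = s
        · simp [h1, h2]
        · simp [h1, h2]
      · simp [h1]
    | add s t hs ht =>
      rw [Matrix.single_add]
      exact rep_add hs ht
  rw [Matrix.matrix_eq_sum_single u]
  refine Finset.sum_induction _ (fun w => ∃ (p q : ℕ) (a : Matrix (Fin n) (Fin p × Fin q) ℂ)
      (x : Matrix (Fin p) (Fin p) E)
      (y : Matrix (Fin q) (Fin q) F) (b : Matrix (Fin p × Fin q) (Fin n) ℂ),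
      w = amb a (tens x y) b) (fun _ _ => rep_add) h0 (fun i _ => ?_)
  exact Finset.sum_induction _ (fun w => ∃ (p q : ℕ) (a : Matrix (Fin n) (Fin p × Fin q) ℂ)
      (x : Matrix (Fin p) (Fin p) E)
      (y : Matrix (Fin q) (Fin q) F) (b : Matrix (Fin p × Fin q) (Fin n) ℂ),
      w = amb a (tens x y) b) (fun _ _ => rep_add) h0 (fun k _ => h1 i k _)

theorem exists_rep_lt {u : Matrix (Fin n) (Fin n) (E ⊗[ℂ] F)} {r : ℝ} (h : proj E F n u < r) :
    ∃ (p q : ℕ) (a : Matrix (Fin n) (Fin p × Fin q) ℂ) (x : Matrix (Fin p) (Fin p) E)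
      (y : Matrix (Fin q) (Fin q) F) (b : Matrix (Fin p × Fin q) (Fin n) ℂ),
      u = amb a (tens x y) b ∧ ‖a‖ * E.nrm x * F.nrm y * ‖b‖ < r := by
  obtain ⟨p, q, a, x, y, b, hu⟩ := exists_rep u
  have hne : {r : ℝ | ∃ (p q : ℕ) (a : Matrix (Fin n) (Fin p × Fin q) ℂ)
      (x : Matrix (Fin p) (Fin p) E) (y : Matrix (Fin q) (Fin q) F)
      (b : Matrix (Fin p × Fin q) (Fin n) ℂ),
      u = amb a (tens x y) b ∧ r = ‖a‖ * E.nrm x * F.nrm y * ‖b‖}.Nonempty :=
    ⟨_, p, q, a, x, y, b, hu, rfl⟩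
  obtain ⟨t, ⟨p', q', a', x', y', b', hu', rfl⟩, ht⟩ := exists_lt_of_csInf_lt hne h
  exact ⟨p', q', a', x', y', b', hu', ht⟩

end OST
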