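import Pool.Agent.OST.ProjA

/-!
# The projective norm: the triangle inequality

* `proj_add_le`: the sum of two representations is
  `amb a (tens x y) b + amb a' (tens x' y') b' = amb a'' (tens (fromBlocks x 0 0 x') (fromBlocks y 0 0 y')) b''` where
  `a'' = [a, a']` on the indices `(inl, inl)`, `(inr, inr)` and `0` on the mixed ones. Normalize the representations (of norm `< r`, `< r'`) so that
  `‖x‖, ‖y‖, ‖x'‖, ‖y'‖ ≤ 1` and `‖a‖ ^ 2, ‖b‖ ^ 2 ≤ r`, `‖a'‖ ^ 2, ‖b'‖ ^ 2 ≤ r'` (scalar multiples); then `‖a''‖ ^ 2 ≤ ‖a‖ ^ 2 + ‖a'‖ ^ 2 ≤ r + r'`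
  (`a'' a''ᴴ = a aᴴ + a' a'ᴴ`), the same for `b''`.
-/

set_option autoImplicit false

namespace OST

open scoped Matrix Matrix.Norms.L2Operator TensorProduct

variable {E F : OS} {n : ℕ}

private theorem amb_tens_smul {ι κ : Type} [Fintype ι] [Fintype κ] (s t c d : ℂ)
    (a : Matrix (Fin n) (ι × κ) ℂ) (x : Matrix ι ι E) (y : Matrix κ κ F)
    (b : Matrix (ι × κ) (Fin n) ℂ) :
    amb (s • a) (tens (c • x) (d • y)) (t • b) = (s * t * (c * d)) • amb a (tens x y) b := by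
  funext i k
  show ∑ i', ∑ k', ((s • a) i i' * (t • b) k' k) • tens (c • x) (d • y) i' k' =
    (s * t * (c * d)) • ∑ i', ∑ k', (a i i' * b k' k) • tens x y i' k'
  rw [Finset.smul_sum]
  refine Finset.sum_congr rfl fun i' _ => ?_
  rw [Finset.smul_sum]
  refine Finset.sum_congr rfl fun k' _ => ?_
  have h1 : tens (c • x) (d • y) i' k' = (c * d) • tens x y i' k' := by
    show (c • x i'.1 k'.1) ⊗ₜ[ℂ] (d • y i'.2 k'.2) = (c * d) • (x i'.1 k'.1 ⊗ₜ[ℂ] y i'.2 k'.2)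
    rw [TensorProduct.smul_tmul_smul]
  rw [h1, smul_smul, smul_smul]
  congr 1
  show (s * a i i') * (t * b k' k) * (c * d) = _
  ring

private theorem zero_rep : ∃ (p q : ℕ) (a : Matrix (Fin n) (Fin p × Fin q) ℂ)
      (x : Matrix (Fin p) (Fin p) E)
      (y : Matrix (Fin q) (Fin q) F) (b : Matrix (Fin p × Fin q) (Fin n) ℂ),
      (0 : Matrix (Fin n) (Fin n) (E ⊗[ℂ] F)) = amb a (tens x y) b ∧ E.nrm x ≤ 1 ∧ F.nrm y ≤ 1 ∧
        ‖a‖ ^ 2 ≤ 0 ∧ ‖b‖ ^ 2 ≤ 0 := by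
  refine ⟨0, 0, 0, 0, 0, 0, ?_, ?_, ?_, ?_, ?_⟩
  · funext i k
    simp [amb]
  · rw [E.nrm_zero]
    exact zero_le_one
  · rw [F.nrm_zero]
    exact zero_le_one
  · rw [norm_zero]
    norm_num
  · rw [norm_zero]
    norm_num

/-- normalized representations -/
private theorem exists_rep_norm {u : Matrix (Fin n) (Fin n) (E ⊗[ℂ] F)} {r : ℝ}
    (h : proj E F n u < r) :
    ∃ (p q : ℕ) (a : Matrix (Fin n) (Fin p × Fin q) ℂ) (x : Matrix (Fin p) (Fin p) E)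
      (y : Matrix (Fin q) (Fin q) F) (b : Matrix (Fin p × Fin q) (Fin n) ℂ),
      u = amb a (tens x y) b ∧ E.nrm x ≤ 1 ∧ F.nrm y ≤ 1 ∧ ‖a‖ ^ 2 ≤ r ∧ ‖b‖ ^ 2 ≤ r := by
  have hr : 0 < r := (proj_nonneg E F n u).trans_lt h
  obtain ⟨p, q, a, x, y, b, hu, hlt⟩ := exists_rep_lt h
  have hzero : u = 0 → ∃ (p q : ℕ) (a : Matrix (Fin n) (Fin p × Fin q) ℂ)
      (x : Matrix (Fin p) (Fin p) E)
      (y : Matrix (Fin q) (Fin q) F) (b : Matrix (Fin p × Fin q) (Fin n) ℂ),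
      u = amb a (tens x y) b ∧ E.nrm x ≤ 1 ∧ F.nrm y ≤ 1 ∧ ‖a‖ ^ 2 ≤ r ∧ ‖b‖ ^ 2 ≤ r := by
    intro h0
    obtain ⟨p, q, a, x, y, b, h1, h2, h3, h4, h5⟩ := zero_rep (E := E) (F := F) (n := n)
    exact ⟨p, q, a, x, y, b, h0.trans h1, h2, h3, h4.trans hr.le, h5.trans hr.le⟩
  have hamb0 : ∀ (a : Matrix (Fin n) (Fin p × Fin q) ℂ) (X : Matrix (Fin p × Fin q) (Fin p × Fin q)
      (E ⊗[ℂ] F)) (b : Matrix (Fin p × Fin q) (Fin n) ℂ), (a = 0 ∨ X = 0 ∨ b = 0) →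
      amb a X b = 0 := by
    intro a X b h
    funext i k
    show ∑ i', ∑ k', (a i i' * b k' k) • X i' k' = 0
    rcases h with rfl | rfl | rfl
    · simp
    · simp
    · simp
  by_cases ha : ‖a‖ = 0
  · exact hzero (by rw [hu]; exact hamb0 _ _ _ (Or.inl (norm_eq_zero.1 ha)))
  by_cases hb : ‖b‖ = 0
  · exact hzero (by rw [hu]; exact hamb0 _ _ _ (Or.inr (Or.inr (norm_eq_zero.1 hb))))
  by_cases hx : E.nrm x = 0
  · refine hzero ?_
    rw [hu]
    refine hamb0 _ _ _ (Or.inr (Or.inl ?_))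
    rw [E.nrm_eq_zero hx]
    funext i k
    exact TensorProduct.zero_tmul _ _
  by_cases hy : F.nrm y = 0
  · refine hzero ?_
    rw [hu]
    refine hamb0 _ _ _ (Or.inr (Or.inl ?_))
    rw [F.nrm_eq_zero hy]
    funext i k
    exact TensorProduct.tmul_zero _ _
  have ha' : 0 < ‖a‖ := lt_of_le_of_ne (norm_nonneg _) (Ne.symm ha)
  have hb' : 0 < ‖b‖ := lt_of_le_of_ne (norm_nonneg _) (Ne.symm hb)
  have hx' : 0 < E.nrm x := lt_of_le_of_ne (E.nrm_nonneg x) (Ne.symm hx)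
  have hy' : 0 < F.nrm y := lt_of_le_of_ne (F.nrm_nonneg y) (Ne.symm hy)
  set α := ‖a‖
  set β := ‖b‖
  set ξ := E.nrm x
  set η := F.nrm y
  set s : ℝ := √(ξ * η * β / α) with hs
  set t : ℝ := √(ξ * η * α / β) with ht
  have hs2 : s ^ 2 = ξ * η * β / α := Real.sq_sqrt (by positivity)
  have ht2 : t ^ 2 = ξ * η * α / β := Real.sq_sqrt (by positivity)
  have hst : s * t = ξ * η := by
    rw [hs, ht, ← Real.sqrt_mul (by positivity)]
    have : ξ * η * β / α * (ξ * η * α / β) = (ξ * η) ^ 2 := by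
      field_simp
    rw [this, Real.sqrt_sq (by positivity)]
  have hs0 : 0 ≤ s := Real.sqrt_nonneg _
  have ht0 : 0 ≤ t := Real.sqrt_nonneg _
  refine ⟨p, q, (s : ℂ) • a, ((ξ⁻¹ : ℝ) : ℂ) • x, ((η⁻¹ : ℝ) : ℂ) • y, (t : ℂ) • b, ?_, ?_, ?_,
    ?_, ?_⟩
  · rw [amb_tens_smul, ← hu]
    have h1 : (s : ℂ) * (t : ℂ) * (((ξ⁻¹ : ℝ) : ℂ) * ((η⁻¹ : ℝ) : ℂ)) = 1 := by
      rw [← Complex.ofReal_mul, ← Complex.ofReal_mul, ← Complex.ofReal_mul, hst]
      have : ξ * η * (ξ⁻¹ * η⁻¹) = 1 := by field_simp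
      rw [this, Complex.ofReal_one]
    rw [h1, one_smul]
  · rw [E.nrm_smul, Complex.norm_real, Real.norm_of_nonneg (by positivity)]
    exact (inv_mul_cancel₀ hx'.ne').le
  · rw [F.nrm_smul, Complex.norm_real, Real.norm_of_nonneg (by positivity)]
    exact (inv_mul_cancel₀ hy'.ne').le
  · rw [norm_smul, Complex.norm_real, Real.norm_of_nonneg hs0, mul_pow, hs2]
    have : ξ * η * β / α * α ^ 2 = α * ξ * η * β := by
      field_simp
    rw [this]
    exact hlt.le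
  · rw [norm_smul, Complex.norm_real, Real.norm_of_nonneg ht0, mul_pow, ht2]
    have : ξ * η * α / β * β ^ 2 = α * ξ * η * β := by
      field_simp
    rw [this]
    exact hlt.le

private theorem norm_sq_add_le {μ ν ν₁ ν₂ : Type} [Fintype μ] [DecidableEq μ] [Fintype ν]
    [DecidableEq ν] [Fintype ν₁] [DecidableEq ν₁] [Fintype ν₂] [DecidableEq ν₂]
    (A : Matrix μ ν ℂ) (a : Matrix μ ν₁ ℂ) (a' : Matrix μ ν₂ ℂ)
    (h : A * Aᴴ = a * aᴴ + a' * a'ᴴ) : ‖A‖ ^ 2 ≤ ‖a‖ ^ 2 + ‖a'‖ ^ 2 := by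
  have key : ∀ {ν : Type} [Fintype ν] [DecidableEq ν] (A : Matrix μ ν ℂ), ‖A * Aᴴ‖ = ‖A‖ ^ 2 := by
    intro ν _ _ A
    have h1 := Matrix.l2_opNorm_conjTranspose_mul_self Aᴴ
    rw [Matrix.conjTranspose_conjTranspose, Matrix.l2_opNorm_conjTranspose] at h1
    rw [h1, sq]
  rw [← key A, ← key a, ← key a', h]
  exact norm_add_le _ _

theorem proj_add_le (u v : Matrix (Fin n) (Fin n) (E ⊗[ℂ] F)) :
    proj E F n (u + v) ≤ proj E F n u + proj E F n v := by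
  refine le_of_forall_pos_le_add fun ε hε => ?_
  obtain ⟨p, q, a, x, y, b, hu, hx, hy, ha, hb⟩ :=
    exists_rep_norm (u := u) (r := proj E F n u + ε / 2) (by linarith)
  obtain ⟨p', q', a', x', y', b', hv, hx', hy', ha', hb'⟩ :=
    exists_rep_norm (u := v) (r := proj E F n v + ε / 2) (by linarith)
  let A : Matrix (Fin n) ((Fin p ⊕ Fin p') × (Fin q ⊕ Fin q')) ℂ := fun r i =>
    match i with
    | (Sum.inl i, Sum.inl k) => a r (i, k)
    | (Sum.inr i, Sum.inr k) => a' r (i, k)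
    | (Sum.inl _, Sum.inr _) => 0
    | (Sum.inr _, Sum.inl _) => 0
  let B : Matrix ((Fin p ⊕ Fin p') × (Fin q ⊕ Fin q')) (Fin n) ℂ := fun i r =>
    match i with
    | (Sum.inl i, Sum.inl k) => b (i, k) r
    | (Sum.inr i, Sum.inr k) => b' (i, k) r
    | (Sum.inl _, Sum.inr _) => 0
    | (Sum.inr _, Sum.inl _) => 0
  have hrep : u + v = amb A (tens (Matrix.fromBlocks x 0 0 x') (Matrix.fromBlocks y 0 0 y')) B := by
    rw [hu, hv]
    funext i k
    show (∑ i', ∑ k', (a i i' * b k' k) • tens x y i' k') +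
        (∑ i', ∑ k', (a' i i' * b' k' k) • tens x' y' i' k') =
      ∑ i', ∑ k', (A i i' * B k' k) • tens (Matrix.fromBlocks x 0 0 x')
        (Matrix.fromBlocks y 0 0 y') i' k'
    simp only [Fintype.sum_prod_type, Fintype.sum_sum_type, tens, A, B, Matrix.fromBlocks_apply₁₁,
      Matrix.fromBlocks_apply₂₂, Matrix.fromBlocks_apply₁₂, Matrix.fromBlocks_apply₂₁,
      Matrix.zero_apply, TensorProduct.zero_tmul, TensorProduct.tmul_zero, smul_zero,
      Finset.sum_const_zero, add_zero, zero_add, zero_mul, mul_zero, zero_smul]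
  have hA : A * Aᴴ = a * aᴴ + a' * a'ᴴ := by
    funext i k
    show ∑ j, A i j * star (A k j) = ∑ j, a i j * star (a k j) + ∑ j, a' i j * star (a' k j)
    simp only [Fintype.sum_prod_type, Fintype.sum_sum_type, A,
      star_zero, mul_zero, Finset.sum_const_zero, add_zero, zero_add]
  have hB : Bᴴ * Bᴴᴴ = bᴴ * bᴴᴴ + b'ᴴ * b'ᴴᴴ := by
    funext i k
    show ∑ j, star (B j i) * star (star (B j k)) =
      ∑ j, star (b j i) * star (star (b j k)) + ∑ j, star (b' j i) * star (star (b' j k))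
    simp only [Fintype.sum_prod_type, Fintype.sum_sum_type, B,
      star_zero, mul_zero, Finset.sum_const_zero, add_zero, zero_add]
  have hA2 := norm_sq_add_le A a a' hA
  have hB2 := norm_sq_add_le Bᴴ bᴴ b'ᴴ hB
  rw [Matrix.l2_opNorm_conjTranspose, Matrix.l2_opNorm_conjTranspose,
    Matrix.l2_opNorm_conjTranspose] at hB2
  rw [hrep]
  refine (proj_le A _ _ B).trans ?_
  have hX := E.nrm_fromBlocks_le x x' hx hx'
  have hY := F.nrm_fromBlocks_le y y' hy hy'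
  have hX0 := E.nrm_nonneg (Matrix.fromBlocks x 0 0 x')
  have hY0 := F.nrm_nonneg (Matrix.fromBlocks y 0 0 y')
  have hA0 : 0 ≤ ‖A‖ := norm_nonneg _
  have hB0 : 0 ≤ ‖B‖ := norm_nonneg _
  have h1 : ‖A‖ * E.nrm (Matrix.fromBlocks x 0 0 x') * F.nrm (Matrix.fromBlocks y 0 0 y') * ‖B‖ ≤
      ‖A‖ * 1 * 1 * ‖B‖ := by
    gcongr
  refine h1.trans ?_
  rw [mul_one, mul_one]
  nlinarith [sq_nonneg (‖A‖ - ‖B‖)]

/-- one entry -/
theorem proj_single_le (i k : Fin n) (e : E) (f : F) :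
    proj E F n (Matrix.single i k (e ⊗ₜ[ℂ] f)) ≤ ‖e‖ * ‖f‖ := by
  classical
  let c : Fin n → Matrix (Fin n) (Unit × Unit) ℂ := fun i r _ => if i = r then 1 else 0
  have hc : ∀ i, ‖c i‖ ≤ 1 := by
    intro i
    have h1 : (c i)ᴴ * c i = 1 := by
      funext r s
      have hrs : r = s := Subsingleton.elim r s
      subst hrs
      show ∑ j, star (c i j r) * c i j r = _
      simp [c]
    have h2 := Matrix.l2_opNorm_conjTranspose_mul_self (c i)
    rw [h1] at h2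
    have h3 : ‖(1 : Matrix (Unit × Unit) (Unit × Unit) ℂ)‖ ≤ 1 := by
      rw [← Matrix.diagonal_one, Matrix.l2_opNorm_diagonal]
      exact (pi_norm_le_iff_of_nonneg zero_le_one).2 (fun i => by simp)
    rw [h2] at h3
    nlinarith [norm_nonneg (c i)]
  have h1 : Matrix.single i k (e ⊗ₜ[ℂ] f) =
      amb (c i) (tens (fun _ _ => e : Matrix Unit Unit E) (fun _ _ => f : Matrix Unit Unit F))
        (c k)ᴴ := by
    funext r s
    show Matrix.single i k (e ⊗ₜ[ℂ] f) r s =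
      ∑ i', ∑ k', (c i r i' * star (c k s k')) • (e ⊗ₜ[ℂ] f)
    simp only [Fintype.sum_prod_type, Finset.univ_unique, Finset.sum_singleton, c]
    rw [Matrix.single_apply]
    by_cases h1 : i = r
    · by_cases h2 : k = s
      · simp [h1, h2]
      · simp [h1, h2]
    · simp [h1]
  rw [h1]
  refine (proj_le _ _ _ _).trans ?_
  have hE : E.nrm (fun _ _ => e : Matrix Unit Unit E) ≤ ‖e‖ := by
    refine (E.nrm_le_sum _).trans ?_
    simp
  have hF : F.nrm (fun _ _ => f : Matrix Unit Unit F) ≤ ‖f‖ := by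
    refine (F.nrm_le_sum _).trans ?_
    simp
  have hE0 := E.nrm_nonneg (fun _ _ => e : Matrix Unit Unit E)
  have hF0 := F.nrm_nonneg (fun _ _ => f : Matrix Unit Unit F)
  have hci := hc i
  have hck : ‖(c k)ᴴ‖ ≤ 1 := by
    rw [Matrix.l2_opNorm_conjTranspose]
    exact hc k
  have e0 : 0 ≤ ‖e‖ := norm_nonneg e
  have f0 : 0 ≤ ‖f‖ := norm_nonneg f
  calc ‖c i‖ * E.nrm (fun _ _ => e : Matrix Unit Unit E) *
        F.nrm (fun _ _ => f : Matrix Unit Unit F) * ‖(c k)ᴴ‖ ≤ 1 * ‖e‖ * ‖f‖ * 1 := by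
        gcongr
    _ = ‖e‖ * ‖f‖ := by ring

end OST
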