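import Pool.Agent.OST.ProjB

/-!
# The projective norm: uniformity, symmetry, projectivity

* `proj_uniform`: `IsCC.nrm_le` on a representation. `tr_proj`: swap `p` and `q`.
* `lProj_proj`: `≥` by uniformity (`isCC_qq`, every lift `v` of `u` has `proj u ≤ proj v`), `≤`: lift `x` in a representation of `u` by
  `exists_lift_matrix`.
-/

set_option autoImplicit false

namespace OST

open scoped Matrix Matrix.Norms.L2Operator TensorProduct

variable {E F : OS} {n : ℕ}

private theorem perm_norm_le' {ν ν' : Type} [Fintype ν] [Fintype ν'] [DecidableEq ν]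
    [DecidableEq ν'] (e : ν' ≃ ν) : ‖(1 : Matrix ν ν ℂ).submatrix id e‖ ≤ 1 := by
  have h1 : ((1 : Matrix ν ν ℂ).submatrix id e)ᴴ * (1 : Matrix ν ν ℂ).submatrix id e = 1 := by
    rw [Matrix.conjTranspose_submatrix, Matrix.conjTranspose_one,
      ← Matrix.submatrix_mul _ _ _ _ _ Function.bijective_id, Matrix.one_mul,
      Matrix.submatrix_one_equiv]
  have h2 := Matrix.l2_opNorm_conjTranspose_mul_self ((1 : Matrix ν ν ℂ).submatrix id e)
  rw [h1] at h2
  have h3 : ‖(1 : Matrix ν' ν' ℂ)‖ ≤ 1 := by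
    rw [← Matrix.diagonal_one, Matrix.l2_opNorm_diagonal]
    exact (pi_norm_le_iff_of_nonneg zero_le_one).2 (fun i => by simp)
  rw [h2] at h3
  nlinarith [norm_nonneg ((1 : Matrix ν ν ℂ).submatrix id e)]

private theorem norm_submatrix_right_le' {ν ν' μ : Type} [Fintype ν] [Fintype ν'] [DecidableEq ν]
    [DecidableEq ν'] [Fintype μ] (a : Matrix μ ν ℂ) (e : ν' ≃ ν) :
    ‖a.submatrix id e‖ ≤ ‖a‖ := by
  have h1 : a.submatrix id e = a * (1 : Matrix ν ν ℂ).submatrix id e := by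
    conv_lhs => rw [← Matrix.mul_one a]
    rw [Matrix.submatrix_mul _ _ _ id _ Function.bijective_id, Matrix.submatrix_id_id]
  rw [h1]
  refine (Matrix.l2_opNorm_mul _ _).trans ?_
  exact mul_le_of_le_one_right (norm_nonneg _) (perm_norm_le' e)

private theorem norm_submatrix_left_le' {ν ν' μ : Type} [Fintype ν] [Fintype ν'] [DecidableEq ν]
    [DecidableEq ν'] [Fintype μ] [DecidableEq μ] (b : Matrix ν μ ℂ) (e : ν' ≃ ν) :
    ‖b.submatrix e id‖ ≤ ‖b‖ := by
  have h1 := norm_submatrix_right_le' bᴴ e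
  rw [Matrix.l2_opNorm_conjTranspose] at h1
  rw [← Matrix.l2_opNorm_conjTranspose, Matrix.conjTranspose_submatrix]
  exact h1

private theorem map_amb_tens {E E' F F' : OS} {ι κ ι' κ' ν ν' : Type} [Fintype ι] [Fintype κ]
    [Fintype ι'] [Fintype κ'] (S : E →ₗ[ℂ] E') (T : F →ₗ[ℂ] F') (a : Matrix ν (ι × ι') ℂ)
    (x : Matrix ι κ E) (y : Matrix ι' κ' F) (b : Matrix (κ × κ') ν' ℂ) :
    (amb a (tens x y) b).map (TensorProduct.map S T) = amb a (tens (x.map S) (y.map T)) b := by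
  funext i k
  show TensorProduct.map S T (∑ i', ∑ k', (a i i' * b k' k) • tens x y i' k') =
    ∑ i', ∑ k', (a i i' * b k' k) • tens (x.map S) (y.map T) i' k'
  rw [map_sum]
  refine Finset.sum_congr rfl fun i' _ => ?_
  rw [map_sum]
  refine Finset.sum_congr rfl fun k' _ => ?_
  rw [map_smul]
  congr 1

theorem proj_uniform : Uniform proj := by
  intro E E' F F' S T hS hT n u
  refine le_of_forall_gt_imp_ge_of_dense fun r hr => ?_
  obtain ⟨p, q, a, x, y, b, hu, hlt⟩ := exists_rep_lt hr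
  rw [hu, map_amb_tens]
  refine (proj_le _ _ _ _).trans ?_
  refine le_trans ?_ hlt.le
  have h1 := hS.nrm_le x
  have h2 := hT.nrm_le y
  have h3 := E'.nrm_nonneg (x.map S)
  have h4 := F'.nrm_nonneg (y.map T)
  have h5 : 0 ≤ ‖a‖ := norm_nonneg _
  have h6 : 0 ≤ ‖b‖ := norm_nonneg _
  have h7 := E.nrm_nonneg x
  gcongr

private theorem proj_comm_le (E F : OS) (n : ℕ) (u : Matrix (Fin n) (Fin n) (E ⊗[ℂ] F)) :
    proj F E n (u.map (TensorProduct.comm ℂ E F)) ≤ proj E F n u := by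
  refine le_of_forall_gt_imp_ge_of_dense fun r hr => ?_
  obtain ⟨p, q, a, x, y, b, hu, hlt⟩ := exists_rep_lt hr
  have h1 : u.map (TensorProduct.comm ℂ E F) =
      amb (a.submatrix id (Equiv.prodComm (Fin q) (Fin p))) (tens y x)
        (b.submatrix (Equiv.prodComm (Fin q) (Fin p)) id) := by
    rw [hu]
    funext i k
    show TensorProduct.comm ℂ E F (∑ i', ∑ k', (a i i' * b k' k) • tens x y i' k') =
      ∑ i', ∑ k', (a i (Equiv.prodComm (Fin q) (Fin p) i') *
        b (Equiv.prodComm (Fin q) (Fin p) k') k) • tens y x i' k'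
    rw [map_sum, ← Equiv.sum_comp (Equiv.prodComm (Fin q) (Fin p))]
    refine Finset.sum_congr rfl fun i' _ => ?_
    rw [map_sum, ← Equiv.sum_comp (Equiv.prodComm (Fin q) (Fin p))]
    refine Finset.sum_congr rfl fun k' _ => ?_
    rw [map_smul]
    congr 1
  rw [h1]
  refine (proj_le _ _ _ _).trans ?_
  refine le_trans ?_ hlt.le
  have h2 := norm_submatrix_right_le' a (Equiv.prodComm (Fin q) (Fin p))
  have h3 := norm_submatrix_left_le' b (Equiv.prodComm (Fin q) (Fin p))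
  have h4 := E.nrm_nonneg x
  have h5 := F.nrm_nonneg y
  have h6 : 0 ≤ ‖a‖ := norm_nonneg _
  have h7 : 0 ≤ ‖b‖ := norm_nonneg _
  calc ‖a.submatrix id (Equiv.prodComm (Fin q) (Fin p))‖ * F.nrm y * E.nrm x *
        ‖b.submatrix (Equiv.prodComm (Fin q) (Fin p)) id‖ ≤ ‖a‖ * F.nrm y * E.nrm x * ‖b‖ := by
        gcongr
    _ = ‖a‖ * E.nrm x * F.nrm y * ‖b‖ := by ring

theorem tr_proj : tr proj = proj := by
  funext E F n u
  show proj F E n (u.map (TensorProduct.comm ℂ E F)) = proj E F n u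
  refine le_antisymm (proj_comm_le E F n u) ?_
  have h1 := proj_comm_le F E n (u.map (TensorProduct.comm ℂ E F))
  have h2 : (u.map (TensorProduct.comm ℂ E F)).map (TensorProduct.comm ℂ F E) = u := by
    funext i k
    show TensorProduct.comm ℂ F E (TensorProduct.comm ℂ E F (u i k)) = u i k
    exact TensorProduct.comm_comm _ _ _ (u i k)
  rw [h2] at h1
  exact h1

theorem lProj_proj : lProj proj = proj := by
  funext E F n u
  show sInf {r | ∃ v : Matrix (Fin n) (Fin n) (ZZ E ⊗[ℂ] F),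
    v.map (TensorProduct.map (qq E) LinearMap.id) = u ∧ r = proj (ZZ E) F n v} = proj E F n u
  have hlift : ∀ (p q : ℕ) (a : Matrix (Fin n) (Fin p × Fin q) ℂ) (x : Matrix (Fin p) (Fin p) E)
      (y : Matrix (Fin q) (Fin q) F) (b : Matrix (Fin p × Fin q) (Fin n) ℂ),
      u = amb a (tens x y) b → ∃ v : Matrix (Fin n) (Fin n) (ZZ E ⊗[ℂ] F),
        v.map (TensorProduct.map (qq E) LinearMap.id) = u ∧
          proj (ZZ E) F n v ≤ ‖a‖ * E.nrm x * F.nrm y * ‖b‖ := by
    intro p q a x y b hu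
    obtain ⟨X, hX, hXn⟩ := exists_lift_matrix E x
    refine ⟨amb a (tens X y) b, ?_, ?_⟩
    · rw [map_amb_tens, hX, hu]
      congr 1
    · refine (proj_le _ _ _ _).trans ?_
      have h4 := (ZZ E).nrm_nonneg X
      have h5 := F.nrm_nonneg y
      have h6 : 0 ≤ ‖a‖ := norm_nonneg _
      have h7 : 0 ≤ ‖b‖ := norm_nonneg _
      gcongr
  have hbdd : BddBelow {r | ∃ v : Matrix (Fin n) (Fin n) (ZZ E ⊗[ℂ] F),
      v.map (TensorProduct.map (qq E) LinearMap.id) = u ∧ r = proj (ZZ E) F n v} := by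
    refine ⟨0, ?_⟩
    rintro _ ⟨v, -, rfl⟩
    exact proj_nonneg _ _ _ _
  apply le_antisymm
  · refine le_of_forall_gt_imp_ge_of_dense fun r hr => ?_
    obtain ⟨p, q, a, x, y, b, hu, hlt⟩ := exists_rep_lt hr
    obtain ⟨v, hv, hvn⟩ := hlift p q a x y b hu
    exact (csInf_le hbdd ⟨v, hv, rfl⟩).trans (hvn.trans hlt.le)
  · refine le_csInf ?_ ?_
    · obtain ⟨p, q, a, x, y, b, hu⟩ := exists_rep u
      obtain ⟨v, hv, -⟩ := hlift p q a x y b hu
      exact ⟨_, v, hv, rfl⟩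
    · rintro _ ⟨v, hv, rfl⟩
      rw [← hv]
      exact proj_uniform _ _ _ _ _ _ (isCC_qq E) (isCC_id F) n v

end OST
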