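import Mathlib

/-!
# Extension of positive functionals on matrices

PROOF. `riesz_extension` (Mathlib) in the real vector space `Matrix ι ι ℂ` with the cone
`{X | (X + Xᴴ).PosSemidef}`; `1 ∈ p` gives the condition `dense`: for every `Y` there is `t : ℝ` with
`t • 1 + Y` in the cone (`t` = sum of the norms of the entries of `Y + Yᴴ`, diagonal dominance, or an eigenvalue bound).
Let `g` be the extension. `g Y = 0` if `Y + Yᴴ = 0` (both `Y`, `-Y` are in the cone).
`Γ a b = g (single a b 1) - I g (I • single a b 1)`; then `(∑ Γ a b * X a b).re = g X` by linearity.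
`Γ` is positive semidefinite: for `v` let `X a b = conj (v a) * v b`, a positive semidefinite matrix;
`∑ Γ a b * X a b = g X - I g (I • X)`, `g X ≥ 0` and `g (I • X) = 0` as `I • X` is skew-hermitian. (Hermitian: polarization, or
directly: `g (c • single a b 1) = g (conj c • single b a 1)` as the difference is skew-hermitian.)
-/

set_option autoImplicit false

namespace OST

open scoped ComplexOrder Matrix

section dom

open scoped MatrixOrder Matrix.Norms.L2Operator

private theorem exists_dom {ι : Type} [Fintype ι] [DecidableEq ι] (H : Matrix ι ι ℂ)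
    (hH : H.IsHermitian) : ∃ t : ℝ, (t • (1 : Matrix ι ι ℂ) + H).PosSemidef := by
  refine ⟨‖H‖, ?_⟩
  have h := IsSelfAdjoint.neg_algebraMap_norm_le_self (a := H) hH
  rw [Matrix.le_iff, sub_neg_eq_add, Algebra.algebraMap_eq_smul_one, add_comm] at h
  exact h

end dom

private theorem exists_pos_ext {ι : Type} [Fintype ι] [DecidableEq ι]
    (p : Submodule ℝ (Matrix ι ι ℂ)) (h1 : (1 : Matrix ι ι ℂ) ∈ p) (f : Matrix ι ι ℂ →ₗ[ℝ] ℝ)
    (hf : ∀ X ∈ p, (X + Xᴴ).PosSemidef → 0 ≤ f X) :
    ∃ g : Matrix ι ι ℂ →ₗ[ℝ] ℝ, (∀ x : p, g x = f x) ∧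
      ∀ X : Matrix ι ι ℂ, (X + Xᴴ).PosSemidef → 0 ≤ g X := by
  let s : PointedCone ℝ (Matrix ι ι ℂ) :=
    { carrier := {X | (X + Xᴴ).PosSemidef}
      zero_mem' := by
        change ((0 : Matrix ι ι ℂ) + (0 : Matrix ι ι ℂ)ᴴ).PosSemidef
        rw [Matrix.conjTranspose_zero, add_zero]
        exact Matrix.PosSemidef.zero
      smul_mem' := by
        intro c X hX
        change ((c : ℝ) • X + ((c : ℝ) • X)ᴴ).PosSemidef
        have e : ((c : ℝ) • X + ((c : ℝ) • X)ᴴ) = (c : ℝ) • (X + Xᴴ) := by
          rw [Matrix.conjTranspose_smul, smul_add]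
          simp
        rw [e]
        exact Matrix.PosSemidef.smul hX c.2
      add_mem' := by
        intro X Y hX hY
        change ((X + Y) + (X + Y)ᴴ).PosSemidef
        have e : (X + Y) + (X + Y)ᴴ = (X + Xᴴ) + (Y + Yᴴ) := by
          rw [Matrix.conjTranspose_add]; abel
        rw [e]
        exact Matrix.PosSemidef.add hX hY }
  obtain ⟨g, hg1, hg2⟩ := riesz_extension s ⟨p, f.comp p.subtype⟩ (fun x hx => hf x x.2 hx)
    (fun Y => by
      obtain ⟨t, ht⟩ := exists_dom (Y + Yᴴ) (by
        rw [Matrix.IsHermitian, Matrix.conjTranspose_add, Matrix.conjTranspose_conjTranspose,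
          add_comm])
      refine ⟨⟨(t / 2) • 1, p.smul_mem _ h1⟩, ?_⟩
      change (((t / 2) • (1 : Matrix ι ι ℂ) + Y) + ((t / 2) • (1 : Matrix ι ι ℂ) + Y)ᴴ).PosSemidef
      have e : (((t / 2) • (1 : Matrix ι ι ℂ) + Y) + ((t / 2) • (1 : Matrix ι ι ℂ) + Y)ᴴ)
          = t • (1 : Matrix ι ι ℂ) + (Y + Yᴴ) := by
        rw [Matrix.conjTranspose_add, Matrix.conjTranspose_smul, Matrix.conjTranspose_one]
        have : star (t / 2) = t / 2 := by simp
        rw [this]
        have : t • (1 : Matrix ι ι ℂ) = (t / 2) • 1 + (t / 2) • 1 := by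
          rw [← add_smul]; congr 1; ring
        rw [this]; abel
      rw [e]
      exact ht)
  exact ⟨g, hg1, hg2⟩

theorem exists_psd_extension {ι : Type} [Fintype ι] [DecidableEq ι]
    (p : Submodule ℝ (Matrix ι ι ℂ)) (h1 : (1 : Matrix ι ι ℂ) ∈ p) (f : Matrix ι ι ℂ →ₗ[ℝ] ℝ)
    (hf : ∀ X ∈ p, (X + Xᴴ).PosSemidef → 0 ≤ f X) :
    ∃ Γ : Matrix ι ι ℂ, Γ.PosSemidef ∧ ∀ X ∈ p, f X = (∑ a, ∑ b, Γ a b * X a b).re := by
  classical
  obtain ⟨g, hgf, hg⟩ := exists_pos_ext p h1 f hf
  have hskew : ∀ Y : Matrix ι ι ℂ, Y + Yᴴ = 0 → g Y = 0 := by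
    intro Y hY
    have h0 := hg Y (by rw [hY]; exact Matrix.PosSemidef.zero)
    have h2 := hg (-Y) (by
      rw [Matrix.conjTranspose_neg, ← neg_add, hY, neg_zero]
      exact Matrix.PosSemidef.zero)
    rw [map_neg] at h2
    linarith
  obtain ⟨Γ, hΓ⟩ : ∃ Γ : Matrix ι ι ℂ, Γ = fun a b =>
      ((g (Matrix.single a b 1) : ℝ) : ℂ) - Complex.I * ((g (Matrix.single a b Complex.I) : ℝ) : ℂ) :=
    ⟨_, rfl⟩
  have hs : ∀ (a b : ι) (c : ℂ), g (Matrix.single a b c) = (Γ a b * c).re := by
    intro a b c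
    have h3 : Matrix.single a b c = c.re • Matrix.single a b (1 : ℂ)
        + c.im • Matrix.single a b Complex.I := by
      rw [Matrix.smul_single, Matrix.smul_single, ← Matrix.single_add]
      congr 1
      apply Complex.ext <;> simp
    rw [h3, map_add, map_smul, map_smul, hΓ]
    simp [Complex.mul_re, Complex.sub_re, Complex.sub_im, Complex.mul_im]
    ring
  have hX : ∀ X : Matrix ι ι ℂ, g X = (∑ a, ∑ b, Γ a b * X a b).re := by
    intro X
    conv_lhs => rw [Matrix.matrix_eq_sum_single X]
    rw [map_sum, Complex.re_sum]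
    refine Finset.sum_congr rfl (fun a _ => ?_)
    rw [map_sum, Complex.re_sum]
    exact Finset.sum_congr rfl (fun b _ => hs a b _)
  have hH : Γ.IsHermitian := by
    ext a b
    have e1 : g (Matrix.single b a 1) = g (Matrix.single a b 1) := by
      have := hskew (Matrix.single b a 1 - Matrix.single a b 1) (by
        rw [Matrix.conjTranspose_sub, Matrix.conjTranspose_single, Matrix.conjTranspose_single]
        simp)
      rw [map_sub] at this
      linarith
    have e2 : g (Matrix.single b a Complex.I) = - g (Matrix.single a b Complex.I) := by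
      have := hskew (Matrix.single b a Complex.I + Matrix.single a b Complex.I) (by
        rw [Matrix.conjTranspose_add, Matrix.conjTranspose_single, Matrix.conjTranspose_single]
        ext i j
        simp only [Matrix.add_apply, Matrix.single_apply, Matrix.zero_apply]
        have : star Complex.I = - Complex.I := by simp
        rw [this]
        split_ifs <;> simp)
      rw [map_add] at this
      linarith
    rw [Matrix.conjTranspose_apply, hΓ]
    simp only [e1, e2]
    simp [sub_eq_add_neg]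
  refine ⟨Γ, Matrix.PosSemidef.of_dotProduct_mulVec_nonneg hH (fun v => ?_), fun X hXp => ?_⟩
  · have h4 : 0 ≤ g (Matrix.vecMulVec (star v) v) := by
      apply hg
      have := Matrix.posSemidef_vecMulVec_star_self v
      exact this.add this.conjTranspose
    have h5 : star v ⬝ᵥ Γ *ᵥ v = ∑ a, ∑ b, Γ a b * Matrix.vecMulVec (star v) v a b := by
      simp only [dotProduct, Matrix.mulVec, Finset.mul_sum, Matrix.vecMulVec_apply]
      refine Finset.sum_congr rfl (fun a _ => Finset.sum_congr rfl (fun b _ => ?_))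
      ring
    have h6 : (star v ⬝ᵥ Γ *ᵥ v).im = 0 := by
      have := hH.im_star_dotProduct_mulVec_self v
      simpa using this
    rw [Complex.le_def]
    refine ⟨?_, by rw [h6]; rfl⟩
    rw [h5, ← hX]
    exact h4
  · rw [← hX]
    exact (hgf ⟨X, hXp⟩).symm

end OST
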