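import Mathlib

/-!
# Operator spaces (problem MP_54aa1b_an): the definitions of the statements, part 1

The definitions of `Defs.lean` over named types.
-/

set_option autoImplicit false

namespace OpSp

open scoped TensorProduct

section Hilbert

variable (H K : Type) [NormedAddCommGroup H] [InnerProductSpace ℂ H]
  [NormedAddCommGroup K] [InnerProductSpace ℂ K]

/-- `B(H, K)`, the bounded operators. -/
def Bd : Type := H →L[ℂ] K

noncomputable instance instBdN : NormedAddCommGroup (Bd H K) :=
  ContinuousLinearMap.toNormedAddCommGroup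

noncomputable instance instBdS : NormedSpace ℂ (Bd H K) := ContinuousLinearMap.toNormedSpace

variable {H K}

/-- The value `a x`. -/
def Bd.app (a : Bd H K) (x : H) : K := DFunLike.coe (F := H →L[ℂ] K) a x

/-- The norm of a matrix of operators: the norm of the operator `H^κ → K^ι` between Hilbert sums of
copies of `H` and `K`. -/
noncomputable def mnorm {ι κ : Type} [Fintype ι] [Fintype κ] (x : Matrix ι κ (Bd H K)) : ℝ :=
  ‖(PiLp.continuousLinearEquiv 2 ℂ (fun _ : ι => K)).symm.toContinuousLinearMap ∘L
    ContinuousLinearMap.pi (fun i => ∑ j, (x i j : H →L[ℂ] K) ∘L ContinuousLinearMap.proj j) ∘L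
    (PiLp.continuousLinearEquiv 2 ℂ (fun _ : κ => H)).toContinuousLinearMap‖

end Hilbert

/-- A (concrete, complete) operator space: a closed subspace `E` of `B(H)`, `H` a Hilbert space. -/
structure OS where
  /-- the Hilbert space -/
  H : Type
  [i1 : NormedAddCommGroup H]
  [i2 : InnerProductSpace ℂ H]
  [i3 : CompleteSpace H]
  /-- the space of operators -/
  E : Submodule ℂ (Bd H H)
  closed : IsClosed (E : Set (Bd H H))

attribute [instance] OS.i1 OS.i2 OS.i3

/-- The vector space of the elements of an operator space. -/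
def OS.T (E : OS) : Type := E.E

instance : CoeSort OS Type := ⟨OS.T⟩

noncomputable instance instTG (E : OS) : AddCommGroup E.T := Submodule.addCommGroup E.E

noncomputable instance instTM (E : OS) : Module ℂ E.T := Submodule.module E.E

/-- The inclusion of an operator space `E ⊆ B(H)` in `B(H)`, as a linear map. -/
noncomputable def OS.val (E : OS) : E →ₗ[ℂ] Bd E.H E.H := Submodule.subtype E.E

/-- The norm of a matrix over `E ⊆ B(H)`. -/
noncomputable def OS.nrm (E : OS) {ι κ : Type} [Fintype ι] [Fintype κ] (x : Matrix ι κ E) : ℝ :=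
  mnorm (x.map E.val)

/-- Complete contractions. -/
def IsCC {E F : OS} (T : E →ₗ[ℂ] F) : Prop :=
  ∀ (n : ℕ) (x : Matrix (Fin n) (Fin n) E), F.nrm (x.map T) ≤ E.nrm x

/-- `B(H)` as an operator space. -/
noncomputable def OS.B (H : Type) [NormedAddCommGroup H] [InnerProductSpace ℂ H]
    [CompleteSpace H] : OS where
  H := H
  E := ⊤
  closed := isClosed_univ

/-- The space `B(H)` containing `E`. -/
noncomputable def OS.full (E : OS) : OS := OS.B E.H

/-- The inclusion of `E` in `B(H)`, as a map of operator spaces. -/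
noncomputable def OS.incl (E : OS) : E →ₗ[ℂ] E.full := Submodule.inclusion le_top

/-- The Hilbert space `ℓ²_m`. -/
def L2 (m : ℕ) : Type := EuclideanSpace ℂ (Fin m)

noncomputable instance instL2N (m : ℕ) : NormedAddCommGroup (L2 m) :=
  PiLp.normedAddCommGroup 2 (fun _ : Fin m => ℂ)

noncomputable instance instL2S (m : ℕ) : InnerProductSpace ℂ (L2 m) :=
  PiLp.innerProductSpace (fun _ : Fin m => ℂ)

instance instL2C (m : ℕ) : CompleteSpace (L2 m) :=
  inferInstanceAs (CompleteSpace (EuclideanSpace ℂ (Fin m)))

/-- For sizes `s : G → ℕ`: the pairs `(m, y)` of an `m` and a family of contractions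
`y g ∈ M_{s g}(B(ℓ²_m))`. -/
def UIdx {G : Type} (s : G → ℕ) : Type :=
  Σ m : ℕ, {y : ∀ g : G, Matrix (Fin (s g)) (Fin (s g)) (Bd (L2 m) (L2 m)) // ∀ g, mnorm (y g) ≤ 1}

section Universal

variable {G : Type} {s : G → ℕ}

/-- The number `m` of the pair `(m, y)`. -/
def UIdx.m (j : UIdx s) : ℕ := Sigma.fst j

/-- The matrix `y g` of the pair `(m, y)`. -/
def UIdx.y (j : UIdx s) (g : G) : Matrix (Fin (s g)) (Fin (s g)) (Bd (L2 j.m) (L2 j.m)) :=
  (Sigma.snd j).1 g

variable (s)

/-- The Hilbert sum of the spaces `ℓ²_m` over all indices `(m, y)`. -/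
def UH : Type := lp (fun j : UIdx s => L2 j.m) 2

noncomputable instance instUHN : NormedAddCommGroup (UH s) := lp.normedAddCommGroup

noncomputable instance instUHS : InnerProductSpace ℂ (UH s) := lp.instInnerProductSpace

instance instUHC : CompleteSpace (UH s) := lp.completeSpace

variable {s}

/-- The component with index `j` of an element of the Hilbert sum. -/
def UH.coord (f : UH s) (j : UIdx s) : L2 j.m := (f : lp (fun j : UIdx s => L2 j.m) 2).1 j

variable (s)

/-- `a` is the generator `t g i k`: on the summand with index `j = (m, y)` it is `y g i k`. -/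
def IsGen (g : G) (i k : Fin (s g)) (a : Bd (UH s) (UH s)) : Prop :=
  ∀ (f : UH s) (j : UIdx s), (a.app f).coord j = (j.y g i k).app (f.coord j)

/-- The universal operator space generated by matrices `t g ∈ M_{s g}`, `g : G`, of norm at most
`1`. It is the `ℓ¹`-direct sum of the trace classes `T_{s g} = M_{s g}^*`. -/
noncomputable def Univ : OS where
  H := UH s
  E := (Submodule.span ℂ {a | ∃ g i k, IsGen s g i k a}).topologicalClosure
  closed := Submodule.isClosed_topologicalClosure _

end Universal

/-- The pairs `(n, x)`, `x ∈ M_n(E)`, `‖x‖ ≤ 1`. -/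
def BallIdx (E : OS) : Type := Σ n : ℕ, {x : Matrix (Fin n) (Fin n) E // E.nrm x ≤ 1}

/-- The number `n` of the pair `(n, x)`. -/
def BallIdx.n {E : OS} (g : BallIdx E) : ℕ := Sigma.fst g

/-- The matrix `x` of the pair `(n, x)`. -/
def BallIdx.x {E : OS} (g : BallIdx E) : Matrix (Fin g.n) (Fin g.n) E := (Sigma.snd g).1

/-- The projective operator space `Z_E`, the `ℓ¹`-sum of trace classes `T_n` over the contractive
matrices of `E`. -/
noncomputable def ZZ (E : OS) : OS := Univ (@BallIdx.n E)

/-- `q : Z_E → E` is the canonical map: a complete contraction that takes the generator `t g`,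
`g = (n, x)`, to `x`. -/
def IsCanon (E : OS) (q : ZZ E →ₗ[ℂ] E) : Prop :=
  IsCC q ∧ ∀ (g : BallIdx E) (i k : Fin g.n) (z : ZZ E),
    IsGen (@BallIdx.n E) g i k ((ZZ E).val z) → q z = g.x i k

end OpSp
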