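import Pool.Agent.OST.ShowT1

/-!
# Natural operator space tensor norms (problem MP_54aa1b_an): the definitions of the statements, part 2

The definitions of `TDefs.lean` over named types.
-/

set_option autoImplicit false

namespace OpSp

open scoped Matrix.Norms.L2Operator TensorProduct

/-- The canonical complete quotient map `Z_E → E`. -/
noncomputable def qq (E : OS) : ZZ E →ₗ[ℂ] E := Classical.choose (exists_canon E)

/-- An assignment of functions (matrix norms) to the algebraic tensor products of operator spaces. -/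
def RN : Type 1 := ∀ (E F : OS) (n : ℕ), Matrix (Fin n) (Fin n) (E ⊗[ℂ] F) → ℝ

/-- The completely left-injective hull `/α`: the value in `B(H) ⊗ F`, where `E ⊆ B(H)`. -/
noncomputable def lInj (α : RN) : RN := fun E F n u =>
  α E.full F n (u.map (TensorProduct.map E.incl LinearMap.id))

/-- The completely right-injective hull `α\`. -/
noncomputable def rInj (α : RN) : RN := fun E F n u =>
  α E F.full n (u.map (TensorProduct.map LinearMap.id F.incl))

/-- The completely left-projective hull `\α`: the quotient value, the infimum over the lifts to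
`Z_E ⊗ F`. -/
noncomputable def lProj (α : RN) : RN := fun E F n u =>
  sInf {r | ∃ v : Matrix (Fin n) (Fin n) (ZZ E ⊗[ℂ] F),
    v.map (TensorProduct.map (qq E) LinearMap.id) = u ∧ r = α (ZZ E) F n v}

/-- The completely right-projective hull `α/`. -/
noncomputable def rProj (α : RN) : RN := fun E F n u =>
  sInf {r | ∃ v : Matrix (Fin n) (Fin n) (E ⊗[ℂ] ZZ F),
    v.map (TensorProduct.map LinearMap.id (qq F)) = u ∧ r = α E (ZZ F) n v}

/-- The completely injective hull `/α\`. -/
noncomputable def inj (α : RN) : RN := lInj (rInj α)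

/-- The completely projective hull `\α/`. -/
noncomputable def prj (α : RN) : RN := lProj (rProj α)

/-- `a x b` for scalar matrices `a`, `b` and a matrix `x` over a vector space. -/
def amb {ι κ ι' κ' V : Type} [Fintype ι] [Fintype κ] [AddCommGroup V] [Module ℂ V]
    (a : Matrix ι' ι ℂ) (x : Matrix ι κ V) (b : Matrix κ κ' ℂ) : Matrix ι' κ' V :=
  fun i' k' => ∑ i, ∑ k, (a i' i * b k k') • x i k

/-- `x ⊗ y` for matrices `x`, `y` over `V`, `W`. -/
def tens {ι κ ι' κ' V W : Type} [AddCommGroup V] [Module ℂ V] [AddCommGroup W] [Module ℂ W]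
    (x : Matrix ι κ V) (y : Matrix ι' κ' W) : Matrix (ι × ι') (κ × κ') (V ⊗[ℂ] W) :=
  fun i k => x i.1 k.1 ⊗ₜ[ℂ] y i.2 k.2

/-- The operator space projective tensor norm:
`‖u‖ = inf ‖a‖ ‖x‖ ‖y‖ ‖b‖` over `u = a (x ⊗ y) b`. -/
noncomputable def proj : RN := fun E F n u =>
  sInf {r | ∃ (p q : ℕ) (a : Matrix (Fin n) (Fin p × Fin q) ℂ) (x : Matrix (Fin p) (Fin p) E)
    (y : Matrix (Fin q) (Fin q) F) (b : Matrix (Fin p × Fin q) (Fin n) ℂ),
    u = amb a (tens x y) b ∧ r = ‖a‖ * E.nrm x * F.nrm y * ‖b‖}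

/-- `M_m = B(ℓ²_m)`. -/
def Mat (m : ℕ) : Type := Bd (L2 m) (L2 m)

noncomputable instance instMatG (m : ℕ) : AddCommGroup (Mat m) :=
  (instBdN (L2 m) (L2 m)).toAddCommGroup

noncomputable instance instMatM (m : ℕ) : Module ℂ (Mat m) := (instBdS (L2 m) (L2 m)).toModule

/-- The matrix entries. -/
noncomputable def Mat.ent {m : ℕ} (a : Mat m) (i k : Fin m) : ℂ :=
  (show EuclideanSpace ℂ (Fin m) from
    Bd.app (H := L2 m) (K := L2 m) a (EuclideanSpace.single k (1 : ℂ))) i

theorem Mat.ent_add {m : ℕ} (a b : Mat m) (i k : Fin m) :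
    (a + b).ent i k = a.ent i k + b.ent i k := rfl

theorem Mat.ent_smul {m : ℕ} (c : ℂ) (a : Mat m) (i k : Fin m) :
    (c • a).ent i k = c * a.ent i k := rfl

/-- The bilinear form `(a, b) ↦ a_{ik} b_{i'k'}` on `M_m × M_l`. -/
noncomputable def entry {m l : ℕ} (i k : Fin m × Fin l) : Mat m →ₗ[ℂ] Mat l →ₗ[ℂ] ℂ :=
  LinearMap.mk₂ ℂ (fun a b => a.ent i.1 k.1 * b.ent i.2 k.2)
    (fun a a' b => by rw [Mat.ent_add, add_mul])
    (fun c a b => by rw [Mat.ent_smul, mul_assoc, smul_eq_mul])
    (fun a b b' => by rw [Mat.ent_add, mul_add])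
    (fun c a b => by rw [Mat.ent_smul, mul_left_comm, smul_eq_mul])

/-- The matrix of the operator on `ℓ²_ν ⊗ ℓ²_m ⊗ ℓ²_l` defined by an element of
`M_ν(M_m ⊗ M_l)`. -/
noncomputable def toMat {ν : Type} {m l : ℕ} (w : Matrix ν ν (Mat m ⊗[ℂ] Mat l)) :
    Matrix (ν × Fin m × Fin l) (ν × Fin m × Fin l) ℂ :=
  fun i k => TensorProduct.lift (entry i.2 k.2) (w i.1 k.1)

/-- `M_m` as an operator space. -/
noncomputable def MS (m : ℕ) : OS := OS.B (L2 m)

/-- The identity map `M_m → M_m`. -/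
noncomputable def MS.val (m : ℕ) : MS m →ₗ[ℂ] Mat m := OS.val (MS m)

/-- The operator space injective (minimal) tensor norm:
`‖u‖ = sup ‖(φ ⊗ ψ)_n(u)‖` over all complete contractions `φ : E → M_m`, `ψ : F → M_l`. -/
noncomputable def mn : RN := fun E F _ u =>
  sSup {r | ∃ (m l : ℕ) (φ : E →ₗ[ℂ] MS m) (ψ : F →ₗ[ℂ] MS l), IsCC φ ∧ IsCC ψ ∧
    r = ‖toMat (u.map (TensorProduct.map (MS.val m ∘ₗ φ) (MS.val l ∘ₗ ψ)))‖}

/-- `α` is symmetric: the flip `E ⊗_α F → F ⊗_α E` is completely isometric for all `E`, `F`. -/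
def Symm (α : RN) : Prop := ∀ (E F : OS) (n : ℕ) (u : Matrix (Fin n) (Fin n) (E ⊗[ℂ] F)),
  α F E n (u.map (TensorProduct.comm ℂ E F)) = α E F n u

/-- The family of all norms obtained from `α₀` by applying one-sided hulls finitely many times. -/
inductive Fam (α₀ : RN) : RN → Prop
  | base : Fam α₀ α₀
  | lInj {α : RN} : Fam α₀ α → Fam α₀ (lInj α)
  | rInj {α : RN} : Fam α₀ α → Fam α₀ (rInj α)
  | lProj {α : RN} : Fam α₀ α → Fam α₀ (lProj α)
  | rProj {α : RN} : Fam α₀ α → Fam α₀ (rProj α)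

/-- Alternating words of length `n` in the operations `A = /(\·)\` and `B = /(·/)\` applied to
`min`, with outer letter `A` (`true`) or `B` (`false`). -/
noncomputable def word : ℕ → Bool → RN
  | 0, _ => mn
  | n + 1, true => inj (lProj (word n false))
  | n + 1, false => inj (rProj (word n true))

/-- The six two-sided natural norms. -/
def Six (α : RN) : Prop :=
  α = proj ∨ α = prj (inj proj) ∨ α = inj proj ∨ α = prj mn ∨ α = inj (prj mn) ∨ α = mn

end OpSp
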