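import Pool.Agent.OST.Show1
import Pool.Agent.OST.TDefs

/-!
# The existence of the canonical map `Z_E → E`
-/

set_option autoImplicit false

namespace OpSp

/-- The same operator space over the types of `Defs.lean`. -/
noncomputable def OS.old (E : OS) : OST.OS where
  H := E.H
  E := E.E
  closed := E.closed

theorem exists_canon (E : OS) : ∃ q : ZZ E →ₗ[ℂ] E, IsCanon E q := OST.exists_canon E.old

end OpSp
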