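import Pool.Agent.OST.Show2
import Pool.Agent.OST.Final

/-!
# The theorems of `Final.lean` for the definitions of `Show1.lean` and `Show2.lean`
-/

set_option autoImplicit false
set_option maxHeartbeats 4000000

namespace OpSp

open scoped TensorProduct

/-- The same operator space over the types of `Show1.lean`. -/
noncomputable def ofOld (E : OST.OS) : OS where
  H := E.H
  E := E.E
  closed := E.closed

theorem old_ofOld (E : OST.OS) : (ofOld E).old = E := rfl

theorem ofOld_old (E : OS) : ofOld E.old = E := rfl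

/-- The same assignment over the other types. -/
noncomputable def pull (α : OST.RN) : RN := fun E F n u => α E.old F.old n u

/-- The same assignment over the other types. -/
noncomputable def push (α : RN) : OST.RN := fun E F n u => α (ofOld E) (ofOld F) n u

theorem push_pull (α : OST.RN) : push (pull α) = α := rfl

theorem pull_push (α : RN) : pull (push α) = α := rfl

theorem pull_inj {α β : OST.RN} : pull α = pull β ↔ α = β := by
  constructor
  · intro h
    rw [← push_pull α, h, push_pull]
  · rintro rfl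
    rfl

theorem pull_lInj (α : OST.RN) : pull (OST.lInj α) = lInj (pull α) := rfl

theorem pull_rInj (α : OST.RN) : pull (OST.rInj α) = rInj (pull α) := rfl

theorem ZZ_old (E : OS) : OST.ZZ E.old = (ZZ E).old := rfl

private theorem choose_congr {A : Type} {p p' : A → Prop} (h : p = p') (hp : ∃ x, p x)
    (hp' : ∃ x, p' x) : Classical.choose hp = Classical.choose hp' := by
  subst h
  rfl

theorem isCanon_old (E : OS) : OST.IsCanon E.old = IsCanon E := rfl

theorem qq_old (E : OS) : OST.qq E.old = qq E :=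
  choose_congr (isCanon_old E) (OST.exists_canon E.old) (exists_canon E)

theorem pull_lProj (α : OST.RN) : pull (OST.lProj α) = lProj (pull α) := by
  funext E F n u
  change sInf {r | ∃ v : Matrix (Fin n) (Fin n) (ZZ E ⊗[ℂ] F),
    v.map (TensorProduct.map (qq E) LinearMap.id) = u ∧ r = α (ZZ E).old F.old n v} =
    sInf {r | ∃ v : Matrix (Fin n) (Fin n) (ZZ E ⊗[ℂ] F),
    v.map (TensorProduct.map (qq E) LinearMap.id) = u ∧ r = α (ZZ E).old F.old n v}
  rfl

theorem pull_rProj (α : OST.RN) : pull (OST.rProj α) = rProj (pull α) := by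
  funext E F n u
  change sInf {r | ∃ v : Matrix (Fin n) (Fin n) (E ⊗[ℂ] ZZ F),
    v.map (TensorProduct.map LinearMap.id (qq F)) = u ∧ r = α E.old (ZZ F).old n v} =
    sInf {r | ∃ v : Matrix (Fin n) (Fin n) (E ⊗[ℂ] ZZ F),
    v.map (TensorProduct.map LinearMap.id (qq F)) = u ∧ r = α E.old (ZZ F).old n v}
  rfl

theorem pull_proj : pull OST.proj = proj := rfl

theorem pull_mn : pull OST.mn = mn := rfl

theorem pull_inj' (α : OST.RN) : pull (OST.inj α) = inj (pull α) := by
  unfold OST.inj inj
  rw [pull_lInj, pull_rInj]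

theorem pull_prj (α : OST.RN) : pull (OST.prj α) = prj (pull α) := by
  unfold OST.prj prj
  rw [pull_lProj, pull_rProj]

theorem pull_word (n : ℕ) (b : Bool) : pull (OST.word n b) = word n b := by
  induction n generalizing b with
  | zero => exact pull_mn
  | succ n ih =>
    cases b with
    | true =>
      change pull (OST.inj (OST.lProj (OST.word n false))) = inj (lProj (word n false))
      rw [pull_inj', pull_lProj, ih]
    | false =>
      change pull (OST.inj (OST.rProj (OST.word n true))) = inj (rProj (word n true))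
      rw [pull_inj', pull_rProj, ih]

theorem fam_pull {α₀ : OST.RN} {α : RN} (h : Fam (pull α₀) α) :
    ∃ β, OST.Fam α₀ β ∧ pull β = α := by
  induction h with
  | base => exact ⟨α₀, OST.Fam.base, rfl⟩
  | lInj _ ih =>
    obtain ⟨β, hβ, rfl⟩ := ih
    exact ⟨_, hβ.lInj, pull_lInj β⟩
  | rInj _ ih =>
    obtain ⟨β, hβ, rfl⟩ := ih
    exact ⟨_, hβ.rInj, pull_rInj β⟩
  | lProj _ ih =>
    obtain ⟨β, hβ, rfl⟩ := ih
    exact ⟨_, hβ.lProj, pull_lProj β⟩
  | rProj _ ih =>
    obtain ⟨β, hβ, rfl⟩ := ih
    exact ⟨_, hβ.rProj, pull_rProj β⟩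

theorem fam_of_old {α₀ α : OST.RN} (h : OST.Fam α₀ α) : Fam (pull α₀) (pull α) := by
  induction h with
  | base => exact Fam.base
  | lInj _ ih =>
    rw [pull_lInj]
    exact ih.lInj
  | rInj _ ih =>
    rw [pull_rInj]
    exact ih.rInj
  | lProj _ ih =>
    rw [pull_lProj]
    exact ih.lProj
  | rProj _ ih =>
    rw [pull_rProj]
    exact ih.rProj

theorem symm_pull (α : OST.RN) : Symm (pull α) ↔ OST.Symm α := by
  constructor
  · intro h E F n u
    exact h (ofOld E) (ofOld F) n u
  · intro h E F n u
    exact h E.old F.old n u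

/-- **The symmetric members of the family of the projective norm.** -/
theorem proj_fam {α : RN} (h : Fam proj α) :
    Symm α ↔ α = proj ∨ α = inj proj ∨ α = prj (inj proj) := by
  rw [← pull_proj] at h
  obtain ⟨β, hβ, rfl⟩ := fam_pull h
  rw [symm_pull, OST.proj_fam hβ, ← pull_proj, ← pull_inj', ← pull_prj, pull_inj, pull_inj,
    pull_inj]

/-- **The symmetric members of the family of the minimal norm.** -/
theorem mn_fam {α : RN} (h : Fam mn α) (hs : Symm α) :
    α = mn ∨ α = prj mn ∨ α = inj (prj mn) ∨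
      ∃ n, 1 ≤ n ∧ α = word n true ∧ word n true = word n false := by
  rw [← pull_mn] at h
  obtain ⟨β, hβ, rfl⟩ := fam_pull h
  rw [symm_pull] at hs
  rcases OST.mn_fam hβ hs with h1 | h1 | h1 | ⟨n, hn, h1, h2⟩
  · exact Or.inl (by rw [h1, pull_mn])
  · exact Or.inr (Or.inl (by rw [h1, pull_prj, pull_mn]))
  · exact Or.inr (Or.inr (Or.inl (by rw [h1, pull_inj', pull_prj, pull_mn])))
  · refine Or.inr (Or.inr (Or.inr ⟨n, hn, ?_, ?_⟩))
    · rw [h1, pull_word]
    · rw [← pull_word, ← pull_word, h2]

theorem tr_word (n : ℕ) (b : Bool) : OST.tr (OST.word n b) = OST.word n (!b) := by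
  have h := congrArg Subtype.val
    (OST.Abs.t_alt OST.sys (μ := ⟨OST.mn, OST.good_mn⟩) (Subtype.ext OST.tr_mn) n b)
  rw [OST.word_eq] at h
  rw [← h, ← OST.word_eq]
  rfl

theorem symm_mn : OST.Symm OST.mn := (OST.symm_iff _).2 OST.tr_mn

theorem symm_prj_mn : OST.Symm (OST.prj OST.mn) := by
  rw [OST.symm_iff]
  have h := congrArg Subtype.val (OST.Abs.Sys.t_P OST.sys ⟨OST.mn, OST.good_mn⟩)
  change OST.tr (OST.prj OST.mn) = OST.prj (OST.tr OST.mn) at h
  rw [h, OST.tr_mn]

theorem symm_inj_prj_mn : OST.Symm (OST.inj (OST.prj OST.mn)) := by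
  rw [OST.symm_iff]
  have h := congrArg Subtype.val
    (OST.Abs.Sys.t_I OST.sys ⟨OST.prj OST.mn, (OST.good_mn.rProj).lProj⟩)
  change OST.tr (OST.inj (OST.prj OST.mn)) = OST.inj (OST.tr (OST.prj OST.mn)) at h
  rw [h, (OST.symm_iff _).1 symm_prj_mn]

theorem symm_word {n : ℕ} (h : OST.word n true = OST.word n false) : OST.Symm (OST.word n true) := by
  rw [OST.symm_iff, tr_word]
  exact h.symm

theorem word_inj {n m : ℕ} {b c : Bool} :
    word n b = word m c ↔ OST.word n b = OST.word m c := by
  rw [← pull_word, ← pull_word, pull_inj]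

/-- **The symmetric members of the family of the minimal norm, exactly.** -/
theorem mn_fam_iff {α : RN} (h : Fam mn α) :
    Symm α ↔ α = mn ∨ α = prj mn ∨ α = inj (prj mn) ∨
      ∃ n, 1 ≤ n ∧ word n true = word n false ∧ α = word n true := by
  constructor
  · intro hs
    rcases mn_fam h hs with h1 | h1 | h1 | ⟨n, hn, h1, h2⟩
    · exact Or.inl h1
    · exact Or.inr (Or.inl h1)
    · exact Or.inr (Or.inr (Or.inl h1))
    · exact Or.inr (Or.inr (Or.inr ⟨n, hn, h2, h1⟩))
  · rintro (h1 | h1 | h1 | ⟨n, hn, h1, h2⟩)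
    · rw [h1, ← pull_mn, symm_pull]
      exact symm_mn
    · rw [h1, ← pull_mn, ← pull_prj, symm_pull]
      exact symm_prj_mn
    · rw [h1, ← pull_mn, ← pull_prj, ← pull_inj', symm_pull]
      exact symm_inj_prj_mn
    · rw [h2, ← pull_word, symm_pull]
      exact symm_word (word_inj.1 h1)

/-- If the two words of length `n` are equal then all longer words are equal to them. -/
theorem word_stable {n : ℕ} (hn : 1 ≤ n) (he : word n true = word n false) {m : ℕ} (hm : n ≤ m)
    (b : Bool) : word m b = word n true := by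
  have h1 : OST.Abs.alt OST.sys (⟨OST.mn, OST.good_mn⟩ : OST.GN) n true =
      OST.Abs.alt OST.sys ⟨OST.mn, OST.good_mn⟩ n false := by
    refine Subtype.ext ?_
    rw [OST.word_eq, OST.word_eq, word_inj.1 he]
  have h2 := congrArg Subtype.val (OST.Abs.alt_stable OST.sys hn h1 m hm b)
  rw [OST.word_eq, OST.word_eq] at h2
  exact word_inj.2 h2

theorem fam_word (n : ℕ) (b : Bool) : Fam mn (word n b) := by
  induction n generalizing b with
  | zero => exact Fam.base
  | succ n ih =>
    cases b with
    | true => exact ((ih false).lProj.rInj).lInj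
    | false => exact ((ih true).rProj.rInj).lInj

/-- A symmetric natural norm is one of the six or a word. -/
theorem six_or_word {α : RN} (h : Fam proj α ∨ Fam mn α) (hs : Symm α) :
    Six α ∨ ∃ n, 1 ≤ n ∧ word n true = word n false ∧ α = word n true := by
  rcases h with h | h
  · rcases (proj_fam h).1 hs with h1 | h1 | h1
    · exact Or.inl (Or.inl h1)
    · exact Or.inl (Or.inr (Or.inr (Or.inl h1)))
    · exact Or.inl (Or.inr (Or.inl h1))
  · rcases (mn_fam_iff h).1 hs with h1 | h1 | h1 | h1
    · exact Or.inl (Or.inr (Or.inr (Or.inr (Or.inr (Or.inr h1)))))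
    · exact Or.inl (Or.inr (Or.inr (Or.inr (Or.inl h1))))
    · exact Or.inl (Or.inr (Or.inr (Or.inr (Or.inr (Or.inl h1)))))
    · exact Or.inr h1

/-- At most one symmetric natural norm is not among the six. -/
theorem exotic_unique {α β : RN} (hα : Fam proj α ∨ Fam mn α) (hβ : Fam proj β ∨ Fam mn β)
    (hsα : Symm α) (hsβ : Symm β) (h6α : ¬ Six α) (h6β : ¬ Six β) : α = β := by
  obtain ⟨n, hn, h1, h2⟩ := (six_or_word hα hsα).resolve_left h6α
  obtain ⟨m, hm, h3, h4⟩ := (six_or_word hβ hsβ).resolve_left h6β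
  rw [h2, h4]
  rcases le_total n m with h | h
  · exact (word_stable hn h1 h true).symm
  · exact word_stable hm h3 h true

/-- Question Q1 is a question about the words. -/
theorem q1_iff : (∀ α : RN, Fam proj α ∨ Fam mn α → Symm α → Six α) ↔
    ∀ n : ℕ, 1 ≤ n → word n true = word n false → Six (word n true) := by
  constructor
  · intro h n hn he
    exact h _ (Or.inr (fam_word n true))
      ((mn_fam_iff (fam_word n true)).2 (Or.inr (Or.inr (Or.inr ⟨n, hn, he, rfl⟩))))
  · intro h α hα hs
    rcases six_or_word hα hs with h1 | ⟨n, hn, h1, h2⟩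
    · exact h1
    · rw [h2]
      exact h n hn h1

end OpSp
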