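import Pool.Agent.OST.UnivA

/-!
# The trace class `T_n`: coordinates

* `exists_coord`: `τ z i k` is the entry of the block of the operator `z` at the index `(1, y)` of the Hilbert sum, where
  `y` is the matrix over `M_1 = B(ℓ²_1)` with the entry `1` at `(i, k)` and `0` elsewhere:
  `τ z i k = ⟪δ e, z (δ e)⟫`. It is continuous in `z`; `z = ∑ τ z i k • gen i k` holds on the span of the generators, which is
  finite dimensional, hence closed, hence everything (or `univ_ext`-like density argument).
-/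

set_option autoImplicit false

namespace OST

open scoped Matrix Matrix.Norms.L2Operator InnerProductSpace

/-- The trace class `T_n`. -/
noncomputable abbrev TT (n : ℕ) : OS := Univ (fun _ : Unit => n)

/-- its generators -/
noncomputable abbrev tg (n : ℕ) : Matrix (Fin n) (Fin n) (TT n) := gen (fun _ : Unit => n) ()

private theorem norm_single_le (n : ℕ) (i k : Fin n) :
    ‖mop (Matrix.single i k (1 : Mat 1))‖ ≤ 1 := by
  refine (norm_mop_le_sum _).trans ?_
  rw [Finset.sum_eq_single i, Finset.sum_eq_single k]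
  · rw [Matrix.single_apply_same]
    exact ContinuousLinearMap.norm_id_le
  · intro b _ hb
    rw [Matrix.single_apply_of_col_ne _ _ (Ne.symm hb), norm_zero]
  · intro h
    exact absurd (Finset.mem_univ _) h
  · intro b _ hb
    refine Finset.sum_eq_zero (fun c _ => ?_)
    rw [Matrix.single_apply_of_row_ne (Ne.symm hb), norm_zero]
  · intro h
    exact absurd (Finset.mem_univ _) h

/-- the index of the entry `(i, k)` -/
private noncomputable def JJ (n : ℕ) (i k : Fin n) : UIdx (fun _ : Unit => n) :=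
  ⟨1, ⟨fun _ => Matrix.single i k 1, fun _ => norm_single_le n i k⟩⟩

/-- the unit vector of `ℓ²_1` -/
private noncomputable def e1 : EuclideanSpace ℂ (Fin 1) := EuclideanSpace.single 0 1

private theorem norm_e1 : ‖e1‖ = 1 := by
  unfold e1
  simp

open Classical in
/-- the unit vector of the block `(i, k)` -/
private noncomputable def vv (n : ℕ) (i k : Fin n) : (TT n).H :=
  lp.single (E := fun j : UIdx (fun _ : Unit => n) => EuclideanSpace ℂ (Fin j.1)) 2 (JJ n i k) e1

private theorem norm_vv (n : ℕ) (i k : Fin n) : ‖vv n i k‖ = 1 := by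
  classical
  unfold vv
  exact (lp.norm_single (E := fun j : UIdx (fun _ : Unit => n) => EuclideanSpace ℂ (Fin j.1))
    (by norm_num) (JJ n i k) e1).trans norm_e1

private theorem tg_inner (n : ℕ) (i k i' k' : Fin n) :
    ⟪vv n i k, (tg n i' k' : (TT n).H →L[ℂ] (TT n).H) (vv n i k)⟫_ℂ =
      Matrix.single i k (1 : ℂ) i' k' := by
  classical
  have h1 := lp.inner_single_left
    (G := fun j : UIdx (fun _ : Unit => n) => EuclideanSpace ℂ (Fin j.1)) (𝕜 := ℂ) (JJ n i k) e1
    (genOp (fun _ : Unit => n) () i' k' (vv n i k))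
  refine h1.trans ?_
  have h2 : (genOp (fun _ : Unit => n) () i' k' (vv n i k)) (JJ n i k) =
      (Matrix.single i k (1 : Mat 1) i' k') e1 := by
    change Matrix.single i k (1 : Mat 1) i' k'
      ((lp.single (E := fun j : UIdx (fun _ : Unit => n) => EuclideanSpace ℂ (Fin j.1)) 2
        (JJ n i k) e1) (JJ n i k)) = _
    rw [lp.single_apply_self]
  rw [h2, Matrix.single_apply, Matrix.single_apply]
  split_ifs
  · change ⟪e1, e1⟫_ℂ = 1
    rw [inner_self_eq_norm_sq_to_K, norm_e1]
    simp
  · change ⟪e1, (0 : EuclideanSpace ℂ (Fin 1))⟫_ℂ = 0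
    exact inner_zero_right _

/-- the coordinates -/
private noncomputable def tau (n : ℕ) : TT n →ₗ[ℂ] Matrix (Fin n) (Fin n) ℂ where
  toFun z := Matrix.of fun i k => ⟪vv n i k, (z : (TT n).H →L[ℂ] (TT n).H) (vv n i k)⟫_ℂ
  map_add' x y := by
    ext i k
    simp only [Matrix.of_apply, Matrix.add_apply]
    rw [Submodule.coe_add, add_apply, inner_add_right]
  map_smul' c x := by
    ext i k
    simp only [Matrix.of_apply, Matrix.smul_apply, RingHom.id_apply, smul_eq_mul]
    rw [Submodule.coe_smul, smul_apply, inner_smul_right]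

private theorem norm_tau_le (n : ℕ) (z : TT n) (i k : Fin n) : ‖tau n z i k‖ ≤ ‖z‖ := by
  change ‖⟪vv n i k, (z : (TT n).H →L[ℂ] (TT n).H) (vv n i k)⟫_ℂ‖ ≤ ‖z‖
  refine (norm_inner_le_norm _ _).trans ?_
  rw [norm_vv, one_mul]
  refine ((z : (TT n).H →L[ℂ] (TT n).H).le_opNorm _).trans ?_
  rw [norm_vv, mul_one]
  rfl

private theorem tau_tg (n : ℕ) (i k : Fin n) : tau n (tg n i k) = Matrix.single i k 1 := by
  ext i' k'
  refine (tg_inner n i' k' i k).trans ?_
  rw [Matrix.single_apply, Matrix.single_apply]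
  have : (i' = i ∧ k' = k) ↔ (i = i' ∧ k = k') := by
    constructor <;> rintro ⟨rfl, rfl⟩ <;> exact ⟨rfl, rfl⟩
  simp only [this]

/-- reconstruction from the coordinates -/
private noncomputable def PP (n : ℕ) : TT n →ₗ[ℂ] TT n where
  toFun z := ∑ i, ∑ k, tau n z i k • tg n i k
  map_add' x y := by
    simp only [map_add, Matrix.add_apply, add_smul, Finset.sum_add_distrib]
  map_smul' c x := by
    simp only [map_smul, Matrix.smul_apply, smul_eq_mul, mul_smul, RingHom.id_apply,
      Finset.smul_sum]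

private theorem PP_gspan (n : ℕ) (z : TT n) (hz : z ∈ gspan (fun _ : Unit => n)) :
    PP n z = z := by
  unfold gspan at hz
  induction hz using Submodule.span_induction with
  | mem x hx =>
    obtain ⟨g, i, k, rfl⟩ := hx
    change ∑ i', ∑ k', tau n (tg n i k) i' k' • tg n i' k' = tg n i k
    rw [tau_tg, Finset.sum_eq_single i, Finset.sum_eq_single k]
    · rw [Matrix.single_apply_same, one_smul]
    · intro b _ hb
      rw [Matrix.single_apply_of_col_ne _ _ (Ne.symm hb), zero_smul]
    · intro h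
      exact absurd (Finset.mem_univ _) h
    · intro b _ hb
      refine Finset.sum_eq_zero (fun c _ => ?_)
      rw [Matrix.single_apply_of_row_ne (Ne.symm hb), zero_smul]
    · intro h
      exact absurd (Finset.mem_univ _) h
  | zero => exact map_zero _
  | add x y _ _ hx hy => rw [map_add, hx, hy]
  | smul c x _ hx => rw [map_smul, hx]

theorem exists_coord (n : ℕ) : ∃ τ : TT n →ₗ[ℂ] Matrix (Fin n) (Fin n) ℂ,
    (∀ i k, τ (tg n i k) = Matrix.single i k 1) ∧
      ∀ z : TT n, z = ∑ i, ∑ k, τ z i k • tg n i k := by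
  refine ⟨tau n, tau_tg n, fun z => ?_⟩
  change z = PP n z
  obtain ⟨C, hC0, hC⟩ : ∃ C : ℝ, 0 ≤ C ∧ ∀ z : TT n, ‖PP n z‖ ≤ C * ‖z‖ := by
    refine ⟨∑ i : Fin n, ∑ k : Fin n, ‖tg n i k‖,
      Finset.sum_nonneg (fun _ _ => Finset.sum_nonneg (fun _ _ => norm_nonneg _)), fun z => ?_⟩
    change ‖∑ i, ∑ k, tau n z i k • tg n i k‖ ≤ _
    refine (norm_sum_le _ _).trans ?_
    rw [Finset.sum_mul]
    refine Finset.sum_le_sum (fun i _ => ?_)
    refine (norm_sum_le _ _).trans ?_
    rw [Finset.sum_mul]
    refine Finset.sum_le_sum (fun k _ => ?_)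
    rw [norm_smul, mul_comm]
    exact mul_le_mul_of_nonneg_left (norm_tau_le n z i k) (norm_nonneg _)
  have h0 : ‖z - PP n z‖ = 0 := by
    refine le_antisymm (le_of_forall_pos_le_add (fun ε hε => ?_)) (norm_nonneg _)
    have hδ : 0 < ε / (1 + C) := by positivity
    obtain ⟨z₀, hz₀, hd⟩ := exists_approx z hδ
    have h1 : z - PP n z = (z - z₀) - PP n (z - z₀) := by
      rw [map_sub, PP_gspan n z₀ hz₀]
      abel
    rw [h1, zero_add]
    refine (norm_sub_le _ _).trans ?_
    have h2 := hC (z - z₀)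
    have h3 : ‖z - z₀‖ + C * ‖z - z₀‖ ≤ ε := by
      have h4 : (1 + C) * ‖z - z₀‖ ≤ (1 + C) * (ε / (1 + C)) :=
        mul_le_mul_of_nonneg_left hd.le (by positivity)
      have h5 : (1 + C) * (ε / (1 + C)) = ε := by
        field_simp
      linarith
    linarith
  exact sub_eq_zero.1 (norm_eq_zero.1 h0)

end OST
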