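import Pool.Agent.OST.Lift

/-!
# The universal operator space: generators

* `nrm_gen_le`: `norm_mop_le`; the operators `genOp s g i k` act on the coordinate `J = (m, y)` of the Hilbert sum
  by `y g i k`; sum over `J` (`lp` inner product = `tsum`, `lp.inner_eq_tsum`, `lp.norm_sq_eq_of_L2`) and
  Cauchy-Schwarz (`lp.tsum_mul_le_mul_norm` or `inner_mul_le_norm_mul_norm`). Alternatively: `mop` applied to
  `η : PiLp` of elements of `lp` has `‖mop x η‖ ^ 2 = ∑' J, ‖mop (y g) (η_J)‖ ^ 2 ≤ ∑' J, ‖η_J‖ ^ 2 = ‖η‖ ^ 2`.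
* `exists_approx`: elements of the topological closure of the span; `‖z - z₀‖` is the norm of the ambient space.
* `univ_ext`: the two maps are continuous (`IsCC.norm_le`) and agree on the dense subspace.
-/

set_option autoImplicit false

namespace OST

open scoped Matrix.Norms.L2Operator InnerProductSpace

variable {G : Type} {s : G → ℕ}

private theorem hasSum_sq {J : Type} {K : J → Type} [∀ j, NormedAddCommGroup (K j)]
    (f : lp K 2) : HasSum (fun j => ‖f j‖ ^ 2) (‖f‖ ^ 2) := by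
  have h := lp.hasSum_norm (p := 2) (by norm_num) f
  simpa using h

private theorem norm_mop_blockDiag {J : Type} {K : J → Type} [∀ j, NormedAddCommGroup (K j)]
    [∀ j, InnerProductSpace ℂ (K j)] {ι κ : Type} [Fintype ι] [Fintype κ]
    (T : ι → κ → ∀ j, K j →L[ℂ] K j) (hT : ∀ i k j, ‖T i k j‖ ≤ 1)
    (hm : ∀ j, ‖mop (fun i k => T i k j : Matrix ι κ (K j →L[ℂ] K j))‖ ≤ 1) :
    ‖mop (fun i k => blockDiag (T i k) (hT i k) : Matrix ι κ (lp K 2 →L[ℂ] lp K 2))‖ ≤ 1 := by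
  refine ContinuousLinearMap.opNorm_le_bound _ zero_le_one fun η => ?_
  rw [one_mul]
  obtain ⟨ζ, hζ⟩ : ∃ ζ, ζ = mop (fun i k => blockDiag (T i k) (hT i k) :
    Matrix ι κ (lp K 2 →L[ℂ] lp K 2)) η := ⟨_, rfl⟩
  rw [← hζ]
  have h1 : ∀ (i : ι) (j : J), ζ i j =
      mop (fun i k => T i k j : Matrix ι κ (K j →L[ℂ] K j)) (WithLp.toLp 2 (fun k => η k j)) i := by
    intro i j
    have h0 : ζ i = ∑ k, blockDiag (T i k) (hT i k) (η k) := by
      rw [hζ]
      exact mop_apply _ η i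
    rw [h0, lp.coeFn_sum, Finset.sum_apply]
    exact (mop_apply (fun i k => T i k j : Matrix ι κ (K j →L[ℂ] K j))
      (WithLp.toLp 2 (fun k => η k j)) i).symm
  have h2 : HasSum (fun j => ∑ i, ‖ζ i j‖ ^ 2) (∑ i, ‖ζ i‖ ^ 2) :=
    hasSum_sum fun i _ => hasSum_sq (ζ i)
  have h3 : HasSum (fun j => ∑ k, ‖η k j‖ ^ 2) (∑ k, ‖η k‖ ^ 2) :=
    hasSum_sum fun k _ => hasSum_sq (η k)
  have h4 : ∑ i, ‖ζ i‖ ^ 2 ≤ ∑ k, ‖η k‖ ^ 2 := by
    refine hasSum_le (fun j => ?_) h2 h3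
    have h5 : ‖mop (fun i k => T i k j : Matrix ι κ (K j →L[ℂ] K j))
        (WithLp.toLp 2 (fun k => η k j))‖ ≤
        ‖(WithLp.toLp 2 (fun k => η k j) : PiLp 2 (fun _ : κ => K j))‖ := by
      refine (ContinuousLinearMap.le_of_opNorm_le _ (hm j) _).trans ?_
      rw [one_mul]
    rw [PiLp.norm_eq_of_L2, PiLp.norm_eq_of_L2] at h5
    have h6 := (Real.sqrt_le_sqrt_iff (Finset.sum_nonneg fun _ _ => by positivity)).1 h5
    simp only [h1]
    exact h6
  rw [PiLp.norm_eq_of_L2, PiLp.norm_eq_of_L2]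
  exact Real.sqrt_le_sqrt h4

theorem nrm_gen_le (s : G → ℕ) (g : G) : (Univ s).nrm (gen s g) ≤ 1 :=
  norm_mop_blockDiag (J := UIdx s) (K := fun j => EuclideanSpace ℂ (Fin j.1))
    (fun i k j => j.2.1 g i k) (fun i k j => (norm_entry_le_mop _ i k).trans (j.2.2 g))
    (fun j => j.2.2 g)

/-- the span of the generators -/
noncomputable def gspan (s : G → ℕ) : Submodule ℂ (Univ s) :=
  Submodule.span ℂ {z | ∃ g i k, z = gen s g i k}

private theorem univ_mem_closure (s : G → ℕ) (z : Univ s) :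
    z.1 ∈ (Submodule.span ℂ {a | ∃ g i k, a = genOp s g i k}).topologicalClosure := by
  have h3 : z.1 ∈ (Submodule.span ℂ {a | ∃ g i k, IsGen s g i k a}).topologicalClosure := z.2
  have h4 : (Submodule.span ℂ {a | ∃ g i k, IsGen s g i k a}).topologicalClosure =
      (Submodule.span ℂ {a | ∃ g i k, a = genOp s g i k}).topologicalClosure := by
    rw [setOf_isGen]
  exact h4.le h3

theorem exists_approx (z : Univ s) {ε : ℝ} (hε : 0 < ε) : ∃ z₀ ∈ gspan s, ‖z - z₀‖ < ε := by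
  have h1 : (Submodule.span ℂ {a | ∃ g i k, a = genOp s g i k}) =
      (gspan s).map (Univ s).E.subtype := by
    unfold gspan
    rw [Submodule.map_span]
    congr 1
    ext a
    constructor
    · rintro ⟨g, i, k, rfl⟩
      exact ⟨gen s g i k, ⟨g, i, k, rfl⟩, rfl⟩
    · rintro ⟨z, ⟨g, i, k, rfl⟩, rfl⟩
      exact ⟨g, i, k, rfl⟩
  have h2 : (z : (Univ s).H →L[ℂ] (Univ s).H) ∈
      closure ((Submodule.span ℂ {a | ∃ g i k, a = genOp s g i k} :
        Submodule ℂ ((Univ s).H →L[ℂ] (Univ s).H)) : Set ((Univ s).H →L[ℂ] (Univ s).H)) :=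
    univ_mem_closure s z
  obtain ⟨a, ha, hza⟩ := Metric.mem_closure_iff.1 h2 ε hε
  have ha' := h1.le ha
  obtain ⟨z₀, hz₀, rfl⟩ := ha'
  refine ⟨z₀, hz₀, ?_⟩
  rw [dist_eq_norm] at hza
  exact hza

theorem univ_ext {X : OS} {S T : Univ s →ₗ[ℂ] X} (hS : IsCC S) (hT : IsCC T)
    (h : ∀ g i k, S (gen s g i k) = T (gen s g i k)) : S = T := by
  have h1 : ∀ z ∈ gspan s, S z = T z := by
    intro z hz
    refine LinearMap.eqOn_span (s := {z | ∃ g i k, z = gen s g i k}) ?_ hz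
    rintro _ ⟨g, i, k, rfl⟩
    exact h g i k
  apply LinearMap.ext
  intro z
  apply eq_of_forall_dist_le
  intro ε hε
  obtain ⟨z₀, hz₀, hz⟩ := exists_approx z (half_pos hε)
  have h2 : S z - T z = S (z - z₀) - T (z - z₀) := by
    rw [map_sub, map_sub, h1 z₀ hz₀]
    abel
  rw [dist_eq_norm, h2]
  refine (norm_sub_le _ _).trans ?_
  have h3 := hS.norm_le (z - z₀)
  have h4 := hT.norm_le (z - z₀)
  linarith

end OST
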