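import Pool.Agent.OST.UnivA
import Pool.Agent.OST.TDefs

/-!
# The projective space `Z_E` and the quotient map `Z_E → E`

* `exists_lift_matrix`: if `E.nrm x = 0` then `x = 0`, take `y = 0`. Otherwise with `c = E.nrm x` and the index
  `g = (n, c⁻¹ • x)`, `y = c • gen g`.
* `exists_ZZ_map`: `exists_lift` for the family `g = (n, x) ↦ gen (n, x.map T)` of `ZZ E'`; `univ_ext`.
* `exists_ZZ_comul`: `exists_lift` for the family `g = (n, x) ↦ gen (n, gen g)` of `ZZ (ZZ E)`.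
-/

set_option autoImplicit false

namespace OST

open scoped Matrix.Norms.L2Operator TensorProduct

theorem isCC_qq (E : OS) : IsCC (qq E) :=
  (Classical.choose_spec (exists_canon E)).1

theorem qq_gen (E : OS) (g : BallIdx E) (i k : Fin g.1) :
    qq E (gen (fun g : BallIdx E => g.1) g i k) = g.2.1 i k :=
  (Classical.choose_spec (exists_canon E)).2 g i k _ (isGen_genOp _ g i k)

/-- `Z_E → E` is a complete quotient map, in a strong sense. -/
theorem exists_lift_matrix (E : OS) {n : ℕ} (x : Matrix (Fin n) (Fin n) E) :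
    ∃ y : Matrix (Fin n) (Fin n) (ZZ E), y.map (qq E) = x ∧ (ZZ E).nrm y ≤ E.nrm x := by
  by_cases h0 : E.nrm x = 0
  · have hx : x = 0 := E.nrm_eq_zero h0
    refine ⟨0, ?_, ?_⟩
    · rw [hx]
      ext i k
      simp
    · rw [h0, OS.nrm_zero]
  · have hpos : 0 < E.nrm x := lt_of_le_of_ne (E.nrm_nonneg x) (Ne.symm h0)
    have hc : E.nrm (((E.nrm x : ℂ)⁻¹) • x) ≤ 1 := by
      rw [OS.nrm_smul, norm_inv, Complex.norm_real, Real.norm_eq_abs, abs_of_pos hpos,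
        inv_mul_cancel₀ h0]
    refine ⟨(E.nrm x : ℂ) • gen (fun g : BallIdx E => g.1)
      (⟨n, ((E.nrm x : ℂ)⁻¹) • x, hc⟩ : BallIdx E), ?_, ?_⟩
    · refine Matrix.ext fun i k => ?_
      have h1 := qq_gen E (⟨n, ((E.nrm x : ℂ)⁻¹) • x, hc⟩ : BallIdx E) i k
      refine (map_smul (qq E) (E.nrm x : ℂ) (gen (fun g : BallIdx E => g.1)
        (⟨n, ((E.nrm x : ℂ)⁻¹) • x, hc⟩ : BallIdx E) i k)).trans ?_
      refine (congrArg (fun z => (E.nrm x : ℂ) • z) h1).trans ?_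
      change (((E.nrm x : ℂ)) • ((((E.nrm x : ℂ)⁻¹) • x) i k) : E) = x i k
      rw [Matrix.smul_apply, smul_smul, mul_inv_cancel₀, one_smul]
      exact_mod_cast h0
    · change (Univ (fun g : BallIdx E => g.1)).nrm _ ≤ _
      rw [OS.nrm_smul, Complex.norm_real, Real.norm_eq_abs, abs_of_pos hpos]
      calc E.nrm x * _ ≤ E.nrm x * 1 :=
            mul_le_mul_of_nonneg_left (nrm_gen_le _ _) hpos.le
        _ = E.nrm x := mul_one _

theorem qq_surjective (E : OS) : Function.Surjective (qq E) := by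
  intro x
  obtain ⟨y, hy, -⟩ := exists_lift_matrix E (Matrix.of (fun (_ _ : Fin 1) => x))
  refine ⟨y 0 0, ?_⟩
  have h := congrFun (congrFun hy 0) 0
  exact h

theorem exists_ZZ_map {E E' : OS} {T : E →ₗ[ℂ] E'} (hT : IsCC T) :
    ∃ S : ZZ E →ₗ[ℂ] ZZ E', IsCC S ∧ qq E' ∘ₗ S = T ∘ₗ qq E := by
  obtain ⟨S, hS, hgen⟩ := exists_lift (s := fun g : BallIdx E => g.1) (ZZ E')
    (fun g => gen (fun g : BallIdx E' => g.1) ⟨g.1, g.2.1.map T, (hT _ _).trans g.2.2⟩)
    (fun g => nrm_gen_le _ _)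
  refine ⟨S, hS, ?_⟩
  refine univ_ext (s := fun g : BallIdx E => g.1) ((isCC_qq E').comp hS) (hT.comp (isCC_qq E)) ?_
  intro g i k
  exact (congrArg (qq E') (hgen g i k)).trans
    ((qq_gen E' (⟨g.1, g.2.1.map T, (hT _ _).trans g.2.2⟩ : BallIdx E') i k).trans
      (congrArg T (qq_gen E g i k)).symm)

theorem exists_ZZ_comul (E : OS) :
    ∃ S : ZZ E →ₗ[ℂ] ZZ (ZZ E), IsCC S ∧ qq (ZZ E) ∘ₗ S = LinearMap.id := by
  obtain ⟨S, hS, hgen⟩ := exists_lift (s := fun g : BallIdx E => g.1) (ZZ (ZZ E))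
    (fun g => gen (fun g : BallIdx (ZZ E) => g.1)
      ⟨g.1, gen (fun g : BallIdx E => g.1) g, nrm_gen_le _ _⟩)
    (fun g => nrm_gen_le _ _)
  refine ⟨S, hS, ?_⟩
  refine univ_ext (s := fun g : BallIdx E => g.1) ((isCC_qq (ZZ E)).comp hS) (isCC_id _) ?_
  intro g i k
  exact (congrArg (qq (ZZ E)) (hgen g i k)).trans (qq_gen (ZZ E)
    (⟨g.1, gen (fun g : BallIdx E => g.1) g, nrm_gen_le _ _⟩ : BallIdx (ZZ E)) i k)

end OST
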