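import Pool.Agent.OST.Polar

/-!
# The extension theorem (Arveson, Wittstock), maps into `M_m`

PROOF. Write `‖a‖₂` for the Hilbert-Schmidt norm of a scalar matrix, `V = Matrix (Fin m) (Fin m) E.full`. For `y : V` let
`ρ y = inf ‖a‖₂ * E.full.nrm x * ‖b‖₂` over all `y = amb a x b`, `x : Matrix (Fin k) (Fin k) E.full`, `k : ℕ`. It is a seminorm: `ρ (c y) = |c| ρ y` is clear
and for `y = amb a x b`, `y' = amb a' x' b'` (normalized: `‖x‖, ‖x'‖ ≤ 1`, `‖a‖₂ = ‖b‖₂`, `‖a'‖₂ = ‖b'‖₂`)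
`y + y' = amb [a a'] (fromBlocks x 0 0 x') [b; b']`. On the subspace `S` of the matrices with entries in `E` let
`σ y = ∑ i j, (φ (y i j) e_j) i`. Then `|σ y| ≤ ρ y`: if `y = amb a x b` then by `polar` (`U = y`, `ι = Fin m`) `y = amb a' x' b'` with `x'` over `E`,
`‖x'‖ ≤ ‖x‖`, `‖a'‖₂ ^ 2 = ‖a‖₂ ^ 2 + m δ`, and `σ (amb a' x' b') = ∑_{k l} ⟪ξ_k, φ(x' k l) η_l⟫`, `ξ_k i = conj (a' i k)`, `η_l j = b' l j`,
so `|σ y| ≤ nrm (x'.map φ) ‖a'‖₂ ‖b'‖₂ ≤ nrm x' ‖a'‖₂ ‖b'‖₂` (`norm_sum_inner_le`). Let `δ → 0`. Extend `σ` to `σ' : V → ℂ` with `|σ' y| ≤ ρ y`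
(`Module.Dual.exists_extension_of_le_seminorm`). Put `(ψ x e_j) i = σ' (single i j x)`. For `x : Matrix (Fin n) (Fin n) E.full` and vectors
`ξ_k, η_l`: `∑ ⟪ξ_k, ψ(x k l) η_l⟫ = σ' (amb a x b)`, `a i k = conj (ξ_k i)`, `b l j = η_l j`, so `|…| ≤ ‖ξ‖ (nrm x) ‖η‖`: `norm_mop_le`.
-/

set_option autoImplicit false

namespace OST

open scoped Matrix Matrix.Norms.L2Operator InnerProductSpace

/-- the pairs `(y, r)` with `y = amb a x b`, `nrm x ≤ 1` and `‖a‖₂ ^ 2, ‖b‖₂ ^ 2 ≤ r` -/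
private def WP (E : OS) (m : ℕ) (y : Matrix (Fin m) (Fin m) E) (r : ℝ) : Prop :=
  ∃ (k : ℕ) (a : Matrix (Fin m) (Fin k) ℂ) (x : Matrix (Fin k) (Fin k) E)
    (b : Matrix (Fin k) (Fin m) ℂ),
    y = amb a x b ∧ E.nrm x ≤ 1 ∧ ∑ i, ∑ j, ‖a i j‖ ^ 2 ≤ r ∧ ∑ i, ∑ j, ‖b i j‖ ^ 2 ≤ r

private theorem WP_of {E : OS} {m : ℕ} {κ : Type} [Fintype κ] (a : Matrix (Fin m) κ ℂ)
    (x : Matrix κ κ E) (b : Matrix κ (Fin m) ℂ) {r : ℝ} (hx : E.nrm x ≤ 1)
    (ha : ∑ i, ∑ j, ‖a i j‖ ^ 2 ≤ r) (hb : ∑ i, ∑ j, ‖b i j‖ ^ 2 ≤ r) :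
    WP E m (amb a x b) r := by
  classical
  let e : κ ≃ Fin (Fintype.card κ) := Fintype.equivFin κ
  refine ⟨Fintype.card κ, fun i j => a i (e.symm j), x.submatrix e.symm e.symm,
    fun i j => b (e.symm i) j, ?_, ?_, ?_, ?_⟩
  · funext i j
    simp only [amb, Matrix.submatrix_apply]
    rw [Equiv.sum_comp e.symm (fun k' : κ => ∑ k : Fin (Fintype.card κ),
      (a i k' * b (e.symm k) j) • x k' (e.symm k))]
    refine Finset.sum_congr rfl (fun k' _ => ?_)
    exact (Equiv.sum_comp e.symm (fun k : κ => (a i k' * b k j) • x k' k)).symm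
  · rw [E.nrm_reindex]; exact hx
  · refine le_trans (le_of_eq ?_) ha
    exact Finset.sum_congr rfl (fun i _ => Equiv.sum_comp e.symm (fun j => ‖a i j‖ ^ 2))
  · refine le_trans (le_of_eq ?_) hb
    exact Equiv.sum_comp e.symm (fun i => ∑ j, ‖b i j‖ ^ 2)

private theorem WP_nonneg {E : OS} {m : ℕ} {y : Matrix (Fin m) (Fin m) E} {r : ℝ}
    (h : WP E m y r) : 0 ≤ r := by
  obtain ⟨k, a, x, b, -, -, h1, -⟩ := h
  exact le_trans (Finset.sum_nonneg (fun i _ => Finset.sum_nonneg (fun j _ => by positivity))) h1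

private theorem WP_mono {E : OS} {m : ℕ} {y : Matrix (Fin m) (Fin m) E} {r s : ℝ}
    (h : WP E m y r) (hrs : r ≤ s) : WP E m y s := by
  obtain ⟨k, a, x, b, h0, h1, h2, h3⟩ := h
  exact ⟨k, a, x, b, h0, h1, h2.trans hrs, h3.trans hrs⟩

private theorem WP_add {E : OS} {m : ℕ} {y y' : Matrix (Fin m) (Fin m) E} {r r' : ℝ}
    (h : WP E m y r) (h' : WP E m y' r') : WP E m (y + y') (r + r') := by
  obtain ⟨k, a, x, b, h0, h1, h2, h3⟩ := h
  obtain ⟨k', a', x', b', h0', h1', h2', h3'⟩ := h'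
  have key : y + y' = amb (fun i (j : Fin k ⊕ Fin k') => Sum.elim (a i) (a' i) j)
      (Matrix.fromBlocks x 0 0 x') (fun (j : Fin k ⊕ Fin k') i =>
        Sum.elim (fun j => b j i) (fun j => b' j i) j) := by
    rw [h0, h0']
    funext i j
    simp [amb, Matrix.add_apply]
  rw [key]
  refine WP_of _ _ _ (E.nrm_fromBlocks_le x x' h1 h1') ?_ ?_
  · simp only [Fintype.sum_sum_type, Sum.elim_inl, Sum.elim_inr, Finset.sum_add_distrib]
    exact add_le_add h2 h2'
  · simp only [Fintype.sum_sum_type, Sum.elim_inl, Sum.elim_inr]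
    exact add_le_add h3 h3'

private theorem amb_smul_smul {ι κ ι' κ' V : Type} [Fintype ι] [Fintype κ]
    [AddCommGroup V] [Module ℂ V] (s t u : ℂ) (a : Matrix ι' ι ℂ) (x : Matrix ι κ V)
    (b : Matrix κ κ' ℂ) : amb (s • a) (t • x) (u • b) = (s * t * u) • amb a x b := by
  funext i j
  simp only [amb, Matrix.smul_apply, Finset.smul_sum, smul_smul, smul_eq_mul]
  refine Finset.sum_congr rfl (fun k _ => Finset.sum_congr rfl (fun l _ => ?_))
  congr 1
  ring

private theorem sum_smul_sq {ι κ : Type} [Fintype ι] [Fintype κ] (s : ℝ) (a : Matrix ι κ ℂ) :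
    ∑ i, ∑ j, ‖((s : ℂ) • a) i j‖ ^ 2 = s ^ 2 * ∑ i, ∑ j, ‖a i j‖ ^ 2 := by
  simp only [Finset.mul_sum]
  refine Finset.sum_congr rfl (fun k _ => Finset.sum_congr rfl (fun l _ => ?_))
  rw [Matrix.smul_apply, norm_smul, mul_pow, Complex.norm_real, Real.norm_eq_abs, sq_abs]

private theorem WP_zero (E : OS) (m : ℕ) : WP E m 0 0 := by
  refine ⟨0, 0, 0, 0, ?_, ?_, ?_, ?_⟩
  · funext i j
    simp [amb]
  · rw [E.nrm_zero]; exact zero_le_one
  · simp
  · simp

private theorem WP_smul {E : OS} {m : ℕ} {y : Matrix (Fin m) (Fin m) E} {r : ℝ} (c : ℂ)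
    (h : WP E m y r) : WP E m (c • y) (‖c‖ * r) := by
  rcases eq_or_ne c 0 with rfl | hc
  · simpa using WP_zero E m
  obtain ⟨k, a, x, b, h0, h1, h2, h3⟩ := h
  have hc' : ‖c‖ ≠ 0 := norm_ne_zero_iff.mpr hc
  have hs : (√‖c‖) ^ 2 = ‖c‖ := Real.sq_sqrt (norm_nonneg c)
  refine ⟨k, ((√‖c‖ : ℝ) : ℂ) • a, (c / (‖c‖ : ℂ)) • x, ((√‖c‖ : ℝ) : ℂ) • b, ?_, ?_, ?_, ?_⟩
  · rw [amb_smul_smul, ← h0]
    congr 1
    have h4 : ((√‖c‖ : ℝ) : ℂ) * ((√‖c‖ : ℝ) : ℂ) = (‖c‖ : ℂ) := by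
      rw [← Complex.ofReal_mul, ← sq, hs]
    have h5 : (‖c‖ : ℂ) ≠ 0 := by exact_mod_cast hc'
    calc c = (‖c‖ : ℂ) * (c / (‖c‖ : ℂ)) := by field_simp
      _ = _ := by rw [← h4]; ring
  · rw [E.nrm_smul, norm_div, Complex.norm_real, norm_norm, div_self hc', one_mul]
    exact h1
  · rw [sum_smul_sq, hs]
    exact mul_le_mul_of_nonneg_left h2 (norm_nonneg _)
  · rw [sum_smul_sq, hs]
    exact mul_le_mul_of_nonneg_left h3 (norm_nonneg _)

/-- general `x`: `amb a x b` has `ρ ≤ ‖a‖₂ nrm x ‖b‖₂` -/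
private theorem WP_amb {E : OS} {m : ℕ} {κ : Type} [Fintype κ] (a : Matrix (Fin m) κ ℂ)
    (x : Matrix κ κ E) (b : Matrix κ (Fin m) ℂ) {A B : ℝ} (hA : 0 < A) (hB : 0 < B)
    (hx : 0 < E.nrm x)
    (ha : ∑ i, ∑ j, ‖a i j‖ ^ 2 ≤ A ^ 2) (hb : ∑ i, ∑ j, ‖b i j‖ ^ 2 ≤ B ^ 2) :
    WP E m (amb a x b) (E.nrm x * A * B) := by
  set N := E.nrm x with hN
  set s := √(N * B / A) with hs
  set t := √(N * A / B) with ht
  have hs2 : s ^ 2 = N * B / A := Real.sq_sqrt (by positivity)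
  have ht2 : t ^ 2 = N * A / B := Real.sq_sqrt (by positivity)
  have hs0 : 0 ≤ s := Real.sqrt_nonneg _
  have ht0 : 0 ≤ t := Real.sqrt_nonneg _
  have hst : s * t = N := by
    have h1 : (s * t) ^ 2 = N ^ 2 := by
      rw [mul_pow, hs2, ht2]
      field_simp
    exact (pow_left_inj₀ (by positivity) hx.le two_ne_zero).mp h1
  have hN0 : (N : ℂ) ≠ 0 := by exact_mod_cast hx.ne'
  have key : amb a x b = amb ((s : ℂ) • a) (((N : ℂ)⁻¹) • x) ((t : ℂ) • b) := by
    rw [amb_smul_smul]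
    have : (s : ℂ) * (N : ℂ)⁻¹ * (t : ℂ) = 1 := by
      have h2 : (s : ℂ) * (t : ℂ) = (N : ℂ) := by rw [← Complex.ofReal_mul, hst]
      calc (s : ℂ) * (N : ℂ)⁻¹ * (t : ℂ) = ((s : ℂ) * (t : ℂ)) * (N : ℂ)⁻¹ := by ring
        _ = 1 := by rw [h2, mul_inv_cancel₀ hN0]
    rw [this, one_smul]
  rw [key]
  refine WP_of _ _ _ ?_ ?_ ?_
  · rw [E.nrm_smul, norm_inv, Complex.norm_real, Real.norm_eq_abs, abs_of_pos hx, ← hN,
      inv_mul_cancel₀ hx.ne']
  · rw [sum_smul_sq, hs2]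
    calc N * B / A * ∑ i, ∑ j, ‖a i j‖ ^ 2 ≤ N * B / A * A ^ 2 :=
          mul_le_mul_of_nonneg_left ha (by positivity)
      _ = N * A * B := by field_simp
  · rw [sum_smul_sq, ht2]
    calc N * A / B * ∑ i, ∑ j, ‖b i j‖ ^ 2 ≤ N * A / B * B ^ 2 :=
          mul_le_mul_of_nonneg_left hb (by positivity)
      _ = N * A * B := by field_simp

private theorem WP_exists (E : OS) (m : ℕ) (y : Matrix (Fin m) (Fin m) E) :
    ∃ r, WP E m y r := by
  classical
  by_cases hy : E.nrm y = 0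
  · exact ⟨0, by rw [E.nrm_eq_zero hy]; exact WP_zero E m⟩
  · have hy' : 0 < E.nrm y := lt_of_le_of_ne (E.nrm_nonneg y) (Ne.symm hy)
    set S : ℝ := ∑ i : Fin m, ∑ j : Fin m, ‖(1 : Matrix (Fin m) (Fin m) ℂ) i j‖ ^ 2 with hS
    have hS0 : 0 ≤ S :=
      Finset.sum_nonneg (fun i _ => Finset.sum_nonneg (fun j _ => by positivity))
    have h1 : S ≤ (S + 1) ^ 2 := by nlinarith
    have := WP_amb (1 : Matrix (Fin m) (Fin m) ℂ) y 1 (A := S + 1) (B := S + 1)
      (by linarith) (by linarith) hy' h1 h1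
    rw [amb_one] at this
    exact ⟨_, this⟩

private noncomputable def wsn (E : OS) (m : ℕ) : Seminorm ℂ (Matrix (Fin m) (Fin m) E) :=
  Seminorm.ofSMulLE (fun y => sInf {r | WP E m y r})
    (le_antisymm (csInf_le ⟨0, fun _ h => WP_nonneg h⟩ (WP_zero E m))
      (le_csInf ⟨0, WP_zero E m⟩ (fun _ h => WP_nonneg h)))
    (fun y y' => by
      refine le_of_forall_pos_le_add (fun ε hε => ?_)
      obtain ⟨r, hr, hr'⟩ := exists_lt_of_csInf_lt (WP_exists E m y)
        (lt_add_of_pos_right (sInf {r | WP E m y r}) (half_pos hε))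
      obtain ⟨s, hs, hs'⟩ := exists_lt_of_csInf_lt (WP_exists E m y')
        (lt_add_of_pos_right (sInf {r | WP E m y' r}) (half_pos hε))
      have h1 := csInf_le (s := {r | WP E m (y + y') r}) ⟨0, fun _ h => WP_nonneg h⟩
        (WP_add hr hs)
      linarith)
    (fun c y => by
      rcases eq_or_ne c 0 with rfl | hc
      · rw [norm_zero, zero_mul]
        have : WP E m ((0 : ℂ) • y) 0 := by rw [zero_smul]; exact WP_zero E m
        exact csInf_le ⟨0, fun _ h => WP_nonneg h⟩ this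
      · have hc' : 0 < ‖c‖ := norm_pos_iff.mpr hc
        rw [← div_le_iff₀' hc']
        refine le_csInf (WP_exists E m y) (fun r hr => ?_)
        rw [div_le_iff₀' hc']
        exact csInf_le ⟨0, fun _ h => WP_nonneg h⟩ (WP_smul c hr))

private theorem wsn_le {E : OS} {m : ℕ} {y : Matrix (Fin m) (Fin m) E} {r : ℝ}
    (h : WP E m y r) : wsn E m y ≤ r :=
  csInf_le ⟨0, fun _ h => WP_nonneg h⟩ h

private theorem le_wsn {E : OS} {m : ℕ} {y : Matrix (Fin m) (Fin m) E} {c : ℝ}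
    (h : ∀ r, WP E m y r → c ≤ r) : c ≤ wsn E m y :=
  le_csInf (WP_exists E m y) h

/-- elements of `OS.B (ℓ²_m)` as operators -/
private noncomputable def ev (m : ℕ) : OS.B (EuclideanSpace ℂ (Fin m)) →ₗ[ℂ] Mat m :=
  Submodule.subtype _

/-- the pairing -/
private noncomputable def wsig (E : OS) (m : ℕ)
    (φ : E →ₗ[ℂ] OS.B (EuclideanSpace ℂ (Fin m))) : Matrix (Fin m) (Fin m) E →ₗ[ℂ] ℂ where
  toFun U := ∑ i, ∑ j, (ev m (φ (U i j)) (EuclideanSpace.single j 1)) i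
  map_add' U U' := by
    simp only [Matrix.add_apply, map_add, add_apply, PiLp.add_apply,
      Finset.sum_add_distrib]
  map_smul' c U := by
    simp only [Matrix.smul_apply, map_smul, smul_apply, PiLp.smul_apply,
      smul_eq_mul, Finset.mul_sum, RingHom.id_apply]

private theorem sum_norm_toLp {m : ℕ} {κ : Type} [Fintype κ] (a : κ → Fin m → ℂ) :
    ∑ k, ‖(WithLp.toLp 2 (a k) : EuclideanSpace ℂ (Fin m))‖ ^ 2 = ∑ k, ∑ i, ‖a k i‖ ^ 2 := by
  refine Finset.sum_congr rfl (fun k _ => ?_)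
  rw [EuclideanSpace.norm_sq_eq]

private theorem toLp_eq_sum {m : ℕ} (v : Fin m → ℂ) :
    (WithLp.toLp 2 v : EuclideanSpace ℂ (Fin m)) =
      ∑ j, v j • EuclideanSpace.single j (1 : ℂ) := by
  ext i
  simp [Pi.single_apply, Finset.sum_apply]

private theorem inner_toLp {m : ℕ} (T : Mat m) (u v : Fin m → ℂ) :
    ⟪(WithLp.toLp 2 (fun i => (starRingEnd ℂ) (u i)) : EuclideanSpace ℂ (Fin m)),
      T (WithLp.toLp 2 v)⟫_ℂ =
      ∑ i, ∑ j, (u i * v j) * (T (EuclideanSpace.single j 1)) i := by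
  rw [toLp_eq_sum v, map_sum, PiLp.inner_apply]
  refine Finset.sum_congr rfl (fun i _ => ?_)
  simp only [map_smul, WithLp.ofLp_sum, Finset.sum_apply, PiLp.smul_apply, smul_eq_mul,
    RCLike.inner_apply, Complex.conj_conj, Finset.sum_mul]
  refine Finset.sum_congr rfl (fun j _ => ?_)
  ring

private theorem wsig_amb {E : OS} {m : ℕ} (φ : E →ₗ[ℂ] OS.B (EuclideanSpace ℂ (Fin m)))
    {κ : Type} [Fintype κ] (a : Matrix (Fin m) κ ℂ) (x : Matrix κ κ E)
    (b : Matrix κ (Fin m) ℂ) :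
    wsig E m φ (amb a x b) = ∑ k, ∑ l,
      ⟪(WithLp.toLp 2 (fun i => (starRingEnd ℂ) (a i k)) : EuclideanSpace ℂ (Fin m)),
        (ev m (φ (x k l))) (WithLp.toLp 2 (fun j => b l j))⟫_ℂ := by
  simp only [inner_toLp]
  change ∑ i, ∑ j, (ev m (φ (amb a x b i j)) (EuclideanSpace.single j 1)) i = _
  have h1 : ∀ i j, (ev m (φ (amb a x b i j)) (EuclideanSpace.single j 1)) i =
      ∑ k, ∑ l, (a i k * b l j) * (ev m (φ (x k l)) (EuclideanSpace.single j 1)) i := by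
    intro i j
    simp only [amb, map_sum, map_smul, sum_apply, WithLp.ofLp_sum, Finset.sum_apply,
      smul_apply, PiLp.smul_apply, smul_eq_mul]
  simp only [h1]
  calc ∑ i, ∑ j, ∑ k, ∑ l, (a i k * b l j) *
        (ev m (φ (x k l)) (EuclideanSpace.single j 1)) i
      = ∑ i, ∑ k, ∑ j, ∑ l, (a i k * b l j) *
        (ev m (φ (x k l)) (EuclideanSpace.single j 1)) i := by
        refine Finset.sum_congr rfl (fun i _ => Finset.sum_comm)
    _ = ∑ k, ∑ i, ∑ j, ∑ l, (a i k * b l j) *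
        (ev m (φ (x k l)) (EuclideanSpace.single j 1)) i := Finset.sum_comm
    _ = ∑ k, ∑ i, ∑ l, ∑ j, (a i k * b l j) *
        (ev m (φ (x k l)) (EuclideanSpace.single j 1)) i := by
        refine Finset.sum_congr rfl (fun k _ => Finset.sum_congr rfl (fun i _ => Finset.sum_comm))
    _ = ∑ k, ∑ l, ∑ i, ∑ j, (a i k * b l j) *
        (ev m (φ (x k l)) (EuclideanSpace.single j 1)) i := by
        refine Finset.sum_congr rfl (fun k _ => Finset.sum_comm)

private theorem tr_left {ι κ : Type} [Fintype ι] [Fintype κ] (M : Matrix ι κ ℂ) :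
    (M * Mᴴ).trace = ((∑ i, ∑ j, ‖M i j‖ ^ 2 : ℝ) : ℂ) := by
  simp only [Matrix.trace, Matrix.diag_apply, Matrix.mul_apply, Matrix.conjTranspose_apply,
    Complex.ofReal_sum, Complex.ofReal_pow]
  refine Finset.sum_congr rfl (fun i _ => Finset.sum_congr rfl (fun j _ => ?_))
  exact Complex.mul_conj' _

private theorem tr_right {ι κ : Type} [Fintype ι] [Fintype κ] (M : Matrix ι κ ℂ) :
    (Mᴴ * M).trace = ((∑ i, ∑ j, ‖M i j‖ ^ 2 : ℝ) : ℂ) := by
  rw [Matrix.trace_mul_comm, tr_left]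

private theorem sumsq_left {m : ℕ} {κ : Type} [Fintype κ] {A' : Matrix (Fin m) (Fin m) ℂ}
    {a : Matrix (Fin m) κ ℂ} {δ : ℝ} (h : A' * A'ᴴ = a * aᴴ + (δ : ℂ) • 1) :
    ∑ i, ∑ j, ‖A' i j‖ ^ 2 = ∑ i, ∑ j, ‖a i j‖ ^ 2 + m * δ := by
  have h1 := congrArg Matrix.trace h
  rw [Matrix.trace_add, tr_left, tr_left, Matrix.trace_smul, Matrix.trace_one,
    Fintype.card_fin, smul_eq_mul] at h1
  have h2 : ((∑ i, ∑ j, ‖A' i j‖ ^ 2 : ℝ) : ℂ) =
      ((∑ i, ∑ j, ‖a i j‖ ^ 2 + m * δ : ℝ) : ℂ) := by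
    rw [h1]
    push_cast
    ring
  exact_mod_cast h2

private theorem sumsq_right {m : ℕ} {κ : Type} [Fintype κ] {B' : Matrix (Fin m) (Fin m) ℂ}
    {b : Matrix κ (Fin m) ℂ} {δ : ℝ} (h : B'ᴴ * B' = bᴴ * b + (δ : ℂ) • 1) :
    ∑ i, ∑ j, ‖B' i j‖ ^ 2 = ∑ i, ∑ j, ‖b i j‖ ^ 2 + m * δ := by
  have h1 := congrArg Matrix.trace h
  rw [Matrix.trace_add, tr_right, tr_right, Matrix.trace_smul, Matrix.trace_one,
    Fintype.card_fin, smul_eq_mul] at h1
  have h2 : ((∑ i, ∑ j, ‖B' i j‖ ^ 2 : ℝ) : ℂ) =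
      ((∑ i, ∑ j, ‖b i j‖ ^ 2 + m * δ : ℝ) : ℂ) := by
    rw [h1]
    push_cast
    ring
  exact_mod_cast h2

private theorem wsig_le {E : OS} {m : ℕ} {φ : E →ₗ[ℂ] OS.B (EuclideanSpace ℂ (Fin m))}
    (hφ : IsCC φ) (U : Matrix (Fin m) (Fin m) E) {r : ℝ}
    (h : WP E.full m (U.map E.incl) r) : ‖wsig E m φ U‖ ≤ r := by
  classical
  have hr := WP_nonneg h
  obtain ⟨k, a, x, b, h0, h1, h2, h3⟩ := h
  refine le_of_forall_pos_le_add (fun ε hε => ?_)
  set δ : ℝ := ε / (m + 1) with hδdef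
  have hδ : 0 < δ := by positivity
  have hmδ : m * δ ≤ ε := by
    rw [hδdef, mul_div_assoc', div_le_iff₀ (by positivity)]
    nlinarith
  obtain ⟨X', A', B', hU, hX', hA', hB'⟩ := polar E U a x b h0 hδ
  have hA2 := sumsq_left hA'
  have hB2 := sumsq_right hB'
  rw [hU, wsig_amb]
  have h4 := norm_sum_inner_le ((X'.map φ).map (ev m))
    (fun k => (WithLp.toLp 2 (fun i => (starRingEnd ℂ) (A' i k)) : EuclideanSpace ℂ (Fin m)))
    (fun l => (WithLp.toLp 2 (fun j => B' l j) : EuclideanSpace ℂ (Fin m)))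
  have h5 : ‖mop ((X'.map φ).map (ev m))‖ ≤ 1 :=
    ((hφ.nrm_le X').trans hX').trans h1
  rw [sum_norm_toLp, sum_norm_toLp] at h4
  have h6 : ∑ k, ∑ i, ‖(starRingEnd ℂ) (A' i k)‖ ^ 2 ≤ r + ε := by
    rw [Finset.sum_comm]
    simp only [RCLike.norm_conj]
    rw [hA2]
    exact add_le_add h2 hmδ
  have h7 : ∑ k, ∑ i, ‖B' k i‖ ^ 2 ≤ r + ε := by
    rw [hB2]
    exact add_le_add h3 hmδ
  have h8 : √(∑ k, ∑ i, ‖(starRingEnd ℂ) (A' i k)‖ ^ 2) ≤ √(r + ε) := Real.sqrt_le_sqrt h6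
  have h9 : √(∑ k, ∑ i, ‖B' k i‖ ^ 2) ≤ √(r + ε) := Real.sqrt_le_sqrt h7
  refine le_trans h4 ?_
  calc _ ≤ 1 * √(r + ε) * √(r + ε) := by
        refine mul_le_mul (mul_le_mul h5 h8 (Real.sqrt_nonneg _) zero_le_one) h9
          (Real.sqrt_nonneg _) (by positivity)
    _ = r + ε := by rw [one_mul, Real.mul_self_sqrt (by positivity)]

theorem witt_fin (E : OS) (m : ℕ) (φ : E →ₗ[ℂ] OS.B (EuclideanSpace ℂ (Fin m)))
    (hφ : IsCC φ) : ∃ ψ : E.full →ₗ[ℂ] OS.B (EuclideanSpace ℂ (Fin m)),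
      IsCC ψ ∧ ψ ∘ₗ E.incl = φ := by
  classical
  let L : Matrix (Fin m) (Fin m) E →ₗ[ℂ] Matrix (Fin m) (Fin m) E.full :=
    { toFun := fun U => U.map E.incl
      map_add' := fun U U' => by ext i j; simp
      map_smul' := fun c U => by ext i j; simp }
  have hL : Function.Injective L := by
    intro U U' h
    refine Matrix.ext (fun i j => ?_)
    have h1 : E.incl (U i j) = E.incl (U' i j) := congrFun (congrFun h i) j
    exact E.incl_injective h1
  let e := LinearEquiv.ofInjective L hL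
  let f : Module.Dual ℂ (LinearMap.range L) := (wsig E m φ) ∘ₗ e.symm.toLinearMap
  have hf : ∀ x : LinearMap.range L, ‖f x‖ ≤ wsn E.full m x := by
    intro x
    obtain ⟨U, rfl⟩ := e.surjective x
    have h1 : f (e U) = wsig E m φ U := by
      change wsig E m φ (e.symm (e U)) = _
      rw [e.symm_apply_apply]
    rw [h1]
    exact le_wsn (fun r hr => wsig_le hφ U hr)
  obtain ⟨g, hg, hg'⟩ := Module.Dual.exists_extension_of_le_seminorm (LinearMap.range L) f hf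
  have hgL : ∀ U, g (L U) = wsig E m φ U := by
    intro U
    have h1 := hg (e U)
    have h2 : f (e U) = wsig E m φ U := by
      change wsig E m φ (e.symm (e U)) = _
      rw [e.symm_apply_apply]
    rw [h2] at h1
    exact h1
  let M : E.full →ₗ[ℂ] Matrix (Fin m) (Fin m) ℂ :=
    { toFun := fun x => Matrix.of fun i j => g (Matrix.single i j x)
      map_add' := fun x y => by
        ext i j
        simp only [Matrix.of_apply, Matrix.add_apply, Matrix.single_add, map_add]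
      map_smul' := fun c x => by
        ext i j
        simp only [Matrix.of_apply, Matrix.smul_apply, RingHom.id_apply]
        rw [← map_smul, Matrix.smul_single] }
  let ψ : E.full →ₗ[ℂ] OS.B (EuclideanSpace ℂ (Fin m)) :=
    { toFun := fun x => ⟨Matrix.toEuclideanCLM (𝕜 := ℂ) (M x), trivial⟩
      map_add' := fun x y => by
        apply Subtype.ext
        simp only [map_add]
        rfl
      map_smul' := fun c x => by
        apply Subtype.ext
        simp only [map_smul]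
        rfl }
  have hψ : ∀ x i j, (ev m (ψ x) (EuclideanSpace.single j 1)) i = g (Matrix.single i j x) := by
    intro x i j
    change (Matrix.toEuclideanCLM (𝕜 := ℂ) (M x) (EuclideanSpace.single j 1)) i = _
    rw [Matrix.ofLp_toEuclideanCLM]
    simp [M]
  have hwψ : ∀ U, wsig E.full m ψ U = g U := by
    intro U
    change ∑ i, ∑ j, (ev m (ψ (U i j)) (EuclideanSpace.single j 1)) i = _
    simp only [hψ]
    conv_rhs => rw [Matrix.matrix_eq_sum_single U]
    simp only [map_sum]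
  refine ⟨ψ, ?_, ?_⟩
  · intro n x
    have hN := E.full.nrm_nonneg x
    change ‖mop ((x.map ψ).map (ev m))‖ ≤ _
    refine norm_mop_le (H := EuclideanSpace ℂ (Fin m)) (K := EuclideanSpace ℂ (Fin m)) _ hN
      (fun ξ η => ?_)
    let a : Matrix (Fin m) (Fin n) ℂ := fun i k => (starRingEnd ℂ) (ξ k i)
    let b : Matrix (Fin n) (Fin m) ℂ := fun l j => η l j
    have h1 : ∑ k, ∑ l, ⟪ξ k, (x.map ψ).map (ev m) k l (η l)⟫_ℂ =
        g (amb a x b) := by
      rw [← hwψ, wsig_amb]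
      refine Finset.sum_congr rfl (fun k _ => Finset.sum_congr rfl (fun l _ => ?_))
      have h2 : (WithLp.toLp 2 (fun i => (starRingEnd ℂ) (a i k)) :
          EuclideanSpace ℂ (Fin m)) = ξ k := by
        ext i
        simp [a]
      rw [h2]
      rfl
    have hgoal : ‖g (amb a x b)‖ ≤ E.full.nrm x * √(∑ i, ‖ξ i‖ ^ 2) * √(∑ j, ‖η j‖ ^ 2) := by
      have hgz : g (0 : Matrix (Fin m) (Fin m) E.full) = 0 := map_zero g
      rcases eq_or_lt_of_le hN with h0 | h0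
      · have hx0 : x = 0 := E.full.nrm_eq_zero h0.symm
        have : amb a x b = 0 := by
          funext i j
          simp [amb, hx0]
        rw [this, hgz, norm_zero]
        positivity
      have hsa : ∑ i, ∑ k, ‖a i k‖ ^ 2 = ∑ k, ‖ξ k‖ ^ 2 := by
        rw [Finset.sum_comm]
        refine Finset.sum_congr rfl (fun k _ => ?_)
        rw [EuclideanSpace.norm_sq_eq]
        simp [a]
      have hsb : ∑ l, ∑ j, ‖b l j‖ ^ 2 = ∑ l, ‖η l‖ ^ 2 := by
        refine Finset.sum_congr rfl (fun k _ => ?_)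
        rw [EuclideanSpace.norm_sq_eq]
      have hξ0 : 0 ≤ ∑ k, ‖ξ k‖ ^ 2 := Finset.sum_nonneg (fun _ _ => by positivity)
      have hη0 : 0 ≤ ∑ k, ‖η k‖ ^ 2 := Finset.sum_nonneg (fun _ _ => by positivity)
      rcases eq_or_lt_of_le hξ0 with hA | hA
      · have hz : ∀ k, ξ k = 0 := by
          intro k
          have := (Finset.sum_eq_zero_iff_of_nonneg (fun i _ => by positivity)).mp hA.symm k
            (Finset.mem_univ k)
          exact norm_eq_zero.mp (pow_eq_zero_iff two_ne_zero |>.mp this)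
        have : amb a x b = 0 := by
          funext i j
          simp [amb, a, hz]
        rw [this, hgz, norm_zero]
        positivity
      rcases eq_or_lt_of_le hη0 with hB | hB
      · have hz : ∀ k, η k = 0 := by
          intro k
          have := (Finset.sum_eq_zero_iff_of_nonneg (fun i _ => by positivity)).mp hB.symm k
            (Finset.mem_univ k)
          exact norm_eq_zero.mp (pow_eq_zero_iff two_ne_zero |>.mp this)
        have : amb a x b = 0 := by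
          funext i j
          simp [amb, b, hz]
        rw [this, hgz, norm_zero]
        positivity
      refine (hg' _).trans (wsn_le (WP_amb a x b (Real.sqrt_pos.mpr hA) (Real.sqrt_pos.mpr hB)
        h0 ?_ ?_))
      · rw [Real.sq_sqrt hξ0, hsa]
      · rw [Real.sq_sqrt hη0, hsb]
    refine le_trans (le_of_eq ?_) hgoal
    exact congrArg _ h1
  · apply LinearMap.ext
    intro x
    apply Subtype.ext
    change ev m (ψ (E.incl x)) = ev m (φ x)
    apply ContinuousLinearMap.ext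
    intro v
    have h1 : v = WithLp.toLp 2 (fun j => v j) := rfl
    rw [h1, toLp_eq_sum, map_sum, map_sum]
    refine Finset.sum_congr rfl (fun j _ => ?_)
    rw [map_smul, map_smul]
    congr 1
    ext i
    rw [hψ]
    have h2 : Matrix.single i j (E.incl x) = L (Matrix.single i j x) := by
      refine Matrix.ext (fun i' j' => ?_)
      change _ = ((Matrix.single i j x).map E.incl) i' j'
      rw [Matrix.map_apply, Matrix.single_apply, Matrix.single_apply]
      split_ifs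
      · rfl
      · exact (map_zero E.incl).symm
    rw [h2, hgL]
    change ∑ i', ∑ j', (ev m (φ (Matrix.single i j x i' j')) (EuclideanSpace.single j' 1)) i' = _
    rw [Finset.sum_eq_single i, Finset.sum_eq_single j]
    · simp
    · intro j' _ hj'
      simp [hj'.symm]
    · intro h; exact absurd (Finset.mem_univ j) h
    · intro i' _ hi'
      refine Finset.sum_eq_zero (fun j' _ => ?_)
      simp [hi'.symm]
    · intro h; exact absurd (Finset.mem_univ i) h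

end OST
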